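import Pool.Agent.H731R4.Arcs.Touch
import Pool.Agent.H985R3.IL.IL2

/-!
One-point function of the exploration path in a rectangle (Green function): definitions.

`[0, m] × [0, n]`, boundary vertices `bd m n i`, outer faces `ofc m n i`, wired arc `[a, b]`,
free arc: the outer faces number `b, ..., a + 2 (m + n) - 1`.
-/

set_option autoImplicit false

namespace H731G

open H974 hiding bd
open H731C H731R H731A Finset

/-- `v` is in the open cluster of the arc `[a, b]`. -/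
def VA (m n a b : ℤ) (v : Vtx) (F : Finset Edg) : Prop :=
  ∃ i, (a ≤ i ∧ i ≤ b) ∧ Reach (↑F ∩ ↑(RE 0 m 0 n)) (bd m n i) v

/-- The face `f` is in the dual cluster of the complementary arc. -/
def FB (m n a b : ℤ) (f : Vtx) (F : Finset Edg) : Prop :=
  ∃ j, (b ≤ j ∧ j < a + 2 * (m + n)) ∧ DReach ((↑F : Set Edg)ᶜ ∩ ↑(RE 0 m 0 n)) (ofc m n j) f

/-- Both. -/
def On (m n a b : ℤ) (v f : Vtx) (F : Finset Edg) : Prop := VA m n a b v F ∧ FB m n a b f F

/-- The face `f` is one of the four faces at `v`. -/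
def cor (v f : Vtx) : Prop := (f.1 = v.1 ∨ f.1 = v.1 - 1) ∧ (f.2 = v.2 ∨ f.2 = v.2 - 1)

/-- The exploration path passes at `v`. -/
def OnV (m n a b : ℤ) (v : Vtx) (F : Finset Edg) : Prop :=
  VA m n a b v F ∧ ∃ f, cor v f ∧ FB m n a b f F

/-- The arc `[a, b]` is joined to the box of radius `h` around `v`. -/
def BX (m n a b : ℤ) (v : Vtx) (h : ℤ) (F : Finset Edg) : Prop :=
  ∃ i u, (a ≤ i ∧ i ≤ b) ∧ (|u.1 - v.1| ≤ h ∧ |u.2 - v.2| ≤ h) ∧
    Reach (↑F ∩ ↑(RE 0 m 0 n)) (bd m n i) u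

/-- The complementary arc is joined by a dual path to the faces of the box of radius `h` around
`v`. -/
def BD (m n a b : ℤ) (v : Vtx) (h : ℤ) (F : Finset Edg) : Prop :=
  ∃ j g, (b ≤ j ∧ j < a + 2 * (m + n)) ∧
    ((v.1 - h - 1 ≤ g.1 ∧ g.1 ≤ v.1 + h) ∧ (v.2 - h - 1 ≤ g.2 ∧ g.2 ≤ v.2 + h)) ∧
    DReach ((↑F : Set Edg)ᶜ ∩ ↑(RE 0 m 0 n)) (ofc m n j) g

/-- Distance to the vertical sides, plus one. -/
def px (m : ℤ) (v : Vtx) : ℤ := min v.1 (m - v.1) + 1

/-- Distance to the horizontal sides, plus one. -/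
def py (n : ℤ) (v : Vtx) : ℤ := min v.2 (n - v.2) + 1

/-- Distance to the boundary vertex `j`, plus one. -/
def ds (m n : ℤ) (v : Vtx) (j : ℤ) : ℤ :=
  max |v.1 - (bd m n j).1| |v.2 - (bd m n j).2| + 1

/-- Size of the pair of the vertex `v` and of the boundary vertex `j`. -/
def sv (m n : ℤ) (v : Vtx) (j : ℤ) : ℤ := ds m n v j * (ds m n v j + rho m n j)

/-- The cross-ratio of `v` and the two ends `a`, `b` of the path. -/
noncomputable def HH (m n a b : ℤ) (v : Vtx) : ℝ :=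
  ((px m v : ℝ) * py n v * sz m n a b) / ((sv m n v a : ℝ) * sv m n v b)

/-- Open arm of `v` to the right and dual arm of `cface v s` to the left, of length `L h`. -/
def RArm (s : Bool × Bool) (L h : ℕ) (v : Vtx) (F : Finset Edg) : Prop :=
  (∃ y : Vtx, y.1 = v.1 + (L * h : ℕ) ∧
      Reach (↑F ∩ ↑(RE (v.1 - h) (v.1 + (L * h : ℕ)) (v.2 - h) (v.2 + h))) v y) ∧
    ∃ g : Vtx, g.1 = v.1 - (L * h : ℕ) - 1 ∧
      DReach (↑(RE (v.1 - (L * h : ℕ)) (v.1 + h) (v.2 - h) (v.2 + h) \ F) : Set Edg)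
        (H934E.cface v s) g

theorem cor_cface (v : Vtx) (s : Bool × Bool) : cor v (H934E.cface v s) := by
  obtain ⟨_ | _, _ | _⟩ := s <;> simp [cor, H934E.cface]

theorem px_pos {m : ℤ} {v : Vtx} (h0 : 0 ≤ v.1) (h1 : v.1 ≤ m) : 1 ≤ px m v := by
  unfold px; omega

theorem py_pos {n : ℤ} {v : Vtx} (h0 : 0 ≤ v.2) (h1 : v.2 ≤ n) : 1 ≤ py n v := by
  unfold py; omega

theorem ds_pos (m n : ℤ) (v : Vtx) (j : ℤ) : 1 ≤ ds m n v j := by
  have := abs_nonneg (v.1 - (bd m n j).1)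
  unfold ds; omega

theorem sv_pos {m n : ℤ} (hm : 1 ≤ m) (hn : 1 ≤ n) (v : Vtx) (j : ℤ) : 1 ≤ sv m n v j := by
  have h1 := ds_pos m n v j
  have h2 := rho_nonneg hm hn j
  unfold sv
  nlinarith

end H731G
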