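import Pool.Agent.H731R5.Gr.Defs

/-!
Definitions, second part.
-/

set_option autoImplicit false

namespace H731G

open H974 hiding bd
open H731C H731R H731A Finset

/-- The vertex `v` is joined to the arc of the boundary vertices number `a`, ..., `b`, and the face
`f` is joined by a dual path to the outer faces number `c`, ..., `d - 1`. -/
def On4 (m n a b c d : ℤ) (v f : Vtx) (F : Finset Edg) : Prop :=
  VA m n a b v F ∧ FB m n (d - 2 * (m + n)) c f F

/-- The exploration path passes at distance at most `r` from `v`. -/
def HitB (m n a b : ℤ) (v : Vtx) (r : ℤ) (F : Finset Edg) : Prop :=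
  ∃ u : Vtx, (|u.1 - v.1| ≤ r ∧ |u.2 - v.2| ≤ r) ∧ OnV m n a b u F

/-- Both arcs are joined to the box of radius `s` around `v`. -/
def Out (m n a b : ℤ) (v : Vtx) (s : ℤ) (F : Finset Edg) : Prop :=
  BX m n a b v s F ∧ BD m n a b v s F

end H731G
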