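import Pool.Agent.H731R5.Gr.Defs
import Pool.Agent.H731R4.Arcs.DPar

/-!
Rotations.
-/

set_option autoImplicit false

namespace H731G

open H974 hiding bd
open H731C H731R H731A Finset

namespace RO

/-- The rotation of the faces. -/
def rf (m : ℤ) (f : Vtx) : Vtx := (f.2, m - 1 - f.1)

/-- Its inverse. -/
def rg (m : ℤ) (g : Vtx) : Vtx := (m - 1 - g.2, g.1)

theorem rg_rf (m : ℤ) (f : Vtx) : rg m (rf m f) = f := by
  unfold rg rf
  ext
  · show m - 1 - (m - 1 - f.1) = f.1; ring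
  · rfl

theorem rf_rg (m : ℤ) (f : Vtx) : rf m (rg m f) = f := by
  unfold rg rf
  ext
  · rfl
  · show m - 1 - (m - 1 - f.2) = f.2; ring

theorem rot_compat (m : ℤ) (e : Edg) :
    (dsrc ((rot m).φ e) = rf m (dsrc e) ∧ dtgt ((rot m).φ e) = rf m (dtgt e)) ∨
      (dsrc ((rot m).φ e) = rf m (dtgt e) ∧ dtgt ((rot m).φ e) = rf m (dsrc e)) := by
  obtain ⟨x, y, _ | _⟩ := e
  · right
    have e1 : (rot m).φ (x, y, false) = (y, m - x, true) := rfl
    rw [e1]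
    simp only [dsrc_true, dtgt_mk, dsrc_false, rf]
    constructor
    · ext <;> simp only; ring
    · ext <;> simp only; ring
  · left
    have e1 : (rot m).φ (x, y, true) = (y, m - x - 1, false) := rfl
    rw [e1]
    simp only [dsrc_true, dtgt_mk, dsrc_false, rf]
    constructor
    · ext <;> simp only; ring
    · ext <;> simp only; ring

theorem rot_dadj (m : ℤ) {F : Set Edg} {u v : Vtx} (h : DAdj F u v) :
    DAdj ((rot m).φ '' F) (rf m u) (rf m v) := by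
  obtain ⟨e, he, hcase⟩ := h
  refine ⟨(rot m).φ e, Set.mem_image_of_mem _ he, ?_⟩
  rcases rot_compat m e with ⟨h1, h2⟩ | ⟨h1, h2⟩ <;> rcases hcase with ⟨h3, h4⟩ | ⟨h3, h4⟩ <;>
    rw [h1, h2, h3, h4] <;> simp

theorem rot_dadj' (m : ℤ) {F : Set Edg} {u v : Vtx} (h : DAdj ((rot m).φ '' F) u v) :
    DAdj F (rg m u) (rg m v) := by
  obtain ⟨e', ⟨e, he, rfl⟩, hcase⟩ := h
  refine ⟨e, he, ?_⟩
  rcases rot_compat m e with ⟨h1, h2⟩ | ⟨h1, h2⟩ <;> rcases hcase with ⟨h3, h4⟩ | ⟨h3, h4⟩ <;>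
    rw [← h3, ← h4, h1, h2, rg_rf, rg_rf] <;> simp

theorem rot_dreach (m : ℤ) {F : Set Edg} {u v : Vtx} (h : DReach F u v) :
    DReach ((rot m).φ '' F) (rf m u) (rf m v) := by
  induction h with
  | refl => exact Relation.ReflTransGen.refl
  | tail _ hs ih => exact ih.tail (rot_dadj m hs)

theorem rot_dreach' (m : ℤ) {F : Set Edg} {u v : Vtx} (h : DReach ((rot m).φ '' F) u v) :
    DReach F (rg m u) (rg m v) := by
  induction h with
  | refl => exact Relation.ReflTransGen.refl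
  | tail _ hs ih => exact ih.tail (rot_dadj' m hs)

theorem rot_dreach_iff (m : ℤ) {F : Set Edg} {u v : Vtx} :
    DReach ((rot m).φ '' F) (rf m u) (rf m v) ↔ DReach F u v := by
  constructor
  · intro h
    have := rot_dreach' m h
    rwa [rg_rf, rg_rf] at this
  · exact rot_dreach m

theorem sym_dreach (m : ℤ) {F R R' : Finset Edg} (hR : (rot m).mp R = R') {u v : Vtx} :
    DReach ((↑((rot m).mp F) : Set Edg)ᶜ ∩ ↑R') (rf m u) (rf m v) ↔
      DReach ((↑F : Set Edg)ᶜ ∩ ↑R) u v := by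
  have e : ((↑((rot m).mp F) : Set Edg)ᶜ ∩ ↑R') = (rot m).φ '' ((↑F : Set Edg)ᶜ ∩ ↑R) := by
    rw [← hR, LSym.coe_mp, LSym.coe_mp, Set.image_inter (rot m).φ.injective,
      Set.image_compl_eq (rot m).φ.bijective]
  rw [e]
  exact rot_dreach_iff m

theorem rot_ofc {m n : ℤ} (hm : 1 ≤ m) (hn : 1 ≤ n) (i : ℤ) :
    rf m (ofc m n i) = ofc n m (i - m) := by
  obtain ⟨k, r, h, h1 | h1 | h1 | h1⟩ := DPar.side_cases' hm hn i
  · have e : i - m = (r + m + 2 * n) + (k - 1) * (2 * (n + m)) := by rw [h]; ring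
    rw [e, h, DPar.ofc_period, DPar.ofc_period, DPar.ofc_bot hm hn h1.1 h1.2,
      DPar.ofc_left hn hm (by omega) (by omega)]
    unfold rf
    ext
    · rfl
    · show m - 1 - r = 2 * (n + m) - (r + m + 2 * n) - 1; ring
  · have e : i - m = (r - m) + k * (2 * (n + m)) := by rw [h]; ring
    rw [e, h, DPar.ofc_period, DPar.ofc_period, DPar.ofc_right hm hn h1.1 h1.2,
      DPar.ofc_bot hn hm (by omega) (by omega)]
    unfold rf
    ext
    · rfl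
    · show m - 1 - m = -1; ring
  · have e : i - m = (r - m) + k * (2 * (n + m)) := by rw [h]; ring
    rw [e, h, DPar.ofc_period, DPar.ofc_period, DPar.ofc_top hm hn h1.1 h1.2,
      DPar.ofc_right hn hm (by omega) (by omega)]
    unfold rf
    ext
    · rfl
    · show m - 1 - (2 * m + n - r - 1) = r - m - n; ring
  · have e : i - m = (r - m) + k * (2 * (n + m)) := by rw [h]; ring
    rw [e, h, DPar.ofc_period, DPar.ofc_period, DPar.ofc_left hm hn h1.1 h1.2,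
      DPar.ofc_top hn hm (by omega) (by omega)]
    unfold rf
    ext
    · show 2 * (m + n) - r - 1 = 2 * n + m - (r - m) - 1; ring
    · show m - 1 - (-1) = m; ring

theorem cor_rot (m : ℤ) (v f : Vtx) : cor ((rot m).ψ v) (rf m f) ↔ cor v f := by
  obtain ⟨x, y⟩ := v
  obtain ⟨p, q⟩ := f
  rw [rot_ψ]
  unfold cor rf
  simp only
  omega

theorem VA_rot {m n : ℤ} (hm : 1 ≤ m) (hn : 1 ≤ n) (a b : ℤ) (v : Vtx) (F : Finset Edg) :
    VA m n a b v F ↔ VA n m (a - m) (b - m) ((rot m).ψ v) ((rot m).mp F) := by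
  have hR : (rot m).mp (RE 0 m 0 n) = RE 0 n 0 m := by
    rw [rot_RE]; congr 1 <;> ring
  constructor
  · rintro ⟨i, hi, hr⟩
    refine ⟨i - m, ⟨by omega, by omega⟩, ?_⟩
    rw [← rot_bd hm hn]
    exact (sym_reach (rot m) hR).mpr hr
  · rintro ⟨i, hi, hr⟩
    refine ⟨i + m, ⟨by omega, by omega⟩, ?_⟩
    apply (sym_reach (rot m) hR).mp
    rw [rot_bd hm hn, add_sub_cancel_right]
    exact hr

theorem FB_rot {m n : ℤ} (hm : 1 ≤ m) (hn : 1 ≤ n) (a b : ℤ) (f : Vtx) (F : Finset Edg) :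
    FB m n a b f F ↔ FB n m (a - m) (b - m) (rf m f) ((rot m).mp F) := by
  have hR : (rot m).mp (RE 0 m 0 n) = RE 0 n 0 m := by
    rw [rot_RE]; congr 1 <;> ring
  constructor
  · rintro ⟨j, hj, hr⟩
    refine ⟨j - m, ⟨by omega, by omega⟩, ?_⟩
    rw [← rot_ofc hm hn]
    exact (sym_dreach m hR).mpr hr
  · rintro ⟨j, hj, hr⟩
    refine ⟨j + m, ⟨by omega, by omega⟩, ?_⟩
    apply (sym_dreach m hR).mp
    rw [rot_ofc hm hn, add_sub_cancel_right]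
    exact hr

theorem OnV_rot {m n : ℤ} (hm : 1 ≤ m) (hn : 1 ≤ n) (a b : ℤ) (v : Vtx) :
    P2 (RE 0 m 0 n) (OnV m n a b v) =
      P2 (RE 0 n 0 m) (OnV n m (a - m) (b - m) ((rot m).ψ v)) := by
  have hR : (rot m).mp (RE 0 m 0 n) = RE 0 n 0 m := by
    rw [rot_RE]; congr 1 <;> ring
  have h1 := (rot m).pr (1/2) (RE 0 m 0 n) (OnV n m (a - m) (b - m) ((rot m).ψ v))
  rw [hR] at h1
  unfold P2
  rw [h1]
  apply Pr_congr
  intro F _
  unfold OnV
  rw [← VA_rot hm hn]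
  constructor
  · rintro ⟨h2, f, hf, h3⟩
    exact ⟨h2, rf m f, (cor_rot m v f).mpr hf, (FB_rot hm hn a b f F).mp h3⟩
  · rintro ⟨h2, f, hf, h3⟩
    refine ⟨h2, rg m f, ?_, ?_⟩
    · rw [← cor_rot m v, rf_rg]; exact hf
    · rw [FB_rot hm hn, rf_rg]; exact h3

theorem ds_rot {m n : ℤ} (hm : 1 ≤ m) (hn : 1 ≤ n) (v : Vtx) (j : ℤ) :
    ds m n v j = ds n m ((rot m).ψ v) (j - m) := by
  obtain ⟨x, y⟩ := v
  unfold ds
  rw [← rot_bd hm hn]
  generalize bd m n j = w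
  obtain ⟨p, q⟩ := w
  rw [rot_ψ, rot_ψ]
  simp only
  rw [max_comm]
  congr 2
  rw [abs_sub_comm]
  congr 1
  ring

theorem sv_rot {m n : ℤ} (hm : 1 ≤ m) (hn : 1 ≤ n) (v : Vtx) (j : ℤ) :
    sv m n v j = sv n m ((rot m).ψ v) (j - m) := by
  unfold sv
  rw [← ds_rot hm hn, ← rho_rot]

theorem HH_rot {m n : ℤ} (hm : 1 ≤ m) (hn : 1 ≤ n) (a b : ℤ) (v : Vtx) :
    HH m n a b v = HH n m (a - m) (b - m) ((rot m).ψ v) := by
  have e1 : px n ((rot m).ψ v) = py n v := by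
    obtain ⟨x, y⟩ := v
    rw [rot_ψ]; rfl
  have e2 : py m ((rot m).ψ v) = px m v := by
    obtain ⟨x, y⟩ := v
    rw [rot_ψ]
    unfold px py
    simp only
    omega
  unfold HH
  rw [e1, e2, ← sv_rot hm hn, ← sv_rot hm hn, ← sz_rot, mul_comm (px m v : ℝ)]

theorem OnV_shift (m n a b : ℤ) (v : Vtx) (k : ℤ) :
    P2 (RE 0 m 0 n) (OnV m n a b v) = P2 (RE 0 m 0 n) (OnV m n (a - k * (2 * (m + n)))
      (b - k * (2 * (m + n))) v) := by
  apply Pr_congr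
  intro F _
  unfold OnV
  have h1 : VA m n a b v F ↔ VA m n (a - k * (2 * (m + n))) (b - k * (2 * (m + n))) v F := by
    constructor
    · rintro ⟨i, hi, hr⟩
      refine ⟨i - k * (2 * (m + n)), ⟨by omega, by omega⟩, ?_⟩
      rw [← bd_period m n (i - k * (2 * (m + n))) k, sub_add_cancel]
      exact hr
    · rintro ⟨i, hi, hr⟩
      refine ⟨i + k * (2 * (m + n)), ⟨by omega, by omega⟩, ?_⟩
      rw [bd_period m n i k]
      exact hr
  have h2 : ∀ f, FB m n a b f F ↔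
      FB m n (a - k * (2 * (m + n))) (b - k * (2 * (m + n))) f F := by
    intro f
    constructor
    · rintro ⟨i, hi, hr⟩
      refine ⟨i - k * (2 * (m + n)), ⟨by omega, by omega⟩, ?_⟩
      rw [← DPar.ofc_period m n (i - k * (2 * (m + n))) k, sub_add_cancel]
      exact hr
    · rintro ⟨i, hi, hr⟩
      refine ⟨i + k * (2 * (m + n)), ⟨by omega, by omega⟩, ?_⟩
      rw [DPar.ofc_period m n i k]
      exact hr
  rw [h1]
  simp only [h2]

theorem HH_shift (m n a b : ℤ) (v : Vtx) (k : ℤ) :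
    HH m n a b v = HH m n (a - k * (2 * (m + n))) (b - k * (2 * (m + n))) v := by
  have e : ∀ j, j - k * (2 * (m + n)) = j + (-k) * (2 * (m + n)) := fun j => by ring
  have h1 : ∀ j, sv m n v (j - k * (2 * (m + n))) = sv m n v j := by
    intro j
    unfold sv ds
    rw [e, bd_period, rho_period]
  have h2 : sz m n (a - k * (2 * (m + n))) (b - k * (2 * (m + n))) = sz m n a b := by
    unfold sz
    have e2 : b - k * (2 * (m + n)) - (a - k * (2 * (m + n))) = b - a := by ring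
    rw [e2, e, e, rho_period, rho_period]
  unfold HH
  rw [h1, h1, h2]

/-- Equivalence of two vertices under a rotation. -/
def Eqv (m n s m' n' : ℤ) (v v' : Vtx) : Prop :=
  (0 ≤ v'.1 ∧ v'.1 ≤ m') ∧ (0 ≤ v'.2 ∧ v'.2 ≤ n') ∧
    ((px m' v' = px m v ∧ py n' v' = py n v) ∨ (px m' v' = py n v ∧ py n' v' = px m v)) ∧
    (∀ a b, P2 (RE 0 m 0 n) (OnV m n a b v) =
      P2 (RE 0 m' 0 n') (OnV m' n' (a - s) (b - s) v')) ∧
    ∀ a b, HH m n a b v = HH m' n' (a - s) (b - s) v'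

theorem Eqv.shift (m n : ℤ) (v : Vtx) (k : ℤ) (h1 : 0 ≤ v.1 ∧ v.1 ≤ m) (h2 : 0 ≤ v.2 ∧ v.2 ≤ n) :
    Eqv m n (k * (2 * (m + n))) m n v v :=
  ⟨h1, h2, Or.inl ⟨rfl, rfl⟩, fun a b => OnV_shift m n a b v k, fun a b => HH_shift m n a b v k⟩

theorem Eqv.rot1 {m n s m' n' : ℤ} {v v' : Vtx} (hm : 1 ≤ m') (hn : 1 ≤ n')
    (h : Eqv m n s m' n' v v') : Eqv m n (s + m') n' m' v (v'.2, m' - v'.1) := by
  obtain ⟨h1, h2, h3, h4, h5⟩ := h
  have e : (rot m').ψ v' = (v'.2, m' - v'.1) := by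
    obtain ⟨x, y⟩ := v'
    rw [rot_ψ]
  have e1 : px n' (v'.2, m' - v'.1) = py n' v' := rfl
  have e2 : py m' (v'.2, m' - v'.1) = px m' v' := by
    unfold px py
    simp only
    omega
  refine ⟨h2, ⟨by simp only; omega, by simp only; omega⟩, ?_, ?_, ?_⟩
  · rw [e1, e2]
    rcases h3 with h3 | h3
    · exact Or.inr ⟨h3.2, h3.1⟩
    · exact Or.inl ⟨h3.2, h3.1⟩
  · intro a b
    rw [h4, OnV_rot hm hn, e]
    congr 2 <;> ring
  · intro a b
    rw [h5, HH_rot hm hn, e]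
    congr 1 <;> ring

end RO

open RO

/-- Rotation which brings the corner `s` to the corner `0`. -/
theorem OnV_isRot {m n s m' n' : ℤ} (hm : 1 ≤ m) (hn : 1 ≤ n) (h : IsRot m n s m' n')
    (v : Vtx) (h1 : 0 ≤ v.1 ∧ v.1 ≤ m) (h2 : 0 ≤ v.2 ∧ v.2 ≤ n) :
    ∃ v' : Vtx, (0 ≤ v'.1 ∧ v'.1 ≤ m') ∧ (0 ≤ v'.2 ∧ v'.2 ≤ n') ∧
      ((px m' v' = px m v ∧ py n' v' = py n v) ∨ (px m' v' = py n v ∧ py n' v' = px m v)) ∧
      (∀ a b, P2 (RE 0 m 0 n) (OnV m n a b v) =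
        P2 (RE 0 m' 0 n') (OnV m' n' (a - s) (b - s) v')) ∧
      ∀ a b, HH m n a b v = HH m' n' (a - s) (b - s) v' := by
  show ∃ v', Eqv m n s m' n' v v'
  obtain ⟨k, h | h | h | h⟩ := h
  · obtain ⟨rfl, rfl, rfl⟩ := h
    exact ⟨_, Eqv.shift _ _ v k h1 h2⟩
  · obtain ⟨rfl, rfl, rfl⟩ := h
    exact ⟨_, (Eqv.shift _ _ v k h1 h2).rot1 hm hn⟩
  · obtain ⟨rfl, rfl, rfl⟩ := h
    have := ((Eqv.shift _ _ v k h1 h2).rot1 hm hn).rot1 hn hm
    rw [add_assoc] at this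
    exact ⟨_, this⟩
  · obtain ⟨rfl, rfl, rfl⟩ := h
    have := (((Eqv.shift _ _ v k h1 h2).rot1 hm hn).rot1 hn hm).rot1 hm hn
    have e : k * (2 * (n' + m')) + n' + m' + n' = k * (2 * (n' + m')) + (2 * n' + m') := by ring
    rw [e] at this
    exact ⟨_, this⟩

/-- The nearest side can be brought to the bottom. -/
theorem OnV_bottom {m n : ℤ} (hm : 1 ≤ m) (hn : 1 ≤ n) (v : Vtx) (h1 : 0 ≤ v.1 ∧ v.1 ≤ m)
    (h2 : 0 ≤ v.2 ∧ v.2 ≤ n) :
    ∃ (s m' n' x y : ℤ), ((m' = m ∧ n' = n) ∨ (m' = n ∧ n' = m)) ∧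
      (y + 1 = min (px m v) (py n v)) ∧ y ≤ x ∧ x + y ≤ m' ∧ 2 * y ≤ n' ∧
      (∀ a b, P2 (RE 0 m 0 n) (OnV m n a b v) =
        P2 (RE 0 m' 0 n') (OnV m' n' (a - s) (b - s) (x, y))) ∧
      ∀ a b, HH m n a b v = HH m' n' (a - s) (b - s) (x, y) := by
  obtain ⟨x, y⟩ := v
  simp only at h1 h2
  have hmin : min (px m (x, y)) (py n (x, y)) = min (min x (m - x)) (min y (n - y)) + 1 := by
    unfold px py
    simp only
    omega
  rw [hmin]
  have hs0 := Eqv.shift m n (x, y) 0 h1 h2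
  have hs1 := hs0.rot1 hm hn
  have hs2 := hs1.rot1 hn hm
  have hs3 := hs2.rot1 hm hn
  rcases (by omega : (y ≤ x ∧ y ≤ m - x ∧ y ≤ n - y) ∨ (m - x ≤ x ∧ m - x ≤ y ∧ m - x ≤ n - y) ∨
    (n - y ≤ y ∧ n - y ≤ x ∧ n - y ≤ m - x) ∨ (x ≤ m - x ∧ x ≤ y ∧ x ≤ n - y)) with
    h | h | h | h
  · exact ⟨_, m, n, x, y, Or.inl ⟨rfl, rfl⟩, by omega, by omega, by omega, by omega,
      hs0.2.2.2.1, hs0.2.2.2.2⟩
  · exact ⟨_, n, m, y, m - x, Or.inr ⟨rfl, rfl⟩, by omega, by omega, by omega, by omega,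
      hs1.2.2.2.1, hs1.2.2.2.2⟩
  · exact ⟨_, m, n, m - x, n - y, Or.inl ⟨rfl, rfl⟩, by omega, by omega, by omega, by omega,
      hs2.2.2.2.1, hs2.2.2.2.2⟩
  · refine ⟨_, n, m, n - y, m - (m - x), Or.inr ⟨rfl, rfl⟩, by omega, by omega, by omega,
      by omega, hs3.2.2.2.1, hs3.2.2.2.2⟩

end H731G
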