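import Pool.Agent.H731R5.Gr.Defs

/-!
Task HS: comparison of the cross-ratios of the two lattices, periodicity.
-/

set_option autoImplicit false

namespace H731G

open H974 hiding bd
open H731C H731R H731A Finset

namespace HS

theorem ifc_bd {m n : ℤ} (hm : 3 ≤ m) (hn : 3 ≤ n) (j : ℤ) :
    |(ifc m n j).1 - (bd m n j).1| ≤ 1 ∧ |(ifc m n j).2 - (bd m n j).2| ≤ 1 := by
  unfold ifc bd
  generalize j % (2 * (m + n)) = r
  simp only [abs_le]
  split_ifs <;> simp only <;> omega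

theorem sv_comp {d r d' r' : ℤ} (hd : 1 ≤ d) (hd' : 1 ≤ d') (hr : 0 ≤ r) (hr' : 0 ≤ r')
    (h1 : d' ≤ d + 3) (h2 : r' ≤ r + 5) : d' * (d' + r') ≤ 36 * (d * (d + r)) := by
  have e1 : d' ≤ 4 * d := by omega
  have e2 : d' + r' ≤ 9 * (d + r) := by omega
  calc d' * (d' + r') ≤ (4 * d) * (9 * (d + r)) := mul_le_mul e1 e2 (by omega) (by omega)
    _ = 36 * (d * (d + r)) := by ring

/-- the two distances to the end of index `j'` and to the end of index `j` -/
theorem ds_near {m n j j' : ℤ} {v w : Vtx} (hm : 3 ≤ m) (hn : 3 ≤ n)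
    (h1 : |w.1 - v.1| ≤ 1) (h2 : |w.2 - v.2| ≤ 1)
    (h3 : |(bd m n j').1 - (bd m n j).1| ≤ 1) (h4 : |(bd m n j').2 - (bd m n j).2| ≤ 1) :
    ds (m - 1) (n - 1) w (st m n j') ≤ ds m n v j + 3 ∧
      ds m n v j ≤ ds (m - 1) (n - 1) w (st m n j') + 3 := by
  have h5 := ifc_bd hm hn j'
  rw [Star.ifc_eq (by omega) (by omega)] at h5
  obtain ⟨h5, h6⟩ := h5
  unfold ds
  generalize bd (m - 1) (n - 1) (st m n j') = p at *
  generalize bd m n j = q at *
  generalize bd m n j' = q' at *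
  obtain ⟨p1, p2⟩ := p
  obtain ⟨q1, q2⟩ := q
  obtain ⟨s1, s2⟩ := q'
  obtain ⟨v1, v2⟩ := v
  obtain ⟨w1, w2⟩ := w
  simp only at *
  simp only [abs_le] at h1 h2 h3 h4 h5 h6
  have a1 : |w1 - p1| ≤ |v1 - q1| + 3 := by
    have := le_abs_self (v1 - q1)
    have := neg_abs_le (v1 - q1)
    rw [abs_le]; omega
  have a2 : |v1 - q1| ≤ |w1 - p1| + 3 := by
    have := le_abs_self (w1 - p1)
    have := neg_abs_le (w1 - p1)
    rw [abs_le]; omega
  have a3 : |w2 - p2| ≤ |v2 - q2| + 3 := by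
    have := le_abs_self (v2 - q2)
    have := neg_abs_le (v2 - q2)
    rw [abs_le]; omega
  have a4 : |v2 - q2| ≤ |w2 - p2| + 3 := by
    have := le_abs_self (w2 - p2)
    have := neg_abs_le (w2 - p2)
    rw [abs_le]; omega
  omega

theorem sv_near {m n j j' : ℤ} {v w : Vtx} (hm : 3 ≤ m) (hn : 3 ≤ n)
    (h1 : |w.1 - v.1| ≤ 1) (h2 : |w.2 - v.2| ≤ 1)
    (h3 : |(bd m n j').1 - (bd m n j).1| ≤ 1) (h4 : |(bd m n j').2 - (bd m n j).2| ≤ 1)
    (h5 : rho m n j' ≤ rho m n j + 1) (h6 : rho m n j ≤ rho m n j' + 1) :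
    sv (m - 1) (n - 1) w (st m n j') ≤ 36 * sv m n v j ∧
      sv m n v j ≤ 36 * sv (m - 1) (n - 1) w (st m n j') := by
  obtain ⟨g1, g2⟩ := ds_near hm hn h1 h2 h3 h4
  obtain ⟨g3, g4⟩ := Star.rho_star (m := m) (n := n) (by omega) (by omega) j'
  have g5 := ds_pos m n v j
  have g6 := ds_pos (m - 1) (n - 1) w (st m n j')
  have g7 := rho_nonneg (m := m) (n := n) (by omega) (by omega) j
  have g8 := rho_nonneg (m := m - 1) (n := n - 1) (by omega) (by omega) (st m n j')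
  unfold sv
  exact ⟨sv_comp g5 g6 g7 g8 g1 (by omega), sv_comp g6 g5 g8 g7 g2 (by omega)⟩

end HS

theorem HH_star : ∃ C : ℝ, 0 < C ∧ ∀ (m n a b : ℤ) (v w : Vtx), 3 ≤ m → 3 ≤ n →
    1 ≤ v.1 → v.1 + 2 ≤ m → 1 ≤ v.2 → v.2 + 2 ≤ n → |w.1 - v.1| ≤ 1 → |w.2 - v.2| ≤ 1 →
    0 ≤ w.1 → w.1 + 1 ≤ m → 0 ≤ w.2 → w.2 + 1 ≤ n →
    HH (m - 1) (n - 1) (st m n b) (st m n (a + 2 * (m + n) - 1)) w ≤ C * HH m n a b v ∧
      HH m n a b v ≤ C * HH (m - 1) (n - 1) (st m n b) (st m n (a + 2 * (m + n) - 1)) w := by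
  refine ⟨9 * 600 * 36 * 36, by norm_num, ?_⟩
  intro m n a b v w hm hn v1 v2 v3 v4 w1 w2 w3 w4 w5 w6
  set a' := a + 2 * (m + n) - 1 with ha'
  have hm1 : 1 ≤ m := by omega
  have hn1 : 1 ≤ n := by omega
  have hN : 0 < 2 * (m + n) := by omega
  -- sizes
  have s1 := sz_star (m := m) (n := n) (by omega) (by omega) b a'
  have s2 := sz_step hm1 hn1 b a' (a + 1 * (2 * (m + n))) (by rw [ha', abs_le]; omega)
  have s3 := sz_step hm1 hn1 b (a + 1 * (2 * (m + n))) a' (by rw [ha', abs_le]; omega)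
  have s4 : sz m n b (a + 1 * (2 * (m + n))) = sz m n a b := by
    have := sz_period m n b a 0 1
    rw [zero_mul, add_zero] at this
    rw [this, sz_symm hm1 hn1]
  rw [s4] at s2 s3
  have t1 : sz (m - 1) (n - 1) (st m n b) (st m n a') ≤ 600 * sz m n a b := by linarith [s1.1]
  have t2 : sz m n a b ≤ 600 * sz (m - 1) (n - 1) (st m n b) (st m n a') := by linarith [s1.2]
  -- distances
  have r1 := rho_lip hm1 hn1 a' (a + 1 * (2 * (m + n)))
  have r2 := rho_lip hm1 hn1 (a + 1 * (2 * (m + n))) a'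
  have c1 : cd (2 * (m + n)) (a' - (a + 1 * (2 * (m + n)))) ≤ 1 := by
    refine (cd_le_abs hN _).trans ?_
    rw [ha', abs_le]; omega
  have c2 : cd (2 * (m + n)) (a + 1 * (2 * (m + n)) - a') ≤ 1 := by
    refine (cd_le_abs hN _).trans ?_
    rw [ha', abs_le]; omega
  rw [rho_period] at r1 r2
  have b1 := Chord.step hm1 hn1 a'
  have b2 : a' + 1 = a + 1 * (2 * (m + n)) := by rw [ha']; ring
  rw [b2, bd_period] at b1
  have k1 := HS.sv_near (j := a) (j' := a') (v := v) (w := w) hm hn w1 w2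
    (by rw [abs_sub_comm]; exact b1.1) (by rw [abs_sub_comm]; exact b1.2) (by omega) (by omega)
  have k2 := HS.sv_near (j := b) (j' := b) (v := v) (w := w) hm hn w1 w2
    (by simp) (by simp) (by omega) (by omega)
  -- heights
  have x1 : px (m - 1) w ≤ 3 * px m v := by
    rw [abs_le] at w1; unfold px; omega
  have x2 : px m v ≤ 3 * px (m - 1) w := by
    rw [abs_le] at w1; unfold px; omega
  have y1 : py (n - 1) w ≤ 3 * py n v := by
    rw [abs_le] at w2; unfold py; omega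
  have y2 : py n v ≤ 3 * py (n - 1) w := by
    rw [abs_le] at w2; unfold py; omega
  have px1 : 1 ≤ px m v := px_pos (by omega) (by omega)
  have py1 : 1 ≤ py n v := py_pos (by omega) (by omega)
  have px2 : 1 ≤ px (m - 1) w := px_pos (by omega) (by omega)
  have py2 : 1 ≤ py (n - 1) w := py_pos (by omega) (by omega)
  have z1 := sz_pos hm1 hn1 a b
  have z2 := sz_pos (m := m - 1) (n := n - 1) (by omega) (by omega) (st m n b) (st m n a')
  have u1 := sv_pos hm1 hn1 v a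
  have u2 := sv_pos hm1 hn1 v b
  have u3 := sv_pos (m := m - 1) (n := n - 1) (by omega) (by omega) w (st m n b)
  have u4 := sv_pos (m := m - 1) (n := n - 1) (by omega) (by omega) w (st m n a')
  unfold HH
  generalize px (m - 1) w = X' at *
  generalize px m v = X at *
  generalize py (n - 1) w = Y' at *
  generalize py n v = Y at *
  generalize sz (m - 1) (n - 1) (st m n b) (st m n a') = Z' at *
  generalize sz m n a b = Z at *
  generalize sv m n v a = U at *
  generalize sv m n v b = V at *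
  generalize sv (m - 1) (n - 1) w (st m n b) = V' at *
  generalize sv (m - 1) (n - 1) w (st m n a') = U' at *
  have q1 : X' * Y' ≤ 9 * (X * Y) := by
    calc X' * Y' ≤ (3 * X) * (3 * Y) := mul_le_mul x1 y1 (by omega) (by omega)
      _ = 9 * (X * Y) := by ring
  have q2 : X * Y ≤ 9 * (X' * Y') := by
    calc X * Y ≤ (3 * X') * (3 * Y') := mul_le_mul x2 y2 (by omega) (by omega)
      _ = 9 * (X' * Y') := by ring
  have pXY : 0 < X * Y := by positivity
  have pXY' : 0 < X' * Y' := by positivity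
  rw [mul_comm (U : ℝ)]
  constructor
  · have := ratio_comp (x1 := (X' : ℝ) * Y') (x2 := Z') (x3 := V') (x4 := U') (y1 := (X : ℝ) * Y)
      (y2 := Z) (y3 := V) (y4 := U) (k1 := 9) (k2 := 600) (k3 := 36) (k4 := 36)
      (by exact_mod_cast pXY') (by exact_mod_cast z2) (by exact_mod_cast u3)
      (by exact_mod_cast u4) (by exact_mod_cast pXY) (by exact_mod_cast z1)
      (by exact_mod_cast u2) (by exact_mod_cast u1) (by exact_mod_cast q1)
      (by exact_mod_cast t1) (by exact_mod_cast k2.2) (by exact_mod_cast k1.2)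
    exact this
  · have := ratio_comp (x1 := (X : ℝ) * Y) (x2 := Z) (x3 := V) (x4 := U) (y1 := (X' : ℝ) * Y')
      (y2 := Z') (y3 := V') (y4 := U') (k1 := 9) (k2 := 600) (k3 := 36) (k4 := 36)
      (by exact_mod_cast pXY) (by exact_mod_cast z1) (by exact_mod_cast u2)
      (by exact_mod_cast u1) (by exact_mod_cast pXY') (by exact_mod_cast z2)
      (by exact_mod_cast u3) (by exact_mod_cast u4) (by exact_mod_cast q2)
      (by exact_mod_cast t2) (by exact_mod_cast k2.1) (by exact_mod_cast k1.1)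
    exact this

theorem HH_period (m n a b k : ℤ) (v : Vtx) :
    HH m n (a + k * (2 * (m + n))) (b + k * (2 * (m + n))) v = HH m n a b v := by
  unfold HH sv ds
  rw [sz_period, rho_period, rho_period, bd_period, bd_period]

theorem HH_symm {m n : ℤ} (hm : 1 ≤ m) (hn : 1 ≤ n) (a b : ℤ) (v : Vtx) :
    HH m n a b v = HH m n b a v := by
  unfold HH
  rw [sz_symm hm hn a b, mul_comm (sv m n v a : ℝ)]

theorem ev_period {m n : ℤ} (a b k : ℤ) (v f : Vtx) (h : ℤ) (F : Finset Edg) :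
    (VA m n (a + k * (2 * (m + n))) (b + k * (2 * (m + n))) v F ↔ VA m n a b v F) ∧
    (FB m n (a + k * (2 * (m + n))) (b + k * (2 * (m + n))) f F ↔ FB m n a b f F) ∧
    (BX m n (a + k * (2 * (m + n))) (b + k * (2 * (m + n))) v h F ↔ BX m n a b v h F) ∧
    (BD m n (a + k * (2 * (m + n))) (b + k * (2 * (m + n))) v h F ↔ BD m n a b v h F) := by
  have eb : ∀ i, bd m n (i - k * (2 * (m + n))) = bd m n i := fun i => by
    have := bd_period m n i (-k)
    rw [neg_mul, ← sub_eq_add_neg] at this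
    exact this
  have eo : ∀ i, ofc m n (i - k * (2 * (m + n))) = ofc m n i := fun i => by
    have := ofc_period m n i (-k)
    rw [neg_mul, ← sub_eq_add_neg] at this
    exact this
  refine ⟨⟨?_, ?_⟩, ⟨?_, ?_⟩, ⟨?_, ?_⟩, ⟨?_, ?_⟩⟩
  · rintro ⟨i, hi, hr⟩
    exact ⟨i - k * (2 * (m + n)), ⟨by linarith, by linarith⟩, by rw [eb]; exact hr⟩
  · rintro ⟨i, hi, hr⟩
    exact ⟨i + k * (2 * (m + n)), ⟨by linarith, by linarith⟩, by rw [bd_period]; exact hr⟩
  · rintro ⟨i, hi, hr⟩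
    exact ⟨i - k * (2 * (m + n)), ⟨by linarith, by linarith⟩, by rw [eo]; exact hr⟩
  · rintro ⟨i, hi, hr⟩
    exact ⟨i + k * (2 * (m + n)), ⟨by linarith, by linarith⟩, by rw [ofc_period]; exact hr⟩
  · rintro ⟨i, u, hi, hu, hr⟩
    exact ⟨i - k * (2 * (m + n)), u, ⟨by linarith, by linarith⟩, hu, by rw [eb]; exact hr⟩
  · rintro ⟨i, u, hi, hu, hr⟩
    exact ⟨i + k * (2 * (m + n)), u, ⟨by linarith, by linarith⟩, hu, by rw [bd_period]; exact hr⟩
  · rintro ⟨i, u, hi, hu, hr⟩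
    exact ⟨i - k * (2 * (m + n)), u, ⟨by linarith, by linarith⟩, hu, by rw [eo]; exact hr⟩
  · rintro ⟨i, u, hi, hu, hr⟩
    exact ⟨i + k * (2 * (m + n)), u, ⟨by linarith, by linarith⟩, hu, by rw [ofc_period]; exact hr⟩

end H731G
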