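import Pool.Agent.H731R5.Gr.Defs

/-!
Task U1 (helper731): two arms in the box, independent of the connection outside of the box.
-/

set_option autoImplicit false

namespace H731G

open H974 hiding bd
open H731C H731R H731A Finset

namespace U1

/-! ### exits -/

theorem fexit {G : Set Edg} (T : Vtx → Prop) {u v : Vtx} (h : Reach G u v) (hu : T u)
    (hv : ¬ T v) :
    ∃ w, ¬ T w ∧ Reach {e | e ∈ G ∧ (T (src e) ∨ T (tgt e))} u w := by
  have key : (T v ∧ Reach {e | e ∈ G ∧ (T (src e) ∨ T (tgt e))} u v) ∨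
      ∃ w, ¬ T w ∧ Reach {e | e ∈ G ∧ (T (src e) ∨ T (tgt e))} u w := by
    clear hv
    induction h with
    | refl => exact Or.inl ⟨hu, Reach.refl _ _⟩
    | @tail v' v _ hs ih =>
      rcases ih with ⟨h1, h2⟩ | h1
      · obtain ⟨e, he, hc⟩ := hs
        have h3 : Adj {e | e ∈ G ∧ (T (src e) ∨ T (tgt e))} v' v := by
          refine ⟨e, ⟨he, ?_⟩, hc⟩
          rcases hc with ⟨h4, h5⟩ | ⟨h4, h5⟩
          · left; rw [h4]; exact h1
          · right; rw [h5]; exact h1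
        by_cases hv : T v
        · exact Or.inl ⟨hv, h2.trans h3.reach⟩
        · exact Or.inr ⟨v, hv, h2.trans h3.reach⟩
      · exact Or.inr h1
  rcases key with h1 | h1
  · exact absurd h1.1 hv
  · exact h1

theorem dfexit {G : Set Edg} (T : Vtx → Prop) {u v : Vtx} (h : DReach G u v) (hu : T u)
    (hv : ¬ T v) :
    ∃ w, ¬ T w ∧ DReach {e | e ∈ G ∧ (T (dsrc e) ∨ T (dtgt e))} u w := by
  have key : (T v ∧ DReach {e | e ∈ G ∧ (T (dsrc e) ∨ T (dtgt e))} u v) ∨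
      ∃ w, ¬ T w ∧ DReach {e | e ∈ G ∧ (T (dsrc e) ∨ T (dtgt e))} u w := by
    clear hv
    induction h with
    | refl => exact Or.inl ⟨hu, DReach.refl _ _⟩
    | @tail v' v _ hs ih =>
      rcases ih with ⟨h1, h2⟩ | h1
      · obtain ⟨e, he, hc⟩ := hs
        have h3 : DAdj {e | e ∈ G ∧ (T (dsrc e) ∨ T (dtgt e))} v' v := by
          refine ⟨e, ⟨he, ?_⟩, hc⟩
          rcases hc with ⟨h4, h5⟩ | ⟨h4, h5⟩
          · left; rw [h4]; exact h1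
          · right; rw [h5]; exact h1
        by_cases hv : T v
        · exact Or.inl ⟨hv, h2.trans h3.reach⟩
        · exact Or.inr ⟨v, hv, h2.trans h3.reach⟩
      · exact Or.inr h1
  rcases key with h1 | h1
  · exact absurd h1.1 hv
  · exact h1

theorem dlast {G : Set Edg} (T : Vtx → Prop) {u v : Vtx} (h : DReach G u v) (hu : T u)
    (hv : ¬ T v) :
    ∃ w g, T w ∧ ¬ T g ∧ DAdj G w g ∧
      DReach {e | e ∈ G ∧ (¬ T (dsrc e) ∧ ¬ T (dtgt e))} g v := by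
  have key : T v ∨ ∃ w g, T w ∧ ¬ T g ∧ DAdj G w g ∧
      DReach {e | e ∈ G ∧ (¬ T (dsrc e) ∧ ¬ T (dtgt e))} g v := by
    clear hv
    induction h with
    | refl => exact Or.inl hu
    | @tail v' v _ hs ih =>
      by_cases hv : T v
      · exact Or.inl hv
      · right
        by_cases hv' : T v'
        · exact ⟨v', v, hv', hv, hs, DReach.refl _ _⟩
        · rcases ih with h1 | ⟨w, g, h1, h2, h3, h4⟩
          · exact absurd h1 hv'
          · refine ⟨w, g, h1, h2, h3, h4.trans (DAdj.reach ?_)⟩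
            obtain ⟨e, he, hc⟩ := hs
            refine ⟨e, ⟨he, ?_⟩, hc⟩
            rcases hc with ⟨h5, h6⟩ | ⟨h5, h6⟩
            · rw [h5, h6]; exact ⟨hv', hv⟩
            · rw [h5, h6]; exact ⟨hv, hv'⟩
  rcases key with h1 | h1
  · exact absurd h1 hv
  · exact h1

/-! ### the boundary -/

theorem bd_cases (m n i : ℤ) : (bd m n i).2 = 0 ∨ (bd m n i).1 = m ∨ (bd m n i).2 = n ∨
    (bd m n i).1 = 0 := by
  unfold bd
  split_ifs
  · left; rfl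
  · right; left; rfl
  · right; right; left; rfl
  · right; right; right; rfl

theorem ofc_cases (m n i : ℤ) : (ofc m n i).2 = -1 ∨ (ofc m n i).1 = m ∨ (ofc m n i).2 = n ∨
    (ofc m n i).1 = -1 := by
  unfold ofc
  split_ifs
  · left; rfl
  · right; left; rfl
  · right; right; left; rfl
  · right; right; right; rfl

/-! ### events -/

/-- the box -/
noncomputable def B (h : ℤ) (v : Vtx) : Finset Edg := RE (v.1 - h) (v.1 + h) (v.2 - h) (v.2 + h)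

/-- the two arms in the box -/
def TA (h : ℤ) (v : Vtx) (F : Finset Edg) : Prop :=
  H12S.Crs v.1 v.2 1 h.toNat ↑F ∧ H12S.DCrs v.1 v.2 1 h.toNat (↑(B h v \ F) : Set Edg)

/-- the open connection outside -/
def XP (m n a b : ℤ) (v : Vtx) (h : ℤ) (F : Finset Edg) : Prop :=
  ∃ i u, (a ≤ i ∧ i ≤ b) ∧ (|u.1 - v.1| ≤ h ∧ |u.2 - v.2| ≤ h) ∧
    Reach (↑F ∩ ↑(RE 0 m 0 n \ B h v)) (bd m n i) u

/-- the dual connection outside -/
def XD (m n a b : ℤ) (v : Vtx) (h : ℤ) (F : Finset Edg) : Prop :=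
  ∃ j g, (b ≤ j ∧ j < a + 2 * (m + n)) ∧
    ((v.1 - h - 1 ≤ g.1 ∧ g.1 ≤ v.1 + h) ∧ (v.2 - h - 1 ≤ g.2 ∧ g.2 ≤ v.2 + h)) ∧
    DReach ((↑F : Set Edg)ᶜ ∩ ↑(RE 0 m 0 n \ B h v)) (ofc m n j) g

variable {m n a b h : ℤ} {v f : Vtx}

theorem crs (hh : 1 ≤ h) (h1 : h ≤ v.1) (h2 : v.1 + h ≤ m) (h3 : h ≤ v.2) (h4 : v.2 + h ≤ n)
    {F : Finset Edg} (hV : VA m n a b v F) :
    H12S.Crs v.1 v.2 1 h.toNat (↑(F ∩ B h v) : Set Edg) := by
  obtain ⟨i, -, hr⟩ := hV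
  have hn : ((h.toNat : ℕ) : ℤ) = h := Int.toNat_of_nonneg (by omega)
  obtain ⟨w, hw, hr'⟩ := fexit (fun w : Vtx => (v.1 - h < w.1 ∧ w.1 < v.1 + h) ∧
    (v.2 - h < w.2 ∧ w.2 < v.2 + h)) hr.symm ⟨by omega, by omega⟩ (by
      rcases bd_cases m n i with h | h | h | h <;> omega)
  refine ⟨v, w, ?_, ?_, hr'.mono ?_⟩
  · unfold inR; push_cast; omega
  · rw [hn]; simp only [not_and_or, not_lt] at hw; omega
  · rintro ⟨x, y, _ | _⟩ ⟨⟨he1, he2⟩, he3⟩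
    · rw [coe_inter]
      refine ⟨he1, ?_⟩
      simp only [src_mk, tgt_false] at he3
      unfold B
      simp only [mem_coe, mem_RE_false]
      omega
    · rw [coe_inter]
      refine ⟨he1, ?_⟩
      simp only [src_mk, tgt_true] at he3
      unfold B
      simp only [mem_coe, mem_RE_true]
      omega

theorem dcrs (hh : 1 ≤ h) (h1 : h ≤ v.1) (h2 : v.1 + h ≤ m) (h3 : h ≤ v.2) (h4 : v.2 + h ≤ n)
    (hc : cor v f) {F : Finset Edg} (hV : FB m n a b f F) :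
    H12S.DCrs v.1 v.2 1 h.toNat (↑(B h v \ (F ∩ B h v)) : Set Edg) := by
  obtain ⟨j, -, hr⟩ := hV
  have hn : ((h.toNat : ℕ) : ℤ) = h := Int.toNat_of_nonneg (by omega)
  obtain ⟨hc1, hc2⟩ := hc
  obtain ⟨w, hw, hr'⟩ := dfexit (fun w : Vtx => (v.1 - h ≤ w.1 ∧ w.1 < v.1 + h) ∧
    (v.2 - h ≤ w.2 ∧ w.2 < v.2 + h)) hr.symm ⟨by omega, by omega⟩ (by
      rcases ofc_cases m n j with h | h | h | h <;> omega)
  refine ⟨f, w, ?_, ?_, hr'.mono ?_⟩
  · unfold inR; push_cast; omega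
  · rw [hn]; simp only [not_and_or, not_lt, not_le] at hw; omega
  · rintro ⟨x, y, _ | _⟩ ⟨⟨he1, he2⟩, he3⟩
    · rw [mem_coe, mem_sdiff, mem_inter]
      refine ⟨?_, fun h5 => he1 h5.1⟩
      simp only [dsrc_false, dtgt_mk] at he3
      unfold B
      simp only [mem_RE_false]
      omega
    · rw [mem_coe, mem_sdiff, mem_inter]
      refine ⟨?_, fun h5 => he1 h5.1⟩
      simp only [dsrc_true, dtgt_mk] at he3
      unfold B
      simp only [mem_RE_true]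
      omega

theorem xp (hh : 1 ≤ h) {F : Finset Edg} (hV : VA m n a b v F) :
    XP m n a b v h (F ∩ (RE 0 m 0 n \ B h v)) := by
  obtain ⟨i, hi, hr⟩ := hV
  obtain ⟨w, hw, hrw⟩ := H731C.TC.last_exit (inR (v.1 - h) (v.1 + h) (v.2 - h) (v.2 + h)) hr.symm
    (by unfold inR; omega)
  refine ⟨i, w, hi, ?_, hrw.symm.mono ?_⟩
  · obtain ⟨h1, h2⟩ := hw
    constructor <;> rw [abs_le] <;> omega
  · rintro e ⟨⟨h1, h2⟩, h3⟩
    have h4 : e ∈ RE 0 m 0 n \ B h v := by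
      rw [mem_sdiff]
      refine ⟨h2, fun h4 => h3 ?_⟩
      rw [Set.mem_ofPred_eq]
      exact RE_ends h4
    refine ⟨?_, h4⟩
    rw [mem_coe, mem_inter]
    exact ⟨h1, h4⟩

theorem xd (hh : 1 ≤ h) (h1 : h ≤ v.1) (h2 : v.1 + h ≤ m) (h3 : h ≤ v.2) (h4 : v.2 + h ≤ n)
    (hc : cor v f) {F : Finset Edg} (hV : FB m n a b f F) :
    XD m n a b v h (F ∩ (RE 0 m 0 n \ B h v)) := by
  obtain ⟨j, hj, hr⟩ := hV
  obtain ⟨hc1, hc2⟩ := hc
  obtain ⟨w, g, hw, hg, hwg, hrg⟩ := dlast (fun w : Vtx => (v.1 - h ≤ w.1 ∧ w.1 < v.1 + h) ∧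
    (v.2 - h ≤ w.2 ∧ w.2 < v.2 + h)) hr.symm ⟨by omega, by omega⟩ (by
      rcases ofc_cases m n j with h | h | h | h <;> omega)
  refine ⟨j, g, hj, ?_, hrg.symm.mono ?_⟩
  · obtain ⟨⟨x, y, _ | _⟩, -, hc⟩ := hwg
    · simp only [dsrc_false, dtgt_mk] at hc
      rcases hc with ⟨h5, h6⟩ | ⟨h5, h6⟩
      · rw [← h5] at hw; rw [← h6]; simp only at hw ⊢; omega
      · rw [← h6] at hw; rw [← h5]; simp only at hw ⊢; omega
    · simp only [dsrc_true, dtgt_mk] at hc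
      rcases hc with ⟨h5, h6⟩ | ⟨h5, h6⟩
      · rw [← h5] at hw; rw [← h6]; simp only at hw ⊢; omega
      · rw [← h6] at hw; rw [← h5]; simp only at hw ⊢; omega
  · rintro e ⟨⟨h5, h6⟩, h7⟩
    have h8 : e ∈ RE 0 m 0 n \ B h v := by
      rw [mem_sdiff]
      refine ⟨h6, fun h8 => ?_⟩
      obtain ⟨x, y, _ | _⟩ := e
      · simp only [dsrc_false, dtgt_mk] at h7
        unfold B at h8
        rw [mem_RE_false] at h8
        omega
      · simp only [dsrc_true, dtgt_mk] at h7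
        unfold B at h8
        rw [mem_RE_true] at h8
        omega
    refine ⟨?_, h8⟩
    intro h9
    rw [mem_coe, mem_inter] at h9
    exact h5 h9.1

theorem XP_BX {F : Finset Edg} (hX : XP m n a b v h (F ∩ (RE 0 m 0 n \ B h v))) :
    BX m n a b v h F := by
  obtain ⟨i, u, h1, h2, h3⟩ := hX
  refine ⟨i, u, h1, h2, h3.mono ?_⟩
  rintro e ⟨h4, h5⟩
  rw [mem_coe, mem_inter] at h4
  exact ⟨h4.1, (mem_sdiff.1 h5).1⟩

theorem XD_BD {F : Finset Edg} (hX : XD m n a b v h (F ∩ (RE 0 m 0 n \ B h v))) :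
    BD m n a b v h F := by
  obtain ⟨i, u, h1, h2, h3⟩ := hX
  refine ⟨i, u, h1, h2, h3.mono ?_⟩
  rintro e ⟨h4, h5⟩
  refine ⟨fun h6 => h4 ?_, (mem_sdiff.1 h5).1⟩
  rw [mem_coe, mem_inter]
  exact ⟨h6, h5⟩

theorem B_sub (h1 : h ≤ v.1) (h2 : v.1 + h ≤ m) (h3 : h ≤ v.2) (h4 : v.2 + h ≤ n) :
    B h v ⊆ RE 0 m 0 n := by
  unfold B
  rintro ⟨x, y, _ | _⟩ h
  · simp only [mem_RE_false] at h ⊢; omega
  · simp only [mem_RE_true] at h ⊢; omega

theorem P2_nonneg (S : Finset Edg) (A : Finset Edg → Prop) : 0 ≤ P2 S A :=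
  Pr_nonneg okhalf2 S A

/-- the common part of the two bounds -/
theorem main (R Bv : Finset Edg) (hB : Bv ⊆ R) {p : ℝ} (T X O Y : Finset Edg → Prop)
    (hT : P2 Bv T ≤ p) (h1 : ∀ F, O F → T (F ∩ Bv)) (h2 : ∀ F, O F → X (F ∩ (R \ Bv)))
    (h3 : ∀ F, X (F ∩ (R \ Bv)) → Y F) : P2 R O ≤ p * P2 R Y := by
  have e1 : P2 R O ≤ P2 R (fun F => T (F ∩ Bv) ∧ X (F ∩ (R \ Bv))) :=
    Pr_mono okhalf2 (fun F _ hF => ⟨h1 F hF, h2 F hF⟩)
  rw [P2_indep hB sdiff_subset disjoint_sdiff] at e1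
  have e2 : P2 (R \ Bv) X ≤ P2 R Y := by
    rw [← P2_restrict (S := R) (S' := R \ Bv) sdiff_subset X]
    exact Pr_mono okhalf2 (fun F _ hF => h3 F hF)
  refine e1.trans ?_
  have e3 : 0 ≤ P2 (R \ Bv) X := P2_nonneg _ _
  have e4 : 0 ≤ P2 Bv T := P2_nonneg _ _
  exact mul_le_mul hT e2 e3 (e4.trans hT)

end U1

open U1 in
theorem two_arm_outer (hA : H934F.St_A) : ∃ C : ℝ, 0 < C ∧ ∀ (m n a b h : ℤ) (v f : Vtx), 1 ≤ h →
    a ≤ b → b < a + 2 * (m + n) → h ≤ v.1 → v.1 + h ≤ m → h ≤ v.2 → v.2 + h ≤ n → cor v f →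
    P2 (RE 0 m 0 n) (On m n a b v f) ≤
        C * (h : ℝ) ^ (-(1/4) : ℝ) * P2 (RE 0 m 0 n) (BX m n a b v h) ∧
      P2 (RE 0 m 0 n) (On m n a b v f) ≤
        C * (h : ℝ) ^ (-(1/4) : ℝ) * P2 (RE 0 m 0 n) (BD m n a b v h) := by
  obtain ⟨C, hC, H⟩ := hA
  refine ⟨C, hC, ?_⟩
  intro m n a b h v f hh _ _ h1 h2 h3 h4 hc
  have hp : P2 (B h v) (TA h v) ≤ C * (h : ℝ) ^ (-(1/4) : ℝ) := by
    have h5 := H 1 h.toNat le_rfl (by omega) v.1 v.2 (B h v)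
    have hn : ((h.toNat : ℕ) : ℝ) = h := by
      have : ((h.toNat : ℕ) : ℤ) = h := Int.toNat_of_nonneg (by omega)
      exact_mod_cast this
    have h0 : (0 : ℝ) < h := by exact_mod_cast hh
    have e : (((1 : ℕ) : ℝ) / (h.toNat : ℕ)) ^ (1/4 : ℝ) = (h : ℝ) ^ (-(1/4) : ℝ) := by
      rw [hn, Nat.cast_one, one_div, Real.inv_rpow h0.le, Real.rpow_neg h0.le]
    rw [e] at h5
    exact h5
  have hB := B_sub h1 h2 h3 h4
  constructor
  · refine main _ _ hB (TA h v) (XP m n a b v h) _ _ hp ?_ ?_ ?_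
    · rintro F ⟨g1, g2⟩
      exact ⟨crs hh h1 h2 h3 h4 g1, dcrs hh h1 h2 h3 h4 hc g2⟩
    · rintro F ⟨g1, g2⟩
      exact xp hh g1
    · intro F
      exact XP_BX
  · refine main _ _ hB (TA h v) (XD m n a b v h) _ _ hp ?_ ?_ ?_
    · rintro F ⟨g1, g2⟩
      exact ⟨crs hh h1 h2 h3 h4 g1, dcrs hh h1 h2 h3 h4 hc g2⟩
    · rintro F ⟨g1, g2⟩
      exact xd hh h1 h2 h3 h4 hc g2
    · intro F
      exact XD_BD

end H731G
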