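import Pool.Agent.H731R5.Gr.Defs
import Pool.Agent.H731R4.Arcs.Arm2

/-!
Task U3: a small arc near the foot.
-/

set_option autoImplicit false

namespace H731G

open H974 hiding bd
open H731C H731R H731A Finset

namespace U3

theorem BX_arm {m n a b x y h : ℤ} {F : Finset Edg} (h1 : 1 ≤ h) (hy : 20 * h ≤ y)
    (hx : 20 * h ≤ x) (hxm : x + 20 * h ≤ m) (hyn : y + 20 * h ≤ n) (ha : x - 6 * h ≤ a)
    (hab : a ≤ b) (hb : b ≤ x + 6 * h) (hab2 : b - a ≤ 2 * h) (hF : BX m n a b (x, y) h F) :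
    ArmL m n a b (bd m n a) (3 * h) F := by
  obtain ⟨i, u, hi, hu, hr⟩ := hF
  simp only at hu
  rw [abs_le, abs_le] at hu
  rw [bd_bot (by omega) (by omega) (by omega) (by omega)] at hr
  rw [bd_bot (by omega) (by omega) (by omega) (by omega)]
  obtain ⟨w, -, hw, hw2⟩ := first_exit (a := a - 3 * h) (b := a + 3 * h) (c := -(3 * h))
    (d := 3 * h) (by unfold inR; simp only; omega) hr (by omega)
  refine ⟨i, w, hi, ?_, ?_⟩
  · simp only; omega
  · rw [bd_bot (by omega) (by omega) (by omega) (by omega)]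
    apply hw2.mono
    rintro ⟨x', y', bo⟩ ⟨⟨k1, k2⟩, k3⟩
    refine ⟨k1, ?_⟩
    unfold Bx
    rw [Finset.mem_coe] at k2 k3 ⊢
    cases bo
    · rw [mem_RE_false] at k2 k3 ⊢; simp only; omega
    · rw [mem_RE_true] at k2 k3 ⊢; simp only; omega

end U3

theorem arm_far : ∃ C : ℝ, 0 < C ∧ ∀ m n a b x y h : ℤ, 1 ≤ h → 20 * h ≤ y → 20 * h ≤ x →
    x + 20 * h ≤ m → y + 20 * h ≤ n → x - 6 * h ≤ a → a ≤ b → b ≤ x + 6 * h → b - a ≤ 2 * h →
    P2 (RE 0 m 0 n) (BX m n a b (x, y) h) ≤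
      C * (G (rho m n a) (b - a + 1) / G (rho m n a) h) ^ ((1 : ℝ) / 3) := by
  obtain ⟨C, hC, H⟩ := arm_gen
  refine ⟨C, hC, ?_⟩
  intro m n a b x y h h1 hy hx hxm hyn ha hab hb hab2
  have r0 : 0 ≤ rho m n a := rho_nonneg (by omega) (by omega) a
  have g1 : 0 < G (rho m n a) (b - a + 1) := Arm2.G_pos r0 (by omega)
  have g2 : 0 < G (rho m n a) h := Arm2.G_pos r0 (by omega)
  have g3 : 0 < G (rho m n a) (3 * h) := Arm2.G_pos r0 (by omega)
  have g4 : G (rho m n a) h ≤ G (rho m n a) (3 * h) := by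
    have b1 : (0 : ℝ) ≤ rho m n a := by exact_mod_cast r0
    have b2 : (1 : ℝ) ≤ h := by exact_mod_cast h1
    unfold G
    push_cast
    nlinarith [mul_nonneg (show (0 : ℝ) ≤ h by linarith) b1]
  calc P2 (RE 0 m 0 n) (BX m n a b (x, y) h)
      ≤ P2 (RE 0 m 0 n) (ArmL m n a b (bd m n a) (3 * h)) := by
        apply Pr_mono okhalf2
        intro F _ hF
        exact U3.BX_arm h1 hy hx hxm hyn ha hab hb hab2 hF
    _ ≤ C * (G (rho m n a) (b - a + 1) / G (rho m n a) (3 * h)) ^ ((1 : ℝ) / 3) :=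
        H m n a b a (3 * h) le_rfl hab (by omega) (by omega) (by omega) (by omega)
    _ ≤ C * (G (rho m n a) (b - a + 1) / G (rho m n a) h) ^ ((1 : ℝ) / 3) := by
        apply mul_le_mul_of_nonneg_left _ hC.le
        apply Real.rpow_le_rpow (by positivity) _ (by norm_num)
        exact div_le_div_of_nonneg_left g1.le g2 g4

end H731G
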