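import Pool.Agent.H731R5.Gr.U2
import Pool.Agent.H731R5.Gr.U3
import Pool.Agent.H731R4.Arcs.Final
import Pool.Agent.H731R4.Arcs.Chord

/-!
Task U4: upper bound of the probability that the arc is joined to the box around `v`.
-/

set_option autoImplicit false

namespace H731G

open H974 hiding bd
open H731C H731R H731A Finset

namespace U4

/-- `sz (x - h) (x + h) ≤ 3 px py` -/
theorem sz_foot {m n x y h : ℤ} (h1 : 1 ≤ h) (hy : 20 * h ≤ y) (hx : 20 * h ≤ x)
    (hxm : x + 20 * h ≤ m) (hyn : y + 20 * h ≤ n) :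
    sz m n (x - h) (x + h) ≤ 3 * (px m (x, y) * py n (x, y)) := by
  have hN : 0 < 2 * (m + n) := by omega
  have e1 : x + h - (x - h) = 2 * h := by ring
  have e2 := cd_of_mem (N := 2 * (m + n)) (x := 2 * h) (by omega) (by omega) hN
  have e3 := rho_bot (m := m) (n := n) (i := x - h) (by omega) (by omega) (by omega) (by omega)
  have e4 := rho_bot (m := m) (n := n) (i := x + h) (by omega) (by omega) (by omega) (by omega)
  unfold sz
  rw [e1, e2, e3, e4]
  set X := px m (x, y) with hX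
  set Y := py n (x, y) with hY
  unfold px at hX
  unfold py at hY
  simp only at hX hY
  have g1 : min (2 * h) (2 * (m + n) - 2 * h) + 1 ≤ Y := by omega
  have g2 : min (2 * h) (2 * (m + n) - 2 * h) + 1 + min (x - h) (m - (x - h)) +
      min (x + h) (m - (x + h)) ≤ 3 * X := by omega
  calc _ ≤ Y * (3 * X) := mul_le_mul g1 g2 (by omega) (by omega)
    _ = 3 * (X * Y) := by ring

/-- `sv v j ≤ 204 ^ 2 sz i j`, for `i` near the foot of `v` and `j` far from it -/
theorem sv_far {m n x y h i j : ℤ} (h1 : 1 ≤ h) (hy : 20 * h ≤ y) (hy2 : y ≤ 200 * h)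
    (hx : 20 * h ≤ x) (hxm : x + 20 * h ≤ m) (hyn : y + 20 * h ≤ n) (hi : |x - i| ≤ h)
    (hj : x + 2 * h ≤ j) (hj2 : j ≤ x - 2 * h + 2 * (m + n)) :
    sv m n (x, y) j ≤ 41616 * sz m n i j := by
  have hm : 1 ≤ m := by omega
  have hn : 1 ≤ n := by omega
  have hN : 0 < 2 * (m + n) := by omega
  have e0 := bd_lip hm hn x j
  rw [bd_bot hm hn (i := x) (by omega) (by omega)] at e0
  simp only at e0
  have e1 := cd_of_mem (N := 2 * (m + n)) (x := j - x) (by omega) (by omega) hN
  have e2 : cd (2 * (m + n)) (x - j) = cd (2 * (m + n)) (j - x) := by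
    rw [← cd_neg hN, neg_sub]
  have e3 := cd_add hN (j - i) (i - x)
  have e4 : j - i + (i - x) = j - x := by ring
  rw [e4] at e3
  have e5 := cd_le_abs hN (i - x)
  rw [abs_sub_comm] at e5
  have r1 := rho_nonneg hm hn i
  have r2 := rho_nonneg hm hn j
  set t := cd (2 * (m + n)) (j - x) with ht
  set T := cd (2 * (m + n)) (j - i) + 1 with hT
  have t2 : 2 * h ≤ t := by omega
  have hTt : t + 2 ≤ 2 * T := by omega
  set d := ds m n (x, y) j with hd
  have d1 : d ≤ 204 * T := by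
    unfold ds at hd
    simp only at hd
    obtain ⟨f1, f2⟩ := e0
    rw [e2] at f1 f2
    have f3 : |y - (bd m n j).2| ≤ y + t := by
      rw [abs_le] at f2 ⊢
      omega
    omega
  have d0 : 1 ≤ d := ds_pos m n (x, y) j
  unfold sv
  rw [← hd]
  unfold sz
  rw [← hT]
  calc d * (d + rho m n j) ≤ (204 * T) * (204 * (T + rho m n i + rho m n j)) :=
        mul_le_mul d1 (by omega) (by omega) (by omega)
    _ = 41616 * (T * (T + rho m n i + rho m n j)) := by ring

theorem alt1 {m n a b x y h : ℤ} (h1 : 1 ≤ h) (hy : 20 * h ≤ y) (hy2 : y ≤ 200 * h)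
    (hx : 20 * h ≤ x) (hxm : x + 20 * h ≤ m) (hyn : y + 20 * h ≤ n) (hab : a ≤ b)
    (ha : x + 2 * h ≤ a) (hb : b ≤ x - 2 * h + 2 * (m + n)) :
    eta m n (x - h) (x + h) a b ≤ 2000 ^ 3 * HH m n a b (x, y) := by
  have hm : 1 ≤ m := by omega
  have hn : 1 ≤ n := by omega
  have k1 := sz_foot h1 hy hx hxm hyn
  have k2 := sv_far (i := x - h) (j := a) h1 hy hy2 hx hxm hyn (by rw [abs_le]; omega) ha
    (by omega)
  have k3 := sv_far (i := x + h) (j := b) h1 hy hy2 hx hxm hyn (by rw [abs_le]; omega)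
    (by omega) hb
  have p1 := sz_pos hm hn (x - h) (x + h)
  have p2 := sz_pos hm hn a b
  have p3 := sz_pos hm hn (x - h) a
  have p4 := sz_pos hm hn (x + h) b
  have p5 := sv_pos hm hn (x, y) a
  have p6 := sv_pos hm hn (x, y) b
  have p7 : 1 ≤ px m (x, y) := px_pos (by simp only; omega) (by simp only; omega)
  have p8 : 1 ≤ py n (x, y) := py_pos (by simp only; omega) (by simp only; omega)
  unfold eta HH
  generalize sz m n (x - h) (x + h) = A at *
  generalize sz m n a b = B at *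
  generalize sz m n (x - h) a = D at *
  generalize sz m n (x + h) b = E at *
  generalize sv m n (x, y) a = U at *
  generalize sv m n (x, y) b = V at *
  generalize px m (x, y) = X at *
  generalize py n (x, y) = Y at *
  have j1 : (A : ℝ) ≤ 3 * (X * Y) := by exact_mod_cast k1
  have j2 : (U : ℝ) ≤ 41616 * D := by exact_mod_cast k2
  have j3 : (V : ℝ) ≤ 41616 * E := by exact_mod_cast k3
  have q1 : (1 : ℝ) ≤ A := by exact_mod_cast p1
  have q2 : (1 : ℝ) ≤ B := by exact_mod_cast p2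
  have q3 : (1 : ℝ) ≤ D := by exact_mod_cast p3
  have q4 : (1 : ℝ) ≤ E := by exact_mod_cast p4
  have q5 : (1 : ℝ) ≤ U := by exact_mod_cast p5
  have q6 : (1 : ℝ) ≤ V := by exact_mod_cast p6
  have q7 : (1 : ℝ) ≤ X := by exact_mod_cast p7
  have q8 : (1 : ℝ) ≤ Y := by exact_mod_cast p8
  rw [← mul_div_assoc, div_le_div_iff₀ (by positivity) (by positivity)]
  have i1 : (U : ℝ) * V ≤ (41616 * D) * (41616 * E) :=
    mul_le_mul j2 j3 (by positivity) (by positivity)
  have i2 : (A : ℝ) * (U * V) ≤ (3 * (X * Y)) * ((41616 * D) * (41616 * E)) :=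
    mul_le_mul j1 i1 (by positivity) (by positivity)
  calc (A : ℝ) * B * (U * V) = B * (A * (U * V)) := by ring
    _ ≤ B * ((3 * (X * Y)) * ((41616 * D) * (41616 * E))) :=
        mul_le_mul_of_nonneg_left i2 (by positivity)
    _ = (3 * 41616 ^ 2) * (X * Y * B * (D * E)) := by ring
    _ ≤ 2000 ^ 3 * (X * Y * B * (D * E)) := by
        apply mul_le_mul_of_nonneg_right (by norm_num) (by positivity)
    _ = _ := by ring

theorem alt2 {m n a b x y h : ℤ} (h1 : 1 ≤ h) (hy : 20 * h ≤ y) (hy2 : y ≤ 200 * h)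
    (hx : 20 * h ≤ x) (hxm : x + 20 * h ≤ m) (hyn : y + 20 * h ≤ n) (hab : a ≤ b)
    (ha : x - 6 * h ≤ a) (hb : b ≤ x + 6 * h) (hab2 : b - a ≤ 2 * h) :
    G (rho m n a) (b - a + 1) / G (rho m n a) h ≤ 2000 ^ 3 * HH m n a b (x, y) := by
  have hm : 1 ≤ m := by omega
  have hn : 1 ≤ n := by omega
  have hN : 0 < 2 * (m + n) := by omega
  have r1 := rho_nonneg hm hn a
  have r2 := rho_nonneg hm hn b
  have r3 := rho_bot (m := m) (n := n) (i := b) hm hn (by omega) (by omega)
  have ba := bd_bot (m := m) (n := n) (i := a) hm hn (by omega) (by omega)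
  have bb := bd_bot (m := m) (n := n) (i := b) hm hn (by omega) (by omega)
  have e1 := cd_of_mem (N := 2 * (m + n)) (x := b - a) (by omega) (by omega) hN
  have e2 : cd (2 * (m + n)) (b - a) = b - a := by omega
  have da : ds m n (x, y) a ≤ 201 * h := by
    unfold ds
    rw [ba]
    simp only
    have f1 : |x - a| ≤ 6 * h := by rw [abs_le]; omega
    have f2 : |y - 0| ≤ 200 * h := by rw [abs_le]; omega
    omega
  have db : ds m n (x, y) b ≤ 201 * h := by
    unfold ds
    rw [bb]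
    simp only
    have f1 : |x - b| ≤ 6 * h := by rw [abs_le]; omega
    have f2 : |y - 0| ≤ 200 * h := by rw [abs_le]; omega
    omega
  have d0 := ds_pos m n (x, y) a
  have d1 := ds_pos m n (x, y) b
  have p2 := sz_pos hm hn a b
  have p5 := sv_pos hm hn (x, y) a
  have p6 := sv_pos hm hn (x, y) b
  have p7 : 1 ≤ px m (x, y) := px_pos (by simp only; omega) (by simp only; omega)
  have p8 : 1 ≤ py n (x, y) := py_pos (by simp only; omega) (by simp only; omega)
  have k1 : sv m n (x, y) a ≤ 40401 * (h * (h + rho m n a)) := by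
    unfold sv
    calc _ ≤ (201 * h) * (201 * (h + rho m n a)) :=
          mul_le_mul da (by omega) (by omega) (by omega)
      _ = _ := by ring
  have k2 : sv m n (x, y) b ≤ 132 * (px m (x, y) * py n (x, y)) := by
    unfold sv
    have f1 : ds m n (x, y) b ≤ 11 * py n (x, y) := by
      unfold py
      simp only
      omega
    have f2 : ds m n (x, y) b + rho m n b ≤ 12 * px m (x, y) := by
      rw [r3]
      unfold px
      simp only
      omega
    calc _ ≤ (11 * py n (x, y)) * (12 * px m (x, y)) :=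
          mul_le_mul f1 f2 (by omega) (by omega)
      _ = _ := by ring
  have k3 : (b - a + 1) * (b - a + 1 + rho m n a) ≤ sz m n a b := by
    unfold sz
    rw [e2]
    exact mul_le_mul_of_nonneg_left (by omega) (by omega)
  have k4 : 1 ≤ (b - a + 1) * (b - a + 1 + rho m n a) := by nlinarith
  unfold HH G
  have c1 : ((b - a + 1 : ℤ) : ℝ) * (((b - a + 1 : ℤ) : ℝ) + (rho m n a : ℝ)) =
      (((b - a + 1) * (b - a + 1 + rho m n a) : ℤ) : ℝ) := by push_cast; ring
  have c2 : (h : ℝ) * ((h : ℝ) + (rho m n a : ℝ)) = ((h * (h + rho m n a) : ℤ) : ℝ) := by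
    push_cast; ring
  rw [c1, c2]
  have k5 : 1 ≤ h * (h + rho m n a) := by nlinarith
  generalize (b - a + 1) * (b - a + 1 + rho m n a) = A at *
  generalize h * (h + rho m n a) = D at *
  generalize sz m n a b = B at *
  generalize sv m n (x, y) a = U at *
  generalize sv m n (x, y) b = V at *
  generalize px m (x, y) = X at *
  generalize py n (x, y) = Y at *
  have j1 : (U : ℝ) ≤ 40401 * D := by exact_mod_cast k1
  have j2 : (V : ℝ) ≤ 132 * (X * Y) := by exact_mod_cast k2
  have j3 : (A : ℝ) ≤ B := by exact_mod_cast k3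
  have q1 : (1 : ℝ) ≤ A := by exact_mod_cast k4
  have q2 : (1 : ℝ) ≤ B := by exact_mod_cast p2
  have q3 : (1 : ℝ) ≤ D := by exact_mod_cast k5
  have q5 : (1 : ℝ) ≤ U := by exact_mod_cast p5
  have q6 : (1 : ℝ) ≤ V := by exact_mod_cast p6
  have q7 : (1 : ℝ) ≤ X := by exact_mod_cast p7
  have q8 : (1 : ℝ) ≤ Y := by exact_mod_cast p8
  rw [← mul_div_assoc, div_le_div_iff₀ (by positivity) (by positivity)]
  have i1 : (U : ℝ) * V ≤ (40401 * D) * (132 * (X * Y)) :=
    mul_le_mul j1 j2 (by positivity) (by positivity)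
  have i2 : (A : ℝ) * (U * V) ≤ B * ((40401 * D) * (132 * (X * Y))) :=
    mul_le_mul j3 i1 (by positivity) (by positivity)
  calc (A : ℝ) * (U * V) ≤ B * ((40401 * D) * (132 * (X * Y))) := i2
    _ = (40401 * 132) * (X * Y * B * D) := by ring
    _ ≤ 2000 ^ 3 * (X * Y * B * D) := by
        apply mul_le_mul_of_nonneg_right (by norm_num) (by positivity)
    _ = _ := by ring

end U4

theorem BX_upper (K : ℕ) : ∃ C : ℝ, 0 < C ∧ ∀ m n a b x y h : ℤ, m ≤ K * n → n ≤ K * m →
    1 ≤ h → 20 * h ≤ y → y ≤ 200 * h → 20 * h ≤ x → x + 20 * h ≤ m → y + 20 * h ≤ n → a ≤ b →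
    ((x + 2 * h ≤ a ∧ b ≤ x - 2 * h + 2 * (m + n)) ∨
      (x - 6 * h ≤ a ∧ b ≤ x + 6 * h ∧ b - a ≤ 2 * h)) →
    P2 (RE 0 m 0 n) (BX m n a b (x, y) h) ≤
      C * (HH m n a b (x, y)) ^ ((1 : ℝ) / 3) := by
  obtain ⟨C1, hC1, H1⟩ := glue_foot 200
  obtain ⟨_c0, C2, _, hC2, H2⟩ := AA_eta K
  obtain ⟨C3, hC3, H3⟩ := arm_far
  refine ⟨(C1 * C2 + C3) * 2000, by positivity, ?_⟩
  intro m n a b x y h hmn hnm h1 hy hy2 hx hxm hyn hab hcase
  have hm : 1 ≤ m := by omega
  have hn : 1 ≤ n := by omega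
  have hs : ∀ i j, (0 : ℝ) < sz m n i j := fun i j => by
    exact_mod_cast (by linarith [sz_pos hm hn i j] : (0 : ℤ) < sz m n i j)
  have hv : ∀ j, (0 : ℝ) < sv m n (x, y) j := fun j => by
    exact_mod_cast (by linarith [sv_pos hm hn (x, y) j] : (0 : ℤ) < sv m n (x, y) j)
  have p7 : 1 ≤ px m (x, y) := px_pos (by simp only; omega) (by simp only; omega)
  have p8 : 1 ≤ py n (x, y) := py_pos (by simp only; omega) (by simp only; omega)
  have q7 : (0 : ℝ) < px m (x, y) := by exact_mod_cast (by omega : 0 < px m (x, y))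
  have q8 : (0 : ℝ) < py n (x, y) := by exact_mod_cast (by omega : 0 < py n (x, y))
  have hH : 0 ≤ HH m n a b (x, y) := by
    unfold HH
    have := hs a b; have := hv a; have := hv b
    positivity
  have hH3 : 0 ≤ (HH m n a b (x, y)) ^ ((1 : ℝ) / 3) := Real.rpow_nonneg hH _
  rcases hcase with ⟨ha, hb⟩ | ⟨ha, hb, hab2⟩
  · have s1 := H1 m n a b x y h h1 (by omega) (by push_cast; omega) (by omega) (by omega)
      (by omega)
    have s2 := (H2 m n (x - h) (x + h) a b hm hn hmn hnm (by omega) (by omega) hab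
      (by omega)).2
    have he : 0 ≤ eta m n (x - h) (x + h) a b := by
      unfold eta
      have := hs (x - h) (x + h); have := hs a b; have := hs (x - h) a; have := hs (x + h) b
      positivity
    have s3 := Fin1.third_mono he hH (by norm_num : (0 : ℝ) ≤ 2000)
      (U4.alt1 h1 hy hy2 hx hxm hyn hab ha hb)
    calc P2 (RE 0 m 0 n) (BX m n a b (x, y) h)
        ≤ C1 * P2 (RE 0 m 0 n) (AA m n (x - h) (x + h) a b) := s1
      _ ≤ C1 * (C2 * (eta m n (x - h) (x + h) a b) ^ ((1 : ℝ) / 3)) :=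
          mul_le_mul_of_nonneg_left s2 hC1.le
      _ ≤ C1 * (C2 * (2000 * (HH m n a b (x, y)) ^ ((1 : ℝ) / 3))) :=
          mul_le_mul_of_nonneg_left (mul_le_mul_of_nonneg_left s3 hC2.le) hC1.le
      _ = (C1 * C2) * 2000 * (HH m n a b (x, y)) ^ ((1 : ℝ) / 3) := by ring
      _ ≤ (C1 * C2 + C3) * 2000 * (HH m n a b (x, y)) ^ ((1 : ℝ) / 3) := by
          apply mul_le_mul_of_nonneg_right _ hH3
          nlinarith
  · have s1 := H3 m n a b x y h h1 hy hx hxm hyn ha hab hb hab2
    have r0 := rho_nonneg hm hn a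
    have g1 : 0 < G (rho m n a) (b - a + 1) := Arm2.G_pos r0 (by omega)
    have g2 : 0 < G (rho m n a) h := Arm2.G_pos r0 (by omega)
    have s3 := Fin1.third_mono (by positivity) hH (by norm_num : (0 : ℝ) ≤ 2000)
      (U4.alt2 h1 hy hy2 hx hxm hyn hab ha hb hab2)
    calc P2 (RE 0 m 0 n) (BX m n a b (x, y) h)
        ≤ C3 * (G (rho m n a) (b - a + 1) / G (rho m n a) h) ^ ((1 : ℝ) / 3) := s1
      _ ≤ C3 * (2000 * (HH m n a b (x, y)) ^ ((1 : ℝ) / 3)) :=
          mul_le_mul_of_nonneg_left s3 hC3.le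
      _ = C3 * 2000 * (HH m n a b (x, y)) ^ ((1 : ℝ) / 3) := by ring
      _ ≤ (C1 * C2 + C3) * 2000 * (HH m n a b (x, y)) ^ ((1 : ℝ) / 3) := by
          apply mul_le_mul_of_nonneg_right _ hH3
          have : 0 < C1 * C2 := by positivity
          linarith

end H731G
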