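import Pool.Agent.H731R5.Gr.Defs

/-! Task U5: a dual connection is a connection in the dual rectangle (helper228). -/

set_option autoImplicit false

namespace H731G

open H974 hiding bd
open H731C H731R H731A Finset

theorem BD_le {m n a b h : ℤ} {v : Vtx} (hm : 2 ≤ m) (hn : 2 ≤ n) (hh : 0 ≤ h) (hab : a ≤ b)
    (hba : b < a + 2 * (m + n)) (h1 : h + 1 ≤ v.1) (h2 : v.1 + h + 1 ≤ m) (h3 : h + 1 ≤ v.2)
    (h4 : v.2 + h + 1 ≤ n) :
    P2 (RE 0 m 0 n) (BD m n a b v h) ≤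
      P2 (RE 0 (m - 1) 0 (n - 1)) (BX (m - 1) (n - 1) (st m n b)
        (st m n (a + 2 * (m + n) - 1)) v (h + 1)) := by
  have ok : Ok (fun _ : Edg => (1/2 : ℝ)) := okhalf2
  have hP : P2 (DTra.InE m n) (fun F => BX (m - 1) (n - 1) (st m n b)
        (st m n (a + 2 * (m + n) - 1)) v (h + 1) (dmp (DTra.InE m n \ F))) =
      P2 (RE 0 (m - 1) 0 (n - 1)) (BX (m - 1) (n - 1) (st m n b)
        (st m n (a + 2 * (m + n) - 1)) v (h + 1)) := by
    rw [DTra.P2_dual, DTra.dmp_InE]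
  rw [← hP]
  have h5 : P2 (RE 0 m 0 n)
      (fun F => BX (m - 1) (n - 1) (st m n b) (st m n (a + 2 * (m + n) - 1)) v (h + 1)
        (dmp (DTra.InE m n \ (F ∩ DTra.InE m n)))) =
      P2 (DTra.InE m n) (fun F => BX (m - 1) (n - 1) (st m n b)
        (st m n (a + 2 * (m + n) - 1)) v (h + 1) (dmp (DTra.InE m n \ F))) :=
    P2_restrict DTra.InE_subset (fun F => BX (m - 1) (n - 1) (st m n b)
      (st m n (a + 2 * (m + n) - 1)) v (h + 1) (dmp (DTra.InE m n \ F)))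
  rw [← h5]
  unfold P2
  refine Pr_mono ok fun F hF hev => ?_
  obtain ⟨j, g, ⟨hj1, hj2⟩, ⟨⟨hg1, hg2⟩, hg3, hg4⟩, hr⟩ := hev
  have h6 := DTra.cl_dreach (by omega) (by omega) hr
  rw [DTra.cl_ofc (by omega) (by omega)] at h6
  have h7 : DReach (↑(DTra.InE m n \ (F ∩ DTra.InE m n)) : Set Edg) (ifc m n j)
      (DTra.cl m n g) := by
    refine h6.mono ?_
    rintro e ⟨he1, he2⟩
    rw [Finset.mem_coe, Finset.mem_sdiff]
    exact ⟨Finset.mem_coe.mp he2, fun h => he1 (Finset.mem_coe.mpr (Finset.mem_inter.mp h).1)⟩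
  have h8 : (↑(dmp (DTra.InE m n \ (F ∩ DTra.InE m n))) ∩ ↑(RE 0 (m - 1) 0 (n - 1)) : Set Edg) =
      dl '' ↑(DTra.InE m n \ (F ∩ DTra.InE m n)) := by
    rw [← DTra.dmp_InE, coe_dmp, coe_dmp]
    refine Set.inter_eq_left.mpr (Set.image_mono ?_)
    intro e he
    exact Finset.mem_coe.mpr (Finset.mem_sdiff.mp (Finset.mem_coe.mp he)).1
  refine ⟨st m n j, DTra.cl m n g, ⟨Star.st_mono hm hn hj1, Star.st_mono hm hn (by omega)⟩,
    ⟨?_, ?_⟩, ?_⟩
  · unfold DTra.cl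
    rw [abs_le]
    constructor <;> simp only <;> omega
  · unfold DTra.cl
    rw [abs_le]
    constructor <;> simp only <;> omega
  · rw [h8, ← Star.ifc_eq hm hn, reach_dl]
    exact h7

end H731G
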