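import Pool.Agent.H731R5.Gr.HB
import Pool.Agent.H731R5.Gr.HS
import Pool.Agent.H731R5.Gr.U1
import Pool.Agent.H731R5.Gr.U4
import Pool.Agent.H731R5.Gr.U5
import Pool.Agent.H731R5.Gr.Defs

/-! Task UA: upper bound near the bottom side, assembly (helper602) -/

set_option autoImplicit false

namespace H731G

open H974 hiding bd
open H731C H731R H731A Finset

namespace UA

theorem P2_nonneg (S : Finset Edg) (A : Finset Edg → Prop) : 0 ≤ P2 S A :=
  Pr_nonneg okhalf2 S A

theorem P2_le_one (S : Finset Edg) (A : Finset Edg → Prop) : P2 S A ≤ 1 :=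
  Pr_le_one okhalf2 S A

theorem P2_or (S : Finset Edg) (A B : Finset Edg → Prop) :
    P2 S (fun F => A F ∨ B F) ≤ P2 S A + P2 S B := Pr_or_le okhalf2 S A B

theorem P2_mono {S : Finset Edg} {A B : Finset Edg → Prop} (h : ∀ F, A F → B F) :
    P2 S A ≤ P2 S B := Pr_mono okhalf2 fun F _ => h F

theorem HH_pos {m n : ℤ} (hm : 1 ≤ m) (hn : 1 ≤ n) (a b : ℤ) {v : Vtx} (h1 : 0 ≤ v.1)
    (h2 : v.1 ≤ m) (h3 : 0 ≤ v.2) (h4 : v.2 ≤ n) : 0 < HH m n a b v := by
  have p1 : (0 : ℝ) < px m v := by exact_mod_cast lt_of_lt_of_le zero_lt_one (px_pos h1 h2)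
  have p2 : (0 : ℝ) < py n v := by exact_mod_cast lt_of_lt_of_le zero_lt_one (py_pos h3 h4)
  have p3 : (0 : ℝ) < sz m n a b := by
    exact_mod_cast lt_of_lt_of_le zero_lt_one (sz_pos hm hn a b)
  have p4 : (0 : ℝ) < sv m n v a := by
    exact_mod_cast lt_of_lt_of_le zero_lt_one (sv_pos hm hn v a)
  have p5 : (0 : ℝ) < sv m n v b := by
    exact_mod_cast lt_of_lt_of_le zero_lt_one (sv_pos hm hn v b)
  unfold HH
  positivity

/-- The conditions on the position. -/
structure Pos (K : ℕ) (m n x y h : ℤ) : Prop where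
  mn : m ≤ K * n
  nm : n ≤ K * m
  hh : 10 ≤ h
  y1 : 50 * h ≤ y
  y2 : y ≤ 100 * h
  x1 : 50 * h ≤ x
  x2 : x + 50 * h ≤ m
  y3 : y + 50 * h ≤ n

/-- One of the two probabilities is small. -/
def Good (m n x y h : ℤ) (C : ℝ) (a b : ℤ) : Prop :=
  P2 (RE 0 m 0 n) (BX m n a b (x, y) h) ≤ C * (HH m n a b (x, y)) ^ ((1 : ℝ) / 3) ∨
    P2 (RE 0 m 0 n) (BD m n a b (x, y) h) ≤ C * (HH m n a b (x, y)) ^ ((1 : ℝ) / 3)

theorem good_period {m n x y h : ℤ} {C : ℝ} {a b : ℤ} (k : ℤ)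
    (hg : Good m n x y h C (a + k * (2 * (m + n))) (b + k * (2 * (m + n)))) :
    Good m n x y h C a b := by
  unfold Good at hg ⊢
  rw [H731G.HH_period] at hg
  have e1 : P2 (RE 0 m 0 n) (BX m n (a + k * (2 * (m + n))) (b + k * (2 * (m + n))) (x, y) h) =
      P2 (RE 0 m 0 n) (BX m n a b (x, y) h) :=
    congrArg (P2 (RE 0 m 0 n)) (funext fun F =>
      propext (H731G.ev_period a b k (x, y) (x, y) h F).2.2.1)
  have e2 : P2 (RE 0 m 0 n) (BD m n (a + k * (2 * (m + n))) (b + k * (2 * (m + n))) (x, y) h) =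
      P2 (RE 0 m 0 n) (BD m n a b (x, y) h) :=
    congrArg (P2 (RE 0 m 0 n)) (funext fun F =>
      propext (H731G.ev_period a b k (x, y) (x, y) h F).2.2.2)
  rw [e1, e2] at hg
  exact hg

theorem good_mono {K : ℕ} {m n x y h : ℤ} (hp : Pos K m n x y h) {C C' : ℝ} {a b : ℤ}
    (hC : C ≤ C') (hg : Good m n x y h C a b) : Good m n x y h C' a b := by
  obtain ⟨_, _, _, _, _, _, _, _⟩ := hp
  have h0 : 0 ≤ (HH m n a b (x, y)) ^ ((1 : ℝ) / 3) :=
    Real.rpow_nonneg (HH_pos (by omega) (by omega) a b (by show 0 ≤ x; omega)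
      (by show x ≤ m; omega) (by show 0 ≤ y; omega) (by show y ≤ n; omega)).le _
  rcases hg with hg | hg
  · exact Or.inl (hg.trans (mul_le_mul_of_nonneg_right hC h0))
  · exact Or.inr (hg.trans (mul_le_mul_of_nonneg_right hC h0))

theorem st_bot {m n : ℤ} (hm : 2 ≤ m) (hn : 2 ≤ n) {i : ℤ} (h0 : 0 ≤ i) (h1 : i < m) :
    st m n i = i := by
  have h := Star.st_eq (m := m) (n := n) 0 i h0 (by omega)
  have h2 := Star.dlt_spec hm hn i
  rw [zero_mul, add_zero, mul_zero, zero_add] at h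
  omega

/-- the dual bound -/
theorem dual (K : ℕ) : ∃ C : ℝ, 0 < C ∧ ∀ m n a b x y h : ℤ, Pos K m n x y h → a ≤ b →
    b < a + 2 * (m + n) →
    ((a ≤ x - 4 * h ∧ x + 4 * h ≤ b) ∨
      (x - 5 * h ≤ b ∧ a + 2 * (m + n) ≤ x + 5 * h ∧ a + 2 * (m + n) - b ≤ h)) →
    P2 (RE 0 m 0 n) (BD m n a b (x, y) h) ≤ C * (HH m n a b (x, y)) ^ ((1 : ℝ) / 3) := by
  obtain ⟨C4, hC4, H4⟩ := H731G.BX_upper (2 * K)
  obtain ⟨C5, hC5, H5⟩ := H731G.HH_star
  refine ⟨C4 * C5 ^ ((1 : ℝ) / 3), by positivity, ?_⟩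
  intro m n a b x y h hp hab hba hcase
  obtain ⟨mn, nm, hh, y1, y2, x1, x2, y3⟩ := hp
  have hm : 2 ≤ m := by omega
  have hn : 2 ≤ n := by omega
  have hK : (0 : ℤ) ≤ K := Int.natCast_nonneg K
  have hmono := Star.st_mono hm hn
  have h1 := H731G.BD_le (m := m) (n := n) (a := a) (b := b) (h := h) (v := (x, y)) hm hn
    (by omega) hab hba (by show h + 1 ≤ x; omega) (by show x + h + 1 ≤ m; omega)
    (by show h + 1 ≤ y; omega) (by show y + h + 1 ≤ n; omega)
  have hAB : st m n b ≤ st m n (a + 2 * (m + n) - 1) := hmono (by omega)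
  have k1 : m - 1 ≤ ((2 * K : ℕ) : ℤ) * (n - 1) := by
    push_cast
    nlinarith
  have k2 : n - 1 ≤ ((2 * K : ℕ) : ℤ) * (m - 1) := by
    push_cast
    nlinarith
  have h2 := H4 (m - 1) (n - 1) (st m n b) (st m n (a + 2 * (m + n) - 1)) x y (h + 1) k1 k2
    (by omega) (by omega) (by omega) (by omega) (by omega) (by omega) hAB (by
      rcases hcase with ⟨c1, c2⟩ | ⟨c1, c2, c3⟩
      · left
        have e1 : st m n (x + 4 * h) = x + 4 * h := st_bot hm hn (by omega) (by omega)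
        have e2 : st m n (x + 4 * h) ≤ st m n b := hmono c2
        have e3 : st m n (a + 2 * (m + n) - 1) = st m n (a - 1) + 2 * ((m - 1) + (n - 1)) := by
          have := st_period hm hn (a - 1)
          rw [← this]
          congr 1
          ring
        have e4 : st m n (a - 1) ≤ st m n (x - 4 * h) := hmono (by omega)
        have e5 : st m n (x - 4 * h) = x - 4 * h := st_bot hm hn (by omega) (by omega)
        have e6 : st m n (a - 1) ≤ st m n (x - 4 * h - 1) := hmono (by omega)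
        have e7 : st m n (x - 4 * h - 1) = x - 4 * h - 1 := st_bot hm hn (by omega) (by omega)
        constructor
        · omega
        · omega
      · right
        have e1 : st m n (x - 5 * h) = x - 5 * h := st_bot hm hn (by omega) (by omega)
        have e2 : st m n (x - 5 * h) ≤ st m n b := hmono c1
        have e3 : st m n (x + 5 * h) = x + 5 * h := st_bot hm hn (by omega) (by omega)
        have e4 : st m n (a + 2 * (m + n) - 1) ≤ st m n (x + 5 * h) := hmono (by omega)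
        have e5 := Star.st_abs hm hn b (a + 2 * (m + n) - 1)
        rw [abs_of_nonneg (by omega), abs_of_nonneg (by omega)] at e5
        refine ⟨by omega, by omega, by omega⟩)
  have h3 := (H5 m n a b (x, y) (x, y) (by omega) (by omega) (by show 1 ≤ x; omega)
    (by show x + 2 ≤ m; omega) (by show 1 ≤ y; omega) (by show y + 2 ≤ n; omega)
    (by simp) (by simp) (by show 0 ≤ x; omega) (by show x + 1 ≤ m; omega)
    (by show 0 ≤ y; omega) (by show y + 1 ≤ n; omega)).1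
  have p0 := HH_pos (m := m - 1) (n := n - 1) (by omega) (by omega) (st m n b)
    (st m n (a + 2 * (m + n) - 1)) (v := (x, y)) (by show 0 ≤ x; omega)
    (by show x ≤ m - 1; omega) (by show 0 ≤ y; omega) (by show y ≤ n - 1; omega)
  have p1 := HH_pos (m := m) (n := n) (by omega) (by omega) a b (v := (x, y))
    (by show 0 ≤ x; omega) (by show x ≤ m; omega) (by show 0 ≤ y; omega) (by show y ≤ n; omega)
  have h4 := Real.rpow_le_rpow p0.le h3 (show (0 : ℝ) ≤ 1 / 3 by norm_num)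
  rw [Real.mul_rpow hC5.le p1.le] at h4
  calc P2 (RE 0 m 0 n) (BD m n a b (x, y) h) ≤ _ := h1
    _ ≤ _ := h2
    _ ≤ C4 * (C5 ^ ((1 : ℝ) / 3) * (HH m n a b (x, y)) ^ ((1 : ℝ) / 3)) :=
        mul_le_mul_of_nonneg_left h4 hC4.le
    _ = _ := by ring

/-- One of the two probabilities is small if one end is near the foot. -/
theorem good_near (K : ℕ) : ∃ C : ℝ, 0 < C ∧ ∀ m n a b x y h : ℤ, Pos K m n x y h → a ≤ b →
    b < a + 2 * (m + n) → (|a - x| < 4 * h ∨ |b - x| < 4 * h) → Good m n x y h C a b := by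
  obtain ⟨C4, hC4, H4⟩ := H731G.BX_upper K
  obtain ⟨CD, hCD, HD⟩ := dual K
  obtain ⟨c6, hc6, H6⟩ := H731G.HH_big K
  refine ⟨C4 + CD + (c6 ^ ((1 : ℝ) / 3))⁻¹, by positivity, ?_⟩
  intro m n a b x y h hp hab hba hnear
  have hp' := hp
  obtain ⟨mn, nm, hh, y1, y2, x1, x2, y3⟩ := hp
  have i6 : 0 < (c6 ^ ((1 : ℝ) / 3))⁻¹ := by positivity
  by_cases h1 : b - a ≤ h
  · -- a small wired arc
    refine good_mono hp' (C := C4) (by linarith) (Or.inl ?_)
    refine H4 m n a b x y h mn nm (by omega) (by omega) (by omega) (by omega) (by omega)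
      (by omega) hab (Or.inr ?_)
    rcases hnear with h2 | h2
    · rw [abs_lt] at h2
      refine ⟨by omega, by omega, by omega⟩
    · rw [abs_lt] at h2
      refine ⟨by omega, by omega, by omega⟩
  by_cases h2 : a + 2 * (m + n) - b ≤ h
  · -- a small free arc
    refine good_mono hp' (C := CD) (by linarith) ?_
    rcases hnear with h3 | h3
    · rw [abs_lt] at h3
      refine good_period (-1) (Or.inr ?_)
      refine HD m n _ _ x y h hp' (by omega) (by omega) (Or.inr ⟨by omega, by omega, by omega⟩)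
    · rw [abs_lt] at h3
      refine Or.inr ?_
      refine HD m n _ _ x y h hp' (by omega) (by omega) (Or.inr ⟨by omega, by omega, by omega⟩)
  · -- no small arc
    have h3 := H6 m n a b x y h mn nm (by omega) (by omega) (by omega) (by omega) (by omega)
      (by omega) (by omega) (by omega) (by
        rcases hnear with h3 | h3
        · exact Or.inl (by omega)
        · exact Or.inr (by omega))
    have h4 := Real.rpow_le_rpow hc6.le h3 (show (0 : ℝ) ≤ 1 / 3 by norm_num)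
    have h5 : 0 < c6 ^ ((1 : ℝ) / 3) := by positivity
    refine good_mono hp' (C := (c6 ^ ((1 : ℝ) / 3))⁻¹) (by linarith) (Or.inl ?_)
    refine (P2_le_one _ _).trans ?_
    rw [← div_eq_inv_mul, le_div_iff₀ h5, one_mul]
    exact h4

/-- One of the two probabilities is small. -/
theorem good (K : ℕ) : ∃ C : ℝ, 0 < C ∧ ∀ m n a b x y h : ℤ, Pos K m n x y h → a ≤ b →
    b < a + 2 * (m + n) → Good m n x y h C a b := by
  obtain ⟨C4, hC4, H4⟩ := H731G.BX_upper K
  obtain ⟨CD, hCD, HD⟩ := dual K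
  obtain ⟨CN, hCN, HN⟩ := good_near K
  refine ⟨C4 + CD + CN, by positivity, ?_⟩
  have key : ∀ m n a b x y h : ℤ, Pos K m n x y h → a ≤ b → b < a + 2 * (m + n) → x < b →
      b ≤ x + 2 * (m + n) → Good m n x y h (C4 + CD + CN) a b := by
    intro m n a b x y h hp hab hba hb1 hb2
    have hp' := hp
    obtain ⟨mn, nm, hh, y1, y2, x1, x2, y3⟩ := hp
    by_cases c1 : x + 4 * h ≤ a ∧ b ≤ x + 2 * (m + n) - 4 * h
    · refine good_mono hp' (C := C4) (by linarith) (Or.inl ?_)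
      exact H4 m n a b x y h mn nm (by omega) (by omega) (by omega) (by omega) (by omega)
        (by omega) hab (Or.inl ⟨by omega, by omega⟩)
    by_cases c2 : a ≤ x - 4 * h ∧ x + 4 * h ≤ b
    · refine good_mono hp' (C := CD) (by linarith) (Or.inr ?_)
      exact HD m n a b x y h hp' hab hba (Or.inl c2)
    refine good_mono hp' (C := CN) (by linarith) ?_
    by_cases c3 : a < x + 4 * h
    · refine HN m n a b x y h hp' hab hba ?_
      by_cases c4 : x - 4 * h < a
      · exact Or.inl (by rw [abs_lt]; omega)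
      · exact Or.inr (by rw [abs_lt]; omega)
    · refine good_period (-1) ?_
      refine HN m n _ _ x y h hp' (by omega) (by omega) (Or.inr ?_)
      rw [abs_lt]
      omega
  intro m n a b x y h hp hab hba
  have hp' := hp
  obtain ⟨mn, nm, hh, y1, y2, x1, x2, y3⟩ := hp
  obtain ⟨k, h0, h1, h2⟩ := emod_spec (N := 2 * (m + n)) (by omega) (b - x - 1)
  refine good_period (-k) ?_
  generalize (b - x - 1) % (2 * (m + n)) = r at h0 h1 h2
  have e : -k * (2 * (m + n)) = -(k * (2 * (m + n))) := by ring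
  rw [e]
  generalize k * (2 * (m + n)) = q at h0
  exact key m n _ _ x y h hp' (by omega) (by omega) (by omega) (by omega)

end UA

open UA in
theorem on_upper_bot (hA : H934F.St_A) (K : ℕ) : ∃ C : ℝ, 0 < C ∧ ∀ m n a b x y h : ℤ,
    m ≤ K * n → n ≤ K * m → 10 ≤ h → 50 * h ≤ y → y ≤ 100 * h → 50 * h ≤ x → x + 50 * h ≤ m →
    y + 50 * h ≤ n → a ≤ b → b < a + 2 * (m + n) →
    P2 (RE 0 m 0 n) (OnV m n a b (x, y)) ≤
      C * ((h : ℝ) ^ (-(1/4) : ℝ) * (HH m n a b (x, y)) ^ ((1 : ℝ) / 3)) := by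
  obtain ⟨C1, hC1, H1⟩ := H731G.two_arm_outer hA
  obtain ⟨C, hC, HG⟩ := UA.good K
  refine ⟨4 * (C1 * C), by positivity, ?_⟩
  intro m n a b x y h mn nm hh y1 y2 x1 x2 y3 hab hba
  have hg := HG m n a b x y h ⟨mn, nm, hh, y1, y2, x1, x2, y3⟩ hab hba
  have hpos : (0 : ℝ) ≤ C1 * (h : ℝ) ^ (-(1/4) : ℝ) := by
    have : (0 : ℝ) ≤ h := by exact_mod_cast (by omega : (0 : ℤ) ≤ h)
    positivity
  have hf : ∀ f : Vtx, cor (x, y) f → P2 (RE 0 m 0 n) (On m n a b (x, y) f) ≤
      C1 * (h : ℝ) ^ (-(1/4) : ℝ) * (C * (HH m n a b (x, y)) ^ ((1 : ℝ) / 3)) := by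
    intro f hfc
    obtain ⟨g1, g2⟩ := H1 m n a b h (x, y) f (by omega) hab hba (by show h ≤ x; omega)
      (by show x + h ≤ m; omega) (by show h ≤ y; omega) (by show y + h ≤ n; omega) hfc
    rcases hg with hg | hg
    · exact g1.trans (mul_le_mul_of_nonneg_left hg hpos)
    · exact g2.trans (mul_le_mul_of_nonneg_left hg hpos)
  have hsub : ∀ F : Finset Edg, OnV m n a b (x, y) F →
      (((On m n a b (x, y) (x, y) F ∨ On m n a b (x, y) (x, y - 1) F) ∨
        On m n a b (x, y) (x - 1, y) F) ∨ On m n a b (x, y) (x - 1, y - 1) F) := by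
    rintro F ⟨hv, ⟨f1, f2⟩, hc, hfb⟩
    obtain ⟨hc1, hc2⟩ := hc
    simp only at hc1 hc2
    rcases hc1 with rfl | rfl <;> rcases hc2 with rfl | rfl
    · exact Or.inl (Or.inl (Or.inl ⟨hv, hfb⟩))
    · exact Or.inl (Or.inl (Or.inr ⟨hv, hfb⟩))
    · exact Or.inl (Or.inr ⟨hv, hfb⟩)
    · exact Or.inr ⟨hv, hfb⟩
  have t1 := hf (x, y) ⟨Or.inl rfl, Or.inl rfl⟩
  have t2 := hf (x, y - 1) ⟨Or.inl rfl, Or.inr rfl⟩
  have t3 := hf (x - 1, y) ⟨Or.inr rfl, Or.inl rfl⟩
  have t4 := hf (x - 1, y - 1) ⟨Or.inr rfl, Or.inr rfl⟩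
  have s1 := P2_mono (S := RE 0 m 0 n) hsub
  have s2 := P2_or (RE 0 m 0 n) (fun F => (On m n a b (x, y) (x, y) F ∨
    On m n a b (x, y) (x, y - 1) F) ∨ On m n a b (x, y) (x - 1, y) F)
    (On m n a b (x, y) (x - 1, y - 1))
  have s3 := P2_or (RE 0 m 0 n) (fun F => On m n a b (x, y) (x, y) F ∨
    On m n a b (x, y) (x, y - 1) F) (On m n a b (x, y) (x - 1, y))
  have s4 := P2_or (RE 0 m 0 n) (On m n a b (x, y) (x, y)) (On m n a b (x, y) (x, y - 1))
  calc P2 (RE 0 m 0 n) (OnV m n a b (x, y)) ≤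
      4 * (C1 * (h : ℝ) ^ (-(1/4) : ℝ) * (C * (HH m n a b (x, y)) ^ ((1 : ℝ) / 3))) := by
        linarith
    _ = _ := by ring

end H731G
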