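import Pool.Agent.H731R5.Gr.LF
import Pool.Agent.H731R5.Gr.RO
import Pool.Agent.H731R5.Gr.UA

/-!
One-point function of the exploration path in a rectangle, up to constants.
-/

set_option autoImplicit false

namespace H731G

open H974 hiding bd
open H731C H731R H731A Finset

theorem HH_nonneg {m n a b : ℤ} (hm : 1 ≤ m) (hn : 1 ≤ n) {v : Vtx} (h1 : 0 ≤ v.1 ∧ v.1 ≤ m)
    (h2 : 0 ≤ v.2 ∧ v.2 ≤ n) : 0 ≤ HH m n a b v := by
  unfold HH
  have e1 : (0 : ℝ) < (sv m n v a : ℝ) := by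
    have := sv_pos hm hn v a
    exact_mod_cast (by omega : (0:ℤ) < sv m n v a)
  have e2 : (0 : ℝ) < (sv m n v b : ℝ) := by
    have := sv_pos hm hn v b
    exact_mod_cast (by omega : (0:ℤ) < sv m n v b)
  have e3 : (0 : ℝ) ≤ (px m v : ℝ) := by
    have := px_pos h1.1 h1.2
    exact_mod_cast (by omega : (0:ℤ) ≤ px m v)
  have e4 : (0 : ℝ) ≤ (py n v : ℝ) := by
    have := py_pos h2.1 h2.2
    exact_mod_cast (by omega : (0:ℤ) ≤ py n v)
  have e5 : (0 : ℝ) ≤ (sz m n a b : ℝ) := by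
    have := sz_pos hm hn a b
    exact_mod_cast (by omega : (0:ℤ) ≤ sz m n a b)
  positivity

theorem pow_comp {h r : ℤ} (hh : 1 ≤ h) (h1 : h ≤ r) (h2 : r ≤ 256 * h) :
    (r : ℝ) ^ (-(1/4) : ℝ) ≤ (h : ℝ) ^ (-(1/4) : ℝ) ∧
      (h : ℝ) ^ (-(1/4) : ℝ) ≤ 4 * (r : ℝ) ^ (-(1/4) : ℝ) := by
  have e1 : (0 : ℝ) < (h : ℝ) := by exact_mod_cast (by omega : (0:ℤ) < h)
  have e2 : (h : ℝ) ≤ r := by exact_mod_cast h1
  have e3 : (r : ℝ) ≤ 256 * h := by exact_mod_cast h2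
  have e0 : (0 : ℝ) < (r : ℝ) := by linarith
  constructor
  · exact Real.rpow_le_rpow_of_nonpos e1 e2 (by norm_num)
  · have e4 : (r : ℝ) / 256 ≤ h := by linarith
    have e5 : (h : ℝ) ^ (-(1/4) : ℝ) ≤ ((r : ℝ) / 256) ^ (-(1/4) : ℝ) :=
      Real.rpow_le_rpow_of_nonpos (by positivity) e4 (by norm_num)
    have e6 : ((r : ℝ) / 256) ^ (-(1/4) : ℝ) = 4 * (r : ℝ) ^ (-(1/4) : ℝ) := by
      rw [Real.div_rpow e0.le (by norm_num)]
      have : (256 : ℝ) ^ (-(1/4) : ℝ) = 1 / 4 := by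
        rw [show (256 : ℝ) = 4 ^ (4 : ℝ) by norm_num, ← Real.rpow_mul (by norm_num)]
        norm_num
      rw [this]
      ring
    linarith

theorem green' (hA : H934F.St_A) (hL : H934F.St_L) (K : ℕ) : ∃ (c C : ℝ),
    0 < c ∧ 0 < C ∧ ∀ (m n a b : ℤ) (v : Vtx), m ≤ K * n → n ≤ K * m → a ≤ b →
    b < a + 2 * (m + n) → 4001 ≤ px m v → 4001 ≤ py n v →
    c * (((min (px m v) (py n v) : ℤ) : ℝ) ^ (-(1/4) : ℝ) * HH m n a b v ^ ((1 : ℝ) / 3)) ≤
        P2 (RE 0 m 0 n) (OnV m n a b v) ∧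
      P2 (RE 0 m 0 n) (OnV m n a b v) ≤
        C * (((min (px m v) (py n v) : ℤ) : ℝ) ^ (-(1/4) : ℝ) *
          HH m n a b v ^ ((1 : ℝ) / 3)) := by
  obtain ⟨c, hc, lo⟩ := H731G.on_lower_bot hL K
  obtain ⟨C, hC, up⟩ := H731G.on_upper_bot hA K
  refine ⟨c, C * 4, hc, by positivity, ?_⟩
  intro m n a b v hmn hnm hab hba hx hy
  have hv1 : 4000 ≤ v.1 ∧ 4000 ≤ m - v.1 := by unfold px at hx; omega
  have hv2 : 4000 ≤ v.2 ∧ 4000 ≤ n - v.2 := by unfold py at hy; omega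
  obtain ⟨s, m', n', x, y, hmn', hyr, hyx, hxy, hyn, hP, hH⟩ :=
    H731G.OnV_bottom (m := m) (n := n) (by omega) (by omega) v (by omega) (by omega)
  have hy' : 4000 ≤ y := by omega
  have hmK : m' ≤ K * n' := by rcases hmn' with ⟨rfl, rfl⟩ | ⟨rfl, rfl⟩ <;> assumption
  have hnK : n' ≤ K * m' := by rcases hmn' with ⟨rfl, rfl⟩ | ⟨rfl, rfl⟩ <;> assumption
  have hsum : m' + n' = m + n := by omega
  have hHn : 0 ≤ HH m' n' (a - s) (b - s) (x, y) :=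
    HH_nonneg (by omega) (by omega) ⟨by simp only; omega, by simp only; omega⟩
      ⟨by simp only; omega, by simp only; omega⟩
  have hHp : 0 ≤ HH m' n' (a - s) (b - s) (x, y) ^ ((1 : ℝ) / 3) := Real.rpow_nonneg hHn _
  rw [hP a b, hH a b, ← hyr]
  constructor
  · have hl := lo m' n' (a - s) (b - s) x y (y / 4000) hmK hnK (by omega) (by omega) (by omega)
      (by omega) (by omega) (by omega) (by omega) (by rw [hsum]; omega)
    refine le_trans ?_ hl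
    have h1 : (((y + 1 : ℤ)) : ℝ) ^ (-(1/4) : ℝ) ≤ ((y / 4000 : ℤ) : ℝ) ^ (-(1/4) : ℝ) := by
      apply Real.rpow_le_rpow_of_nonpos
      · exact_mod_cast (by omega : (0:ℤ) < y / 4000)
      · exact_mod_cast (by omega : y / 4000 ≤ y + 1)
      · norm_num
    exact mul_le_mul_of_nonneg_left (mul_le_mul_of_nonneg_right h1 hHp) hc.le
  · have hu := up m' n' (a - s) (b - s) x y (y / 50) hmK hnK (by omega) (by omega) (by omega)
      (by omega) (by omega) (by omega) (by omega) (by rw [hsum]; omega)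
    refine le_trans hu ?_
    have h1 := (pow_comp (h := y / 50) (r := y + 1) (by omega) (by omega) (by omega)).2
    calc C * (((y / 50 : ℤ) : ℝ) ^ (-(1/4) : ℝ) * HH m' n' (a - s) (b - s) (x, y) ^ ((1 : ℝ) / 3))
        ≤ C * ((4 * ((y + 1 : ℤ) : ℝ) ^ (-(1/4) : ℝ)) *
            HH m' n' (a - s) (b - s) (x, y) ^ ((1 : ℝ) / 3)) :=
          mul_le_mul_of_nonneg_left (mul_le_mul_of_nonneg_right h1 hHp) hC.le
      _ = _ := by ring

end H731G
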