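import Pool.Agent.H731R5.Gr.HS

/-!
Task HB: bounds of the cross-ratio.
-/

set_option autoImplicit false

namespace H731G

open H974 hiding bd
open H731C H731R H731A Finset

namespace HB

/-- an end near the foot of `v` -/
theorem near {m n x y h e : ℤ} (hh : 1 ≤ h) (hx : 20 * h ≤ x) (hx' : x + 20 * h ≤ m)
    (hy : 20 * h ≤ y) (hy' : y + 20 * h ≤ n) (he : |e - x| ≤ 10 * h) :
    bd m n e = (e, 0) ∧ ds m n (x, y) e = y + 1 ∧ rho m n e ≤ px m (x, y) + 10 * h ∧
      px m (x, y) ≤ rho m n e + 10 * h + 1 := by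
  have hm : 1 ≤ m := by omega
  have hn : 1 ≤ n := by omega
  have he' := abs_le.1 he
  have b := bd_bot (m := m) (n := n) (i := e) hm hn (by omega) (by omega)
  have r := rho_bot (m := m) (n := n) (i := e) hm hn (by omega) (by omega)
  refine ⟨b, ?_, ?_, ?_⟩
  · unfold ds
    rw [b]
    simp only [sub_zero]
    rw [abs_sub_comm, abs_of_nonneg (show 0 ≤ y by omega), max_eq_right (by omega)]
  · rw [r]; unfold px; simp only; omega
  · rw [r]; unfold px; simp only; omega

theorem core_big {m n a b x y h : ℤ} (hh : 1 ≤ h) (hy : 20 * h ≤ y) (hy2 : y ≤ 200 * h)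
    (hx : 20 * h ≤ x) (hx' : x + 20 * h ≤ m) (hy' : y + 20 * h ≤ n)
    (hcd : h ≤ cd (2 * (m + n)) (b - a)) (ha : |a - x| ≤ 10 * h) :
    (1 / (143 * 202 ^ 2) : ℝ) ≤ HH m n a b (x, y) := by
  have hm : 1 ≤ m := by omega
  have hn : 1 ≤ n := by omega
  have hN : 0 < 2 * (m + n) := by omega
  obtain ⟨e1, e2, e3, e4⟩ := near hh hx hx' hy hy' ha
  have p1 : 20 * h ≤ px m (x, y) := by unfold px; simp only; omega
  have p2 : 20 * h ≤ py n (x, y) := by unfold py; simp only; omega
  have ra := rho_nonneg hm hn a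
  have rb := rho_nonneg hm hn b
  -- first factor
  have f1 : sv m n (x, y) a ≤ 143 * (px m (x, y) * py n (x, y)) := by
    unfold sv
    rw [e2]
    calc (y + 1) * (y + 1 + rho m n a) ≤ (11 * py n (x, y)) * (13 * px m (x, y)) :=
          mul_le_mul (by omega) (by omega) (by omega) (by omega)
      _ = 143 * (px m (x, y) * py n (x, y)) := by ring
  -- second factor
  have l := bd_lip hm hn a b
  rw [← cd_neg hN, neg_sub, e1] at l
  have dsb : ds m n (x, y) b ≤ 202 * cd (2 * (m + n)) (b - a) := by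
    unfold ds
    generalize cd (2 * (m + n)) (b - a) = t at *
    generalize bd m n b = q at *
    obtain ⟨q1, q2⟩ := q
    simp only at *
    have l1 := abs_le.1 l.1
    have l2 := abs_le.1 l.2
    have l3 := abs_le.1 ha
    have a1 : |x - q1| ≤ 201 * t := by rw [abs_le]; omega
    have a2 : |y - q2| ≤ 201 * t := by rw [abs_le]; omega
    omega
  have f2 : sv m n (x, y) b ≤ 202 ^ 2 * sz m n a b := by
    have d := ds_pos m n (x, y) b
    unfold sv sz
    generalize cd (2 * (m + n)) (b - a) = t at *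
    generalize ds m n (x, y) b = D at *
    calc D * (D + rho m n b) ≤ (202 * (t + 1)) * (202 * (t + 1 + rho m n a + rho m n b)) :=
          mul_le_mul (by omega) (by omega) (by omega) (by omega)
      _ = 202 ^ 2 * ((t + 1) * (t + 1 + rho m n a + rho m n b)) := by ring
  have u1 := sv_pos hm hn (x, y) a
  have u2 := sv_pos hm hn (x, y) b
  have z := sz_pos hm hn a b
  unfold HH
  generalize px m (x, y) = X at *
  generalize py n (x, y) = Y at *
  generalize sz m n a b = Z at *
  generalize sv m n (x, y) a = U at *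
  generalize sv m n (x, y) b = V at *
  have hU : (0 : ℝ) < U := by exact_mod_cast u1
  have hV : (0 : ℝ) < V := by exact_mod_cast u2
  have hZ : (0 : ℝ) < Z := by exact_mod_cast z
  have g1 : (U : ℝ) ≤ 143 * (X * Y) := by exact_mod_cast f1
  have g2 : (V : ℝ) ≤ 202 ^ 2 * Z := by exact_mod_cast f2
  rw [div_le_div_iff₀ (by norm_num) (by positivity)]
  have hXY : (0 : ℝ) ≤ 143 * (X * Y) := hU.le.trans g1
  calc 1 * ((U : ℝ) * V) = U * V := one_mul _
    _ ≤ (143 * (X * Y)) * (202 ^ 2 * Z) := mul_le_mul g1 g2 hV.le hXY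
    _ = X * Y * Z * (143 * 202 ^ 2) := by ring

theorem core_le {K L : ℕ} {m n a b x y h : ℤ} (hmn : m ≤ K * n) (hnm : n ≤ K * m) (hh : 1 ≤ h)
    (hy : 20 * h ≤ y) (hy2 : y ≤ L * h)
    (hx : 20 * h ≤ x) (hx' : x + 20 * h ≤ m) (hy' : y + 20 * h ≤ n)
    (ha : |a - x| ≤ 10 * h) :
    HH m n a b (x, y) ≤ 2 * (((K : ℝ) + 2) * (L + 1) + 1) ^ 2 := by
  have hm : 1 ≤ m := by omega
  have hn : 1 ≤ n := by omega
  have hN : 0 < 2 * (m + n) := by omega
  have hK : (0 : ℤ) ≤ K := Int.natCast_nonneg K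
  have hL : (0 : ℤ) ≤ L := Int.natCast_nonneg L
  obtain ⟨e1, e2, e3, e4⟩ := near hh hx hx' hy hy' ha
  have p1 : 20 * h ≤ px m (x, y) := by unfold px; simp only; omega
  have p2 : 20 * h ≤ py n (x, y) := by unfold py; simp only; omega
  have p3 : py n (x, y) ≤ y + 1 := by unfold py; simp only; omega
  have ra := rho_nonneg hm hn a
  have rb := rho_nonneg hm hn b
  have f1 : px m (x, y) * py n (x, y) ≤ sv m n (x, y) a := by
    unfold sv
    rw [e2, mul_comm]
    exact mul_le_mul p3 (by omega) (by omega) (by omega)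
  -- distance of `v` to `b`
  have dlow : 20 * h + 1 ≤ ds m n (x, y) b := by
    obtain ⟨k, r, x', y', hb, hb', hc⟩ := Chord.coord hm hn b
    unfold ds
    rw [hb']
    simp only
    have a1 := le_abs_self (x - x')
    have a2 := neg_abs_le (x - x')
    have a3 := le_abs_self (y - y')
    have a4 := neg_abs_le (y - y')
    omega
  have hbx := bd_bot (m := m) (n := n) (i := x) hm hn (by omega) (by omega)
  have hds1 : |(bd m n b).1 - (bd m n x).1| ≤ ds m n (x, y) b + y := by
    rw [hbx, abs_sub_comm]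
    unfold ds
    simp only
    omega
  have hds2 : |(bd m n b).2 - (bd m n x).2| ≤ ds m n (x, y) b + y := by
    rw [hbx]
    unfold ds
    simp only [sub_zero]
    have a3 := le_abs_self (y - (bd m n b).2)
    have a4 := neg_abs_le (y - (bd m n b).2)
    rw [abs_le]
    omega
  have ch := chord hm hn hmn hnm b x _ hds1 hds2
  have f2 : sz m n a b ≤ 2 * ((K + 2) * (L + 1) + 1) ^ 2 * sv m n (x, y) b := by
    have c1 := cd_add hN (b - x) (x - a)
    rw [sub_add_sub_cancel] at c1
    have c2 := cd_le_abs hN (x - a)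
    rw [abs_sub_comm] at c2
    have c3 := rho_lip hm hn a b
    rw [← cd_neg hN, neg_sub] at c3
    have c4 := cd_nonneg hN (b - a)
    unfold sv sz
    generalize cd (2 * (m + n)) (b - a) = t at *
    generalize cd (2 * (m + n)) (b - x) = s at *
    generalize cd (2 * (m + n)) (x - a) = s' at *
    generalize ds m n (x, y) b = D at *
    generalize rho m n a = ra' at *
    generalize rho m n b = rb' at *
    have g1 : y ≤ L * D := hy2.trans (mul_le_mul_of_nonneg_left (by omega) hL)
    have g2 : s ≤ (K + 2) * ((L + 1) * D) := by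
      refine ch.trans (mul_le_mul_of_nonneg_left ?_ (by omega))
      linarith
    have g3 : t + 1 ≤ ((K + 2) * (L + 1) + 1) * D := by
      have : ((K + 2) * (L + 1) + 1) * D = (K + 2) * ((L + 1) * D) + D := by ring
      rw [this]
      omega
    set M : ℤ := (K + 2) * (L + 1) + 1 with hM
    have hM1 : 1 ≤ M := by
      rw [hM]
      nlinarith [mul_nonneg hK hL]
    have g4 : t + 1 + ra' + rb' ≤ 2 * (M * (D + rb')) := by
      have : rb' ≤ M * rb' := le_mul_of_one_le_left rb hM1
      have h3 : 2 * (M * (D + rb')) = 2 * (M * D) + 2 * (M * rb') := by ring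
      rw [h3]
      linarith
    calc (t + 1) * (t + 1 + ra' + rb') ≤ (M * D) * (2 * (M * (D + rb'))) :=
          mul_le_mul g3 g4 (by omega) (mul_nonneg (by omega) (by omega))
      _ = 2 * M ^ 2 * (D * (D + rb')) := by ring
  have u1 := sv_pos hm hn (x, y) a
  have u2 := sv_pos hm hn (x, y) b
  have z := sz_pos hm hn a b
  have hX : 0 < px m (x, y) := by omega
  have hY : 0 < py n (x, y) := by omega
  unfold HH
  generalize px m (x, y) = X at *
  generalize py n (x, y) = Y at *
  generalize sz m n a b = Z at *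
  generalize sv m n (x, y) a = U at *
  generalize sv m n (x, y) b = V at *
  have hU : (0 : ℝ) < U := by exact_mod_cast u1
  have hV : (0 : ℝ) < V := by exact_mod_cast u2
  have hZ : (0 : ℝ) < Z := by exact_mod_cast z
  have hXr : (0 : ℝ) < X := by exact_mod_cast hX
  have hYr : (0 : ℝ) < Y := by exact_mod_cast hY
  have g1 : (X : ℝ) * Y ≤ U := by exact_mod_cast f1
  have g2 : (Z : ℝ) ≤ 2 * (((K : ℝ) + 2) * (L + 1) + 1) ^ 2 * V := by exact_mod_cast f2
  rw [div_le_iff₀ (by positivity)]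
  calc (X : ℝ) * Y * Z ≤ U * (2 * (((K : ℝ) + 2) * (L + 1) + 1) ^ 2 * V) :=
        mul_le_mul g1 g2 hZ.le hU.le
    _ = 2 * (((K : ℝ) + 2) * (L + 1) + 1) ^ 2 * (U * V) := by ring

end HB

/-- an end near the foot of `v`, both arcs of length at least `h`: the cross-ratio is not small -/
theorem HH_big (K : ℕ) : ∃ c : ℝ, 0 < c ∧ ∀ m n a b x y h : ℤ, m ≤ K * n → n ≤ K * m →
    1 ≤ h → 20 * h ≤ y → y ≤ 200 * h → 20 * h ≤ x → x + 20 * h ≤ m → y + 20 * h ≤ n →
    a + h ≤ b → b + h ≤ a + 2 * (m + n) → |a - x| ≤ 10 * h ∨ |b - x| ≤ 10 * h →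
    c ≤ HH m n a b (x, y) := by
  refine ⟨1 / (143 * 202 ^ 2), by norm_num, ?_⟩
  intro m n a b x y h _ _ hh hy hy2 hx hx' hy' hab hba hab'
  have hN : 0 < 2 * (m + n) := by omega
  have hcd : h ≤ cd (2 * (m + n)) (b - a) := by
    rw [cd_of_mem (by omega) (by omega) hN]
    omega
  rcases hab' with ha | hb
  · exact HB.core_big hh hy hy2 hx hx' hy' hcd ha
  · rw [HH_symm (by omega) (by omega)]
    exact HB.core_big hh hy hy2 hx hx' hy' (by rw [← cd_neg hN, neg_sub]; exact hcd) hb

/-- an end near the foot of `v`: the cross-ratio is bounded -/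
theorem HH_le (K L : ℕ) : ∃ C : ℝ, 0 < C ∧ ∀ m n a b x y h : ℤ, m ≤ K * n → n ≤ K * m →
    1 ≤ h → 20 * h ≤ y → y ≤ L * h → 20 * h ≤ x → x + 20 * h ≤ m → y + 20 * h ≤ n →
    |a - x| ≤ 10 * h ∨ |b - x| ≤ 10 * h → HH m n a b (x, y) ≤ C := by
  refine ⟨2 * (((K : ℝ) + 2) * (L + 1) + 1) ^ 2, by positivity, ?_⟩
  intro m n a b x y h hmn hnm hh hy hy2 hx hx' hy' hab
  rcases hab with ha | hb
  · exact HB.core_le hmn hnm hh hy hy2 hx hx' hy' ha
  · rw [HH_symm (by omega) (by omega)]
    exact HB.core_le hmn hnm hh hy hy2 hx hx' hy' hb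

end H731G
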