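import Pool.Agent.H731R5.Gr.Defs2
import Pool.Agent.H389R2.KP.Inf

/-!
The exploration path in the half-plane: definitions (with `Conf`, `perc`, `IsOpen`, `Joined`, `Cm`
of `H389KP`).
-/

set_option autoImplicit false

namespace H731G

open H974 hiding bd
open H731C H731R H731A Finset H389KP MeasureTheory

/-- The dual vertex `(x, y)` is the point `(x + 1 / 2, y - 1 / 2)`. `f` and `g` are the lower (left)
and upper (right) ends of a dual edge which crosses a closed edge or belongs to the positive dual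
half-line. -/
def DJoined (ω : Conf) (f g : ℤ × ℕ) : Prop :=
  (g = (f.1, f.2 + 1) ∧ ¬ IsOpen ω (f.1, f.2, true)) ∨
    (g = (f.1 + 1, f.2) ∧
      ((f.2 = 0 ∧ 0 ≤ f.1) ∨ (1 ≤ f.2 ∧ ¬ IsOpen ω (f.1 + 1, f.2 - 1, false))))

/-- The dual cluster of the positive dual half-line. -/
def Cp (ω : Conf) : Set (ℤ × ℕ) := {f | Relation.EqvGen (DJoined ω) (0, 0) f}

/-- The exploration path passes at the vertex `v`. -/
def Vis (ω : Conf) (v : ℤ × ℕ) : Prop :=
  v ∈ Cm ω ∧ ∃ f ∈ Cp ω, (v.1 = f.1 ∨ v.1 = f.1 + 1) ∧ (f.2 = v.2 ∨ f.2 = v.2 + 1)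

/-- Finite volume: `v` is joined to the negative half-axis, without using the axis. -/
def HVA (M : ℤ) (v : Vtx) (F : Finset Edg) : Prop :=
  ∃ p : ℤ, (-M ≤ p ∧ p ≤ 0) ∧ Reach (↑F ∩ ↑(VE (-M) M 0 M)) (p, 0) v

/-- Finite volume: the face `f` is joined to the faces above the positive half-axis. -/
def HFB (M : ℤ) (f : Vtx) (F : Finset Edg) : Prop :=
  ∃ p : ℤ, (0 ≤ p ∧ p < M) ∧ DReach ((↑F : Set Edg)ᶜ ∩ ↑(VE (-M) M 0 M)) (p, 0) f

/-- Finite volume: the path passes at `v` (`1 ≤ v.2`). -/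
def HV (M : ℤ) (v : Vtx) (F : Finset Edg) : Prop :=
  HVA M v F ∧ ∃ f, cor v f ∧ HFB M f F

end H731G
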