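import Pool.Agent.H731R5.Gr.HPDefs

/-!
The exploration path in the half-plane at all scales: definitions.
-/

set_option autoImplicit false

namespace H731G

open H974 hiding bd
open H731C H731R H731A Finset H389KP MeasureTheory

/-- Finite volume: the path passes at a vertex at distance at most `r` from `v`. -/
def HHit (M : ℤ) (v : Vtx) (r : ℤ) (F : Finset Edg) : Prop :=
  ∃ u : Vtx, (|u.1 - v.1| ≤ r ∧ |u.2 - v.2| ≤ r) ∧ HV M u F

/-- The event of the rectangle `[0, 2 M] × [0, M - 1]` at the vertex `v`: `v` is joined to the left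
half of the bottom side, a face at `v` is joined to the right half of the bottom side. -/
def HR (M : ℤ) (v : Vtx) (F : Finset Edg) : Prop :=
  ∃ f, cor v f ∧ On4 (2 * M) (M - 1) 0 M M (2 * M) v f F

/-- The same at a vertex at distance at most `r` from `v`. -/
def HRHit (M : ℤ) (v : Vtx) (r : ℤ) (F : Finset Edg) : Prop :=
  ∃ u : Vtx, (|u.1 - v.1| ≤ r ∧ |u.2 - v.2| ≤ r) ∧ HR M u F

/-- The path of the half-plane passes at a vertex at distance at most `r` from `(x, y)`. -/
def VisB (ω : Conf) (x : ℤ) (y r : ℕ) : Prop :=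
  ∃ u : ℤ × ℕ, (|u.1 - x| ≤ r ∧ |(u.2 : ℤ) - y| ≤ r) ∧ Vis ω u

end H731G
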