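import Pool.Agent.H731R5.Gr.HPDefs
import Pool.Agent.H731R4.Arcs.DTra

/-! Task P2a: upper comparison of the half-plane with a rectangle (helper228). -/

set_option autoImplicit false

namespace H731G

open H974 hiding bd
open H731C H731R H731A Finset H389KP MeasureTheory

namespace P2a

theorem trl_dadj (s t : ℤ) {F : Set Edg} {u v : Vtx} (h : DAdj F u v) :
    DAdj ((trl s t).φ '' F) ((trl s t).ψ u) ((trl s t).ψ v) := by
  obtain ⟨e, he, hcase⟩ := h
  refine ⟨(trl s t).φ e, Set.mem_image_of_mem _ he, ?_⟩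
  have h1 : dsrc ((trl s t).φ e) = (trl s t).ψ (dsrc e) := by
    obtain ⟨x, y, _ | _⟩ := e
    · rw [trl_φ, dsrc_false, dsrc_false, trl_ψ]
      ext <;> simp only; ring
    · rw [trl_φ, dsrc_true, dsrc_true, trl_ψ]
      ext <;> simp only; ring
  have h2 : dtgt ((trl s t).φ e) = (trl s t).ψ (dtgt e) := by
    obtain ⟨x, y, b⟩ := e
    rfl
  rcases hcase with ⟨h3, h4⟩ | ⟨h3, h4⟩ <;> rw [h1, h2, h3, h4] <;> simp

theorem trl_dreach (s t : ℤ) {F : Set Edg} {u v : Vtx} (h : DReach F u v) :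
    DReach ((trl s t).φ '' F) ((trl s t).ψ u) ((trl s t).ψ v) := by
  induction h with
  | refl => exact Relation.ReflTransGen.refl
  | tail _ hs ih => exact ih.tail (trl_dadj s t hs)

/-- a translated dual path avoids the translated configuration -/
theorem sym_dreach (s t : ℤ) {F R R' : Finset Edg} (hR : (trl s t).mp R = R') {u v : Vtx}
    (h : DReach ((↑F : Set Edg)ᶜ ∩ ↑R) u v) :
    DReach ((↑((trl s t).mp F) : Set Edg)ᶜ ∩ ↑R') ((trl s t).ψ u) ((trl s t).ψ v) := by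
  have e : ((↑((trl s t).mp F) : Set Edg)ᶜ ∩ ↑R') =
      (trl s t).φ '' ((↑F : Set Edg)ᶜ ∩ ↑R) := by
    rw [← hR, LSym.coe_mp, LSym.coe_mp, Set.image_inter (trl s t).φ.injective,
      Set.image_compl_eq (trl s t).φ.bijective]
  rw [e]
  exact trl_dreach s t h

theorem P2_closed {S : Finset Edg} {e : Edg} (he : e ∈ S) :
    P2 S (fun F => e ∉ F) = 1/2 := by
  have h1 := P2_edge he
  have h2 : P2 S (fun F => e ∉ F) = 1 - P2 S (fun F => e ∈ F) := by
    unfold P2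
    rw [Pr_not]
  rw [h2, h1]
  norm_num

theorem ofc_bot' {m n i : ℤ} (hm : 1 ≤ m) (hn : 1 ≤ n) (h0 : 0 ≤ i) (h1 : i < m) :
    ofc m n i = (i, -1) := by
  unfold ofc
  rw [Int.emod_eq_of_lt h0 (by omega), if_pos h1]

/-- deterministic part -/
theorem det {M x y : ℤ} (hM : 1 ≤ M) {A B : Finset Edg} (hA : A ⊆ VE (-M) M 0 M)
    {p p' : ℤ} {f : Vtx} (hp' : -M ≤ p' ∧ p' ≤ 0)
    (hr : Reach (↑A ∩ ↑(VE (-M) M 0 M)) (p', 0) (x, y)) (hf : cor (x, y) f)
    (hp : 0 ≤ p ∧ p < M) (hd : DReach ((↑A : Set Edg)ᶜ ∩ ↑(VE (-M) M 0 M)) (p, 0) f)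
    (hB : B ⊆ RE (-M) M 0 M \ VE (-M) M 0 M) (he : ((p, 0, true) : Edg) ∉ B) :
    OnV (2 * M) M 0 M (x + M, y) ((trl M 0).mp (A ∪ B)) := by
  have hR : (trl M 0).mp (RE (-M) M 0 M) = RE 0 (2 * M) 0 M := by
    rw [trl_RE]; congr 1 <;> ring
  refine ⟨⟨p' + M, ⟨by omega, by omega⟩, ?_⟩, (f.1 + M, f.2), ?_, p + M, ⟨by omega, by omega⟩, ?_⟩
  · have h1 : Reach (↑(A ∪ B) ∩ ↑(RE (-M) M 0 M)) (p', 0) (x, y) := by
      refine hr.mono ?_
      rintro e ⟨h2, h3⟩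
      refine ⟨?_, Finset.mem_coe.mpr (VE_subset_RE (Finset.mem_coe.mp h3))⟩
      rw [Finset.coe_union]
      exact Or.inl h2
    have h2 := (sym_reach (trl M 0) hR).mpr h1
    rw [trl_ψ, trl_ψ, add_zero, add_zero] at h2
    rw [H731A.bd_bot (by omega) hM (by omega) (by omega)]
    exact h2
  · unfold cor at hf ⊢
    simp only at hf ⊢
    omega
  · have h1 : DReach ((↑(A ∪ B) : Set Edg)ᶜ ∩ ↑(RE (-M) M 0 M)) (p, 0) f := by
      refine hd.mono ?_
      rintro e ⟨h2, h3⟩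
      refine ⟨fun h => ?_, Finset.mem_coe.mpr (VE_subset_RE (Finset.mem_coe.mp h3))⟩
      rw [Finset.coe_union] at h
      rcases h with h | h
      · exact h2 h
      · exact (Finset.mem_sdiff.mp (hB (Finset.mem_coe.mp h))).2 (Finset.mem_coe.mp h3)
    have h0 : DReach ((↑(A ∪ B) : Set Edg)ᶜ ∩ ↑(RE (-M) M 0 M)) (p, -1) (p, 0) := by
      refine DAdj.reach ⟨(p, 0, true), ⟨fun h => ?_, ?_⟩, Or.inl ⟨by simp, by simp⟩⟩
      · rw [Finset.coe_union] at h
        rcases h with h | h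
        · have := hA (Finset.mem_coe.mp h)
          rw [mem_VE_true] at this
          omega
        · exact he (Finset.mem_coe.mp h)
      · rw [Finset.mem_coe, mem_RE_true]
        omega
    have h2 := sym_dreach M 0 hR (h0.trans h1)
    rw [trl_ψ] at h2
    rw [ofc_bot' (by omega) hM (by omega) (by omega)]
    have e1 : (trl M 0).ψ f = (f.1 + M, f.2) := by
      obtain ⟨f1, f2⟩ := f
      rw [trl_ψ, add_zero]
    rw [e1] at h2
    have e2 : (-1 : ℤ) + 0 = -1 := by norm_num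
    rw [e2] at h2
    exact h2

end P2a

open P2a in
theorem half_up {M x y : ℤ} (hM : 1 ≤ M) (hx : |x| < M) (hy : 1 ≤ y) (hyM : y < M) :
    P2 (VE (-M) M 0 M) (HV M (x, y)) ≤
      2 * P2 (RE 0 (2 * M) 0 M) (OnV (2 * M) M 0 M (x + M, y)) := by
  have ok : Ok (fun _ : Edg => (1/2 : ℝ)) := okhalf2
  have hR : (trl M 0).mp (RE (-M) M 0 M) = RE 0 (2 * M) 0 M := by
    rw [trl_RE]; congr 1 <;> ring
  have h1 := (trl M 0).pr (1/2) (RE (-M) M 0 M) (OnV (2 * M) M 0 M (x + M, y))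
  rw [hR] at h1
  have h2 : P2 (RE 0 (2 * M) 0 M) (OnV (2 * M) M 0 M (x + M, y)) =
      P2 (RE (-M) M 0 M) (fun F => OnV (2 * M) M 0 M (x + M, y) ((trl M 0).mp F)) := h1
  rw [h2]
  have hU : RE (-M) M 0 M = VE (-M) M 0 M ∪ (RE (-M) M 0 M \ VE (-M) M 0 M) := by
    rw [Finset.union_sdiff_of_subset VE_subset_RE]
  have hdis : Disjoint (VE (-M) M 0 M) (RE (-M) M 0 M \ VE (-M) M 0 M) :=
    Finset.disjoint_sdiff
  have e1 : P2 (RE (-M) M 0 M) (fun F => OnV (2 * M) M 0 M (x + M, y) ((trl M 0).mp F)) =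
      Ex (fun _ : Edg => (1/2 : ℝ)) (VE (-M) M 0 M) (fun A =>
        Ex (fun _ : Edg => (1/2 : ℝ)) (RE (-M) M 0 M \ VE (-M) M 0 M) (fun B =>
          ind (OnV (2 * M) M 0 M (x + M, y) ((trl M 0).mp (A ∪ B))))) := by
    unfold P2 Pr
    conv_lhs => rw [hU]
    rw [Ex_union hdis]
  have key : 1 / 2 * P2 (VE (-M) M 0 M) (HV M (x, y)) ≤
      P2 (RE (-M) M 0 M) (fun F => OnV (2 * M) M 0 M (x + M, y) ((trl M 0).mp F)) := by
    rw [e1]
    unfold P2 Pr
    rw [← Ex_mul_left]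
    refine Ex_mono ok fun A hA => ?_
    by_cases hHV : HV M (x, y) A
    · rw [ind_of hHV, mul_one]
      obtain ⟨⟨p', hp', hr⟩, f, hf, p, hp, hd⟩ := hHV
      have hmem : ((p, 0, true) : Edg) ∈ RE (-M) M 0 M \ VE (-M) M 0 M := by
        rw [Finset.mem_sdiff, mem_RE_true, mem_VE_true]
        omega
      refine (P2_closed hmem).ge.trans ?_
      unfold P2 Pr
      refine Ex_mono ok fun B hB => ind_mono ?_
      intro he
      exact det hM hA hp' hr hf hp hd hB he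
    · rw [ind_not_of hHV, mul_zero]
      exact Ex_nonneg ok (fun _ _ => ind_nonneg _)
  linarith

end H731G
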