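import Pool.Agent.H731R5.Gr.HPDefs

/-!
Half-plane: lower comparison with a rectangle.
-/

set_option autoImplicit false

namespace H731G

open H974 hiding bd
open H731C H731R H731A Finset H389KP MeasureTheory

namespace P2bAux

theorem dadj (a b : ℤ) {G : Set Edg} {u v : Vtx} (h : DAdj G u v) :
    DAdj ((trl a b).φ '' G) ((trl a b).ψ u) ((trl a b).ψ v) := by
  obtain ⟨e, he, hc⟩ := h
  refine ⟨(trl a b).φ e, Set.mem_image_of_mem _ he, ?_⟩
  have h1 : dsrc ((trl a b).φ e) = (trl a b).ψ (dsrc e) := by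
    obtain ⟨x, y, _ | _⟩ := e
    · rw [trl_φ, dsrc_false, dsrc_false, trl_ψ, show x + a - 1 = x - 1 + a by ring]
    · rw [trl_φ, dsrc_true, dsrc_true, trl_ψ, show y + b - 1 = y - 1 + b by ring]
  have h2 : dtgt ((trl a b).φ e) = (trl a b).ψ (dtgt e) := by
    obtain ⟨x, y, b'⟩ := e
    simp only [trl_φ, dtgt_mk, trl_ψ]
  rw [h1, h2]
  rcases hc with ⟨h3, h4⟩ | ⟨h3, h4⟩
  · left; rw [h3, h4]; exact ⟨rfl, rfl⟩
  · right; rw [h3, h4]; exact ⟨rfl, rfl⟩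

theorem dreach (a b : ℤ) {G : Set Edg} {u v : Vtx} (h : DReach G u v) :
    DReach ((trl a b).φ '' G) ((trl a b).ψ u) ((trl a b).ψ v) := by
  induction h with
  | refl => exact DReach.refl _ _
  | tail _ hs ih => exact ih.trans (dadj a b hs).reach

theorem bd_eq {m n i : ℤ} (hm : 0 < m) (hn : 0 < n) (h0 : 0 ≤ i) (h1 : i ≤ m) :
    bd m n i = (i, 0) := by
  have h2 : i % (2 * (m + n)) = i := Int.emod_eq_of_lt h0 (by omega)
  unfold bd
  rw [h2, if_pos h1]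

theorem ofc_eq {m n i : ℤ} (hm : 0 < m) (hn : 0 < n) (h0 : 0 ≤ i) (h1 : i < m) :
    ofc m n i = (i, -1) := by
  have h2 : i % (2 * (m + n)) = i := Int.emod_eq_of_lt h0 (by omega)
  unfold ofc
  rw [h2, if_pos h1]

/-- the shifted event -/
def EV (M x y : ℤ) (A : Finset Edg) : Prop :=
  ∃ f, cor (x, y) f ∧
    (∃ p : ℤ, (-M ≤ p ∧ p ≤ 0) ∧ Reach (↑A ∩ ↑(RE (-M) M 1 M)) (p, 1) (x, y)) ∧
    ∃ q : ℤ, (0 ≤ q ∧ q < M) ∧ DReach ((↑A : Set Edg)ᶜ ∩ ↑(RE (-M) M 1 M)) (q, 0) f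

theorem rect {M : ℤ} : (trl (-M) 1).mp (RE 0 (2 * M) 0 (M - 1)) = RE (-M) M 1 M := by
  rw [trl_RE]
  congr 1 <;> ring

theorem step1 {M x y : ℤ} (hM : 2 ≤ M) {F : Finset Edg}
    (h : ∃ f, cor (x + M, y - 1) f ∧
        On4 (2 * M) (M - 1) 0 M M (2 * M) (x + M, y - 1) f F) :
    EV M x y ((trl (-M) 1).mp F) := by
  obtain ⟨f, hf, ⟨i, hi, h1⟩, ⟨j, hj, h2⟩⟩ := h
  rw [bd_eq (by omega) (by omega) hi.1 (by omega)] at h1
  have hj2 : j < 2 * M := by omega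
  rw [ofc_eq (by omega) (by omega) (by omega) hj2] at h2
  refine ⟨(f.1 - M, f.2 + 1), ?_, ⟨i - M, by omega, ?_⟩, ⟨j - M, by omega, ?_⟩⟩
  · obtain ⟨f1, f2⟩ := f
    simp only [cor] at hf ⊢
    omega
  · have h3 := (trl (-M) 1).reach h1
    rw [LSym.image_inter, rect, trl_ψ, trl_ψ] at h3
    have e1 : (i + -M, (0:ℤ) + 1) = ((i - M, 1) : Vtx) := by
      ext <;> simp; ring
    have e2 : (x + M + -M, y - 1 + 1) = ((x, y) : Vtx) := by
      ext <;> simp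
    rw [e1, e2] at h3
    exact h3
  · have h3 := dreach (-M) 1 h2
    obtain ⟨f1, f2⟩ := f
    rw [trl_ψ, trl_ψ] at h3
    have e1 : (j + -M, (-1:ℤ) + 1) = ((j - M, 0) : Vtx) := by
      ext <;> simp; ring
    have e2 : (f1 + -M, f2 + 1) = ((f1 - M, f2 + 1) : Vtx) := by
      ext <;> simp; ring
    rw [e1, e2] at h3
    have e3 : (trl (-M) 1).φ '' ((↑F : Set Edg)ᶜ ∩ ↑(RE 0 (2 * M) 0 (M - 1))) =
        (↑((trl (-M) 1).mp F) : Set Edg)ᶜ ∩ ↑(RE (-M) M 1 M) := by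
      rw [Set.image_inter (trl (-M) 1).φ.injective, ← LSym.coe_mp, rect, LSym.coe_mp,
        Set.image_compl_eq (trl (-M) 1).φ.bijective]
    rw [e3] at h3
    exact h3

theorem step2 {M x y : ℤ} (hM : 2 ≤ M) {A G : Finset Edg} (hA : A ⊆ RE (-M) M 1 M)
    (hG : G ⊆ VE (-M) M 0 M \ RE (-M) M 1 M) {p : ℤ} (hp : -M ≤ p ∧ p ≤ 0)
    (hr : Reach (↑A ∩ ↑(RE (-M) M 1 M)) (p, 1) (x, y))
    {f : Vtx} (hf : cor (x, y) f) {q : ℤ} (hq : 0 ≤ q ∧ q < M)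
    (hd : DReach ((↑A : Set Edg)ᶜ ∩ ↑(RE (-M) M 1 M)) (q, 0) f)
    (hG1 : (p, 0, false) ∈ G) : HV M (x, y) (A ∪ G) := by
  have hTV : RE (-M) M 1 M ⊆ VE (-M) M 0 M := by
    rintro ⟨a, b, _ | _⟩ he
    · rw [mem_RE_false] at he
      rw [mem_VE_false]
      omega
    · rw [mem_RE_true] at he
      rw [mem_VE_true]
      omega
  refine ⟨⟨p, hp, ?_⟩, f, hf, q, hq, ?_⟩
  · have h1 : Adj (↑(A ∪ G) ∩ ↑(VE (-M) M 0 M)) (p, 0) (p, 1) := by
      refine ⟨(p, 0, false), ⟨?_, ?_⟩, Or.inl ⟨rfl, ?_⟩⟩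
      · exact Finset.mem_coe.mpr (Finset.mem_union_right _ hG1)
      · exact Finset.mem_coe.mpr (Finset.mem_sdiff.mp (hG hG1)).1
      · simp
    refine h1.reach.trans (hr.mono ?_)
    intro e he
    exact ⟨Finset.mem_coe.mpr (Finset.mem_union_left _ (Finset.mem_coe.mp he.1)),
      Finset.mem_coe.mpr (hTV (Finset.mem_coe.mp he.2))⟩
  · refine hd.mono ?_
    intro e he
    refine ⟨?_, Finset.mem_coe.mpr (hTV (Finset.mem_coe.mp he.2))⟩
    intro h3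
    rcases Finset.mem_union.mp (Finset.mem_coe.mp h3) with h4 | h4
    · exact he.1 (Finset.mem_coe.mpr h4)
    · exact (Finset.mem_sdiff.mp (hG h4)).2 (Finset.mem_coe.mp he.2)

end P2bAux

open P2bAux in
theorem half_low {M x y : ℤ} (hM : 2 ≤ M) (hx : |x| < M) (hy : 2 ≤ y) (hyM : y < M) :
    P2 (RE 0 (2 * M) 0 (M - 1)) (fun F => ∃ f, cor (x + M, y - 1) f ∧
        On4 (2 * M) (M - 1) 0 M M (2 * M) (x + M, y - 1) f F) ≤
      2 * P2 (VE (-M) M 0 M) (HV M (x, y)) := by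
  have hTV : RE (-M) M 1 M ⊆ VE (-M) M 0 M := by
    rintro ⟨a, b, _ | _⟩ he
    · rw [mem_RE_false] at he
      rw [mem_VE_false]
      omega
    · rw [mem_RE_true] at he
      rw [mem_VE_true]
      omega
  have h1 : P2 (RE 0 (2 * M) 0 (M - 1)) (fun F => ∃ f, cor (x + M, y - 1) f ∧
        On4 (2 * M) (M - 1) 0 M M (2 * M) (x + M, y - 1) f F) ≤
      P2 (RE (-M) M 1 M) (EV M x y) := by
    unfold P2
    rw [← rect, LSym.pr]
    exact Pr_mono okhalf2 (fun F _ h => step1 hM h)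
  have h2 : P2 (RE (-M) M 1 M) (EV M x y) * (1/2) ≤ P2 (VE (-M) M 0 M) (HV M (x, y)) := by
    unfold P2 Pr
    have h3 : VE (-M) M 0 M = RE (-M) M 1 M ∪ (VE (-M) M 0 M \ RE (-M) M 1 M) :=
      (Finset.union_sdiff_of_subset hTV).symm
    rw [h3, Ex_union Finset.disjoint_sdiff, ← Ex_mul_right]
    refine Ex_mono okhalf2 fun A hA => ?_
    by_cases hE : EV M x y A
    · rw [ind_of hE, one_mul]
      obtain ⟨f, hf, ⟨p, hp, hr⟩, ⟨q, hq, hd⟩⟩ := hE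
      have h4 : (p, (0:ℤ), false) ∈ VE (-M) M 0 M \ RE (-M) M 1 M := by
        rw [Finset.mem_sdiff, mem_VE_false, mem_RE_false]
        omega
      have h5 := P2_edge h4
      unfold P2 Pr at h5
      refine le_trans (le_of_eq h5.symm) ?_
      refine Ex_mono okhalf2 fun G hG => ?_
      refine ind_mono fun hG1 => ?_
      exact step2 hM hA hG hp hr hf hq hd hG1
    · rw [ind_not_of hE, zero_mul]
      exact Ex_nonneg okhalf2 fun _ _ => ind_nonneg _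
  linarith

end H731G
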