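import Pool.Agent.H731R5.Gr.Defs

/-!
Task L1: lower bound for the one-point function, the wired arc is far from the foot of the vertex.
-/

set_option autoImplicit false

namespace H731G

open H974 hiding bd
open H731C H731R H731A Finset

namespace L1

/-- Vertical crossing above the open arm. -/
def V (x y h : ℤ) (F : Finset Edg) : Prop :=
  TBc (x - 9 * h) (x - 5 * h) (y - 2 * h) (y + 18 * h) F

/-- Left tube. -/
def LT (x y h : ℤ) (F : Finset Edg) : Prop := TBc (x - 18 * h) (x - 12 * h) 0 (y + 18 * h) F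

/-- Right tube. -/
def RT (x y h : ℤ) (F : Finset Edg) : Prop := TBc (x + 12 * h) (x + 18 * h) 0 (y + 18 * h) F

/-- Top tube. -/
def TT (x y h : ℤ) (F : Finset Edg) : Prop :=
  LRc (x - 18 * h) (x + 18 * h) (y + 12 * h) (y + 18 * h) F

/-- Edges outside the inner box. -/
noncomputable def OU (m n x y h : ℤ) : Finset Edg :=
  RE 0 m 0 n \ RE (x - 12 * h) (x + 12 * h) 0 (y + 12 * h)

/-- The wired arc is connected to the inner box. -/
def EE (m n a b x y h : ℤ) (F : Finset Edg) : Prop :=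
  ∃ i u, (a ≤ i ∧ i ≤ b) ∧ inR (x - 12 * h) (x + 12 * h) 0 (y + 12 * h) u ∧
    Reach (↑F ∩ ↑(OU m n x y h)) (bd m n i) u

/-- Dual vertical crossing below the dual arm. -/
def JJ (x y h : ℤ) (F : Finset Edg) : Prop :=
  ∃ x1 x2 : ℤ, (x + 5 * h ≤ x1 ∧ x1 < x + 9 * h) ∧ (x + 5 * h ≤ x2 ∧ x2 < x + 9 * h) ∧
    DReach (↑(LRE (x + 5 * h) (x + 9 * h) 0 (y + h) \ F) : Set Edg) (x1, -1) (x2, y + h)

/-- A path stops at its first visit to a rectangle. -/
theorem stop {G : Set Edg} {a b c d : ℤ} {p q : Vtx} (h : Reach G p q) (hq : inR a b c d q) :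
    ∃ u, inR a b c d u ∧ Reach (G \ ↑(RE a b c d)) p u := by
  have key : ∀ w, Reach G p w → (∃ u, inR a b c d u ∧ Reach (G \ ↑(RE a b c d)) p u) ∨
      (¬ inR a b c d w ∧ Reach (G \ ↑(RE a b c d)) p w) := by
    intro w hw
    induction hw with
    | refl =>
      by_cases hp : inR a b c d p
      · exact Or.inl ⟨p, hp, Reach.refl _ _⟩
      · exact Or.inr ⟨hp, Reach.refl _ _⟩
    | @tail w w' _ hs ih =>
      rcases ih with h | ⟨h1, h2⟩
      · exact Or.inl h
      · obtain ⟨e, he, hc⟩ := hs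
        have hne : e ∉ (↑(RE a b c d) : Set Edg) := by
          intro hmem
          have h3 := RE_ends (Finset.mem_coe.mp hmem)
          rcases hc with ⟨h4, h5⟩ | ⟨h4, h5⟩
          · exact h1 (by rw [← h4]; exact h3.1)
          · exact h1 (by rw [← h5]; exact h3.2)
        have h3 : Reach (G \ ↑(RE a b c d)) p w' := h2.trans (Adj.reach ⟨e, ⟨he, hne⟩, hc⟩)
        by_cases hw' : inR a b c d w'
        · exact Or.inl ⟨w', hw', h3⟩
        · exact Or.inr ⟨hw', h3⟩
  rcases key q h with h | ⟨h1, -⟩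
  · exact h
  · exact absurd hq h1

theorem LRE_sub {a b c d A B C D : ℤ} (h1 : A ≤ a) (h2 : b ≤ B) (h3 : C ≤ c) (h4 : d ≤ D) :
    LRE a b c d ⊆ RE A B C D := LRE_subset_RE.trans (RE_subset h1 h2 h3 h4)

theorem TBE_sub {a b c d A B C D : ℤ} (h1 : A ≤ a) (h2 : b ≤ B) (h3 : C ≤ c) (h4 : d ≤ D) :
    TBE a b c d ⊆ RE A B C D := TBE_subset_RE.trans (RE_subset h1 h2 h3 h4)

/-- position of the wired arc -/
theorem bd_far {m n a b x y h i : ℤ} (hh : 1 ≤ h) (hy : 20 * h ≤ y) (hx : 20 * h ≤ x)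
    (hm : x + 20 * h ≤ m) (hn : y + 20 * h ≤ n) (ha : x + 20 * h ≤ a)
    (hb : b ≤ x - 20 * h + 2 * (m + n)) (hi : a ≤ i ∧ i ≤ b) :
    (bd m n i).1 ≤ x - 18 * h ∨ x + 18 * h ≤ (bd m n i).1 ∨ y + 18 * h ≤ (bd m n i).2 := by
  have h1m : 1 ≤ m := by omega
  have h1n : 1 ≤ n := by omega
  rcases le_or_gt i m with h1 | h1
  · rw [bd_bot h1m h1n (by omega) h1]
    simp only
    omega
  rcases le_or_gt i (m + n) with h2 | h2
  · rw [bd_right h1m h1n h1.le h2]
    simp only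
    omega
  rcases le_or_gt i (2 * m + n) with h3 | h3
  · rw [bd_top h1m h1n h2.le h3]
    simp only
    omega
  rcases le_or_gt i (2 * (m + n)) with h4 | h4
  · rw [bd_left h1m h1n h3.le h4]
    simp only
    omega
  · have e : i = (i - 2 * (m + n)) + 1 * (2 * (m + n)) := by ring
    rw [e, bd_period, bd_bot h1m h1n (by omega) (by omega)]
    simp only
    omega

theorem va_det {m n a b x y h : ℤ} (hh : 1 ≤ h) (hy : 20 * h ≤ y) (hx : 20 * h ≤ x)
    (hm : x + 20 * h ≤ m) (hn : y + 20 * h ≤ n) (ha : x + 20 * h ≤ a)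
    (hb : b ≤ x - 20 * h + 2 * (m + n)) {F : Finset Edg} (hV : V x y h F) (hLT : LT x y h F)
    (hRT : RT x y h F) (hTT : TT x y h F) (hE : EE m n a b x y h F)
    (hArm : ∃ z : Vtx, z.1 = x - 10 * h ∧
      Reach (↑F ∩ ↑(RE (x - 10 * h) (x + h) (y - h) (y + h))) (x, y) z) :
    VA m n a b (x, y) F := by
  obtain ⟨p1, p2, hp1, hp2, rV⟩ := hV
  obtain ⟨l1, l2, hl1, hl2, rL⟩ := hLT
  obtain ⟨r1, r2, hr1, hr2, rR⟩ := hRT
  obtain ⟨s1, s2, hs1, hs2, rT⟩ := hTT
  obtain ⟨i, u, hi, hu, rE⟩ := hE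
  obtain ⟨z, hz, rA⟩ := hArm
  unfold inR at hu
  have hsub : ∀ {A B C D : ℤ}, 0 ≤ A → B ≤ m → 0 ≤ C → D ≤ n →
      ((↑F : Set Edg) ∩ ↑(RE A B C D)) ⊆ ↑F ∩ ↑(RE 0 m 0 n) := by
    intro A B C D h1 h2 h3 h4
    exact Set.inter_subset_inter_right _ (by exact_mod_cast RE_subset h1 h2 h3 h4)
  have rV' : Reach ((↑F : Set Edg) ∩ ↑(RE (x - 9 * h) (x - 5 * h) (y - 2 * h) (y + 18 * h)))
      (p1, y - 2 * h) (p2, y + 18 * h) :=
    rV.mono (Set.inter_subset_inter_right _ (by exact_mod_cast TBE_subset_RE))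
  have rL' : Reach ((↑F : Set Edg) ∩ ↑(RE (x - 18 * h) (x - 12 * h) 0 (y + 18 * h)))
      (l1, 0) (l2, y + 18 * h) :=
    rL.mono (Set.inter_subset_inter_right _ (by exact_mod_cast TBE_subset_RE))
  have rR' : Reach ((↑F : Set Edg) ∩ ↑(RE (x + 12 * h) (x + 18 * h) 0 (y + 18 * h)))
      (r1, 0) (r2, y + 18 * h) :=
    rR.mono (Set.inter_subset_inter_right _ (by exact_mod_cast TBE_subset_RE))
  have rT' : Reach ((↑F : Set Edg) ∩ ↑(RE (x - 18 * h) (x + 18 * h) (y + 12 * h) (y + 18 * h)))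
      (x - 18 * h, s1) (x + 18 * h, s2) :=
    rT.mono (Set.inter_subset_inter_right _ (by exact_mod_cast LRE_subset_RE))
  -- the top tube meets the others
  have mTV : Reach ((↑F : Set Edg) ∩ ↑(RE 0 m 0 n)) (x - 18 * h, s1) (p1, y - 2 * h) :=
    (cross_meet (A := x - 18 * h) (B := x + 18 * h) (C := y - 2 * h) (D := y + 18 * h)
      (by omega) (by omega) (by omega) (by omega) (by omega) (by omega) rT'
      (show x - 18 * h ≤ x - 9 * h by omega) (show x - 5 * h ≤ x + 18 * h by omega) rV'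
      (show y - 2 * h ≤ y + 12 * h by omega) (le_refl (y + 18 * h))).mono
      (hsub (by omega) (by omega) (by omega) (by omega))
  have mTL : Reach ((↑F : Set Edg) ∩ ↑(RE 0 m 0 n)) (x - 18 * h, s1) (l1, 0) :=
    (cross_meet (A := x - 18 * h) (B := x + 18 * h) (C := 0) (D := y + 18 * h)
      (by omega) (by omega) (by omega) (by omega) (by omega) (by omega) rT'
      (show x - 18 * h ≤ x - 18 * h by omega) (show x - 12 * h ≤ x + 18 * h by omega) rL'
      (show (0 : ℤ) ≤ y + 12 * h by omega) (le_refl (y + 18 * h))).mono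
      (hsub (by omega) (by omega) (by omega) (by omega))
  have mTR : Reach ((↑F : Set Edg) ∩ ↑(RE 0 m 0 n)) (x - 18 * h, s1) (r1, 0) :=
    (cross_meet (A := x - 18 * h) (B := x + 18 * h) (C := 0) (D := y + 18 * h)
      (by omega) (by omega) (by omega) (by omega) (by omega) (by omega) rT'
      (show x - 18 * h ≤ x + 12 * h by omega) (show x + 18 * h ≤ x + 18 * h by omega) rR'
      (show (0 : ℤ) ≤ y + 12 * h by omega) (le_refl (y + 18 * h))).mono
      (hsub (by omega) (by omega) (by omega) (by omega))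
  -- the arm meets `V`
  have mA : Reach ((↑F : Set Edg) ∩ ↑(RE 0 m 0 n)) z (p1, y - 2 * h) :=
    (cross_meet (A := x - 10 * h) (B := x + h) (C := y - 2 * h) (D := y + 18 * h)
      (by omega) (by omega) (by omega) (by omega) (by omega) (by omega) rA.symm
      (show z.1 ≤ x - 9 * h by omega) (show x - 5 * h ≤ x by omega) rV'
      (show y - 2 * h ≤ y - h by omega) (show y + h ≤ y + 18 * h by omega)).mono
      (hsub (by omega) (by omega) (by omega) (by omega))
  have mV : Reach ((↑F : Set Edg) ∩ ↑(RE 0 m 0 n)) (x - 18 * h, s1) (x, y) :=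
    mTV.trans (mA.symm.trans ((rA.mono (hsub (by omega) (by omega) (by omega) (by omega))).symm))
  -- the path of `EE`
  have rE' : Reach ((↑F : Set Edg) ∩ ↑(RE 0 m 0 n)) (bd m n i) u := by
    refine rE.mono (Set.inter_subset_inter_right _ ?_)
    unfold OU
    exact_mod_cast Finset.sdiff_subset
  have huB : inR (x - 18 * h) (x + 18 * h) (-1) (y + 18 * h) u := by
    unfold inR; omega
  have hfar := bd_far hh hy hx hm hn ha hb hi
  obtain ⟨w, hw, hw2, rw1⟩ := first_exit huB rE'.symm (by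
    rcases hfar with h1 | h1 | h1
    · exact Or.inl h1
    · exact Or.inr (Or.inl h1)
    · exact Or.inr (Or.inr (Or.inr h1)))
  have huR : inR 0 m 0 n u := by unfold inR; omega
  have hwR : inR 0 m 0 n w :=
    reach_inR huR (rw1.mono (Set.inter_subset_left))
  have rw2 : Reach ((↑F : Set Edg) ∩ ↑(RE (x - 18 * h) (x + 18 * h) 0 (y + 18 * h))) u w := by
    refine rw1.mono ?_
    rintro e ⟨⟨h1, h2⟩, h3⟩
    refine ⟨h1, ?_⟩
    rw [Finset.mem_coe] at h2 h3 ⊢
    obtain ⟨p, q, _ | _⟩ := e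
    · simp only [mem_RE_false] at h2 h3 ⊢; omega
    · simp only [mem_RE_true] at h2 h3 ⊢; omega
  refine ⟨i, hi, rE'.trans ?_⟩
  refine Reach.trans ?_ mV
  unfold inR at hwR
  rcases hw2 with h1 | h1 | h1 | h1
  · -- left side
    have m1 := (cross_meet (A := x - 18 * h) (B := x + 18 * h) (C := 0) (D := y + 18 * h)
      (a := x - 18 * h) (b := x - 12 * h) (c := 0) (d := y + 18 * h)
      (by omega) (by omega) (by omega) (by omega) (by omega) (by omega) rw2.symm
      (by omega) (by omega) rL' (le_refl (0 : ℤ)) (le_refl (y + 18 * h))).mono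
      (hsub (by omega) (by omega) (by omega) (by omega))
    exact (rw2.mono (hsub (by omega) (by omega) (by omega) (by omega))).trans
      (m1.trans mTL.symm)
  · have m1 := (cross_meet (A := x - 18 * h) (B := x + 18 * h) (C := 0) (D := y + 18 * h)
      (a := x + 12 * h) (b := x + 18 * h) (c := 0) (d := y + 18 * h)
      (by omega) (by omega) (by omega) (by omega) (by omega) (by omega) rw2
      (by omega) (by omega) rR' (le_refl (0 : ℤ)) (le_refl (y + 18 * h))).mono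
      (hsub (by omega) (by omega) (by omega) (by omega))
    exact m1.trans mTR.symm
  · omega
  · have m1 := (cross_meet (A := x - 18 * h) (B := x + 18 * h) (C := 0) (D := y + 18 * h)
      (a := x - 18 * h) (b := x + 18 * h) (c := y + 12 * h) (d := y + 18 * h)
      (by omega) (by omega) (by omega) (by omega) (by omega) (by omega) rT'
      (le_refl (x - 18 * h)) (le_refl (x + 18 * h)) rw2 (by omega) (by omega)).mono
      (hsub (by omega) (by omega) (by omega) (by omega))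
    exact m1.symm

theorem fb_det {m n a b x y h : ℤ} {s : Bool × Bool} (hh : 1 ≤ h) (hy : 20 * h ≤ y)
    (hx : 20 * h ≤ x) (hm : x + 20 * h ≤ m) (hn : y + 20 * h ≤ n) (ha : x + 20 * h ≤ a)
    (hb : b ≤ x - 20 * h + 2 * (m + n)) {F : Finset Edg} (hJ : JJ x y h F)
    (hArm : ∃ g : Vtx, g.1 = x + 10 * h ∧
      DReach (↑(RE (x - h) (x + 10 * h) (y - h) (y + h) \ F) : Set Edg)
        (H934E.cface (x, y) s) g) :
    FB m n a b (H934E.cface (x, y) s) F := by
  obtain ⟨x1, x2, hx1, hx2, rJ⟩ := hJ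
  obtain ⟨g, hg, rA⟩ := hArm
  set G' : Set Edg := dl '' ((↑F : Set Edg)ᶜ ∩ ↑(RE 0 m 0 n)) with hG'
  have rA' : Reach (G' ∩ ↑(RE (x - h - 1) (x + 10 * h) (y - h - 1) (y + h)))
      (H934E.cface (x, y) s) g := by
    rw [← reach_dl] at rA
    refine rA.mono ?_
    rintro _ ⟨e, he, rfl⟩
    rw [Finset.mem_coe, Finset.mem_sdiff] at he
    obtain ⟨h1, h2⟩ := he
    refine ⟨⟨e, ⟨h2, ?_⟩, rfl⟩, ?_⟩
    · exact Finset.mem_coe.mpr (RE_subset (by omega) (by omega) (by omega) (by omega) h1)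
    · obtain ⟨p, q, _ | _⟩ := e
      · rw [dl_f, Finset.mem_coe, mem_RE_true]
        rw [mem_RE_false] at h1; omega
      · rw [dl_t, Finset.mem_coe, mem_RE_false]
        rw [mem_RE_true] at h1; omega
  have rJ' : Reach (G' ∩ ↑(RE (x + 5 * h) (x + 9 * h - 1) (-1) (y + h))) (x1, -1) (x2, y + h) := by
    rw [← reach_dl] at rJ
    refine rJ.mono ?_
    rintro _ ⟨e, he, rfl⟩
    rw [Finset.mem_coe, Finset.mem_sdiff] at he
    obtain ⟨h1, h2⟩ := he
    refine ⟨⟨e, ⟨h2, ?_⟩, rfl⟩, ?_⟩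
    · exact Finset.mem_coe.mpr (LRE_sub (by omega) (by omega) (by omega) (by omega) h1)
    · obtain ⟨p, q, _ | _⟩ := e
      · rw [dl_f, Finset.mem_coe, mem_RE_true]
        rw [mem_LRE_false] at h1; omega
      · rw [dl_t, Finset.mem_coe, mem_RE_false]
        rw [mem_LRE_true] at h1; omega
  have hcf : (H934E.cface (x, y) s).1 ≤ x + 5 * h := by
    unfold H934E.cface
    split_ifs <;> simp only <;> omega
  have m1 := cross_meet (A := x - h - 1) (B := x + 10 * h) (C := -1) (D := y + h)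
    (a := x + 5 * h) (b := x + 9 * h - 1) (c := y - h - 1) (d := y + h)
    (by omega) (by omega) (by omega) (by omega) (by omega) (by omega) rA'
    hcf (by omega) rJ' (show (-1 : ℤ) ≤ y - h - 1 by omega) (le_refl (y + h))
  have m2 : DReach ((↑F : Set Edg)ᶜ ∩ ↑(RE 0 m 0 n)) (H934E.cface (x, y) s) (x1, -1) := by
    rw [← reach_dl]
    exact m1.mono Set.inter_subset_left
  refine ⟨x1 + 1 * (2 * (m + n)), ⟨by omega, by omega⟩, ?_⟩
  rw [H731A.ofc_period, H731A.DPar.ofc_bot (by omega) (by omega) (by omega) (by omega)]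
  exact m2.symm

/-! ### probabilities -/

theorem J_of_not {x y h : ℤ} (hh : 1 ≤ h) (hy : 0 ≤ y) {F : Finset Edg}
    (hF : ¬ LRc (x + 5 * h) (x + 9 * h) 0 (y + h) F) : JJ x y h F := by
  set W : Vtx → Prop := fun v => ∃ q, (0 ≤ q ∧ q ≤ y + h) ∧
    Reach (↑F ∩ ↑(LRE (x + 5 * h) (x + 9 * h) 0 (y + h))) (x + 5 * h, q) v with hW
  have hLw : ∀ q, 0 ≤ q → q ≤ y + h → W (x + 5 * h, q) :=
    fun q h3 h4 => ⟨q, ⟨h3, h4⟩, Reach.refl _ _⟩
  have hRw : ∀ q, 0 ≤ q → q ≤ y + h → ¬ W (x + 9 * h, q) := by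
    rintro q h3 h4 ⟨q0, h5, h6⟩
    exact hF ⟨q0, q, h5, ⟨h3, h4⟩, h6⟩
  obtain ⟨x1, x2, hx1, hx2, hr⟩ := dual_crossing (by omega) (by omega) W hLw hRw
  refine ⟨x1, x2, hx1, hx2, ?_⟩
  refine DReach.mono ?_ (by simpa using hr)
  rintro e ⟨he1, he2⟩
  rw [Finset.coe_sdiff]
  refine ⟨he2, ?_⟩
  intro heF
  apply he1
  constructor
  · rintro ⟨q, h3, h4⟩
    exact ⟨q, h3, h4.trans (Adj.reach ⟨e, ⟨heF, he2⟩, Or.inl ⟨rfl, rfl⟩⟩)⟩
  · rintro ⟨q, h3, h4⟩
    exact ⟨q, h3, h4.trans (Adj.reach ⟨e, ⟨heF, he2⟩, Or.inr ⟨rfl, rfl⟩⟩)⟩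

theorem pr_J {x y h : ℤ} (hh : 1 ≤ h) (hy : 0 ≤ y) {S : Finset Edg}
    (hS : LRE (x + 5 * h) (x + 9 * h) 0 (y + h) ⊆ S) :
    H974.hh (1/2) (y + h + 1) (4 * h - 1) ≤ P2 S (JJ x y h) := by
  have e1 : P2 S (LRc (x + 5 * h) (x + 9 * h) 0 (y + h)) =
      H974.hh (1/2) (x + 9 * h - (x + 5 * h)) (y + h - 0) := pr_LRc (1/2) hS
  have e2 := hh_dual (q := 1/2) (w := x + 9 * h - (x + 5 * h)) (h := y + h - 0) (by omega)
    (by omega)
  have e3 : (1:ℝ) - 1/2 = 1/2 := by norm_num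
  rw [e3] at e2
  have e5 : P2 S (fun F => ¬ LRc (x + 5 * h) (x + 9 * h) 0 (y + h) F) ≤ P2 S (JJ x y h) :=
    Pr_mono okhalf2 (fun F _ hF => J_of_not hh hy hF)
  have e6 : P2 S (fun F => ¬ LRc (x + 5 * h) (x + 9 * h) 0 (y + h) F) =
      1 - P2 S (LRc (x + 5 * h) (x + 9 * h) 0 (y + h)) := Pr_not _ _
  rw [e6, e1, e2] at e5
  have e7 : y + h - 0 + 1 = y + h + 1 := by ring
  have e8 : x + 9 * h - (x + 5 * h) - 1 = 4 * h - 1 := by ring
  rw [e7, e8] at e5
  linarith

theorem EE_incr (S : Finset Edg) (m n a b x y h : ℤ) : IncrE S (EE m n a b x y h) := by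
  rintro F G hFG _ ⟨i, u, h1, h2, h3⟩
  exact ⟨i, u, h1, h2, h3.mono (Set.inter_subset_inter_left _ (by exact_mod_cast hFG))⟩

theorem EE_of_AA {m n a b x y h : ℤ} (hh : 1 ≤ h) (hy : 20 * h ≤ y) (hx : 20 * h ≤ x)
    (hm : x + 20 * h ≤ m) (hn : y + 20 * h ≤ n) {F : Finset Edg}
    (hF : AA m n (x - 2 * h) (x + 2 * h) a b F) : EE m n a b x y h F := by
  obtain ⟨i, j, hi, hj, hr⟩ := hF
  have h1 : inR (x - 12 * h) (x + 12 * h) 0 (y + 12 * h) (bd m n i) := by
    rw [bd_bot (by omega) (by omega) (by omega) (by omega)]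
    unfold inR
    simp only
    omega
  obtain ⟨u, hu, hr2⟩ := stop hr.symm h1
  refine ⟨j, u, hj, hu, hr2.mono ?_⟩
  rintro e ⟨⟨h2, h3⟩, h4⟩
  refine ⟨h2, ?_⟩
  unfold OU
  rw [Finset.coe_sdiff]
  exact ⟨h3, h4⟩

/-- all the increasing events -/
def II (m n a b x y h : ℤ) (F : Finset Edg) : Prop :=
  V x y h F ∧ LT x y h F ∧ RT x y h F ∧ TT x y h F ∧ EE m n a b x y h F

theorem II_mono {m n a b x y h : ℤ} {F G : Finset Edg} (hFG : F ⊆ G)
    (hF : II m n a b x y h F) : II m n a b x y h G :=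
  ⟨TBc.mono hFG hF.1, TBc.mono hFG hF.2.1, TBc.mono hFG hF.2.2.1, LRc.mono hFG hF.2.2.2.1,
    EE_incr G m n a b x y h F G hFG (Finset.Subset.refl _) hF.2.2.2.2⟩

/-- the edges of the increasing events -/
noncomputable def UU (m n x y h : ℤ) : Finset Edg :=
  TBE (x - 9 * h) (x - 5 * h) (y - 2 * h) (y + 18 * h) ∪
    (TBE (x - 18 * h) (x - 12 * h) 0 (y + 18 * h) ∪
      (TBE (x + 12 * h) (x + 18 * h) 0 (y + 18 * h) ∪
        (LRE (x - 18 * h) (x + 18 * h) (y + 12 * h) (y + 18 * h) ∪ OU m n x y h)))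

theorem II_local {m n a b x y h : ℤ} (F : Finset Edg) :
    II m n a b x y h F ↔ II m n a b x y h (F ∩ UU m n x y h) := by
  unfold II
  refine and_congr (TBc_local ?_) (and_congr (TBc_local ?_) (and_congr (TBc_local ?_)
    (and_congr (LRc_local ?_) ?_)))
  · exact Finset.subset_union_left
  · exact Finset.subset_union_left.trans Finset.subset_union_right
  · exact Finset.subset_union_left.trans (Finset.subset_union_right.trans
      Finset.subset_union_right)
  · exact Finset.subset_union_left.trans (Finset.subset_union_right.trans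
      (Finset.subset_union_right.trans Finset.subset_union_right))
  · have h1 : OU m n x y h ⊆ UU m n x y h :=
      Finset.subset_union_right.trans (Finset.subset_union_right.trans
        (Finset.subset_union_right.trans Finset.subset_union_right))
    unfold EE
    rw [coe_inter_eq h1]

/-- edges of `UU` are outside the inner box, or in one of the tubes -/
theorem UU_not {m n x y h : ℤ} {e : Edg} (he : e ∈ UU m n x y h)
    (h1 : e ∈ RE (x - 12 * h) (x + 12 * h) 0 (y + 12 * h)) (hh : 1 ≤ h) :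
    (e ∈ RE (x - 9 * h) (x - 5 * h) (y - 2 * h) (y + 18 * h)) ∨
      (e.1 ≤ x - 12 * h ∨ x + 12 * h ≤ e.1 ∨ y + 12 * h ≤ e.2.1) := by
  unfold UU OU at he
  rw [Finset.mem_union, Finset.mem_union, Finset.mem_union, Finset.mem_union,
    Finset.mem_sdiff] at he
  rcases he with he | he | he | he | he
  · exact Or.inl (TBE_subset_RE he)
  · right; left
    obtain ⟨p, q, _ | _⟩ := e
    · rw [mem_TBE_false] at he; simp only; omega
    · rw [mem_TBE_true] at he; simp only; omega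
  · right; right; left
    obtain ⟨p, q, _ | _⟩ := e
    · rw [mem_TBE_false] at he; simp only; omega
    · rw [mem_TBE_true] at he; simp only; omega
  · right; right; right
    obtain ⟨p, q, _ | _⟩ := e
    · rw [mem_LRE_false] at he; simp only; omega
    · rw [mem_LRE_true] at he; simp only; omega
  · exact absurd h1 he.2

theorem UU_disj_D {m n x y h : ℤ} (hh : 1 ≤ h) {e : Edg} (he : e ∈ UU m n x y h) :
    e ∉ LRE (x + 5 * h) (x + 9 * h) 0 (y + h) := by
  intro hD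
  have h1 : e ∈ RE (x - 12 * h) (x + 12 * h) 0 (y + 12 * h) :=
    LRE_sub (by omega) (by omega) le_rfl (by omega) hD
  have h2 := UU_not he h1 hh
  obtain ⟨p, q, _ | _⟩ := e
  · rw [mem_LRE_false] at hD
    rw [mem_RE_false] at h2
    simp only at h2
    omega
  · rw [mem_LRE_true] at hD
    rw [mem_RE_true] at h2
    simp only at h2
    omega

theorem UU_disj_R {m n x y h : ℤ} (hh : 1 ≤ h) (hy : 20 * h ≤ y) {e : Edg}
    (he : e ∈ UU m n x y h) : e ∉ RE (x - h) (x + 10 * h) (y - h) (y + h) := by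
  intro hD
  have h1 : e ∈ RE (x - 12 * h) (x + 12 * h) 0 (y + 12 * h) :=
    RE_subset (by omega) (by omega) (by omega) (by omega) hD
  have h2 := UU_not he h1 hh
  obtain ⟨p, q, _ | _⟩ := e
  · rw [mem_RE_false] at hD
    rw [mem_RE_false] at h2
    simp only at h2
    omega
  · rw [mem_RE_true] at hD
    rw [mem_RE_true] at h2
    simp only at h2
    omega

/-- the two arms of length `10 h` -/
def AR2 (s : Bool × Bool) (x y h : ℤ) (F : Finset Edg) : Prop :=
  (∃ z : Vtx, z.1 = x - 10 * h ∧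
      Reach (↑F ∩ ↑(RE (x - 10 * h) (x + h) (y - h) (y + h))) (x, y) z) ∧
    ∃ g : Vtx, g.1 = x + 10 * h ∧
      DReach (↑(RE (x - h) (x + 10 * h) (y - h) (y + h) \ F) : Set Edg)
        (H934E.cface (x, y) s) g

theorem AR2_of {s : Bool × Bool} {x y h : ℤ} (hh : 1 ≤ h) {F : Finset Edg}
    (hF : H985IL.LArm s 10 h.toNat (x, y) F) : AR2 s x y h F := by
  have e1 : ((h.toNat : ℕ) : ℤ) = h := Int.toNat_of_nonneg (by omega)
  have e2 : ((10 * h.toNat : ℕ) : ℤ) = 10 * h := by rw [Nat.cast_mul, e1]; rfl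
  unfold H985IL.LArm at hF
  rw [e1, e2] at hF
  exact hF

/-- Harris on the increasing events -/
theorem pr_II {m n a b x y h : ℤ} {K : ℕ} {δ : ℝ} (hδ : 0 < δ)
    (hrsw : ∀ w n : ℤ, 0 < w → 1 ≤ n → w ≤ ((K + 20 : ℕ) : ℤ) * n → δ ≤ H974.hh (1/2) w n)
    (hh : 1 ≤ h) (hy : 20 * h ≤ y) (hyK : y ≤ K * h) (hx : 20 * h ≤ x)
    (hm : x + 20 * h ≤ m) (hn : y + 20 * h ≤ n) :
    δ ^ 4 * P2 (RE 0 m 0 n) (AA m n (x - 2 * h) (x + 2 * h) a b) ≤
      P2 (RE 0 m 0 n) (II m n a b x y h) := by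
  set R := RE 0 m 0 n with hR
  have hK0 : (0 : ℤ) ≤ K := Int.natCast_nonneg K
  have hKh : (0 : ℤ) ≤ K * h := mul_nonneg hK0 (by omega)
  have c1 : δ ≤ P2 R (V x y h) := by
    have e : P2 R (V x y h) = H974.hh (1/2) (y + 18 * h - (y - 2 * h)) (x - 5 * h - (x - 9 * h)) :=
      pr_TBc (1/2) (TBE_sub (by omega) (by omega) (by omega) (by omega))
    rw [e]
    apply hrsw _ _ (by omega) (by omega)
    push_cast
    nlinarith
  have c2 : δ ≤ P2 R (LT x y h) := by
    have e : P2 R (LT x y h) = H974.hh (1/2) (y + 18 * h - 0) (x - 12 * h - (x - 18 * h)) :=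
      pr_TBc (1/2) (TBE_sub (by omega) (by omega) (by omega) (by omega))
    rw [e]
    apply hrsw _ _ (by omega) (by omega)
    push_cast
    nlinarith
  have c3 : δ ≤ P2 R (RT x y h) := by
    have e : P2 R (RT x y h) = H974.hh (1/2) (y + 18 * h - 0) (x + 18 * h - (x + 12 * h)) :=
      pr_TBc (1/2) (TBE_sub (by omega) (by omega) (by omega) (by omega))
    rw [e]
    apply hrsw _ _ (by omega) (by omega)
    push_cast
    nlinarith
  have c4 : δ ≤ P2 R (TT x y h) := by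
    have e : P2 R (TT x y h) =
        H974.hh (1/2) (x + 18 * h - (x - 18 * h)) (y + 18 * h - (y + 12 * h)) :=
      pr_LRc (1/2) (LRE_sub (by omega) (by omega) (by omega) (by omega))
    rw [e]
    apply hrsw _ _ (by omega) (by omega)
    push_cast
    nlinarith
  have c5 : P2 R (AA m n (x - 2 * h) (x + 2 * h) a b) ≤ P2 R (EE m n a b x y h) :=
    Pr_mono okhalf2 (fun F _ hF => EE_of_AA hh hy hx hm hn hF)
  have i4 := Pr_harris okhalf2 (S := R) (A := TT x y h) (B := EE m n a b x y h)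
    (fun F G hFG _ hF => LRc.mono hFG hF) (EE_incr R m n a b x y h)
  have i3 := Pr_harris okhalf2 (S := R) (A := RT x y h)
    (B := fun F => TT x y h F ∧ EE m n a b x y h F)
    (fun F G hFG _ hF => TBc.mono hFG hF)
    (fun F G hFG hG hF => ⟨LRc.mono hFG hF.1, EE_incr R m n a b x y h F G hFG hG hF.2⟩)
  have i2 := Pr_harris okhalf2 (S := R) (A := LT x y h)
    (B := fun F => RT x y h F ∧ TT x y h F ∧ EE m n a b x y h F)
    (fun F G hFG _ hF => TBc.mono hFG hF)
    (fun F G hFG hG hF => ⟨TBc.mono hFG hF.1, LRc.mono hFG hF.2.1,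
      EE_incr R m n a b x y h F G hFG hG hF.2.2⟩)
  have i1 := Pr_harris okhalf2 (S := R) (A := V x y h)
    (B := fun F => LT x y h F ∧ RT x y h F ∧ TT x y h F ∧ EE m n a b x y h F)
    (fun F G hFG _ hF => TBc.mono hFG hF)
    (fun F G hFG hG hF => ⟨TBc.mono hFG hF.1, TBc.mono hFG hF.2.1, LRc.mono hFG hF.2.2.1,
      EE_incr R m n a b x y h F G hFG hG hF.2.2.2⟩)
  have p0 : 0 ≤ P2 R (AA m n (x - 2 * h) (x + 2 * h) a b) := Pr_nonneg okhalf2 _ _
  have d4 : δ * P2 R (AA m n (x - 2 * h) (x + 2 * h) a b) ≤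
      P2 R (fun F => TT x y h F ∧ EE m n a b x y h F) :=
    (mul_le_mul c4 c5 p0 (hδ.le.trans c4)).trans i4
  have d3 : δ * (δ * P2 R (AA m n (x - 2 * h) (x + 2 * h) a b)) ≤
      P2 R (fun F => RT x y h F ∧ TT x y h F ∧ EE m n a b x y h F) :=
    (mul_le_mul c3 d4 (by positivity) (hδ.le.trans c3)).trans i3
  have d2 : δ * (δ * (δ * P2 R (AA m n (x - 2 * h) (x + 2 * h) a b))) ≤
      P2 R (fun F => LT x y h F ∧ RT x y h F ∧ TT x y h F ∧ EE m n a b x y h F) :=
    (mul_le_mul c2 d3 (by positivity) (hδ.le.trans c2)).trans i2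
  have d1 : δ * (δ * (δ * (δ * P2 R (AA m n (x - 2 * h) (x + 2 * h) a b)))) ≤
      P2 R (II m n a b x y h) :=
    (mul_le_mul c1 d2 (by positivity) (hδ.le.trans c1)).trans i1
  calc δ ^ 4 * P2 R (AA m n (x - 2 * h) (x + 2 * h) a b)
      = δ * (δ * (δ * (δ * P2 R (AA m n (x - 2 * h) (x + 2 * h) a b)))) := by ring
    _ ≤ _ := d1

end L1

open L1 in
theorem low_far (hL : H934F.St_L) (K : ℕ) : ∃ (c : ℝ) (s : Bool × Bool), 0 < c ∧
    ∀ m n a b x y h : ℤ, 1 ≤ h → 20 * h ≤ y → y ≤ K * h → 20 * h ≤ x → x + 20 * h ≤ m →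
    y + 20 * h ≤ n → a ≤ b → x + 20 * h ≤ a → b ≤ x - 20 * h + 2 * (m + n) →
    c * ((h : ℝ) ^ (-(1/4) : ℝ) *
        P2 (RE 0 m 0 n) (AA m n (x - 2 * h) (x + 2 * h) a b)) ≤
      P2 (RE 0 m 0 n) (On m n a b (x, y) (H934E.cface (x, y) s)) := by
  obtain ⟨c, s, hc, harm⟩ := H985IL.long_arms hL 10 (by norm_num)
  obtain ⟨δ, hδ, hrsw⟩ := H985IL.IL2.rswK (K + 20)
  refine ⟨c * δ ^ 5, s, by positivity, ?_⟩
  intro m n a b x y h hh hy hyK hx hm hn hab ha hb
  set R := RE 0 m 0 n with hR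
  have e1 : ((h.toNat : ℕ) : ℤ) = h := Int.toNat_of_nonneg (by omega)
  have e2 : ((10 * h.toNat : ℕ) : ℤ) = 10 * h := by rw [Nat.cast_mul, e1]; rfl
  have e3 : ((h.toNat : ℕ) : ℝ) = (h : ℝ) := by exact_mod_cast e1
  have hhR : (0 : ℝ) < (h : ℝ) := by exact_mod_cast (by omega : 0 < h)
  have a1 := harm h.toNat (by omega) (x, y) R (by
    rw [e1, e2]
    exact RE_subset (by simp only; omega) (by simp only; omega) (by simp only; omega)
      (by simp only; omega))
  rw [e3] at a1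
  have a2 : c * (h : ℝ) ^ (-(1/4) : ℝ) ≤ P2 R (AR2 s x y h) :=
    a1.trans (Pr_mono okhalf2 (fun F _ hF => AR2_of hh hF))
  have b1 := pr_II (a := a) (b := b) hδ hrsw hh hy hyK hx hm hn
  have hD : LRE (x + 5 * h) (x + 9 * h) 0 (y + h) ⊆ R :=
    LRE_sub (by omega) (by omega) (by omega) (by omega)
  have b2 : δ ≤ P2 R (JJ x y h) := by
    refine le_trans ?_ (pr_J hh (by omega) hD)
    apply hrsw _ _ (by omega) (by omega)
    have hK0 : (0 : ℤ) ≤ K := Int.natCast_nonneg K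
    have hKh : (0 : ℤ) ≤ K * h := mul_nonneg hK0 (by omega)
    push_cast
    nlinarith
  have hU : UU m n x y h ⊆ R := by
    unfold UU OU
    refine Finset.union_subset (TBE_sub (by omega) (by omega) (by omega) (by omega))
      (Finset.union_subset (TBE_sub (by omega) (by omega) (by omega) (by omega))
      (Finset.union_subset (TBE_sub (by omega) (by omega) (by omega) (by omega))
      (Finset.union_subset (LRE_sub (by omega) (by omega) (by omega) (by omega))
        Finset.sdiff_subset)))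
  -- first gluing
  have g1 : P2 R (AR2 s x y h) * P2 R (II m n a b x y h) ≤
      P2 R (fun F => AR2 s x y h F ∧ II m n a b x y h F) := by
    apply H934F.t1a R (UU m n x y h) (AR2 s x y h) (II m n a b x y h) hU
    · rintro F G _ hFG hGF ⟨⟨z, hz, hr⟩, ⟨g, hg, hd⟩⟩
      refine ⟨⟨z, hz, hr.mono (Set.inter_subset_inter_left _ (by exact_mod_cast hFG))⟩,
        ⟨g, hg, hd.mono ?_⟩⟩
      intro e he
      rw [Finset.mem_coe, Finset.mem_sdiff] at he ⊢
      refine ⟨he.1, fun heG => ?_⟩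
      rcases Finset.mem_union.mp (hGF heG) with h1 | h1
      · exact he.2 h1
      · exact UU_disj_R hh hy h1 he.1
    · intro F G hFG hF
      exact II_mono hFG hF
    · intro F
      exact II_local F
  -- second gluing
  have g2 : P2 R (fun F => AR2 s x y h F ∧ II m n a b x y h F) * P2 R (JJ x y h) ≤
      P2 R (fun F => (AR2 s x y h F ∧ II m n a b x y h F) ∧ JJ x y h F) := by
    apply H934F.t1b R (LRE (x + 5 * h) (x + 9 * h) 0 (y + h))
      (fun F => AR2 s x y h F ∧ II m n a b x y h F) (JJ x y h) hD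
    · rintro F G _ hGF hFG ⟨⟨⟨z, hz, hr⟩, ⟨g, hg, hd⟩⟩, hI⟩
      refine ⟨⟨⟨z, hz, hr.mono ?_⟩, ⟨g, hg, hd.mono ?_⟩⟩, ?_⟩
      · rintro e ⟨he1, he2⟩
        refine ⟨?_, he2⟩
        rcases Finset.mem_union.mp (hFG he1) with h1 | h1
        · exact h1
        · exfalso
          rw [Finset.mem_coe] at he2
          obtain ⟨p, q, _ | _⟩ := e
          · rw [mem_RE_false] at he2
            rw [mem_LRE_false] at h1
            omega
          · rw [mem_RE_true] at he2
            rw [mem_LRE_true] at h1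
            omega
      · intro e he
        rw [Finset.mem_coe, Finset.mem_sdiff] at he ⊢
        exact ⟨he.1, fun heG => he.2 (hGF heG)⟩
      · rw [II_local] at hI ⊢
        have e : G ∩ UU m n x y h = F ∩ UU m n x y h := by
          ext e
          simp only [Finset.mem_inter]
          constructor
          · rintro ⟨h1, h2⟩
            exact ⟨hGF h1, h2⟩
          · rintro ⟨h1, h2⟩
            refine ⟨?_, h2⟩
            rcases Finset.mem_union.mp (hFG h1) with h3 | h3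
            · exact h3
            · exact absurd h3 (UU_disj_D hh h2)
        rw [e]
        exact hI
    · rintro F G hFG ⟨x1, x2, hx1, hx2, hc⟩
      refine ⟨x1, x2, hx1, hx2, hc.mono ?_⟩
      intro e he
      rw [Finset.mem_coe, Finset.mem_sdiff] at he ⊢
      exact ⟨he.1, fun heF => he.2 (hFG heF)⟩
    · intro F
      have e : LRE (x + 5 * h) (x + 9 * h) 0 (y + h) \ F =
          LRE (x + 5 * h) (x + 9 * h) 0 (y + h) \
            (F ∩ LRE (x + 5 * h) (x + 9 * h) 0 (y + h)) := by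
        ext e
        simp only [Finset.mem_sdiff, Finset.mem_inter]
        tauto
      unfold JJ
      rw [← e]
  have fin : P2 R (fun F => (AR2 s x y h F ∧ II m n a b x y h F) ∧ JJ x y h F) ≤
      P2 R (On m n a b (x, y) (H934E.cface (x, y) s)) := by
    apply Pr_mono okhalf2
    rintro F _ ⟨⟨⟨hA1, hA2⟩, hV, hLT, hRT, hTT, hE⟩, hJ⟩
    exact ⟨va_det hh hy hx hm hn ha hb hV hLT hRT hTT hE hA1,
      fb_det hh hy hx hm hn ha hb hJ hA2⟩
  have p0 : 0 ≤ P2 R (AA m n (x - 2 * h) (x + 2 * h) a b) := Pr_nonneg okhalf2 _ _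
  have p1 : 0 ≤ c * (h : ℝ) ^ (-(1/4) : ℝ) := by positivity
  have t1 : c * (h : ℝ) ^ (-(1/4) : ℝ) *
      (δ ^ 4 * P2 R (AA m n (x - 2 * h) (x + 2 * h) a b)) ≤
      P2 R (fun F => AR2 s x y h F ∧ II m n a b x y h F) :=
    (mul_le_mul a2 b1 (by positivity) (p1.trans a2)).trans g1
  have t2 : c * (h : ℝ) ^ (-(1/4) : ℝ) *
      (δ ^ 4 * P2 R (AA m n (x - 2 * h) (x + 2 * h) a b)) * δ ≤
      P2 R (fun F => (AR2 s x y h F ∧ II m n a b x y h F) ∧ JJ x y h F) :=
    (mul_le_mul t1 b2 hδ.le (Pr_nonneg okhalf2 _ _)).trans g2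
  calc c * δ ^ 5 * ((h : ℝ) ^ (-(1/4) : ℝ) *
        P2 R (AA m n (x - 2 * h) (x + 2 * h) a b))
      = c * (h : ℝ) ^ (-(1/4) : ℝ) *
      (δ ^ 4 * P2 R (AA m n (x - 2 * h) (x + 2 * h) a b)) * δ := by ring
    _ ≤ _ := t2.trans fin

end H731G
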