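import Pool.Agent.H731R5.Gr.Defs2
import Pool.Agent.H731R5.Gr.L1

/-!
Task X1: local form of `low_far` (file L1.lean).
-/

set_option autoImplicit false

namespace H731G

open H974 hiding bd
open H731C H731R H731A Finset

namespace L1x

open L1

theorem fb_det4 {m n x y h : ℤ} {s : Bool × Bool} (hh : 1 ≤ h) (hy : 20 * h ≤ y)
    (hx : 20 * h ≤ x) (hm : x + 20 * h ≤ m) (hn : y + 20 * h ≤ n) {F : Finset Edg} (hJ : JJ x y h F)
    (hArm : ∃ g : Vtx, g.1 = x + 10 * h ∧
      DReach (↑(RE (x - h) (x + 10 * h) (y - h) (y + h) \ F) : Set Edg)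
        (H934E.cface (x, y) s) g) :
    FB m n (x + 9 * h - 2 * (m + n)) (x + 5 * h) (H934E.cface (x, y) s) F := by
  obtain ⟨x1, x2, hx1, hx2, rJ⟩ := hJ
  obtain ⟨g, hg, rA⟩ := hArm
  set G' : Set Edg := dl '' ((↑F : Set Edg)ᶜ ∩ ↑(RE 0 m 0 n)) with hG'
  have rA' : Reach (G' ∩ ↑(RE (x - h - 1) (x + 10 * h) (y - h - 1) (y + h)))
      (H934E.cface (x, y) s) g := by
    rw [← reach_dl] at rA
    refine rA.mono ?_
    rintro _ ⟨e, he, rfl⟩
    rw [Finset.mem_coe, Finset.mem_sdiff] at he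
    obtain ⟨h1, h2⟩ := he
    refine ⟨⟨e, ⟨h2, ?_⟩, rfl⟩, ?_⟩
    · exact Finset.mem_coe.mpr (RE_subset (by omega) (by omega) (by omega) (by omega) h1)
    · obtain ⟨p, q, _ | _⟩ := e
      · rw [dl_f, Finset.mem_coe, mem_RE_true]
        rw [mem_RE_false] at h1; omega
      · rw [dl_t, Finset.mem_coe, mem_RE_false]
        rw [mem_RE_true] at h1; omega
  have rJ' : Reach (G' ∩ ↑(RE (x + 5 * h) (x + 9 * h - 1) (-1) (y + h))) (x1, -1) (x2, y + h) := by
    rw [← reach_dl] at rJ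
    refine rJ.mono ?_
    rintro _ ⟨e, he, rfl⟩
    rw [Finset.mem_coe, Finset.mem_sdiff] at he
    obtain ⟨h1, h2⟩ := he
    refine ⟨⟨e, ⟨h2, ?_⟩, rfl⟩, ?_⟩
    · exact Finset.mem_coe.mpr (LRE_sub (by omega) (by omega) (by omega) (by omega) h1)
    · obtain ⟨p, q, _ | _⟩ := e
      · rw [dl_f, Finset.mem_coe, mem_RE_true]
        rw [mem_LRE_false] at h1; omega
      · rw [dl_t, Finset.mem_coe, mem_RE_false]
        rw [mem_LRE_true] at h1; omega
  have hcf : (H934E.cface (x, y) s).1 ≤ x + 5 * h := by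
    unfold H934E.cface
    split_ifs <;> simp only <;> omega
  have m1 := cross_meet (A := x - h - 1) (B := x + 10 * h) (C := -1) (D := y + h)
    (a := x + 5 * h) (b := x + 9 * h - 1) (c := y - h - 1) (d := y + h)
    (by omega) (by omega) (by omega) (by omega) (by omega) (by omega) rA'
    hcf (by omega) rJ' (show (-1 : ℤ) ≤ y - h - 1 by omega) (le_refl (y + h))
  have m2 : DReach ((↑F : Set Edg)ᶜ ∩ ↑(RE 0 m 0 n)) (H934E.cface (x, y) s) (x1, -1) := by
    rw [← reach_dl]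
    exact m1.mono Set.inter_subset_left
  refine ⟨x1, ⟨by omega, by omega⟩, ?_⟩
  rw [H731A.DPar.ofc_bot (by omega) (by omega) (by omega) (by omega)]
  exact m2.symm

end L1x

open L1 L1x in
/-- Task X1: local form of `low_far`. -/
theorem low_far4 (hL : H934F.St_L) (K : ℕ) : ∃ (c : ℝ) (s : Bool × Bool), 0 < c ∧
    ∀ m n a b x y h : ℤ, 1 ≤ h → 20 * h ≤ y → y ≤ K * h → 20 * h ≤ x → x + 20 * h ≤ m →
    y + 20 * h ≤ n → a ≤ b → x + 20 * h ≤ a → b ≤ x - 20 * h + 2 * (m + n) →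
    c * ((h : ℝ) ^ (-(1/4) : ℝ) *
        P2 (RE 0 m 0 n) (AA m n (x - 2 * h) (x + 2 * h) a b)) ≤
      P2 (RE 0 m 0 n) (On4 m n a b (x + 5 * h) (x + 9 * h) (x, y) (H934E.cface (x, y) s)) := by
  obtain ⟨c, s, hc, harm⟩ := H985IL.long_arms hL 10 (by norm_num)
  obtain ⟨δ, hδ, hrsw⟩ := H985IL.IL2.rswK (K + 20)
  refine ⟨c * δ ^ 5, s, by positivity, ?_⟩
  intro m n a b x y h hh hy hyK hx hm hn hab ha hb
  set R := RE 0 m 0 n with hR
  have e1 : ((h.toNat : ℕ) : ℤ) = h := Int.toNat_of_nonneg (by omega)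
  have e2 : ((10 * h.toNat : ℕ) : ℤ) = 10 * h := by rw [Nat.cast_mul, e1]; rfl
  have e3 : ((h.toNat : ℕ) : ℝ) = (h : ℝ) := by exact_mod_cast e1
  have hhR : (0 : ℝ) < (h : ℝ) := by exact_mod_cast (by omega : 0 < h)
  have a1 := harm h.toNat (by omega) (x, y) R (by
    rw [e1, e2]
    exact RE_subset (by simp only; omega) (by simp only; omega) (by simp only; omega)
      (by simp only; omega))
  rw [e3] at a1
  have a2 : c * (h : ℝ) ^ (-(1/4) : ℝ) ≤ P2 R (AR2 s x y h) :=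
    a1.trans (Pr_mono okhalf2 (fun F _ hF => AR2_of hh hF))
  have b1 := pr_II (a := a) (b := b) hδ hrsw hh hy hyK hx hm hn
  have hD : LRE (x + 5 * h) (x + 9 * h) 0 (y + h) ⊆ R :=
    LRE_sub (by omega) (by omega) (by omega) (by omega)
  have b2 : δ ≤ P2 R (JJ x y h) := by
    refine le_trans ?_ (pr_J hh (by omega) hD)
    apply hrsw _ _ (by omega) (by omega)
    have hK0 : (0 : ℤ) ≤ K := Int.natCast_nonneg K
    have hKh : (0 : ℤ) ≤ K * h := mul_nonneg hK0 (by omega)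
    push_cast
    nlinarith
  have hU : UU m n x y h ⊆ R := by
    unfold UU OU
    refine Finset.union_subset (TBE_sub (by omega) (by omega) (by omega) (by omega))
      (Finset.union_subset (TBE_sub (by omega) (by omega) (by omega) (by omega))
      (Finset.union_subset (TBE_sub (by omega) (by omega) (by omega) (by omega))
      (Finset.union_subset (LRE_sub (by omega) (by omega) (by omega) (by omega))
        Finset.sdiff_subset)))
  -- first gluing
  have g1 : P2 R (AR2 s x y h) * P2 R (II m n a b x y h) ≤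
      P2 R (fun F => AR2 s x y h F ∧ II m n a b x y h F) := by
    apply H934F.t1a R (UU m n x y h) (AR2 s x y h) (II m n a b x y h) hU
    · rintro F G _ hFG hGF ⟨⟨z, hz, hr⟩, ⟨g, hg, hd⟩⟩
      refine ⟨⟨z, hz, hr.mono (Set.inter_subset_inter_left _ (by exact_mod_cast hFG))⟩,
        ⟨g, hg, hd.mono ?_⟩⟩
      intro e he
      rw [Finset.mem_coe, Finset.mem_sdiff] at he ⊢
      refine ⟨he.1, fun heG => ?_⟩
      rcases Finset.mem_union.mp (hGF heG) with h1 | h1
      · exact he.2 h1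
      · exact UU_disj_R hh hy h1 he.1
    · intro F G hFG hF
      exact II_mono hFG hF
    · intro F
      exact II_local F
  -- second gluing
  have g2 : P2 R (fun F => AR2 s x y h F ∧ II m n a b x y h F) * P2 R (JJ x y h) ≤
      P2 R (fun F => (AR2 s x y h F ∧ II m n a b x y h F) ∧ JJ x y h F) := by
    apply H934F.t1b R (LRE (x + 5 * h) (x + 9 * h) 0 (y + h))
      (fun F => AR2 s x y h F ∧ II m n a b x y h F) (JJ x y h) hD
    · rintro F G _ hGF hFG ⟨⟨⟨z, hz, hr⟩, ⟨g, hg, hd⟩⟩, hI⟩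
      refine ⟨⟨⟨z, hz, hr.mono ?_⟩, ⟨g, hg, hd.mono ?_⟩⟩, ?_⟩
      · rintro e ⟨he1, he2⟩
        refine ⟨?_, he2⟩
        rcases Finset.mem_union.mp (hFG he1) with h1 | h1
        · exact h1
        · exfalso
          rw [Finset.mem_coe] at he2
          obtain ⟨p, q, _ | _⟩ := e
          · rw [mem_RE_false] at he2
            rw [mem_LRE_false] at h1
            omega
          · rw [mem_RE_true] at he2
            rw [mem_LRE_true] at h1
            omega
      · intro e he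
        rw [Finset.mem_coe, Finset.mem_sdiff] at he ⊢
        exact ⟨he.1, fun heG => he.2 (hGF heG)⟩
      · rw [II_local] at hI ⊢
        have e : G ∩ UU m n x y h = F ∩ UU m n x y h := by
          ext e
          simp only [Finset.mem_inter]
          constructor
          · rintro ⟨h1, h2⟩
            exact ⟨hGF h1, h2⟩
          · rintro ⟨h1, h2⟩
            refine ⟨?_, h2⟩
            rcases Finset.mem_union.mp (hFG h1) with h3 | h3
            · exact h3
            · exact absurd h3 (UU_disj_D hh h2)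
        rw [e]
        exact hI
    · rintro F G hFG ⟨x1, x2, hx1, hx2, hc⟩
      refine ⟨x1, x2, hx1, hx2, hc.mono ?_⟩
      intro e he
      rw [Finset.mem_coe, Finset.mem_sdiff] at he ⊢
      exact ⟨he.1, fun heF => he.2 (hFG heF)⟩
    · intro F
      have e : LRE (x + 5 * h) (x + 9 * h) 0 (y + h) \ F =
          LRE (x + 5 * h) (x + 9 * h) 0 (y + h) \
            (F ∩ LRE (x + 5 * h) (x + 9 * h) 0 (y + h)) := by
        ext e
        simp only [Finset.mem_sdiff, Finset.mem_inter]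
        tauto
      unfold JJ
      rw [← e]
  have fin : P2 R (fun F => (AR2 s x y h F ∧ II m n a b x y h F) ∧ JJ x y h F) ≤
      P2 R (On4 m n a b (x + 5 * h) (x + 9 * h) (x, y) (H934E.cface (x, y) s)) := by
    apply Pr_mono okhalf2
    rintro F _ ⟨⟨⟨hA1, hA2⟩, hV, hLT, hRT, hTT, hE⟩, hJ⟩
    exact ⟨va_det hh hy hx hm hn ha hb hV hLT hRT hTT hE hA1,
      fb_det4 hh hy hx hm hn hJ hA2⟩
  have p0 : 0 ≤ P2 R (AA m n (x - 2 * h) (x + 2 * h) a b) := Pr_nonneg okhalf2 _ _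
  have p1 : 0 ≤ c * (h : ℝ) ^ (-(1/4) : ℝ) := by positivity
  have t1 : c * (h : ℝ) ^ (-(1/4) : ℝ) *
      (δ ^ 4 * P2 R (AA m n (x - 2 * h) (x + 2 * h) a b)) ≤
      P2 R (fun F => AR2 s x y h F ∧ II m n a b x y h F) :=
    (mul_le_mul a2 b1 (by positivity) (p1.trans a2)).trans g1
  have t2 : c * (h : ℝ) ^ (-(1/4) : ℝ) *
      (δ ^ 4 * P2 R (AA m n (x - 2 * h) (x + 2 * h) a b)) * δ ≤
      P2 R (fun F => (AR2 s x y h F ∧ II m n a b x y h F) ∧ JJ x y h F) :=
    (mul_le_mul t1 b2 hδ.le (Pr_nonneg okhalf2 _ _)).trans g2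
  calc c * δ ^ 5 * ((h : ℝ) ^ (-(1/4) : ℝ) *
        P2 R (AA m n (x - 2 * h) (x + 2 * h) a b))
      = c * (h : ℝ) ^ (-(1/4) : ℝ) *
      (δ ^ 4 * P2 R (AA m n (x - 2 * h) (x + 2 * h) a b)) * δ := by ring
    _ ≤ _ := t2.trans fin

end H731G
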