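import Pool.Agent.H731R5.Gr.Defs
import Pool.Agent.H934R3.D74.T1

/-!
Harris' inequality in parts of the edges.
-/

set_option autoImplicit false

namespace H731G

open H974 hiding bd
open H731C H731R H731A Finset

theorem harris_parts {S U D : Finset Edg} (hU : U ⊆ S) (hD : D ⊆ S) (hUD : Disjoint U D)
    {A I J : Finset Edg → Prop}
    (hAU : ∀ F G : Finset Edg, F ⊆ S → F ⊆ G → G ⊆ F ∪ U → A F → A G)
    (hAD : ∀ F G : Finset Edg, F ⊆ S → G ⊆ F → F ⊆ G ∪ D → A F → A G)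
    (hI : ∀ F G : Finset Edg, F ⊆ G → I F → I G) (hIl : ∀ F, I F ↔ I (F ∩ U))
    (hJ : ∀ F G : Finset Edg, F ⊆ G → J G → J F) (hJl : ∀ F, J F ↔ J (F ∩ D)) :
    P2 S A * (P2 S I * P2 S J) ≤ P2 S (fun F => A F ∧ I F ∧ J F) := by
  have h1 : P2 S A * P2 S J ≤ P2 S (fun F => A F ∧ J F) :=
    H934F.t1b S D A J hD hAD hJ hJl
  have hA' : ∀ F G : Finset Edg, F ⊆ S → F ⊆ G → G ⊆ F ∪ U → (A F ∧ J F) → (A G ∧ J G) := by
    rintro F G hF hFG hG ⟨hA, hJF⟩
    refine ⟨hAU F G hF hFG hG hA, ?_⟩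
    have e : G ∩ D = F ∩ D := by
      ext x
      simp only [Finset.mem_inter]
      constructor
      · rintro ⟨h2, h3⟩
        refine ⟨?_, h3⟩
        rcases Finset.mem_union.mp (hG h2) with h4 | h4
        · exact h4
        · exact absurd h3 (Finset.disjoint_left.mp hUD h4)
      · rintro ⟨h2, h3⟩
        exact ⟨hFG h2, h3⟩
    rw [hJl G, e, ← hJl F]
    exact hJF
  have h2 : P2 S (fun F => A F ∧ J F) * P2 S I ≤ P2 S (fun F => (A F ∧ J F) ∧ I F) :=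
    H934F.t1a S U (fun F => A F ∧ J F) I hU hA' hI hIl
  have h3 : P2 S (fun F => (A F ∧ J F) ∧ I F) = P2 S (fun F => A F ∧ I F ∧ J F) := by
    apply Pr_congr
    intro F _
    tauto
  have h4 : 0 ≤ P2 S I := Pr_nonneg H973.okhalf S I
  rw [h3] at h2
  calc P2 S A * (P2 S I * P2 S J) = (P2 S A * P2 S J) * P2 S I := by ring
    _ ≤ P2 S (fun F => A F ∧ J F) * P2 S I := mul_le_mul_of_nonneg_right h1 h4
    _ ≤ _ := h2

end H731G
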