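import Pool.Agent.H731R5.Gr.LM
import Pool.Agent.H731R5.Gr.SH
import Pool.Agent.H731R5.Gr.Defs
import Pool.Agent.H731R4.Arcs.DPar

/-!
Task L2 (helper399): lower bound when both arcs are near the foot of the vertex.
-/

set_option autoImplicit false

namespace H731G

open H974 hiding bd
open H731C H731R H731A Finset

namespace L2

/-- dual top-bottom crossing of the columns `[a, b)` of `[a, b] × [0, d]` -/
def DJ (a b d : ℤ) (F : Finset Edg) : Prop :=
  TBc a (b - 1) (0 - 1) d (dmp (LRE a b 0 d \ F))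

theorem dj_local {a b d : ℤ} (F : Finset Edg) : DJ a b d F ↔ DJ a b d (F ∩ LRE a b 0 d) := by
  unfold DJ
  rw [← H985IL.IL2.sd_inter (Finset.Subset.refl _)]

theorem dj_anti {a b d : ℤ} {F G : Finset Edg} (h : F ⊆ G) (hG : DJ a b d G) : DJ a b d F :=
  TBc.mono (H985IL.IL2.dmp_anti h) hG

theorem pr_DJ {a b d : ℤ} {S : Finset Edg} (hS : LRE a b 0 d ⊆ S) :
    P2 S (DJ a b d) = hh (1/2) (d + 1) (b - 1 - a) := by
  have h0 := H985IL.IL2.pr_dual hS (TBc a (b - 1) (0 - 1) d)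
  have h : Pr (fun _ => (1/2 : ℝ)) (dmp (LRE a b 0 d)) (TBc a (b - 1) (0 - 1) d) =
      hh (1/2) (d - (0 - 1)) (b - 1 - a) := by
    rw [dmp_LRE]
    exact pr_TBc (1/2) (Finset.Subset.refl _)
  have e1 : d - (0 - 1) = d + 1 := by ring
  rw [e1] at h
  exact h0.trans h

theorem dmono {A B : Finset Edg} (h : A ⊆ B) : (↑(dmp A) : Set Edg) ⊆ ↑(dmp B) := by
  rw [coe_dmp, coe_dmp]
  exact Set.image_mono (by exact_mod_cast h)

/-- a dual path which crosses the columns `[a, b)` meets the dual crossing -/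
theorem meet_dual {m n a b c d : ℤ} (ha : 0 ≤ a) (hab : a < b - 1) (hb : b ≤ m) (hd0 : 0 ≤ d)
    (hd : d ≤ n) {A B : ℤ} (hA : 0 ≤ A) (hB : B ≤ m) (hc : 0 ≤ c)
    {F : Finset Edg} {u w : Vtx} (hu : u.1 ≤ a) (hw : b - 1 ≤ w.1)
    (hr : DReach (↑(RE A B c d \ F) : Set Edg) u w) (hJ : DJ a b d F) :
    ∃ x1, (a ≤ x1 ∧ x1 ≤ b - 1) ∧
      DReach ((↑F : Set Edg)ᶜ ∩ ↑(RE 0 m 0 n)) (x1, -1) u := by
  obtain ⟨x1, x2, hx1, hx2, r2⟩ := hJ
  rw [← reach_dl, ← coe_dmp] at hr
  have t1 : RE A B c d \ F ⊆ RE 0 m 0 n \ F := by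
    apply Finset.sdiff_subset_sdiff _ (Finset.Subset.refl _)
    rintro ⟨x, y, _ | _⟩ h
    · simp only [mem_RE_false] at h ⊢; omega
    · simp only [mem_RE_true] at h ⊢; omega
  have t2 : LRE a b 0 d \ F ⊆ RE 0 m 0 n \ F := by
    apply Finset.sdiff_subset_sdiff _ (Finset.Subset.refl _)
    rintro ⟨x, y, _ | _⟩ h
    · simp only [mem_LRE_false, mem_RE_false] at h ⊢; omega
    · simp only [mem_LRE_true, mem_RE_true] at h ⊢; omega
  obtain ⟨y1, y2, hy1, hy2, q1, q2⟩ := sub_LR (a := a) (b := b - 1) (c := 0 - 1) (d := d) hab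
    (by
      intro x y h _ _
      rw [mem_coe, mem_dmp] at h
      have h := (Finset.mem_sdiff.1 h).1
      rw [dls_t] at h
      simp only [mem_RE_false] at h; omega)
    (by
      intro x y h _ _
      rw [mem_coe, mem_dmp] at h
      have h := (Finset.mem_sdiff.1 h).1
      rw [dls_f] at h
      simp only [mem_RE_true] at h; omega) hr hu hw
  have m0 := crossings_meet hab (by omega) (F := (↑(dmp (RE 0 m 0 n \ F)) : Set Edg)) hy2 hx1
    (q1.mono (Set.inter_subset_inter_left _ (dmono t1)))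
    (r2.mono (Set.inter_subset_inter_left _ (dmono t2)))
  have m1 : Reach (↑(dmp (RE 0 m 0 n \ F)) : Set Edg) (x1, -1) u := by
    refine (Reach.trans ?_ (q2.mono (dmono t1)).symm)
    exact (m0.mono Set.inter_subset_left).symm
  rw [coe_dmp, reach_dl] at m1
  refine ⟨x1, hx1, m1.mono ?_⟩
  intro e he
  rw [Finset.mem_coe, Finset.mem_sdiff] at he
  exact ⟨fun h => he.2 h, he.1⟩

/-- an open path which crosses the columns `[a, b]` meets the open crossing -/
theorem meet_open {m n a b c d : ℤ} (ha : 0 ≤ a) (hab : a < b) (hb : b ≤ m) (hc : 0 ≤ c)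
    (hcd : c < d) (hd : d ≤ n) {A B : ℤ} (hA : 0 ≤ A) (hAa : A ≤ a) (hbB : b ≤ B) (hB : B ≤ m)
    {F : Finset Edg} {u w : Vtx} (hu : u.1 ≤ a) (hw : b ≤ w.1)
    (hr : Reach (↑F ∩ ↑(RE A B c d)) u w) (hI : TBc a b 0 d F) :
    ∃ x1, (a ≤ x1 ∧ x1 ≤ b) ∧ Reach (↑F ∩ ↑(RE 0 m 0 n)) (x1, 0) u := by
  obtain ⟨x1, x2, hx1, hx2, r2⟩ := hI
  have h2 : Reach (↑F ∩ ↑(RE a b 0 d)) (x1, 0) (x2, d) :=
    r2.mono (Set.inter_subset_inter_right _ (by exact_mod_cast TBE_subset_RE))
  have m0 := cross_meet (F := (↑F : Set Edg)) (A := A) (B := B) (C := 0) (D := d) (a := a) (b := b)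
    (c := c) (d := d) hAa hab hbB hc hcd le_rfl hr hu hw h2 (by simp only; omega)
    (by simp only; omega)
  refine ⟨x1, hx1, (m0.mono ?_).symm⟩
  apply Set.inter_subset_inter_right
  rintro ⟨x, y, _ | _⟩ h
  · simp only [mem_coe, mem_RE_false] at h ⊢; omega
  · simp only [mem_coe, mem_RE_true] at h ⊢; omega

theorem cface_le (v : Vtx) (s : Bool × Bool) : v.1 - 1 ≤ (H934E.cface v s).1 ∧
    (H934E.cface v s).1 ≤ v.1 := by
  have h := cor_cface v s
  unfold cor at h
  omega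

theorem coe_cap {A B F G : Finset Edg} (h : ∀ e ∈ A, (e ∈ F ↔ e ∈ G)) :
    (↑F ∩ ↑A : Set Edg) ⊆ ↑G ∩ ↑A := by
  rintro e ⟨h1, h2⟩
  exact ⟨(h e h2).1 h1, h2⟩

end L2

open L2

theorem low_mid (hL : H934F.St_L) (K : ℕ) : ∃ (c : ℝ) (s : Bool × Bool), 0 < c ∧
    ∀ m n a b x y h : ℤ, 1 ≤ h → 20 * h ≤ y → y ≤ K * h → 20 * h ≤ x → x + 20 * h ≤ m →
    y + 20 * h ≤ n → a ≤ x - 9 * h → x - 5 * h ≤ b → b ≤ x + 5 * h →
    x + 9 * h ≤ a + 2 * (m + n) →
    c * (h : ℝ) ^ (-(1/4) : ℝ) ≤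
      P2 (RE 0 m 0 n) (On m n a b (x, y) (H934E.cface (x, y) s)) := by
  obtain ⟨c, s, hc, harm⟩ := H985IL.long_arms hL 10 (by norm_num)
  obtain ⟨δ, hδ, hrsw⟩ := H985IL.IL2.rswK (K + 2)
  refine ⟨c * (δ * δ), s, by positivity, ?_⟩
  intro m n a b x y h hh1 h1 h2 h3 h4 h5 h6 h7 h8 h9
  obtain ⟨k, rfl⟩ : ∃ k : ℕ, h = k := ⟨h.toNat, (Int.toNat_of_nonneg (by omega)).symm⟩
  have hk : 1 ≤ k := by exact_mod_cast hh1
  have hK0 : (0 : ℤ) ≤ K := Int.natCast_nonneg K
  set S : Finset Edg := RE 0 m 0 n with hS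
  have hN : ((10 * k : ℕ) : ℤ) = 10 * (k : ℤ) := by push_cast; ring
  have a0 : c * (k : ℝ) ^ (-(1/4) : ℝ) ≤ P2 S (H985IL.LArm s 10 k (x, y)) := by
    apply harm k hk (x, y) S
    rw [hS, hN]
    rintro ⟨x', y', _ | _⟩ h
    · simp only [mem_RE_false] at h ⊢; omega
    · simp only [mem_RE_true] at h ⊢; omega
  have iU : TBE (x - 9 * k) (x - 5 * k) 0 (y + k) ⊆ S := by
    rw [hS]
    rintro ⟨x', y', _ | _⟩ h
    · simp only [mem_TBE_false, mem_RE_false] at h ⊢; omega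
    · simp only [mem_TBE_true, mem_RE_true] at h ⊢; omega
  have iD : LRE (x + 5 * k) (x + 9 * k) 0 (y + k) ⊆ S := by
    rw [hS]
    rintro ⟨x', y', _ | _⟩ h
    · simp only [mem_LRE_false, mem_RE_false] at h ⊢; omega
    · simp only [mem_LRE_true, mem_RE_true] at h ⊢; omega
  have hKk : (0 : ℤ) ≤ K * k := by positivity
  have b1 : δ ≤ P2 S (TBc (x - 9 * k) (x - 5 * k) 0 (y + k)) := by
    have e := pr_TBc (1/2) iU
    have e1 : y + (k : ℤ) - 0 = y + k := by ring
    have e2 : x - 5 * (k : ℤ) - (x - 9 * k) = 4 * k := by ring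
    rw [e1, e2] at e
    refine le_trans ?_ (ge_of_eq e)
    apply hrsw _ _ (by omega) (by omega)
    push_cast
    nlinarith
  have b2 : δ ≤ P2 S (DJ (x + 5 * k) (x + 9 * k) (y + k)) := by
    rw [pr_DJ iD]
    have e2 : x + 9 * (k : ℤ) - 1 - (x + 5 * k) = 4 * k - 1 := by ring
    rw [e2]
    apply hrsw _ _ (by omega) (by omega)
    push_cast
    nlinarith
  have key := H731G.harris_parts (S := S) (U := TBE (x - 9 * k) (x - 5 * k) 0 (y + k))
    (D := LRE (x + 5 * k) (x + 9 * k) 0 (y + k)) iU iD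
    (by
      rw [Finset.disjoint_left]
      rintro ⟨x', y', _ | _⟩ h1 h2
      · simp only [mem_TBE_false, mem_LRE_false] at h1 h2; omega
      · simp only [mem_TBE_true, mem_LRE_true] at h1 h2; omega)
    (A := H985IL.LArm s 10 k (x, y)) (I := TBc (x - 9 * k) (x - 5 * k) 0 (y + k))
    (J := DJ (x + 5 * k) (x + 9 * k) (y + k))
    (by
      rintro F G _ hFG hGF ⟨⟨y0, hy0, r⟩, g, hg, d⟩
      refine ⟨⟨y0, hy0, r.mono (Set.inter_subset_inter_left _ (by exact_mod_cast hFG))⟩,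
        g, hg, d.mono ?_⟩
      rw [hN]
      intro e he
      rw [Finset.mem_coe, Finset.mem_sdiff] at he ⊢
      refine ⟨he.1, fun heG => ?_⟩
      rcases Finset.mem_union.1 (hGF heG) with h | h
      · exact he.2 h
      · have h0 := he.1
        obtain ⟨x', y', _ | _⟩ := e
        · simp only [mem_TBE_false, mem_RE_false] at h h0; omega
        · simp only [mem_TBE_true, mem_RE_true] at h h0; omega)
    (by
      rintro F G _ hGF hFG ⟨⟨y0, hy0, r⟩, g, hg, d⟩
      refine ⟨⟨y0, hy0, r.mono ?_⟩, g, hg, d.mono ?_⟩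
      · rw [hN]
        rintro e ⟨he1, he2⟩
        refine ⟨?_, he2⟩
        rcases Finset.mem_union.1 (hFG he1) with h | h
        · exact h
        · exfalso
          obtain ⟨x', y', _ | _⟩ := e
          · simp only [mem_coe, mem_LRE_false, mem_RE_false] at h he2; omega
          · simp only [mem_coe, mem_LRE_true, mem_RE_true] at h he2; omega
      · intro e he
        rw [Finset.mem_coe, Finset.mem_sdiff] at he ⊢
        exact ⟨he.1, fun h => he.2 (hGF h)⟩)
    (fun F G hFG hF => TBc.mono hFG hF)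
    (fun F => TBc_local (Finset.Subset.refl _))
    (fun F G hFG hG => dj_anti hFG hG)
    (fun F => dj_local F)
  have hfin : P2 S (fun F => H985IL.LArm s 10 k (x, y) F ∧
      TBc (x - 9 * k) (x - 5 * k) 0 (y + k) F ∧ DJ (x + 5 * k) (x + 9 * k) (y + k) F) ≤
      P2 S (On m n a b (x, y) (H934E.cface (x, y) s)) := by
    apply Pr_mono okhalf2
    rintro F _ ⟨⟨⟨y0, hy0, r⟩, g, hg, d⟩, hI, hJ⟩
    rw [hN] at hy0 r hg d
    simp only at hy0 r hg d
    constructor
    · obtain ⟨x1, hx1, r1⟩ := meet_open (m := m) (n := n) (by omega) (by omega) (by omega)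
        (by omega) (by omega) (by omega) (by omega) (by omega) (by omega) (by omega)
        (u := y0) (w := (x, y)) (by omega) (by simp only; omega) r.symm hI
      refine ⟨x1, ⟨by omega, by omega⟩, ?_⟩
      rw [bd_bot (by omega) (by omega) (by omega) (by omega)]
      refine r1.trans (r.symm.mono ?_)
      apply Set.inter_subset_inter_right
      rintro ⟨x', y', _ | _⟩ h
      · simp only [mem_coe, mem_RE_false] at h ⊢; omega
      · simp only [mem_coe, mem_RE_true] at h ⊢; omega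
    · have hcf := cface_le (x, y) s
      simp only at hcf
      obtain ⟨x1, hx1, r1⟩ := meet_dual (m := m) (n := n) (by omega) (by omega) (by omega)
        (by omega) (by omega) (by omega) (by omega) (by omega)
        (u := H934E.cface (x, y) s) (w := g) (by omega) (by omega) d hJ
      refine ⟨x1, ⟨by omega, by omega⟩, ?_⟩
      rw [DPar.ofc_bot (by omega) (by omega) (by omega) (by omega)]
      exact r1
  have hpos : 0 ≤ c * (k : ℝ) ^ (-(1/4) : ℝ) := by positivity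
  have e1 := mul_le_mul b1 b2 hδ.le (hδ.le.trans b1)
  have e2 := mul_le_mul a0 e1 (by positivity) (hpos.trans a0)
  have e3 : (((k : ℤ) : ℝ)) = (k : ℝ) := by norm_cast
  rw [e3]
  calc c * (δ * δ) * (k : ℝ) ^ (-(1/4) : ℝ) = c * (k : ℝ) ^ (-(1/4) : ℝ) * (δ * δ) := by ring
    _ ≤ _ := e2
    _ ≤ _ := key
    _ ≤ _ := hfin

theorem low_mid' (hL : H934F.St_L) (K : ℕ) : ∃ (c : ℝ) (s : Bool × Bool), 0 < c ∧
    ∀ m n a b x y h : ℤ, 1 ≤ h → 20 * h ≤ y → y ≤ K * h → 20 * h ≤ x → x + 20 * h ≤ m →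
    y + 20 * h ≤ n → x - 5 * h ≤ a → a ≤ x + 5 * h → x + 9 * h ≤ b →
    b ≤ x - 9 * h + 2 * (m + n) →
    c * (h : ℝ) ^ (-(1/4) : ℝ) ≤
      P2 (RE 0 m 0 n) (On m n a b (x, y) (H934E.cface (x, y) s)) := by
  obtain ⟨c, s, hc, harm⟩ := H731G.long_arms_mirror hL 10 (by norm_num)
  obtain ⟨δ, hδ, hrsw⟩ := H985IL.IL2.rswK (K + 2)
  refine ⟨c * (δ * δ), s, by positivity, ?_⟩
  intro m n a b x y h hh1 h1 h2 h3 h4 h5 h6 h7 h8 h9
  obtain ⟨k, rfl⟩ : ∃ k : ℕ, h = k := ⟨h.toNat, (Int.toNat_of_nonneg (by omega)).symm⟩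
  have hk : 1 ≤ k := by exact_mod_cast hh1
  have hK0 : (0 : ℤ) ≤ K := Int.natCast_nonneg K
  set S : Finset Edg := RE 0 m 0 n with hS
  have hN : ((10 * k : ℕ) : ℤ) = 10 * (k : ℤ) := by push_cast; ring
  have a0 : c * (k : ℝ) ^ (-(1/4) : ℝ) ≤ P2 S (RArm s 10 k (x, y)) := by
    apply harm k hk (x, y) S
    rw [hS, hN]
    rintro ⟨x', y', _ | _⟩ h
    · simp only [mem_RE_false] at h ⊢; omega
    · simp only [mem_RE_true] at h ⊢; omega
  have iU : TBE (x + 5 * k) (x + 9 * k) 0 (y + k) ⊆ S := by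
    rw [hS]
    rintro ⟨x', y', _ | _⟩ h
    · simp only [mem_TBE_false, mem_RE_false] at h ⊢; omega
    · simp only [mem_TBE_true, mem_RE_true] at h ⊢; omega
  have iD : LRE (x - 9 * k) (x - 5 * k) 0 (y + k) ⊆ S := by
    rw [hS]
    rintro ⟨x', y', _ | _⟩ h
    · simp only [mem_LRE_false, mem_RE_false] at h ⊢; omega
    · simp only [mem_LRE_true, mem_RE_true] at h ⊢; omega
  have hKk : (0 : ℤ) ≤ K * k := by positivity
  have b1 : δ ≤ P2 S (TBc (x + 5 * k) (x + 9 * k) 0 (y + k)) := by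
    have e := pr_TBc (1/2) iU
    have e1 : y + (k : ℤ) - 0 = y + k := by ring
    have e2 : x + 9 * (k : ℤ) - (x + 5 * k) = 4 * k := by ring
    rw [e1, e2] at e
    refine le_trans ?_ (ge_of_eq e)
    apply hrsw _ _ (by omega) (by omega)
    push_cast
    nlinarith
  have b2 : δ ≤ P2 S (DJ (x - 9 * k) (x - 5 * k) (y + k)) := by
    rw [pr_DJ iD]
    have e2 : x - 5 * (k : ℤ) - 1 - (x - 9 * k) = 4 * k - 1 := by ring
    rw [e2]
    apply hrsw _ _ (by omega) (by omega)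
    push_cast
    nlinarith
  have key := H731G.harris_parts (S := S) (U := TBE (x + 5 * k) (x + 9 * k) 0 (y + k))
    (D := LRE (x - 9 * k) (x - 5 * k) 0 (y + k)) iU iD
    (by
      rw [Finset.disjoint_left]
      rintro ⟨x', y', _ | _⟩ h1 h2
      · simp only [mem_TBE_false, mem_LRE_false] at h1 h2; omega
      · simp only [mem_TBE_true, mem_LRE_true] at h1 h2; omega)
    (A := RArm s 10 k (x, y)) (I := TBc (x + 5 * k) (x + 9 * k) 0 (y + k))
    (J := DJ (x - 9 * k) (x - 5 * k) (y + k))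
    (by
      rintro F G _ hFG hGF ⟨⟨y0, hy0, r⟩, g, hg, d⟩
      refine ⟨⟨y0, hy0, r.mono (Set.inter_subset_inter_left _ (by exact_mod_cast hFG))⟩,
        g, hg, d.mono ?_⟩
      rw [hN]
      intro e he
      rw [Finset.mem_coe, Finset.mem_sdiff] at he ⊢
      refine ⟨he.1, fun heG => ?_⟩
      rcases Finset.mem_union.1 (hGF heG) with h | h
      · exact he.2 h
      · have h0 := he.1
        obtain ⟨x', y', _ | _⟩ := e
        · simp only [mem_TBE_false, mem_RE_false] at h h0; omega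
        · simp only [mem_TBE_true, mem_RE_true] at h h0; omega)
    (by
      rintro F G _ hGF hFG ⟨⟨y0, hy0, r⟩, g, hg, d⟩
      refine ⟨⟨y0, hy0, r.mono ?_⟩, g, hg, d.mono ?_⟩
      · rw [hN]
        rintro e ⟨he1, he2⟩
        refine ⟨?_, he2⟩
        rcases Finset.mem_union.1 (hFG he1) with h | h
        · exact h
        · exfalso
          obtain ⟨x', y', _ | _⟩ := e
          · simp only [mem_coe, mem_LRE_false, mem_RE_false] at h he2; omega
          · simp only [mem_coe, mem_LRE_true, mem_RE_true] at h he2; omega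
      · intro e he
        rw [Finset.mem_coe, Finset.mem_sdiff] at he ⊢
        exact ⟨he.1, fun h => he.2 (hGF h)⟩)
    (fun F G hFG hF => TBc.mono hFG hF)
    (fun F => TBc_local (Finset.Subset.refl _))
    (fun F G hFG hG => dj_anti hFG hG)
    (fun F => dj_local F)
  have hfin : P2 S (fun F => RArm s 10 k (x, y) F ∧
      TBc (x + 5 * k) (x + 9 * k) 0 (y + k) F ∧ DJ (x - 9 * k) (x - 5 * k) (y + k) F) ≤
      P2 S (On m n a b (x, y) (H934E.cface (x, y) s)) := by
    apply Pr_mono okhalf2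
    rintro F _ ⟨⟨⟨y0, hy0, r⟩, g, hg, d⟩, hI, hJ⟩
    rw [hN] at hy0 r hg d
    simp only at hy0 r hg d
    constructor
    · obtain ⟨x1, hx1, r1⟩ := meet_open (m := m) (n := n) (by omega) (by omega) (by omega)
        (by omega) (by omega) (by omega) (by omega) (by omega) (by omega) (by omega)
        (u := (x, y)) (w := y0) (by simp only; omega) (by omega) r hI
      refine ⟨x1, ⟨by omega, by omega⟩, ?_⟩
      rw [bd_bot (by omega) (by omega) (by omega) (by omega)]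
      exact r1
    · have hcf := cface_le (x, y) s
      simp only at hcf
      obtain ⟨x1, hx1, r1⟩ := meet_dual (m := m) (n := n) (by omega) (by omega) (by omega)
        (by omega) (by omega) (by omega) (by omega) (by omega)
        (u := g) (w := H934E.cface (x, y) s) (by omega) (by omega) d.symm hJ
      refine ⟨x1 + 1 * (2 * (m + n)), ⟨by omega, by omega⟩, ?_⟩
      rw [ofc_period, DPar.ofc_bot (by omega) (by omega) (by omega) (by omega)]
      refine r1.trans (d.symm.mono ?_)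
      intro e he
      rw [Finset.mem_coe, Finset.mem_sdiff] at he
      refine ⟨fun h => he.2 h, ?_⟩
      have h0 := he.1
      obtain ⟨x', y', _ | _⟩ := e
      · simp only [mem_coe, mem_RE_false] at h0 ⊢; omega
      · simp only [mem_coe, mem_RE_true] at h0 ⊢; omega
  have hpos : 0 ≤ c * (k : ℝ) ^ (-(1/4) : ℝ) := by positivity
  have e1 := mul_le_mul b1 b2 hδ.le (hδ.le.trans b1)
  have e2 := mul_le_mul a0 e1 (by positivity) (hpos.trans a0)
  have e3 : (((k : ℤ) : ℝ)) = (k : ℝ) := by norm_cast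
  rw [e3]
  calc c * (δ * δ) * (k : ℝ) ^ (-(1/4) : ℝ) = c * (k : ℝ) ^ (-(1/4) : ℝ) * (δ * δ) := by ring
    _ ≤ _ := e2
    _ ≤ _ := key
    _ ≤ _ := hfin

end H731G
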