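import Pool.Agent.H731R5.Gr.Defs2
import Pool.Agent.H731R5.Gr.L2

/-!
Task X2: local form of `low_mid` (file L2.lean).
-/

set_option autoImplicit false

namespace H731G

open H974 hiding bd
open H731C H731R H731A Finset

open L2

/-- Task X2: local form of `low_mid`. -/
theorem low_mid4 (hL : H934F.St_L) (K : ℕ) : ∃ (c : ℝ) (s : Bool × Bool), 0 < c ∧
    ∀ m n x y h : ℤ, 1 ≤ h → 20 * h ≤ y → y ≤ K * h → 20 * h ≤ x → x + 20 * h ≤ m →
    y + 20 * h ≤ n →
    c * (h : ℝ) ^ (-(1/4) : ℝ) ≤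
      P2 (RE 0 m 0 n) (On4 m n (x - 9 * h) (x - 5 * h) (x + 5 * h) (x + 9 * h) (x, y)
        (H934E.cface (x, y) s)) := by
  obtain ⟨c, s, hc, harm⟩ := H985IL.long_arms hL 10 (by norm_num)
  obtain ⟨δ, hδ, hrsw⟩ := H985IL.IL2.rswK (K + 2)
  refine ⟨c * (δ * δ), s, by positivity, ?_⟩
  intro m n x y h hh1 h1 h2 h3 h4 h5
  obtain ⟨k, rfl⟩ : ∃ k : ℕ, h = k := ⟨h.toNat, (Int.toNat_of_nonneg (by omega)).symm⟩
  have hk : 1 ≤ k := by exact_mod_cast hh1
  have hK0 : (0 : ℤ) ≤ K := Int.natCast_nonneg K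
  set S : Finset Edg := RE 0 m 0 n with hS
  have hN : ((10 * k : ℕ) : ℤ) = 10 * (k : ℤ) := by push_cast; ring
  have a0 : c * (k : ℝ) ^ (-(1/4) : ℝ) ≤ P2 S (H985IL.LArm s 10 k (x, y)) := by
    apply harm k hk (x, y) S
    rw [hS, hN]
    rintro ⟨x', y', _ | _⟩ h
    · simp only [mem_RE_false] at h ⊢; omega
    · simp only [mem_RE_true] at h ⊢; omega
  have iU : TBE (x - 9 * k) (x - 5 * k) 0 (y + k) ⊆ S := by
    rw [hS]
    rintro ⟨x', y', _ | _⟩ h
    · simp only [mem_TBE_false, mem_RE_false] at h ⊢; omega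
    · simp only [mem_TBE_true, mem_RE_true] at h ⊢; omega
  have iD : LRE (x + 5 * k) (x + 9 * k) 0 (y + k) ⊆ S := by
    rw [hS]
    rintro ⟨x', y', _ | _⟩ h
    · simp only [mem_LRE_false, mem_RE_false] at h ⊢; omega
    · simp only [mem_LRE_true, mem_RE_true] at h ⊢; omega
  have hKk : (0 : ℤ) ≤ K * k := by positivity
  have b1 : δ ≤ P2 S (TBc (x - 9 * k) (x - 5 * k) 0 (y + k)) := by
    have e := pr_TBc (1/2) iU
    have e1 : y + (k : ℤ) - 0 = y + k := by ring
    have e2 : x - 5 * (k : ℤ) - (x - 9 * k) = 4 * k := by ring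
    rw [e1, e2] at e
    refine le_trans ?_ (ge_of_eq e)
    apply hrsw _ _ (by omega) (by omega)
    push_cast
    nlinarith
  have b2 : δ ≤ P2 S (DJ (x + 5 * k) (x + 9 * k) (y + k)) := by
    rw [pr_DJ iD]
    have e2 : x + 9 * (k : ℤ) - 1 - (x + 5 * k) = 4 * k - 1 := by ring
    rw [e2]
    apply hrsw _ _ (by omega) (by omega)
    push_cast
    nlinarith
  have key := harris_parts (S := S) (U := TBE (x - 9 * k) (x - 5 * k) 0 (y + k))
    (D := LRE (x + 5 * k) (x + 9 * k) 0 (y + k)) iU iD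
    (by
      rw [Finset.disjoint_left]
      rintro ⟨x', y', _ | _⟩ h1 h2
      · simp only [mem_TBE_false, mem_LRE_false] at h1 h2; omega
      · simp only [mem_TBE_true, mem_LRE_true] at h1 h2; omega)
    (A := H985IL.LArm s 10 k (x, y)) (I := TBc (x - 9 * k) (x - 5 * k) 0 (y + k))
    (J := DJ (x + 5 * k) (x + 9 * k) (y + k))
    (by
      rintro F G _ hFG hGF ⟨⟨y0, hy0, r⟩, g, hg, d⟩
      refine ⟨⟨y0, hy0, r.mono (Set.inter_subset_inter_left _ (by exact_mod_cast hFG))⟩,
        g, hg, d.mono ?_⟩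
      rw [hN]
      intro e he
      rw [Finset.mem_coe, Finset.mem_sdiff] at he ⊢
      refine ⟨he.1, fun heG => ?_⟩
      rcases Finset.mem_union.1 (hGF heG) with h | h
      · exact he.2 h
      · have h0 := he.1
        obtain ⟨x', y', _ | _⟩ := e
        · simp only [mem_TBE_false, mem_RE_false] at h h0; omega
        · simp only [mem_TBE_true, mem_RE_true] at h h0; omega)
    (by
      rintro F G _ hGF hFG ⟨⟨y0, hy0, r⟩, g, hg, d⟩
      refine ⟨⟨y0, hy0, r.mono ?_⟩, g, hg, d.mono ?_⟩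
      · rw [hN]
        rintro e ⟨he1, he2⟩
        refine ⟨?_, he2⟩
        rcases Finset.mem_union.1 (hFG he1) with h | h
        · exact h
        · exfalso
          obtain ⟨x', y', _ | _⟩ := e
          · simp only [mem_coe, mem_LRE_false, mem_RE_false] at h he2; omega
          · simp only [mem_coe, mem_LRE_true, mem_RE_true] at h he2; omega
      · intro e he
        rw [Finset.mem_coe, Finset.mem_sdiff] at he ⊢
        exact ⟨he.1, fun h => he.2 (hGF h)⟩)
    (fun F G hFG hF => TBc.mono hFG hF)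
    (fun F => TBc_local (Finset.Subset.refl _))
    (fun F G hFG hG => dj_anti hFG hG)
    (fun F => dj_local F)
  have hfin : P2 S (fun F => H985IL.LArm s 10 k (x, y) F ∧
      TBc (x - 9 * k) (x - 5 * k) 0 (y + k) F ∧ DJ (x + 5 * k) (x + 9 * k) (y + k) F) ≤
      P2 S (On4 m n (x - 9 * k) (x - 5 * k) (x + 5 * k) (x + 9 * k) (x, y)
        (H934E.cface (x, y) s)) := by
    apply Pr_mono okhalf2
    rintro F _ ⟨⟨⟨y0, hy0, r⟩, g, hg, d⟩, hI, hJ⟩
    rw [hN] at hy0 r hg d
    simp only at hy0 r hg d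
    constructor
    · obtain ⟨x1, hx1, r1⟩ := meet_open (m := m) (n := n) (by omega) (by omega) (by omega)
        (by omega) (by omega) (by omega) (by omega) (by omega) (by omega) (by omega)
        (u := y0) (w := (x, y)) (by omega) (by simp only; omega) r.symm hI
      refine ⟨x1, ⟨by omega, by omega⟩, ?_⟩
      rw [bd_bot (by omega) (by omega) (by omega) (by omega)]
      refine r1.trans (r.symm.mono ?_)
      apply Set.inter_subset_inter_right
      rintro ⟨x', y', _ | _⟩ h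
      · simp only [mem_coe, mem_RE_false] at h ⊢; omega
      · simp only [mem_coe, mem_RE_true] at h ⊢; omega
    · have hcf := cface_le (x, y) s
      simp only at hcf
      obtain ⟨x1, hx1, r1⟩ := meet_dual (m := m) (n := n) (by omega) (by omega) (by omega)
        (by omega) (by omega) (by omega) (by omega) (by omega)
        (u := H934E.cface (x, y) s) (w := g) (by omega) (by omega) d hJ
      refine ⟨x1, ⟨by omega, by omega⟩, ?_⟩
      rw [DPar.ofc_bot (by omega) (by omega) (by omega) (by omega)]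
      exact r1
  have hpos : 0 ≤ c * (k : ℝ) ^ (-(1/4) : ℝ) := by positivity
  have e1 := mul_le_mul b1 b2 hδ.le (hδ.le.trans b1)
  have e2 := mul_le_mul a0 e1 (by positivity) (hpos.trans a0)
  have e3 : (((k : ℤ) : ℝ)) = (k : ℝ) := by norm_cast
  rw [e3]
  calc c * (δ * δ) * (k : ℝ) ^ (-(1/4) : ℝ) = c * (k : ℝ) ^ (-(1/4) : ℝ) * (δ * δ) := by ring
    _ ≤ _ := e2
    _ ≤ _ := key
    _ ≤ _ := hfin

end H731G
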