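import Pool.Agent.H731R5.Gr.LD
import Pool.Agent.H731R5.Gr.Defs2

/-!
Task X3: duality of the two events, separate arcs.
-/

set_option autoImplicit false

namespace H731G

open H974 hiding bd
open H731C H731R H731A Finset

open LD DTra in
/-- Task X3, file LDx.lean (compare LD.lean) -/
theorem on_dual4 {m n a b c d : ℤ} (hm : 2 ≤ m) (hn : 2 ≤ n) (hab : a ≤ b) (hbc : b ≤ c)
    (hcd : c < d) (hda : d ≤ a + 2 * (m + n)) (f g : Vtx) :
    1 / 2 * P2 (RE 0 (m - 1) 0 (n - 1))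
        (On4 (m - 1) (n - 1) (st m n c) (st m n (d - 1)) (st m n (a + 2 * (m + n) - 1))
          (st m n b + 2 * (m - 1 + (n - 1))) f g) ≤
      P2 (RE 0 m 0 n) (On4 m n a b c d (g.1 + 1, g.2 + 1) f) := by
  have ok : Ok (fun _ : Edg => (1/2 : ℝ)) := okhalf2
  have hm1 : 1 ≤ m := by omega
  have hn1 : 1 ≤ n := by omega
  have hP : P2 (InE m n) (fun F => On4 (m - 1) (n - 1) (st m n c) (st m n (d - 1))
        (st m n (a + 2 * (m + n) - 1)) (st m n b + 2 * (m - 1 + (n - 1)))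
        f g (dmp (InE m n \ F))) =
      P2 (RE 0 (m - 1) 0 (n - 1))
        (On4 (m - 1) (n - 1) (st m n c) (st m n (d - 1)) (st m n (a + 2 * (m + n) - 1))
          (st m n b + 2 * (m - 1 + (n - 1))) f g) := by
    rw [DTra.P2_dual (InE m n) (fun F => On4 (m - 1) (n - 1) (st m n c) (st m n (d - 1))
        (st m n (a + 2 * (m + n) - 1)) (st m n b + 2 * (m - 1 + (n - 1))) f g F), dmp_InE]
  rw [← hP]
  have hR : RE 0 m 0 n = InE m n ∪ (RE 0 m 0 n \ InE m n) := by
    rw [Finset.union_sdiff_of_subset InE_subset]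
  have hdis : Disjoint (InE m n) (RE 0 m 0 n \ InE m n) := Finset.disjoint_sdiff
  have e1 : P2 (RE 0 m 0 n) (On4 m n a b c d (g.1 + 1, g.2 + 1) f) =
      Ex (fun _ : Edg => (1/2 : ℝ)) (InE m n) (fun A =>
        Ex (fun _ : Edg => (1/2 : ℝ)) (RE 0 m 0 n \ InE m n) (fun B =>
          ind (On4 m n a b c d (g.1 + 1, g.2 + 1) f (A ∪ B)))) := by
    unfold P2 Pr
    conv_lhs => rw [hR]
    rw [Ex_union hdis]
  rw [e1]
  unfold P2 Pr
  rw [← Ex_mul_left]
  refine Ex_mono ok fun A hA => ?_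
  by_cases hOn : On4 (m - 1) (n - 1) (st m n c) (st m n (d - 1)) (st m n (a + 2 * (m + n) - 1))
          (st m n b + 2 * (m - 1 + (n - 1))) f g
      (dmp (InE m n \ A))
  · rw [ind_of hOn, mul_one]
    obtain ⟨⟨i', hi', hr1⟩, ⟨j', hj', hr2⟩⟩ := hOn
    -- the boundary face
    obtain ⟨s, hs⟩ := Int.eq_ofNat_of_zero_le (show 0 ≤ d - 1 - c by omega)
    obtain ⟨j, hj1, hj2, hj3⟩ := Star.st_ivt hm hn c s i' hi'.1 (by
      rw [← hs, show c + (d - 1 - c) = d - 1 by ring]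
      exact hi'.2)
    have hdr : DReach (↑(InE m n \ A) : Set Edg) (ifc m n j) f := by
      rw [← reach_dl, ← coe_dmp, Star.ifc_eq hm hn, hj3]
      exact hr1.mono Set.inter_subset_left
    -- the boundary vertex
    obtain ⟨t, ht⟩ := Int.eq_ofNat_of_zero_le (show 0 ≤ b - a + 1 by omega)
    obtain ⟨k, hk1, hk2, hk3, hk4⟩ := exists_step hm hn (a + 2 * (m + n) - 1) t j' hj'.1 (by
      rw [← ht, show a + 2 * (m + n) - 1 + (b - a + 1) = b + 2 * (m + n) by ring,
        st_period hm hn]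
      have := hj'.2
      linarith)
    have hbd : bd m n (k - 2 * (m + n)) =
        ((ofc (m - 1) (n - 1) j').1 + 1, (ofc (m - 1) (n - 1) j').2 + 1) := by
      rw [← ofc_bd hm hn hk3 hk4]
      have := bd_period m n k (-1)
      rw [← this]
      congr 1
      ring
    have hpr : Reach (↑A : Set Edg) (bd m n (k - 2 * (m + n))) (g.1 + 1, g.2 + 1) := by
      rw [hbd]
      exact dreach_reach hr2
    have h2 := P2_one (S := RE 0 m 0 n \ InE m n) (e := bed m n j)
      (Finset.mem_sdiff.mpr ⟨bed_mem hm1 hn1 j, bed_notMem hm1 hn1 j⟩)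
    refine h2.trans ?_
    unfold P2 Pr
    refine Ex_mono ok fun B hB => ind_mono ?_
    intro hjB
    have hsub : (↑(InE m n \ A) : Set Edg) ⊆ (↑(A ∪ B) : Set Edg)ᶜ ∩ ↑(RE 0 m 0 n) := by
      intro e he
      rw [Finset.mem_coe, Finset.mem_sdiff] at he
      refine ⟨fun h => ?_, Finset.mem_coe.mpr (InE_subset he.1)⟩
      rw [Finset.mem_coe, Finset.mem_union] at h
      rcases h with h | h
      · exact he.2 h
      · exact (Finset.mem_sdiff.mp (hB h)).2 he.1
    have hb : bed m n j ∈ (↑(A ∪ B) : Set Edg)ᶜ ∩ ↑(RE 0 m 0 n) := by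
      refine ⟨fun h => ?_, Finset.mem_coe.mpr (bed_mem hm1 hn1 j)⟩
      rw [Finset.mem_coe, Finset.mem_union] at h
      rcases h with h | h
      · exact bed_notMem hm1 hn1 j (hA h)
      · exact hjB h
    refine ⟨⟨k - 2 * (m + n), ⟨by omega, by omega⟩, ?_⟩, ⟨j, ⟨hj1, by omega⟩, ?_⟩⟩
    · refine hpr.mono ?_
      intro e he
      have he' := Finset.mem_coe.mp he
      exact ⟨Finset.mem_coe.mpr (Finset.mem_union_left _ he'),
        Finset.mem_coe.mpr (InE_subset (hA he'))⟩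
    · exact (bed_dadj hb).reach.trans (hdr.mono hsub)
  · rw [ind_not_of hOn, mul_zero]
    exact Ex_nonneg ok (fun _ _ => ind_nonneg _)

end H731G
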