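import Pool.Agent.H731R5.Gr.HPDefs
import Pool.Agent.H731R5.Gr.LDx
import Pool.Agent.H731R5.Gr.Defs2
import Pool.Agent.H731R5.Gr.L1x
import Pool.Agent.H731R5.Gr.L2x
import Pool.Agent.H731R4.Arcs.Final

/-! Task P3: lower bound in the rectangle (helper228). -/

set_option autoImplicit false

namespace H731G

open H974 hiding bd
open H731C H731R H731A Finset H389KP MeasureTheory

namespace P3

theorem cd_le {m n M : ℤ} (hM : m + n ≤ 3 * M) (i : ℤ) : cd (2 * (m + n)) i ≤ 3 * M := by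
  have := cd_half (N := 2 * (m + n)) i
  omega

theorem rho_le {m n M : ℤ} (hM : m + n ≤ 3 * M) (i : ℤ) : rho m n i ≤ 3 * M := by
  have := cd_le hM i
  unfold rho
  omega

theorem sz_le {m n M : ℤ} (hm : 1 ≤ m) (hn : 1 ≤ n) (hM : m + n ≤ 3 * M) (i j : ℤ) :
    sz m n i j ≤ 40 * (M * M) := by
  have h1 := cd_le hM (j - i)
  have h2 := rho_le hM i
  have h3 := rho_le hM j
  have h4 := cd_nonneg (N := 2 * (m + n)) (by omega) (j - i)
  have h5 := rho_nonneg hm hn i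
  have h6 := rho_nonneg hm hn j
  unfold sz
  calc (cd (2 * (m + n)) (j - i) + 1) * (cd (2 * (m + n)) (j - i) + 1 + rho m n i + rho m n j)
      ≤ (4 * M) * (10 * M) := by
        apply mul_le_mul <;> omega
    _ = 40 * (M * M) := by ring

theorem sz_le' {m n M t : ℤ} (hm : 1 ≤ m) (hn : 1 ≤ n) (hM : m + n ≤ 3 * M) {i j : ℤ}
    (ht : cd (2 * (m + n)) (j - i) + 1 ≤ t) (htM : t ≤ M) : sz m n i j ≤ t * (7 * M) := by
  have h2 := rho_le hM i
  have h3 := rho_le hM j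
  have h4 := cd_nonneg (N := 2 * (m + n)) (by omega) (j - i)
  have h5 := rho_nonneg hm hn i
  have h6 := rho_nonneg hm hn j
  unfold sz
  apply mul_le_mul <;> omega

theorem sz_ge {m n M h : ℤ} (hm : 1 ≤ m) (hn : 1 ≤ n) {i j : ℤ} (hh : 1 ≤ h) (_hM : 0 ≤ M)
    (h1 : 4 * h ≤ cd (2 * (m + n)) (j - i)) (h2 : M ≤ 2 * rho m n i) :
    2 * (h * M) ≤ sz m n i j := by
  have h6 := rho_nonneg hm hn j
  have h5 := rho_nonneg hm hn i
  unfold sz
  have : (4 * h) * rho m n i ≤ (cd (2 * (m + n)) (j - i) + 1) *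
      (cd (2 * (m + n)) (j - i) + 1 + rho m n i + rho m n j) := by
    apply mul_le_mul <;> omega
  nlinarith

theorem sz_ge' {m n M : ℤ} (hm : 1 ≤ m) (hn : 1 ≤ n) {i j : ℤ} (hM : 0 ≤ M)
    (h1 : M ≤ cd (2 * (m + n)) (j - i) + 1) : M * M ≤ sz m n i j := by
  have h5 := rho_nonneg hm hn i
  have h6 := rho_nonneg hm hn j
  unfold sz
  apply mul_le_mul <;> omega

/-- bound for a quotient -/
theorem quot {s1 s2 s3 s4 h M t y : ℤ} (hh : 1 ≤ h) (hM : 1 ≤ M) (ht : 1 ≤ t) (hy : 0 ≤ y)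
    (hyh : y ≤ 8000 * h) (h3p : 1 ≤ s3) (h4p : 1 ≤ s4)
    (h1 : 2 * (h * M) ≤ s1) (h2 : M * M ≤ s2) (h34 : s3 * s4 ≤ (40 * (M * M)) * (t * (7 * M))) :
    1 / 1120000 * ((y : ℝ) / t) ≤ ((s1 : ℝ) * s2) / ((s3 : ℝ) * s4) := by
  have ht' : (0 : ℝ) < t := by exact_mod_cast (by omega : 0 < t)
  have h3' : (0 : ℝ) < s3 := by exact_mod_cast (by omega : 0 < s3)
  have h4' : (0 : ℝ) < s4 := by exact_mod_cast (by omega : 0 < s4)
  have hM' : (0 : ℝ) < M := by exact_mod_cast (by omega : 0 < M)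
  have hh' : (0 : ℝ) < h := by exact_mod_cast (by omega : 0 < h)
  have hy' : (0 : ℝ) ≤ y := by exact_mod_cast hy
  have hyh' : (y : ℝ) ≤ 8000 * h := by exact_mod_cast hyh
  have h1' : 2 * ((h : ℝ) * M) ≤ s1 := by exact_mod_cast h1
  have h2' : (M : ℝ) * M ≤ s2 := by exact_mod_cast h2
  have h34' : (s3 : ℝ) * s4 ≤ (40 * (M * M)) * (t * (7 * M)) := by exact_mod_cast h34
  have e1 : 2 * ((h : ℝ) * M) * (M * M) ≤ (s1 : ℝ) * s2 :=
    mul_le_mul h1' h2' (by positivity) ((by positivity : (0:ℝ) ≤ 2 * (h * M)).trans h1')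
  rw [mul_div_assoc', div_le_div_iff₀ ht' (by positivity)]
  calc 1 / 1120000 * (y : ℝ) * (s3 * s4)
      ≤ 1 / 1120000 * (8000 * h) * ((40 * (M * M)) * (t * (7 * M))) := by
        apply mul_le_mul _ h34' (by positivity) (by positivity)
        apply mul_le_mul_of_nonneg_left hyh' (by norm_num)
    _ = 2 * (h * M) * (M * M) * t := by ring
    _ ≤ (s1 : ℝ) * s2 * t := mul_le_mul_of_nonneg_right e1 ht'.le

theorem fin {c1 c2 k H Y E R P Q : ℝ} (hc1 : 0 < c1) (hc2 : 0 < c2) (hk : 0 < k) (hH : Y ≤ H)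
    (hY : 0 ≤ Y) (hR : 0 ≤ R) (hE : k * R ≤ E) (hQ : c2 * E ^ ((1 : ℝ) / 3) ≤ Q)
    (hP : c1 * (H * Q) ≤ P) : c1 * c2 * k ^ ((1 : ℝ) / 3) * (Y * R ^ ((1 : ℝ) / 3)) ≤ P := by
  refine le_trans ?_ hP
  have h1 : k ^ ((1 : ℝ) / 3) * R ^ ((1 : ℝ) / 3) ≤ E ^ ((1 : ℝ) / 3) := by
    rw [← Real.mul_rpow hk.le hR]
    exact Real.rpow_le_rpow (by positivity) hE (by norm_num)
  have h2 : 0 ≤ k ^ ((1 : ℝ) / 3) * R ^ ((1 : ℝ) / 3) := by positivity
  have h3 : c2 * (k ^ ((1 : ℝ) / 3) * R ^ ((1 : ℝ) / 3)) ≤ Q :=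
    (mul_le_mul_of_nonneg_left h1 hc2.le).trans hQ
  calc c1 * c2 * k ^ ((1 : ℝ) / 3) * (Y * R ^ ((1 : ℝ) / 3))
      = c1 * (Y * (c2 * (k ^ ((1 : ℝ) / 3) * R ^ ((1 : ℝ) / 3)))) := by ring
    _ ≤ c1 * (H * Q) := by
        apply mul_le_mul_of_nonneg_left _ hc1.le
        exact mul_le_mul hH h3 (by positivity) (hY.trans hH)

theorem st_small {m n i : ℤ} (hm : 1 ≤ m) (hn : 1 ≤ n) (h0 : 0 ≤ i) (h1 : i < m) :
    st m n i = i := by
  unfold st
  have e1 : i % (2 * (m + n)) = i := Int.emod_eq_of_lt h0 (by omega)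
  have e2 : i / (2 * (m + n)) = 0 := Int.ediv_eq_zero_of_lt h0 (by omega)
  rw [e1, e2, if_neg (by omega), if_neg (by omega), if_neg (by omega)]
  ring

theorem st_last {m n : ℤ} (hm : 1 ≤ m) (hn : 1 ≤ n) :
    st m n (2 * (m + n) - 1) = 2 * (m + n) - 4 := by
  unfold st
  have e1 : (2 * (m + n) - 1) % (2 * (m + n)) = 2 * (m + n) - 1 :=
    Int.emod_eq_of_lt (by omega) (by omega)
  have e2 : (2 * (m + n) - 1) / (2 * (m + n)) = 0 := Int.ediv_eq_zero_of_lt (by omega) (by omega)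
  rw [e1, e2, if_pos (by omega), if_pos (by omega), if_pos (by omega)]
  ring

/-- the vertex of the dual lattice -/
def fs (x y : ℤ) (s : Bool × Bool) : Vtx := (if s.1 then x - 1 else x, if s.2 then y - 1 else y)

theorem fs_cface (x y : ℤ) (s : Bool × Bool) : H934E.cface (fs x y s) s = (x - 1, y - 1) := by
  obtain ⟨_ | _, _ | _⟩ := s <;> simp [fs, H934E.cface]

theorem fs_cor (x y : ℤ) (s : Bool × Bool) : cor (x, y) (fs x y s) := by
  obtain ⟨_ | _, _ | _⟩ := s <;> simp [fs, cor]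

theorem fs_bd (x y : ℤ) (s : Bool × Bool) : (x - 1 ≤ (fs x y s).1 ∧ (fs x y s).1 ≤ x) ∧
    (y - 1 ≤ (fs x y s).2 ∧ (fs x y s).2 ≤ y) := by
  obtain ⟨_ | _, _ | _⟩ := s <;> simp [fs]

end P3

open P3 in
theorem half_rect_low (hL : H934F.St_L) : ∃ (c : ℝ) (r0 : ℤ), 0 < c ∧ 1 ≤ r0 ∧
    ∀ M x y : ℤ, r0 ≤ y → 4 * (|x| + y) ≤ M → M ≤ 8 * (|x| + y) →
    c * ((y : ℝ) ^ (-(1/4) : ℝ) * ((y : ℝ) / ((|x| : ℤ) + y)) ^ ((1 : ℝ) / 3)) ≤
      P2 (RE 0 (2 * M) 0 (M - 1)) (fun F => ∃ f, cor (x + M, y) f ∧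
        On4 (2 * M) (M - 1) 0 M M (2 * M) (x + M, y) f F) := by
  have ok : Ok (fun _ : Edg => (1/2 : ℝ)) := okhalf2
  obtain ⟨c1, s1, hc1, h1⟩ := low_far4 hL 8000
  obtain ⟨c2, s2, hc2, h2⟩ := low_mid4 hL 8000
  obtain ⟨c3, _, hc3, _, h3⟩ := AA_eta 3
  have hk : 0 < ((25 : ℤ) : ℝ) ^ (-(1/4) : ℝ) := Real.rpow_pos_of_pos (by norm_num) _
  have hk1 : (0:ℝ) < 1 / 1120000 := by norm_num
  refine ⟨min (c1 / 2 * c3 * (1 / 1120000 : ℝ) ^ ((1 : ℝ) / 3))
    (c2 * ((25 : ℤ) : ℝ) ^ (-(1/4) : ℝ)), 4000, by positivity, by norm_num, ?_⟩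
  intro M x y hy hM1 _
  -- the scale
  obtain ⟨h, hh, hh1, hh2⟩ : ∃ h : ℤ, 1 ≤ h ∧ 4000 * h ≤ y ∧ y ≤ 8000 * h := by
    refine ⟨y / 4000, by omega, by omega, by omega⟩
  have hax := abs_nonneg x
  have hx1 := neg_abs_le x
  have hx2 := le_abs_self x
  have hm : 1 ≤ 2 * M := by omega
  have hn : 1 ≤ M - 1 := by omega
  have hY0 : (0 : ℝ) < y := by exact_mod_cast (by omega : 0 < y)
  have hH0 : (0 : ℝ) < h := by exact_mod_cast (by omega : 0 < h)
  have ht0 : (0 : ℝ) < ((|x| : ℤ) : ℝ) + y := by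
    have : (0:ℝ) ≤ ((|x| : ℤ) : ℝ) := by exact_mod_cast hax
    linarith
  have hYp : 0 ≤ (y : ℝ) ^ (-(1/4) : ℝ) := Real.rpow_nonneg hY0.le _
  have hHp : 0 ≤ (h : ℝ) ^ (-(1/4) : ℝ) := Real.rpow_nonneg hH0.le _
  have hYH : (y : ℝ) ^ (-(1/4) : ℝ) ≤ (h : ℝ) ^ (-(1/4) : ℝ) :=
    Real.rpow_le_rpow_of_nonpos hH0 (by exact_mod_cast (by omega : h ≤ y)) (by norm_num)
  have hR0 : 0 ≤ (y : ℝ) / (((|x| : ℤ) : ℝ) + y) := by positivity
  have hR3 : 0 ≤ ((y : ℝ) / (((|x| : ℤ) : ℝ) + y)) ^ ((1 : ℝ) / 3) := Real.rpow_nonneg hR0 _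
  have hcast : (((|x| + y : ℤ)) : ℝ) = ((|x| : ℤ) : ℝ) + y := by push_cast; ring
  rcases lt_or_ge x (20 * h) with hxh | hxh
  swap
  · -- the wired arc is far to the left
    refine le_trans (mul_le_mul_of_nonneg_right (min_le_left _ _) (by positivity)) ?_
    have g1 := h1 (2 * M) (M - 1) (2 * (2 * M + (M - 1))) (2 * (2 * M + (M - 1)) + M) (x + M) y h
      hh (by omega) (by push_cast; omega) (by omega) (by omega) (by omega) (by omega) (by omega)
      (by omega)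
    have g2 := (h3 (2 * M) (M - 1) (x + M - 2 * h) (x + M + 2 * h) (2 * (2 * M + (M - 1)))
      (2 * (2 * M + (M - 1)) + M) hm hn (by push_cast; omega) (by push_cast; omega) (by omega)
      (by omega) (by omega) (by omega)).1
    have hN : (0:ℤ) < 2 * (2 * M + (M - 1)) := by omega
    have g3 : 1 / 1120000 * ((y : ℝ) / (((|x| : ℤ) : ℝ) + y)) ≤
        eta (2 * M) (M - 1) (x + M - 2 * h) (x + M + 2 * h) (2 * (2 * M + (M - 1)))
          (2 * (2 * M + (M - 1)) + M) := by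
      rw [← hcast]
      unfold eta
      refine quot (M := M) hh (by omega) (by omega) (by omega) hh2 (sz_pos hm hn _ _)
        (sz_pos hm hn _ _) ?_ ?_ ?_
      · refine sz_ge hm hn hh (by omega) ?_ ?_
        · have e : x + M + 2 * h - (x + M - 2 * h) = 4 * h := by ring
          rw [e, cd_of_mem (by omega) (by omega) hN]
          omega
        · rw [rho_bot hm hn (by omega) (by omega)]
          omega
      · refine sz_ge' hm hn (by omega) ?_
        have e : 2 * (2 * M + (M - 1)) + M - 2 * (2 * M + (M - 1)) = M := by ring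
        rw [e, cd_of_mem (by omega) (by omega) hN]
        omega
      · refine mul_le_mul (sz_le hm hn (by omega) _ _) (sz_le' hm hn (by omega) ?_ (by omega))
          (by have := sz_pos hm hn (x + M + 2 * h) (2 * (2 * M + (M - 1)) + M); omega)
          (by have := mul_self_nonneg M; omega)
        have e : 2 * (2 * M + (M - 1)) + M - (x + M + 2 * h) =
            -(x + 2 * h) + 1 * (2 * (2 * M + (M - 1))) := by ring
        rw [e, cd_period, cd_neg hN, cd_of_mem (by omega) (by omega) hN]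
        omega
    have g4 : P2 (RE 0 (2 * M) 0 (M - 1)) (On4 (2 * M) (M - 1) (2 * (2 * M + (M - 1)))
          (2 * (2 * M + (M - 1)) + M) (x + M + 5 * h) (x + M + 9 * h) (x + M, y)
          (H934E.cface (x + M, y) s1)) ≤
        P2 (RE 0 (2 * M) 0 (M - 1)) (fun F => ∃ f, cor (x + M, y) f ∧
          On4 (2 * M) (M - 1) 0 M M (2 * M) (x + M, y) f F) := by
      unfold P2
      refine Pr_mono ok fun F _ hev => ?_
      obtain ⟨⟨i, hi, hr⟩, j, hj, hd⟩ := hev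
      refine ⟨_, cor_cface _ _, ⟨i + (-1) * (2 * (2 * M + (M - 1))), ⟨by omega, by omega⟩, ?_⟩,
        j, ⟨by omega, by omega⟩, hd⟩
      rw [H731A.bd_period]
      exact hr
    have g5 : c1 / 2 * ((h : ℝ) ^ (-(1/4) : ℝ) *
        P2 (RE 0 (2 * M) 0 (M - 1)) (AA (2 * M) (M - 1) (x + M - 2 * h) (x + M + 2 * h)
          (2 * (2 * M + (M - 1))) (2 * (2 * M + (M - 1)) + M))) ≤
        P2 (RE 0 (2 * M) 0 (M - 1)) (fun F => ∃ f, cor (x + M, y) f ∧
          On4 (2 * M) (M - 1) 0 M M (2 * M) (x + M, y) f F) := by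
      refine le_trans ?_ (g1.trans g4)
      refine mul_le_mul_of_nonneg_right (by linarith) (mul_nonneg hHp ?_)
      exact Pr_nonneg ok _ _
    exact fin (by positivity) hc3 hk1 hYH hYp hR0 g3 g2 g5
  rcases lt_or_ge (-(20 * h)) x with hxh' | hxh'
  · -- both arcs are near
    refine le_trans (mul_le_mul_of_nonneg_right (min_le_right _ _) (by positivity)) ?_
    have g1 := h2 (2 * M) (M - 1) (x + M) y (25 * h) (by omega) (by omega) (by push_cast; omega)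
      (by omega) (by omega) (by omega)
    have e1 : (((25 * h : ℤ)) : ℝ) ^ (-(1/4) : ℝ) =
        ((25 : ℤ) : ℝ) ^ (-(1/4) : ℝ) * (h : ℝ) ^ (-(1/4) : ℝ) := by
      rw [Int.cast_mul, Real.mul_rpow (by norm_num) hH0.le]
    rw [e1] at g1
    have g4 : P2 (RE 0 (2 * M) 0 (M - 1)) (On4 (2 * M) (M - 1) (x + M - 9 * (25 * h))
          (x + M - 5 * (25 * h)) (x + M + 5 * (25 * h)) (x + M + 9 * (25 * h)) (x + M, y)
          (H934E.cface (x + M, y) s2)) ≤
        P2 (RE 0 (2 * M) 0 (M - 1)) (fun F => ∃ f, cor (x + M, y) f ∧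
          On4 (2 * M) (M - 1) 0 M M (2 * M) (x + M, y) f F) := by
      unfold P2
      refine Pr_mono ok fun F _ hev => ?_
      obtain ⟨⟨i, hi, hr⟩, j, hj, hd⟩ := hev
      exact ⟨_, cor_cface _ _, ⟨i, ⟨by omega, by omega⟩, hr⟩, j, ⟨by omega, by omega⟩, hd⟩
    refine le_trans ?_ (g1.trans g4)
    have hle1 : ((y : ℝ) / (((|x| : ℤ) : ℝ) + y)) ^ ((1 : ℝ) / 3) ≤ 1 := by
      apply Real.rpow_le_one hR0 _ (by norm_num)
      rw [div_le_one ht0]
      have : (0:ℝ) ≤ ((|x| : ℤ) : ℝ) := by exact_mod_cast hax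
      linarith
    calc c2 * ((25 : ℤ) : ℝ) ^ (-(1/4) : ℝ) * ((y : ℝ) ^ (-(1/4) : ℝ) *
          ((y : ℝ) / (((|x| : ℤ) : ℝ) + y)) ^ ((1 : ℝ) / 3))
        ≤ c2 * ((25 : ℤ) : ℝ) ^ (-(1/4) : ℝ) * ((h : ℝ) ^ (-(1/4) : ℝ) * 1) := by
          apply mul_le_mul_of_nonneg_left _ (by positivity)
          exact mul_le_mul hYH hle1 hR3 hHp
      _ = c2 * (((25 : ℤ) : ℝ) ^ (-(1/4) : ℝ) * (h : ℝ) ^ (-(1/4) : ℝ)) := by ring
  · -- the wired arc is below: duality
    refine le_trans (mul_le_mul_of_nonneg_right (min_le_left _ _) (by positivity)) ?_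
    set f := fs (x + M) y s1 with hf
    have hfb := fs_bd (x + M) y s1
    rw [← hf] at hfb
    obtain ⟨⟨hf1, hf2⟩, hf3, hf4⟩ := hfb
    have hm' : 1 ≤ 2 * M - 1 := by omega
    have hn' : 1 ≤ M - 1 - 1 := by omega
    have hN : (0:ℤ) < 2 * (2 * M - 1 + (M - 1 - 1)) := by omega
    have g1 := h1 (2 * M - 1) (M - 1 - 1) M (2 * M - 1) f.1 f.2 h
      hh (by omega) (by push_cast; omega) (by omega) (by omega) (by omega) (by omega) (by omega)
      (by omega)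
    have g2 := (h3 (2 * M - 1) (M - 1 - 1) (f.1 - 2 * h) (f.1 + 2 * h) M
      (2 * M - 1) hm' hn' (by push_cast; omega) (by push_cast; omega) (by omega)
      (by omega) (by omega) (by omega)).1
    have habs : |x| = -x := abs_of_nonpos (by omega)
    have g3 : 1 / 1120000 * ((y : ℝ) / (((|x| : ℤ) : ℝ) + y)) ≤
        eta (2 * M - 1) (M - 1 - 1) (f.1 - 2 * h) (f.1 + 2 * h) M (2 * M - 1) := by
      rw [← hcast]
      unfold eta
      refine quot (M := M) hh (by omega) (by omega) (by omega) hh2 (sz_pos hm' hn' _ _)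
        (sz_pos hm' hn' _ _) ?_ ?_ ?_
      · refine sz_ge hm' hn' hh (by omega) ?_ ?_
        · have e : f.1 + 2 * h - (f.1 - 2 * h) = 4 * h := by ring
          rw [e, cd_of_mem (by omega) (by omega) hN]
          omega
        · rw [rho_bot hm' hn' (by omega) (by omega)]
          omega
      · refine sz_ge' hm' hn' (by omega) ?_
        have e : 2 * M - 1 - M = M - 1 := by ring
        rw [e, cd_of_mem (by omega) (by omega) hN]
        omega
      · rw [mul_comm]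
        refine mul_le_mul (sz_le hm' hn' (by omega) _ _) (sz_le' hm' hn' (by omega) ?_ (by omega))
          (by have := sz_pos hm' hn' (f.1 - 2 * h) M; omega)
          (by have := mul_self_nonneg M; omega)
        rw [cd_of_mem (by omega) (by omega) hN]
        omega
    have g4 := H731G.on_dual4 (m := 2 * M) (n := M - 1) (a := 0) (b := M) (c := M) (d := 2 * M)
      (by omega) (by omega) (by omega) le_rfl (by omega) (by omega) f (x + M - 1, y - 1)
    simp only [sub_add_cancel, zero_add] at g4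
    rw [st_small hm hn (by omega : (0:ℤ) ≤ M) (by omega), st_small hm hn
      (by omega : (0:ℤ) ≤ 2 * M - 1) (by omega), st_last hm hn] at g4
    have g5 : P2 (RE 0 (2 * M - 1) 0 (M - 1 - 1)) (On4 (2 * M - 1) (M - 1 - 1) M
          (2 * M - 1) (f.1 + 5 * h) (f.1 + 9 * h) f (H934E.cface f s1)) ≤
        P2 (RE 0 (2 * M - 1) 0 (M - 1 - 1)) (On4 (2 * M - 1) (M - 1 - 1) M (2 * M - 1)
          (2 * (2 * M + (M - 1)) - 4) (M + 2 * (2 * M - 1 + (M - 1 - 1))) f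
          (x + M - 1, y - 1)) := by
      unfold P2
      refine Pr_mono ok fun F _ hev => ?_
      obtain ⟨hVA, j, hj, hd⟩ := hev
      rw [hf, fs_cface] at hd
      refine ⟨hVA, j + 1 * (2 * (2 * M - 1 + (M - 1 - 1))), ⟨by omega, by omega⟩, ?_⟩
      rw [DPar.ofc_period]
      exact hd
    have g6 : P2 (RE 0 (2 * M) 0 (M - 1)) (On4 (2 * M) (M - 1) 0 M M (2 * M) (x + M, y) f) ≤
        P2 (RE 0 (2 * M) 0 (M - 1)) (fun F => ∃ f, cor (x + M, y) f ∧
          On4 (2 * M) (M - 1) 0 M M (2 * M) (x + M, y) f F) := by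
      unfold P2
      refine Pr_mono ok fun F _ hev => ⟨f, ?_, hev⟩
      rw [hf]
      exact fs_cor _ _ _
    have g7 : c1 / 2 * ((h : ℝ) ^ (-(1/4) : ℝ) *
        P2 (RE 0 (2 * M - 1) 0 (M - 1 - 1)) (AA (2 * M - 1) (M - 1 - 1) (f.1 - 2 * h)
          (f.1 + 2 * h) M (2 * M - 1))) ≤
        P2 (RE 0 (2 * M) 0 (M - 1)) (fun F => ∃ f, cor (x + M, y) f ∧
          On4 (2 * M) (M - 1) 0 M M (2 * M) (x + M, y) f F) := by
      refine le_trans ?_ (g4.trans g6)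
      refine le_trans ?_ (mul_le_mul_of_nonneg_left (g1.trans g5) (by norm_num : (0:ℝ) ≤ 1 / 2))
      exact le_of_eq (by ring)
    exact fin (by positivity) hc3 hk1 hYH hYp hR0 g3 g2 g7

end H731G
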