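import Pool.Agent.H731R5.Gr.HPDefs

/-!
Half-plane, task P4: the cross-ratio of the middle of the bottom side.
-/

set_option autoImplicit false

namespace H731G

open H974 hiding bd
open H731C H731R H731A H731G Finset H389KP MeasureTheory

namespace P4

theorem emod_of (N a b : ℤ) (k : ℤ) (h : a = b + N * k) (h0 : 0 ≤ b) (h1 : b < N) : a % N = b := by
  rw [h, Int.add_mul_emod_self_left, Int.emod_eq_of_lt h0 h1]

theorem cd_nonneg (N a : ℤ) (hN : 0 < N) : 0 ≤ cd N a := by
  unfold cd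
  have h1 := Int.emod_nonneg a hN.ne'
  have h2 := Int.emod_lt_of_pos a hN
  exact le_min h1 (by linarith)

theorem rho_zero (M : ℤ) (hM : 0 < M) : rho (2 * M) M 0 = 0 := by
  have hN : 0 < 2 * (2 * M + M) := by linarith
  unfold rho
  have h1 : cd (2 * (2 * M + M)) 0 = 0 := by
    unfold cd
    simp only [Int.zero_emod, sub_zero]
    exact min_eq_left hN.le
  rw [h1]
  apply le_antisymm
  · exact (min_le_left _ _).trans (min_le_left _ _)
  · exact le_min (le_min le_rfl (cd_nonneg _ _ hN)) (le_min (cd_nonneg _ _ hN) (cd_nonneg _ _ hN))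

theorem cd_M (M : ℤ) (hM : 0 < M) : cd (2 * (2 * M + M)) M = M := by
  unfold cd
  rw [emod_of (2 * (2 * M + M)) M M 0 (by ring) hM.le (by linarith)]
  exact min_eq_left (by linarith)

theorem rho_M (M : ℤ) (hM : 0 < M) : rho (2 * M) M M = M := by
  unfold rho
  have h1 := cd_M M hM
  have h2 : cd (2 * (2 * M + M)) (M - 2 * M) = M := by
    unfold cd
    rw [emod_of (2 * (2 * M + M)) (M - 2 * M) (5 * M) (-1) (by ring) (by linarith) (by linarith)]
    rw [min_eq_right (by linarith)]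
    ring
  have h3 : cd (2 * (2 * M + M)) (M - (2 * M + M)) = 2 * M := by
    unfold cd
    rw [emod_of (2 * (2 * M + M)) (M - (2 * M + M)) (4 * M) (-1) (by ring) (by linarith)
      (by linarith)]
    rw [min_eq_right (by linarith)]
    ring
  have h4 : cd (2 * (2 * M + M)) (M - (2 * (2 * M) + M)) = 2 * M := by
    unfold cd
    rw [emod_of (2 * (2 * M + M)) (M - (2 * (2 * M) + M)) (2 * M) (-1) (by ring) (by linarith)
      (by linarith)]
    exact min_eq_left (by linarith)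
  rw [h1, h2, h3, h4, min_self, min_self]
  exact min_eq_left (by linarith)

theorem sz_M (M : ℤ) (hM : 0 < M) : sz (2 * M) M 0 M = (M + 1) * (2 * M + 1) := by
  unfold sz
  rw [rho_zero M hM, rho_M M hM, sub_zero, cd_M M hM]
  ring

theorem bd_zero (M : ℤ) (hM : 0 < M) : H731A.bd (2 * M) M 0 = (0, 0) := by
  unfold H731A.bd
  rw [if_pos (by rw [Int.zero_emod]; linarith), Int.zero_emod]

theorem bd_M (M : ℤ) (hM : 0 < M) : H731A.bd (2 * M) M M = (M, 0) := by
  unfold H731A.bd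
  rw [emod_of (2 * (2 * M + M)) M M 0 (by ring) hM.le (by linarith), if_pos (by linarith)]

end P4

open P4 in
theorem HH_half : ∃ C : ℝ, 0 < C ∧ ∀ M x y : ℤ, 1 ≤ y → 4 * (|x| + y) ≤ M →
    HH (2 * M) M 0 M (x + M, y) ≤ C * ((y : ℝ) / ((|x| : ℤ) + y)) := by
  refine ⟨24 * 32 / 9, by norm_num, ?_⟩
  intro M x y hy hM
  have hx0 : 0 ≤ |x| := abs_nonneg x
  have hx1 : x ≤ |x| := le_abs_self x
  have hx2 : -x ≤ |x| := neg_le_abs x
  have hM0 : 0 < M := by linarith
  set z : ℤ := |x| + y with hz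
  have hz1 : 1 ≤ z := by linarith
  -- the factors
  have hpx : px (2 * M) (x + M, y) ≤ 2 * M := by
    unfold px
    have : min (x + M) (2 * M - (x + M)) ≤ M := by
      rcases le_total 0 x with h | h
      · exact (min_le_right _ _).trans (by linarith)
      · exact (min_le_left _ _).trans (by linarith)
    simp only
    linarith
  have hpx0 : 0 ≤ px (2 * M) (x + M, y) := by
    unfold px
    have : 0 ≤ min (x + M) (2 * M - (x + M)) := le_min (by linarith) (by linarith)
    simp only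
    linarith
  have hpy : py M (x + M, y) ≤ 2 * y := by
    unfold py
    have : min y (M - y) ≤ y := min_le_left _ _
    simp only
    linarith
  have hpy0 : 0 ≤ py M (x + M, y) := by
    unfold py
    have : 0 ≤ min y (M - y) := le_min (by linarith) (by linarith)
    simp only
    linarith
  have hsz : sz (2 * M) M 0 M ≤ 6 * M ^ 2 := by
    rw [sz_M M hM0]
    nlinarith
  have hsz0 : 0 ≤ sz (2 * M) M 0 M := by
    rw [sz_M M hM0]
    positivity
  have hds0 : 3 * M ≤ 4 * ds (2 * M) M (x + M, y) 0 := by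
    unfold ds
    rw [bd_zero M hM0]
    simp only [sub_zero]
    have h1 : x + M ≤ |x + M| := le_abs_self _
    have h2 : |x + M| ≤ max |x + M| |y| := le_max_left _ _
    linarith
  have hdsM : z ≤ 2 * ds (2 * M) M (x + M, y) M := by
    unfold ds
    rw [bd_M M hM0]
    simp only [sub_zero, add_sub_cancel_right]
    have h1 : |x| ≤ max |x| |y| := le_max_left _ _
    have h2 : |y| ≤ max |x| |y| := le_max_right _ _
    have h3 : y ≤ |y| := le_abs_self _
    linarith
  have hsv0 : 9 * M ^ 2 ≤ 16 * sv (2 * M) M (x + M, y) 0 := by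
    unfold sv
    rw [rho_zero M hM0]
    nlinarith
  have hsvM : z * M ≤ 2 * sv (2 * M) M (x + M, y) M := by
    unfold sv
    rw [rho_M M hM0]
    nlinarith
  unfold HH
  have c1 : ((px (2 * M) (x + M, y) : ℤ) : ℝ) ≤ 2 * M := by exact_mod_cast hpx
  have c1' : (0 : ℝ) ≤ ((px (2 * M) (x + M, y) : ℤ) : ℝ) := by exact_mod_cast hpx0
  have c2 : ((py M (x + M, y) : ℤ) : ℝ) ≤ 2 * y := by exact_mod_cast hpy
  have c2' : (0 : ℝ) ≤ ((py M (x + M, y) : ℤ) : ℝ) := by exact_mod_cast hpy0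
  have c3 : ((sz (2 * M) M 0 M : ℤ) : ℝ) ≤ 6 * (M : ℝ) ^ 2 := by exact_mod_cast hsz
  have c3' : (0 : ℝ) ≤ ((sz (2 * M) M 0 M : ℤ) : ℝ) := by exact_mod_cast hsz0
  have c4 : 9 * (M : ℝ) ^ 2 ≤ 16 * ((sv (2 * M) M (x + M, y) 0 : ℤ) : ℝ) := by
    exact_mod_cast hsv0
  have c5 : (z : ℝ) * M ≤ 2 * ((sv (2 * M) M (x + M, y) M : ℤ) : ℝ) := by
    exact_mod_cast hsvM
  have hMr : (0 : ℝ) < M := by exact_mod_cast hM0
  have hyr : (1 : ℝ) ≤ y := by exact_mod_cast hy
  have hzr : (1 : ℝ) ≤ z := by exact_mod_cast hz1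
  have hzz : ((|x| : ℤ) : ℝ) + (y : ℝ) = (z : ℝ) := by rw [hz]; push_cast; ring
  have num : ((px (2 * M) (x + M, y) : ℤ) : ℝ) * ((py M (x + M, y) : ℤ) : ℝ) *
      ((sz (2 * M) M 0 M : ℤ) : ℝ) ≤ (2 * M) * (2 * y) * (6 * (M : ℝ) ^ 2) := by
    apply mul_le_mul _ c3 c3' (by positivity)
    exact mul_le_mul c1 c2 c2' (by positivity)
  have den : (9 / 16 * (M : ℝ) ^ 2) * (z * M / 2) ≤
      ((sv (2 * M) M (x + M, y) 0 : ℤ) : ℝ) * ((sv (2 * M) M (x + M, y) M : ℤ) : ℝ) := by
    apply mul_le_mul (by linarith) (by linarith) (by positivity)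
    have : (0 : ℝ) ≤ 9 * (M : ℝ) ^ 2 := by positivity
    linarith
  have hden : (0 : ℝ) < (9 / 16 * (M : ℝ) ^ 2) * (z * M / 2) := by positivity
  calc _ ≤ ((2 * M) * (2 * y) * (6 * (M : ℝ) ^ 2)) / ((9 / 16 * (M : ℝ) ^ 2) * (z * M / 2)) :=
        div_le_div₀ (by positivity) num hden den
    _ = 24 * 32 / 9 * ((y : ℝ) / ((|x| : ℤ) + y)) := by
        rw [hzz]
        field_simp
        ring

end H731G
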