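import Pool.Agent.H731R5.Gr.P1
import Pool.Agent.H731R5.Gr.P2a
import Pool.Agent.H731R5.Gr.P2b
import Pool.Agent.H731R5.Gr.P3
import Pool.Agent.H731R5.Gr.P4
import Pool.Agent.H731R5.Gr.HPDefs
import Pool.Agent.H731R5.Gr.Fin

/-!
One-point function of the exploration path in the half-plane.
-/

set_option autoImplicit false

namespace H731G

open H974 hiding bd
open H731C H731R H731A Finset H389KP MeasureTheory

namespace HPf

theorem third_mul {x y : ℝ} (hx : 0 ≤ x) (hy : 0 ≤ y) :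
    (x * y) ^ ((1 : ℝ) / 3) = x ^ ((1 : ℝ) / 3) * y ^ ((1 : ℝ) / 3) := Real.mul_rpow hx hy

end HPf

/-- **One-point function in the half-plane.** -/
theorem half_green (hA : H934F.St_A) (hL : H934F.St_L) : ∃ (c C : ℝ) (r0 : ℕ), 0 < c ∧ 0 < C ∧
    ∀ (x : ℤ) (y : ℕ), r0 ≤ y →
    c * ((y : ℝ) ^ (-(1/4) : ℝ) * ((y : ℝ) / (((|x| + y : ℤ)) : ℝ)) ^ ((1 : ℝ) / 3)) ≤
        perc.real {ω | Vis ω (x, y)} ∧
      perc.real {ω | Vis ω (x, y)} ≤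
        C * ((y : ℝ) ^ (-(1/4) : ℝ) * ((y : ℝ) / (((|x| + y : ℤ)) : ℝ)) ^ ((1 : ℝ) / 3)) := by
  obtain ⟨c1, C1, hc1, hC1, hg⟩ := green' hA hL 2
  obtain ⟨C2, hC2, hH⟩ := H731G.HH_half
  obtain ⟨c3, r3, hc3, hr3, hlow⟩ := H731G.half_rect_low hL
  refine ⟨c3 / 2 * (1 / 2) ^ ((1 : ℝ) / 3), 2 * (C1 * C2 ^ ((1 : ℝ) / 3)), r3.toNat + 4001,
    by positivity, by positivity, ?_⟩
  intro x y hy
  have hy' : r3 + 4001 ≤ (y : ℤ) := by omega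
  have hax : 0 ≤ |x| := abs_nonneg x
  have hyR : (0 : ℝ) < (y : ℝ) := by exact_mod_cast (by omega : 0 < y)
  have hzR : (0 : ℝ) < ((|x| + y : ℤ) : ℝ) := by exact_mod_cast (by omega : 0 < |x| + (y : ℤ))
  have hxx := neg_abs_le x
  have hxx' := le_abs_self x
  constructor
  · -- lower bound
    obtain ⟨M, hM⟩ : ∃ M : ℕ, (M : ℤ) = 4 * (|x| + y) :=
      ⟨(4 * (|x| + y)).toNat, Int.toNat_of_nonneg (by omega)⟩
    have e1 := H731G.half_ge (x := x) (y := y) (by omega) M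
    have e2 := H731G.half_low (M := (M : ℤ)) (x := x) (y := (y : ℤ)) (by omega) (by omega)
      (by omega) (by omega)
    have e3 := hlow (M : ℤ) x ((y : ℤ) - 1) (by omega) (by omega) (by omega)
    have hy1 : (0 : ℝ) < (((y : ℤ) - 1 : ℤ) : ℝ) := by
      exact_mod_cast (by omega : (0 : ℤ) < (y : ℤ) - 1)
    have hz1 : (0 : ℝ) < (((|x| : ℤ) : ℝ) + (((y : ℤ) - 1 : ℤ) : ℝ)) := by
      exact_mod_cast (by omega : (0 : ℤ) < |x| + ((y : ℤ) - 1))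
    have k1 : (y : ℝ) ^ (-(1/4) : ℝ) ≤ (((y : ℤ) - 1 : ℤ) : ℝ) ^ (-(1/4) : ℝ) := by
      apply Real.rpow_le_rpow_of_nonpos hy1 _ (by norm_num)
      push_cast; linarith
    have k2 : (1 / 2) ^ ((1 : ℝ) / 3) * ((y : ℝ) / (((|x| + y : ℤ)) : ℝ)) ^ ((1 : ℝ) / 3) ≤
        ((((y : ℤ) - 1 : ℤ) : ℝ) / (((|x| : ℤ) : ℝ) + (((y : ℤ) - 1 : ℤ) : ℝ))) ^
          ((1 : ℝ) / 3) := by
      rw [← HPf.third_mul (by norm_num) (by positivity)]
      apply Real.rpow_le_rpow (by positivity) _ (by norm_num)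
      rw [← mul_div_assoc, div_le_div_iff₀ hzR hz1]
      have a1 : (1 / 2 : ℝ) * y ≤ (((y : ℤ) - 1 : ℤ) : ℝ) := by
        push_cast
        have : (2 : ℝ) ≤ y := by exact_mod_cast (by omega : 2 ≤ y)
        linarith
      have a2 : (((|x| : ℤ) : ℝ) + (((y : ℤ) - 1 : ℤ) : ℝ)) ≤ ((|x| + y : ℤ) : ℝ) := by
        push_cast; linarith
      exact mul_le_mul a1 a2 hz1.le hy1.le
    have k3 : 0 ≤ ((y : ℝ) / (((|x| + y : ℤ)) : ℝ)) ^ ((1 : ℝ) / 3) := by positivity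
    have k4 : 0 ≤ (y : ℝ) ^ (-(1/4) : ℝ) := by positivity
    have k5 : c3 * ((y : ℝ) ^ (-(1/4) : ℝ) * ((1 / 2) ^ ((1 : ℝ) / 3) *
        ((y : ℝ) / (((|x| + y : ℤ)) : ℝ)) ^ ((1 : ℝ) / 3))) ≤
        c3 * ((((y : ℤ) - 1 : ℤ) : ℝ) ^ (-(1/4) : ℝ) *
          ((((y : ℤ) - 1 : ℤ) : ℝ) / (((|x| : ℤ) : ℝ) + (((y : ℤ) - 1 : ℤ) : ℝ))) ^
          ((1 : ℝ) / 3)) :=
      mul_le_mul_of_nonneg_left (mul_le_mul k1 k2 (by positivity) (k4.trans k1)) hc3.le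
    have e4 := k5.trans (e3.trans (by
      have := e2
      have e5 : (y : ℤ) - 1 = (y : ℤ) - 1 := rfl
      exact this))
    calc c3 / 2 * (1 / 2) ^ ((1 : ℝ) / 3) * ((y : ℝ) ^ (-(1/4) : ℝ) *
          ((y : ℝ) / (((|x| + y : ℤ)) : ℝ)) ^ ((1 : ℝ) / 3))
        = (c3 * ((y : ℝ) ^ (-(1/4) : ℝ) * ((1 / 2) ^ ((1 : ℝ) / 3) *
            ((y : ℝ) / (((|x| + y : ℤ)) : ℝ)) ^ ((1 : ℝ) / 3)))) / 2 := by ring
      _ ≤ (2 * P2 (VE (-(M : ℤ)) M 0 M) (HV M (x, (y : ℤ)))) / 2 := by linarith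
      _ = P2 (VE (-(M : ℤ)) M 0 M) (HV M (x, (y : ℤ))) := by ring
      _ ≤ _ := e1
  · -- upper bound
    apply H731G.half_le (by omega) (4 * (|x| + y)).toNat
    intro M hM
    have hM' : 4 * (|x| + (y : ℤ)) ≤ M := by omega
    have e1 := H731G.half_up (M := (M : ℤ)) (x := x) (y := (y : ℤ)) (by omega) (by omega)
      (by omega) (by omega)
    have p1 : (y : ℤ) + 1 ≤ px (2 * (M : ℤ)) (x + M, (y : ℤ)) := by
      unfold px; simp only; omega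
    have p2 : py (M : ℤ) (x + M, (y : ℤ)) = y + 1 := by
      unfold py; simp only; omega
    have e2 := (hg (2 * (M : ℤ)) (M : ℤ) 0 M (x + M, (y : ℤ)) (by push_cast; omega)
      (by push_cast; omega) (by omega) (by omega) (by omega) (by omega)).2
    have e3 := hH (M : ℤ) x (y : ℤ) (by omega) hM'
    have p3 : min (px (2 * (M : ℤ)) (x + M, (y : ℤ))) (py (M : ℤ) (x + M, (y : ℤ))) = y + 1 := by
      rw [p2]; omega
    rw [p3] at e2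
    have hHn : 0 ≤ HH (2 * (M : ℤ)) M 0 M (x + M, (y : ℤ)) :=
      HH_nonneg (by omega) (by omega) ⟨by simp only; omega, by simp only; omega⟩
        ⟨by simp only; omega, by simp only; omega⟩
    have k1 : (((y : ℤ) + 1 : ℤ) : ℝ) ^ (-(1/4) : ℝ) ≤ (y : ℝ) ^ (-(1/4) : ℝ) := by
      apply Real.rpow_le_rpow_of_nonpos hyR _ (by norm_num)
      push_cast; linarith
    have k2 : HH (2 * (M : ℤ)) M 0 M (x + M, (y : ℤ)) ^ ((1 : ℝ) / 3) ≤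
        C2 ^ ((1 : ℝ) / 3) * ((y : ℝ) / (((|x| + y : ℤ)) : ℝ)) ^ ((1 : ℝ) / 3) := by
      rw [← HPf.third_mul hC2.le (by positivity)]
      apply Real.rpow_le_rpow hHn _ (by norm_num)
      refine e3.trans (le_of_eq ?_)
      push_cast; rfl
    have k3 : 0 ≤ HH (2 * (M : ℤ)) M 0 M (x + M, (y : ℤ)) ^ ((1 : ℝ) / 3) :=
      Real.rpow_nonneg hHn _
    have k4 : 0 ≤ (y : ℝ) ^ (-(1/4) : ℝ) := by positivity
    calc _ ≤ _ := e1
      _ ≤ 2 * (C1 * ((((y : ℤ) + 1 : ℤ) : ℝ) ^ (-(1/4) : ℝ) *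
            HH (2 * (M : ℤ)) M 0 M (x + M, (y : ℤ)) ^ ((1 : ℝ) / 3))) :=
          mul_le_mul_of_nonneg_left e2 (by norm_num)
      _ ≤ 2 * (C1 * ((y : ℝ) ^ (-(1/4) : ℝ) *
            (C2 ^ ((1 : ℝ) / 3) * ((y : ℝ) / (((|x| + y : ℤ)) : ℝ)) ^ ((1 : ℝ) / 3)))) :=
          mul_le_mul_of_nonneg_left (mul_le_mul_of_nonneg_left
            (mul_le_mul k1 k2 k3 k4) hC1.le) (by norm_num)
      _ = _ := by ring

end H731G
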