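import Pool.Agent.H731R5.Gr.HPDefs2
import Pool.Agent.H731R5.Gr.P2a

/-! Task Q2: half-plane, hits: upper comparison (helper819, after P2a of helper228). -/

set_option autoImplicit false

namespace H731G

open H974 hiding bd
open H731C H731R H731A H731G Finset H389KP MeasureTheory

theorem hit_up {M x y r : ℤ} (hM : 1 ≤ M) (hr : 0 ≤ r) (hx : |x| + r < M) (hy : r + 1 ≤ y)
    (hyM : y + r < M) :
    P2 (VE (-M) M 0 M) (HHit M (x, y) r) ≤
      2 * P2 (RE 0 (2 * M) 0 M) (HitB (2 * M) M 0 M (x + M, y) r) := by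
  have ok : Ok (fun _ : Edg => (1/2 : ℝ)) := okhalf2
  have hR : (trl M 0).mp (RE (-M) M 0 M) = RE 0 (2 * M) 0 M := by
    rw [trl_RE]; congr 1 <;> ring
  have h1 := (trl M 0).pr (1/2) (RE (-M) M 0 M) (HitB (2 * M) M 0 M (x + M, y) r)
  rw [hR] at h1
  have h2 : P2 (RE 0 (2 * M) 0 M) (HitB (2 * M) M 0 M (x + M, y) r) =
      P2 (RE (-M) M 0 M) (fun F => HitB (2 * M) M 0 M (x + M, y) r ((trl M 0).mp F)) := h1
  rw [h2]
  have hU : RE (-M) M 0 M = VE (-M) M 0 M ∪ (RE (-M) M 0 M \ VE (-M) M 0 M) := by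
    rw [Finset.union_sdiff_of_subset VE_subset_RE]
  have hdis : Disjoint (VE (-M) M 0 M) (RE (-M) M 0 M \ VE (-M) M 0 M) :=
    Finset.disjoint_sdiff
  have e1 : P2 (RE (-M) M 0 M) (fun F => HitB (2 * M) M 0 M (x + M, y) r ((trl M 0).mp F)) =
      Ex (fun _ : Edg => (1/2 : ℝ)) (VE (-M) M 0 M) (fun A =>
        Ex (fun _ : Edg => (1/2 : ℝ)) (RE (-M) M 0 M \ VE (-M) M 0 M) (fun B =>
          ind (HitB (2 * M) M 0 M (x + M, y) r ((trl M 0).mp (A ∪ B))))) := by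
    unfold P2 Pr
    conv_lhs => rw [hU]
    rw [Ex_union hdis]
  have key : 1 / 2 * P2 (VE (-M) M 0 M) (HHit M (x, y) r) ≤
      P2 (RE (-M) M 0 M) (fun F => HitB (2 * M) M 0 M (x + M, y) r ((trl M 0).mp F)) := by
    rw [e1]
    unfold P2 Pr
    rw [← Ex_mul_left]
    refine Ex_mono ok fun A hA => ?_
    by_cases hHV : HHit M (x, y) r A
    · rw [ind_of hHV, mul_one]
      obtain ⟨u, ⟨hu1, hu2⟩, ⟨p', hp', hr⟩, f, hf, p, hp, hd⟩ := hHV
      have hmem : ((p, 0, true) : Edg) ∈ RE (-M) M 0 M \ VE (-M) M 0 M := by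
        rw [Finset.mem_sdiff, mem_RE_true, mem_VE_true]
        omega
      refine (P2a.P2_closed hmem).ge.trans ?_
      unfold P2 Pr
      refine Ex_mono ok fun B hB => ind_mono ?_
      intro he
      obtain ⟨u1, u2⟩ := u
      refine ⟨(u1 + M, u2), ⟨?_, hu2⟩, P2a.det hM hA hp' hr hf hp hd hB he⟩
      have e : ((u1 + M, u2) : Vtx).1 - ((x + M, y) : Vtx).1 = ((u1, u2) : Vtx).1 - ((x, y) : Vtx).1 := by
        simp only
        ring
      rw [e]
      exact hu1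
    · rw [ind_not_of hHV, mul_zero]
      exact Ex_nonneg ok (fun _ _ => ind_nonneg _)
  linarith

end H731G
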