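import Pool.Agent.H731R5.Gr.HPDefs2
import Pool.Agent.H731R5.Gr.P2b

/-!
Half-plane: lower comparison with a rectangle, for the event that the path comes near a vertex
(helper368).
-/

set_option autoImplicit false

namespace H731G

open H974 hiding bd
open H731C H731R H731A Finset H389KP MeasureTheory

namespace Q3

/-- the shifted event at a vertex at distance at most `r` -/
def EVH (M x y r : ℤ) (A : Finset Edg) : Prop :=
  ∃ u : Vtx, (|u.1 - x| ≤ r ∧ |u.2 - y| ≤ r) ∧ P2bAux.EV M u.1 u.2 A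

theorem stepA {M x y r : ℤ} (hM : 2 ≤ M) {F : Finset Edg} (h : HRHit M (x + M, y - 1) r F) :
    EVH M x y r ((trl (-M) 1).mp F) := by
  obtain ⟨⟨u1, u2⟩, ⟨h1, h2⟩, hu⟩ := h
  simp only at h1 h2
  refine ⟨(u1 - M, u2 + 1), ⟨?_, ?_⟩, ?_⟩
  · simp only
    have : u1 - M - x = u1 - (x + M) := by ring
    rw [this]; exact h1
  · simp only
    have : u2 + 1 - y = u2 - (y - 1) := by ring
    rw [this]; exact h2
  · simp only
    apply P2bAux.step1 hM
    have e1 : u1 - M + M = u1 := by ring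
    have e2 : u2 + 1 - 1 = u2 := by ring
    rw [e1, e2]
    exact hu

end Q3

open P2bAux Q3 in
theorem hit_low {M x y r : ℤ} (hM : 2 ≤ M) (hr : 0 ≤ r) (hx : |x| + r < M) (hy : r + 1 ≤ y)
    (hyM : y + r < M) :
    P2 (RE 0 (2 * M) 0 (M - 1)) (HRHit M (x + M, y - 1) r) ≤
      2 * P2 (VE (-M) M 0 M) (HHit M (x, y) r) := by
  have hTV : RE (-M) M 1 M ⊆ VE (-M) M 0 M := by
    rintro ⟨a, b, _ | _⟩ he
    · rw [mem_RE_false] at he
      rw [mem_VE_false]
      omega
    · rw [mem_RE_true] at he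
      rw [mem_VE_true]
      omega
  have h1 : P2 (RE 0 (2 * M) 0 (M - 1)) (HRHit M (x + M, y - 1) r) ≤
      P2 (RE (-M) M 1 M) (EVH M x y r) := by
    unfold P2
    rw [← rect, LSym.pr]
    exact Pr_mono okhalf2 (fun F _ h => stepA hM h)
  have h2 : P2 (RE (-M) M 1 M) (EVH M x y r) * (1/2) ≤ P2 (VE (-M) M 0 M) (HHit M (x, y) r) := by
    unfold P2 Pr
    have h3 : VE (-M) M 0 M = RE (-M) M 1 M ∪ (VE (-M) M 0 M \ RE (-M) M 1 M) :=
      (Finset.union_sdiff_of_subset hTV).symm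
    rw [h3, Ex_union Finset.disjoint_sdiff, ← Ex_mul_right]
    refine Ex_mono okhalf2 fun A hA => ?_
    by_cases hE : EVH M x y r A
    · rw [ind_of hE, one_mul]
      obtain ⟨u, hu, f, hf, ⟨p, hp, hr'⟩, ⟨q, hq, hd⟩⟩ := hE
      have h4 : (p, (0:ℤ), false) ∈ VE (-M) M 0 M \ RE (-M) M 1 M := by
        rw [Finset.mem_sdiff, mem_VE_false, mem_RE_false]
        omega
      have h5 := P2_edge h4
      unfold P2 Pr at h5
      refine le_trans (le_of_eq h5.symm) ?_
      refine Ex_mono okhalf2 fun G hG => ?_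
      refine ind_mono fun hG1 => ?_
      exact ⟨(u.1, u.2), hu, step2 hM hA hG hp hr' hf hq hd hG1⟩
    · rw [ind_not_of hE, zero_mul]
      exact Ex_nonneg okhalf2 fun _ _ => ind_nonneg _
  linarith

end H731G
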