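import Pool.Agent.H731R5.Gr.Defs2
import Pool.Agent.H731R5.Gr.U1

/-!
Task S1: two arms between the radius `r` and the radius `h`, independent of the connection outside
of the box of radius `h`.
-/

set_option autoImplicit false

namespace H731G

open H974 hiding bd
open H731C H731R H731A Finset

namespace S1

open U1

/-- the two arms between the radii `r + 1` and `h` in the box -/
def TA' (r h : ℤ) (v : Vtx) (F : Finset Edg) : Prop :=
  H12S.Crs v.1 v.2 (r + 1).toNat h.toNat ↑F ∧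
    H12S.DCrs v.1 v.2 (r + 1).toNat h.toNat (↑(B h v \ F) : Set Edg)

variable {m n a b r h : ℤ} {v : Vtx}

theorem crs' (hr : 1 ≤ r) (hh : r < h) (h1 : h ≤ v.1) (h2 : v.1 + h ≤ m) (h3 : h ≤ v.2)
    (h4 : v.2 + h ≤ n) {F : Finset Edg} (hV : BX m n a b v r F) :
    H12S.Crs v.1 v.2 (r + 1).toNat h.toNat (↑(F ∩ B h v) : Set Edg) := by
  obtain ⟨i, u, -, ⟨hu1, hu2⟩, hr'⟩ := hV
  rw [abs_le] at hu1 hu2
  have hn : ((h.toNat : ℕ) : ℤ) = h := Int.toNat_of_nonneg (by omega)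
  have hn' : (((r + 1).toNat : ℕ) : ℤ) = r + 1 := Int.toNat_of_nonneg (by omega)
  obtain ⟨w, hw, hr''⟩ := fexit (fun w : Vtx => (v.1 - h < w.1 ∧ w.1 < v.1 + h) ∧
    (v.2 - h < w.2 ∧ w.2 < v.2 + h)) hr'.symm ⟨by omega, by omega⟩ (by
      rcases bd_cases m n i with h | h | h | h <;> omega)
  refine ⟨u, w, ?_, ?_, hr''.mono ?_⟩
  · unfold inR; rw [hn']; omega
  · rw [hn]; simp only [not_and_or, not_lt] at hw; omega
  · rintro ⟨x, y, _ | _⟩ ⟨⟨he1, he2⟩, he3⟩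
    · rw [coe_inter]
      refine ⟨he1, ?_⟩
      simp only [src_mk, tgt_false] at he3
      unfold B
      simp only [mem_coe, mem_RE_false]
      omega
    · rw [coe_inter]
      refine ⟨he1, ?_⟩
      simp only [src_mk, tgt_true] at he3
      unfold B
      simp only [mem_coe, mem_RE_true]
      omega

theorem dcrs' (hr : 1 ≤ r) (hh : r < h) (h1 : h ≤ v.1) (h2 : v.1 + h ≤ m) (h3 : h ≤ v.2)
    (h4 : v.2 + h ≤ n) {F : Finset Edg} (hV : BD m n a b v r F) :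
    H12S.DCrs v.1 v.2 (r + 1).toNat h.toNat (↑(B h v \ (F ∩ B h v)) : Set Edg) := by
  obtain ⟨j, g, -, ⟨hg1, hg2⟩, hr'⟩ := hV
  have hn : ((h.toNat : ℕ) : ℤ) = h := Int.toNat_of_nonneg (by omega)
  have hn' : (((r + 1).toNat : ℕ) : ℤ) = r + 1 := Int.toNat_of_nonneg (by omega)
  obtain ⟨w, hw, hr''⟩ := dfexit (fun w : Vtx => (v.1 - h ≤ w.1 ∧ w.1 < v.1 + h) ∧
    (v.2 - h ≤ w.2 ∧ w.2 < v.2 + h)) hr'.symm ⟨by omega, by omega⟩ (by
      rcases ofc_cases m n j with h | h | h | h <;> omega)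
  refine ⟨g, w, ?_, ?_, hr''.mono ?_⟩
  · unfold inR; rw [hn']; omega
  · rw [hn]; simp only [not_and_or, not_lt, not_le] at hw; omega
  · rintro ⟨x, y, _ | _⟩ ⟨⟨he1, he2⟩, he3⟩
    · rw [mem_coe, mem_sdiff, mem_inter]
      refine ⟨?_, fun h5 => he1 h5.1⟩
      simp only [dsrc_false, dtgt_mk] at he3
      unfold B
      simp only [mem_RE_false]
      omega
    · rw [mem_coe, mem_sdiff, mem_inter]
      refine ⟨?_, fun h5 => he1 h5.1⟩
      simp only [dsrc_true, dtgt_mk] at he3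
      unfold B
      simp only [mem_RE_true]
      omega

theorem xp' (hr : 1 ≤ r) (hh : r < h) {F : Finset Edg} (hV : BX m n a b v r F) :
    XP m n a b v h (F ∩ (RE 0 m 0 n \ B h v)) := by
  obtain ⟨i, u, hi, ⟨hu1, hu2⟩, hr'⟩ := hV
  rw [abs_le] at hu1 hu2
  obtain ⟨w, hw, hrw⟩ := H731C.TC.last_exit (inR (v.1 - h) (v.1 + h) (v.2 - h) (v.2 + h)) hr'.symm
    (by unfold inR; omega)
  refine ⟨i, w, hi, ?_, hrw.symm.mono ?_⟩
  · obtain ⟨h1, h2⟩ := hw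
    constructor <;> rw [abs_le] <;> omega
  · rintro e ⟨⟨h1, h2⟩, h3⟩
    have h4 : e ∈ RE 0 m 0 n \ B h v := by
      rw [mem_sdiff]
      refine ⟨h2, fun h4 => h3 ?_⟩
      rw [Set.mem_ofPred_eq]
      exact RE_ends h4
    refine ⟨?_, h4⟩
    rw [mem_coe, mem_inter]
    exact ⟨h1, h4⟩

theorem xd' (hr : 1 ≤ r) (hh : r < h) (h1 : h ≤ v.1) (h2 : v.1 + h ≤ m) (h3 : h ≤ v.2)
    (h4 : v.2 + h ≤ n) {F : Finset Edg} (hV : BD m n a b v r F) :
    XD m n a b v h (F ∩ (RE 0 m 0 n \ B h v)) := by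
  obtain ⟨j, g₀, hj, ⟨hg1, hg2⟩, hr'⟩ := hV
  obtain ⟨w, g, hw, hg, hwg, hrg⟩ := dlast (fun w : Vtx => (v.1 - h ≤ w.1 ∧ w.1 < v.1 + h) ∧
    (v.2 - h ≤ w.2 ∧ w.2 < v.2 + h)) hr'.symm ⟨by omega, by omega⟩ (by
      rcases ofc_cases m n j with h | h | h | h <;> omega)
  refine ⟨j, g, hj, ?_, hrg.symm.mono ?_⟩
  · obtain ⟨⟨x, y, _ | _⟩, -, hc⟩ := hwg
    · simp only [dsrc_false, dtgt_mk] at hc
      rcases hc with ⟨h5, h6⟩ | ⟨h5, h6⟩
      · rw [← h5] at hw; rw [← h6]; simp only at hw ⊢; omega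
      · rw [← h6] at hw; rw [← h5]; simp only at hw ⊢; omega
    · simp only [dsrc_true, dtgt_mk] at hc
      rcases hc with ⟨h5, h6⟩ | ⟨h5, h6⟩
      · rw [← h5] at hw; rw [← h6]; simp only at hw ⊢; omega
      · rw [← h6] at hw; rw [← h5]; simp only at hw ⊢; omega
  · rintro e ⟨⟨h5, h6⟩, h7⟩
    have h8 : e ∈ RE 0 m 0 n \ B h v := by
      rw [mem_sdiff]
      refine ⟨h6, fun h8 => ?_⟩
      obtain ⟨x, y, _ | _⟩ := e
      · simp only [dsrc_false, dtgt_mk] at h7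
        unfold B at h8
        rw [mem_RE_false] at h8
        omega
      · simp only [dsrc_true, dtgt_mk] at h7
        unfold B at h8
        rw [mem_RE_true] at h8
        omega
    refine ⟨?_, h8⟩
    intro h9
    rw [mem_coe, mem_inter] at h9
    exact h5 h9.1

end S1

open U1 S1 in
theorem out_outer (hA : H934F.St_A) : ∃ C : ℝ, 0 < C ∧ ∀ (m n a b r h : ℤ) (v : Vtx), 1 ≤ r →
    r ≤ h → a ≤ b → b < a + 2 * (m + n) → h ≤ v.1 → v.1 + h ≤ m → h ≤ v.2 → v.2 + h ≤ n →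
    P2 (RE 0 m 0 n) (Out m n a b v r) ≤
        C * (((r : ℝ) / h) ^ ((1 : ℝ) / 4) * P2 (RE 0 m 0 n) (BX m n a b v h)) ∧
      P2 (RE 0 m 0 n) (Out m n a b v r) ≤
        C * (((r : ℝ) / h) ^ ((1 : ℝ) / 4) * P2 (RE 0 m 0 n) (BD m n a b v h)) := by
  obtain ⟨C, hC, H⟩ := hA
  refine ⟨2 * C + 1, by linarith, ?_⟩
  intro m n a b r h v hr hrh _ _ h1 h2 h3 h4
  have hr0 : (1 : ℝ) ≤ r := by exact_mod_cast hr
  have hh0 : (0 : ℝ) < h := by exact_mod_cast lt_of_lt_of_le (by omega : (0 : ℤ) < r) hrh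
  have hq : 0 ≤ ((r : ℝ) / h) ^ ((1 : ℝ) / 4) := Real.rpow_nonneg (by positivity) _
  rcases lt_or_eq_of_le hrh with hlt | heq
  · have hp : P2 (B h v) (TA' r h v) ≤ (2 * C + 1) * ((r : ℝ) / h) ^ ((1 : ℝ) / 4) := by
      have h5 := H (r + 1).toNat h.toNat (by omega) (by omega) v.1 v.2 (B h v)
      have hn : ((h.toNat : ℕ) : ℝ) = h := by
        have : ((h.toNat : ℕ) : ℤ) = h := Int.toNat_of_nonneg (by omega)
        exact_mod_cast this
      have hn' : (((r + 1).toNat : ℕ) : ℝ) = r + 1 := by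
        have : (((r + 1).toNat : ℕ) : ℤ) = r + 1 := Int.toNat_of_nonneg (by omega)
        exact_mod_cast this
      rw [hn, hn'] at h5
      have e1 : (((r : ℝ) + 1) / h) ^ (1/4 : ℝ) ≤ 2 * ((r : ℝ) / h) ^ ((1 : ℝ) / 4) := by
        have e2 : ((r : ℝ) + 1) / h ≤ 2 * ((r : ℝ) / h) := by
          rw [← mul_div_assoc]
          exact div_le_div_of_nonneg_right (by linarith) hh0.le
        calc (((r : ℝ) + 1) / h) ^ (1/4 : ℝ) ≤ (2 * ((r : ℝ) / h)) ^ (1/4 : ℝ) :=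
              Real.rpow_le_rpow (by positivity) e2 (by norm_num)
          _ = (2 : ℝ) ^ (1/4 : ℝ) * ((r : ℝ) / h) ^ (1/4 : ℝ) :=
              Real.mul_rpow (by norm_num) (by positivity)
          _ ≤ 2 * ((r : ℝ) / h) ^ (1/4 : ℝ) := by
              refine mul_le_mul_of_nonneg_right ?_ hq
              calc (2 : ℝ) ^ (1/4 : ℝ) ≤ (2 : ℝ) ^ (1 : ℝ) :=
                    Real.rpow_le_rpow_of_exponent_le (by norm_num) (by norm_num)
                _ = 2 := Real.rpow_one _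
      have h6 : P2 (B h v) (TA' r h v) ≤ C * (((r : ℝ) + 1) / h) ^ (1/4 : ℝ) := h5
      calc P2 (B h v) (TA' r h v) ≤ C * (((r : ℝ) + 1) / h) ^ (1/4 : ℝ) := h6
        _ ≤ C * (2 * ((r : ℝ) / h) ^ ((1 : ℝ) / 4)) := mul_le_mul_of_nonneg_left e1 hC.le
        _ ≤ (2 * C + 1) * ((r : ℝ) / h) ^ ((1 : ℝ) / 4) := by nlinarith
    have hB := B_sub h1 h2 h3 h4
    rw [← mul_assoc, ← mul_assoc]
    constructor
    · refine main _ _ hB (TA' r h v) (XP m n a b v h) _ _ hp ?_ ?_ ?_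
      · rintro F ⟨g1, g2⟩
        exact ⟨crs' hr hlt h1 h2 h3 h4 g1, dcrs' hr hlt h1 h2 h3 h4 g2⟩
      · rintro F ⟨g1, g2⟩
        exact xp' hr hlt g1
      · intro F
        exact XP_BX
    · refine main _ _ hB (TA' r h v) (XD m n a b v h) _ _ hp ?_ ?_ ?_
      · rintro F ⟨g1, g2⟩
        exact ⟨crs' hr hlt h1 h2 h3 h4 g1, dcrs' hr hlt h1 h2 h3 h4 g2⟩
      · rintro F ⟨g1, g2⟩
        exact xd' hr hlt h1 h2 h3 h4 g2
      · intro F
        exact XD_BD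
  · subst heq
    have hone : ((r : ℝ) / r) ^ ((1 : ℝ) / 4) = 1 := by
      rw [div_self (by linarith), Real.one_rpow]
    rw [hone, one_mul, one_mul]
    constructor
    · have e1 : P2 (RE 0 m 0 n) (Out m n a b v r) ≤ P2 (RE 0 m 0 n) (BX m n a b v r) :=
        Pr_mono okhalf2 (fun F _ hF => hF.1)
      have e2 := U1.P2_nonneg (RE 0 m 0 n) (BX m n a b v r)
      nlinarith
    · have e1 : P2 (RE 0 m 0 n) (Out m n a b v r) ≤ P2 (RE 0 m 0 n) (BD m n a b v r) :=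
        Pr_mono okhalf2 (fun F _ hF => hF.2)
      have e2 := U1.P2_nonneg (RE 0 m 0 n) (BD m n a b v r)
      nlinarith

theorem hit_out {m n a b r : ℤ} {v : Vtx} (hr : 0 ≤ r) {F : Finset Edg}
    (h : HitB m n a b v r F) : Out m n a b v r F := by
  obtain ⟨u, ⟨hu1, hu2⟩, ⟨i, hi, hri⟩, f, ⟨hc1, hc2⟩, j, hj, hrj⟩ := h
  refine ⟨⟨i, u, hi, ⟨hu1, hu2⟩, hri⟩, ⟨j, f, hj, ?_, hrj⟩⟩
  rw [abs_le] at hu1 hu2
  omega

end H731G
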