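import Pool.Agent.H731R5.Gr.Defs2
import Pool.Agent.H731R5.Gr.S1
import Pool.Agent.H731R5.Gr.UA

/-! Task S2: upper bound for `Out` near the bottom side. -/

set_option autoImplicit false

namespace H731G

open H974 hiding bd
open H731C H731R H731A Finset

theorem out_upper_bot (hA : H934F.St_A) (K : ℕ) : ∃ C : ℝ, 0 < C ∧ ∀ m n a b x y h r : ℤ,
    m ≤ K * n → n ≤ K * m → 10 ≤ h → 50 * h ≤ y → y ≤ 100 * h → 50 * h ≤ x → x + 50 * h ≤ m →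
    y + 50 * h ≤ n → a ≤ b → b < a + 2 * (m + n) → 1 ≤ r → r ≤ h →
    P2 (RE 0 m 0 n) (Out m n a b (x, y) r) ≤
      C * (((r : ℝ) / h) ^ ((1 : ℝ) / 4) * (HH m n a b (x, y)) ^ ((1 : ℝ) / 3)) := by
  obtain ⟨C1, hC1, H1⟩ := out_outer hA
  obtain ⟨C, hC, HG⟩ := UA.good K
  refine ⟨C1 * C, by positivity, ?_⟩
  intro m n a b x y h r mn nm hh y1 y2 x1 x2 y3 hab hba hr1 hr2
  have hg := HG m n a b x y h ⟨mn, nm, hh, y1, y2, x1, x2, y3⟩ hab hba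
  obtain ⟨g1, g2⟩ := H1 m n a b r h (x, y) hr1 hr2 hab hba (by show h ≤ x; omega)
    (by show x + h ≤ m; omega) (by show h ≤ y; omega) (by show y + h ≤ n; omega)
  have hr0 : (0 : ℝ) ≤ r := by exact_mod_cast (by omega : (0 : ℤ) ≤ r)
  have hh0 : (0 : ℝ) ≤ h := by exact_mod_cast (by omega : (0 : ℤ) ≤ h)
  have hp : (0 : ℝ) ≤ ((r : ℝ) / h) ^ ((1 : ℝ) / 4) := Real.rpow_nonneg (div_nonneg hr0 hh0) _
  have key : ∀ p : ℝ, p ≤ C * (HH m n a b (x, y)) ^ ((1 : ℝ) / 3) →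
      C1 * (((r : ℝ) / h) ^ ((1 : ℝ) / 4) * p) ≤
        C1 * C * (((r : ℝ) / h) ^ ((1 : ℝ) / 4) * (HH m n a b (x, y)) ^ ((1 : ℝ) / 3)) := by
    intro p hpp
    have h1 := mul_le_mul_of_nonneg_left (mul_le_mul_of_nonneg_left hpp hp) hC1.le
    refine h1.trans (le_of_eq ?_)
    ring
  rcases hg with hg | hg
  · exact g1.trans (key _ hg)
  · exact g2.trans (key _ hg)

end H731G
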