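import Pool.Agent.H731R5.Gr.Defs2
import Pool.Agent.H731R5.Gr.U1

/-!
Task S3 (helper640): two points.
-/

set_option autoImplicit false

namespace H731G

open H974 hiding bd
open H731C H731R H731A Finset

namespace S3

open U1


theorem onV_out {m n a b r : ℤ} {u : Vtx} (hr : 0 ≤ r) {F : Finset Edg}
    (h : OnV m n a b u F) : Out m n a b u r F := by
  obtain ⟨⟨i, hi, h1⟩, f, ⟨hc1, hc2⟩, j, hj, h2⟩ := h
  refine ⟨⟨i, u, hi, ?_, h1⟩, ⟨j, f, hj, ?_, h2⟩⟩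
  · simp only [sub_self, abs_zero]
    exact ⟨hr, hr⟩
  · omega

theorem ta_prob {C : ℝ} (H : ∀ r R : ℕ, 1 ≤ r → r ≤ R → ∀ (c1 c2 : ℤ) (S : Finset Edg),
    H12S.PQ (1/2) S (fun F => H12S.Crs c1 c2 r R ↑F ∧ H12S.DCrs c1 c2 r R (↑(S \ F) : Set Edg)) ≤
      C * ((r : ℝ) / R) ^ (1/4 : ℝ)) {s : ℤ} (hs : 1 ≤ s) (v : Vtx) :
    P2 (B s v) (TA s v) ≤ C * (s : ℝ) ^ (-(1/4) : ℝ) := by
  have h5 := H 1 s.toNat le_rfl (by omega) v.1 v.2 (B s v)
  have hn : ((s.toNat : ℕ) : ℝ) = s := by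
    have : ((s.toNat : ℕ) : ℤ) = s := Int.toNat_of_nonneg (by omega)
    exact_mod_cast this
  have h0 : (0 : ℝ) < s := by exact_mod_cast hs
  have e : (((1 : ℕ) : ℝ) / (s.toNat : ℕ)) ^ (1/4 : ℝ) = (s : ℝ) ^ (-(1/4) : ℝ) := by
    rw [hn, Nat.cast_one, one_div, Real.inv_rpow h0.le, Real.rpow_neg h0.le]
  rw [e] at h5
  exact h5

theorem disj {s d : ℤ} {u w : Vtx} (h : d = max |u.1 - w.1| |u.2 - w.2|) (hs : 2 * s < d) :
    Disjoint (B s u) (B s w) := by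
  rw [Finset.disjoint_left]
  intro e h1 h2
  have hd : d ≤ |u.1 - w.1| ∨ d ≤ |u.2 - w.2| := by
    rcases le_total |u.1 - w.1| |u.2 - w.2| with h3 | h3
    · right; rw [h, max_eq_right h3]
    · left; rw [h, max_eq_left h3]
  unfold B at h1 h2
  obtain ⟨x, y, _ | _⟩ := e
  · rw [mem_RE_false] at h1 h2
    rcases hd with hd | hd
    · rcases abs_cases (u.1 - w.1) with h4 | h4 <;> omega
    · rcases abs_cases (u.2 - w.2) with h4 | h4 <;> omega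
  · rw [mem_RE_true] at h1 h2
    rcases hd with hd | hd
    · rcases abs_cases (u.1 - w.1) with h4 | h4 <;> omega
    · rcases abs_cases (u.2 - w.2) with h4 | h4 <;> omega

theorem B_mono {s t : ℤ} {u w : Vtx} (h1 : |u.1 - w.1| + s ≤ t) (h2 : |u.2 - w.2| + s ≤ t) :
    B s w ⊆ B t u := by
  have h3 := abs_le.1 (le_refl |u.1 - w.1|)
  have h4 := abs_le.1 (le_refl |u.2 - w.2|)
  unfold B
  rintro ⟨x, y, _ | _⟩ h
  · simp only [mem_RE_false] at h ⊢; omega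
  · simp only [mem_RE_true] at h ⊢; omega

theorem three (R Bu Bw B2 : Finset Edg) (h1 : Bu ⊆ B2) (h2 : Bw ⊆ B2) (h3 : B2 ⊆ R)
    (hd : Disjoint Bu Bw) (T T' X : Finset Edg → Prop) :
    P2 R (fun F => T (F ∩ Bu) ∧ T' (F ∩ Bw) ∧ X (F ∩ (R \ B2))) =
      P2 Bu T * (P2 Bw T' * P2 (R \ B2) X) := by
  have hw : Bw ⊆ R \ Bu := by
    intro e he
    rw [mem_sdiff]
    exact ⟨h3 (h2 he), fun h => Finset.disjoint_left.1 hd h he⟩
  have hr : R \ B2 ⊆ R \ Bu := sdiff_subset_sdiff (Finset.Subset.refl _) h1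
  have hd2 : Disjoint Bw (R \ B2) := by
    rw [Finset.disjoint_left]
    intro e he h
    exact (mem_sdiff.1 h).2 (h2 he)
  rw [← P2_indep hw hr hd2 T' X, ← P2_indep (h1.trans h3) sdiff_subset disjoint_sdiff T
    (fun F => T' (F ∩ Bw) ∧ X (F ∩ (R \ B2)))]
  congr 1
  funext F
  rw [Finset.inter_assoc F (R \ Bu) Bw, Finset.inter_eq_right.2 hw,
    Finset.inter_assoc F (R \ Bu) (R \ B2), Finset.inter_eq_right.2 hr]

end S3

open U1 S3 in
theorem two_pt_outer (hA : H934F.St_A) : ∃ C : ℝ, 0 < C ∧ ∀ (m n a b d : ℤ) (u w : Vtx),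
    1 ≤ d → d = max |u.1 - w.1| |u.2 - w.2| → a ≤ b → b < a + 2 * (m + n) →
    2 * d ≤ u.1 → u.1 + 2 * d ≤ m → 2 * d ≤ u.2 → u.2 + 2 * d ≤ n →
    P2 (RE 0 m 0 n) (fun F => OnV m n a b u F ∧ OnV m n a b w F) ≤
      C * ((d : ℝ) ^ (-(1/2) : ℝ) * P2 (RE 0 m 0 n) (Out m n a b u (2 * d))) := by
  obtain ⟨C, hC, H⟩ := hA
  refine ⟨3 + 2 * C ^ 2, by positivity, ?_⟩
  intro m n a b d u w hd hdd _ _ h1 h2 h3 h4
  have hd0 : (0 : ℝ) < d := by exact_mod_cast hd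
  have hP0 : 0 ≤ P2 (RE 0 m 0 n) (Out m n a b u (2 * d)) := P2_nonneg _ _
  have hX0 : 0 < (d : ℝ) ^ (-(1/2) : ℝ) := Real.rpow_pos_of_pos hd0 _
  have hab1 : |u.1 - w.1| ≤ d := by rw [hdd]; exact le_max_left _ _
  have hab2 : |u.2 - w.2| ≤ d := by rw [hdd]; exact le_max_right _ _
  rcases le_or_gt d 8 with h8 | h8
  · -- small distance
    have e1 : P2 (RE 0 m 0 n) (fun F => OnV m n a b u F ∧ OnV m n a b w F) ≤
        P2 (RE 0 m 0 n) (Out m n a b u (2 * d)) :=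
      Pr_mono okhalf2 (fun F _ hF => onV_out (by omega) hF.1)
    have e2 : (1/3 : ℝ) ≤ (d : ℝ) ^ (-(1/2) : ℝ) := by
      have h9 : (d : ℝ) ≤ 9 := by exact_mod_cast (by omega : d ≤ 9)
      have e3 : (9 : ℝ) ^ (-(1/2) : ℝ) ≤ (d : ℝ) ^ (-(1/2) : ℝ) :=
        Real.rpow_le_rpow_of_nonpos hd0 h9 (by norm_num)
      refine le_trans (le_of_eq ?_) e3
      rw [Real.rpow_neg (by norm_num), show (9 : ℝ) = 3 ^ (2 : ℝ) by norm_num,
        ← Real.rpow_mul (by norm_num)]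
      norm_num
    refine e1.trans ?_
    have e4 : P2 (RE 0 m 0 n) (Out m n a b u (2 * d)) ≤
        3 * ((d : ℝ) ^ (-(1/2) : ℝ) * P2 (RE 0 m 0 n) (Out m n a b u (2 * d))) := by
      nlinarith [mul_le_mul_of_nonneg_right e2 hP0]
    refine e4.trans (mul_le_mul_of_nonneg_right ?_ (by positivity))
    nlinarith [sq_nonneg C]
  · -- large distance
    obtain ⟨s, hs⟩ : ∃ s, s = d / 3 := ⟨_, rfl⟩
    have hs3 : 3 ≤ s := by omega
    have hs4 : d ≤ 4 * s := by omega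
    have hs5 : 2 * s < d := by omega
    have hs6 : s ≤ d := by omega
    have a1 := abs_le.1 hab1
    have a2 := abs_le.1 hab2
    have hBu : B s u ⊆ B (2 * d) u := B_mono (by rw [sub_self, abs_zero]; omega)
      (by rw [sub_self, abs_zero]; omega)
    have hBw : B s w ⊆ B (2 * d) u := B_mono (by omega) (by omega)
    have hB2 : B (2 * d) u ⊆ RE 0 m 0 n := B_sub h1 h2 h3 h4
    have hdj : Disjoint (B s u) (B s w) := disj hdd hs5
    have e1 : P2 (RE 0 m 0 n) (fun F => OnV m n a b u F ∧ OnV m n a b w F) ≤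
        P2 (RE 0 m 0 n) (fun F => TA s u (F ∩ B s u) ∧ TA s w (F ∩ B s w) ∧
          (fun G => XP m n a b u (2 * d) G ∧ XD m n a b u (2 * d) G)
            (F ∩ (RE 0 m 0 n \ B (2 * d) u))) := by
      apply Pr_mono okhalf2
      rintro F _ ⟨⟨g1, f, hf, g2⟩, ⟨g3, f', hf', g4⟩⟩
      refine ⟨⟨?_, ?_⟩, ⟨?_, ?_⟩, ?_, ?_⟩
      · exact crs (by omega) (by omega) (by omega) (by omega) (by omega) g1
      · exact dcrs (by omega) (by omega) (by omega) (by omega) (by omega) hf g2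
      · exact crs (by omega) (by omega) (by omega) (by omega) (by omega) g3
      · exact dcrs (by omega) (by omega) (by omega) (by omega) (by omega) hf' g4
      · exact xp (by omega) g1
      · exact xd (by omega) h1 h2 h3 h4 hf g2
    have e1' := e1.trans (le_of_eq (three (RE 0 m 0 n) (B s u) (B s w) (B (2 * d) u) hBu hBw hB2
      hdj (TA s u) (TA s w) (fun G => XP m n a b u (2 * d) G ∧ XD m n a b u (2 * d) G)))
    have e2 : P2 (RE 0 m 0 n \ B (2 * d) u)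
        (fun G => XP m n a b u (2 * d) G ∧ XD m n a b u (2 * d) G) ≤
        P2 (RE 0 m 0 n) (Out m n a b u (2 * d)) := by
      rw [← P2_restrict (S := RE 0 m 0 n) (S' := RE 0 m 0 n \ B (2 * d) u) sdiff_subset
        (fun G => XP m n a b u (2 * d) G ∧ XD m n a b u (2 * d) G)]
      exact Pr_mono okhalf2 (fun F _ hF => ⟨XP_BX hF.1, XD_BD hF.2⟩)
    have e3 := ta_prob H (by omega : 1 ≤ s) u
    have e4 := ta_prob H (by omega : 1 ≤ s) w
    have hs0 : (0 : ℝ) < s := by exact_mod_cast (by omega : 0 < s)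
    have n1 : 0 ≤ P2 (B s u) (TA s u) := P2_nonneg _ _
    have n2 : 0 ≤ P2 (B s w) (TA s w) := P2_nonneg _ _
    have n3 : 0 ≤ P2 (RE 0 m 0 n \ B (2 * d) u)
        (fun G => XP m n a b u (2 * d) G ∧ XD m n a b u (2 * d) G) := P2_nonneg _ _
    have n4 : 0 ≤ C * (s : ℝ) ^ (-(1/4) : ℝ) := n1.trans e3
    have e5 : P2 (RE 0 m 0 n) (fun F => OnV m n a b u F ∧ OnV m n a b w F) ≤
        (C * (s : ℝ) ^ (-(1/4) : ℝ)) * ((C * (s : ℝ) ^ (-(1/4) : ℝ)) *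
          P2 (RE 0 m 0 n) (Out m n a b u (2 * d))) := by
      refine e1'.trans ?_
      exact mul_le_mul e3 (mul_le_mul e4 e2 n3 n4) (mul_nonneg n2 n3) n4
    have e6 : (s : ℝ) ^ (-(1/4) : ℝ) * (s : ℝ) ^ (-(1/4) : ℝ) = (s : ℝ) ^ (-(1/2) : ℝ) := by
      rw [← Real.rpow_add hs0]
      norm_num
    have e7 : (s : ℝ) ^ (-(1/2) : ℝ) ≤ 2 * (d : ℝ) ^ (-(1/2) : ℝ) := by
      have h5 : (d : ℝ) / 4 ≤ s := by
        have : (d : ℝ) ≤ 4 * s := by exact_mod_cast hs4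
        linarith
      have h6 : (s : ℝ) ^ (-(1/2) : ℝ) ≤ ((d : ℝ) / 4) ^ (-(1/2) : ℝ) :=
        Real.rpow_le_rpow_of_nonpos (by positivity) h5 (by norm_num)
      refine h6.trans (le_of_eq ?_)
      rw [Real.div_rpow hd0.le (by norm_num), Real.rpow_neg (by norm_num : (0:ℝ) ≤ 4),
        show (4 : ℝ) = 2 ^ (2 : ℝ) by norm_num, ← Real.rpow_mul (by norm_num)]
      norm_num
      ring
    refine e5.trans ?_
    have e8 : (C * (s : ℝ) ^ (-(1/4) : ℝ)) * ((C * (s : ℝ) ^ (-(1/4) : ℝ)) *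
          P2 (RE 0 m 0 n) (Out m n a b u (2 * d))) =
        C ^ 2 * (s : ℝ) ^ (-(1/2) : ℝ) * P2 (RE 0 m 0 n) (Out m n a b u (2 * d)) := by
      rw [← e6]; ring
    rw [e8]
    calc C ^ 2 * (s : ℝ) ^ (-(1/2) : ℝ) * P2 (RE 0 m 0 n) (Out m n a b u (2 * d))
        ≤ C ^ 2 * (2 * (d : ℝ) ^ (-(1/2) : ℝ)) * P2 (RE 0 m 0 n) (Out m n a b u (2 * d)) := by
          gcongr
      _ = (2 * C ^ 2) * ((d : ℝ) ^ (-(1/2) : ℝ) * P2 (RE 0 m 0 n) (Out m n a b u (2 * d))) := by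
          ring
      _ ≤ (3 + 2 * C ^ 2) * ((d : ℝ) ^ (-(1/2) : ℝ) *
            P2 (RE 0 m 0 n) (Out m n a b u (2 * d))) := by
          refine mul_le_mul_of_nonneg_right (by linarith) (by positivity)

end H731G
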