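import Pool.Agent.H731R5.Gr.SH
import Pool.Agent.H731R5.Gr.Defs
import Pool.Agent.H731R3.Cardy.Circ

/-!
Task L3 (helper640): lower bound when the wired arc is small and near the foot of `v`.
-/

set_option autoImplicit false

namespace H731G

open H974 hiding bd
open H731C H731R H731A Finset

namespace L3

/-- the arc `[a, b]` of the bottom side is connected to the boundary of the half-box -/
def EE (a b z r : ℤ) (F : Finset Edg) : Prop :=
  ∃ i w, (a ≤ i ∧ i ≤ b) ∧ onH z 0 (3 * r) w ∧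
    Reach (↑F ∩ ↑(RE (z - 3 * r) (z + 3 * r) 0 (0 + 3 * r))) (i, 0) w

theorem EE_mono {a b z r : ℤ} {F G : Finset Edg} (h : F ⊆ G) (hF : EE a b z r F) :
    EE a b z r G := by
  obtain ⟨u, v, h1, h2, h3⟩ := hF
  exact ⟨u, v, h1, h2, h3.mono (Set.inter_subset_inter_left _ (by exact_mod_cast h))⟩

/-- the edges of the tube on the right -/
noncomputable def DD (x y h : ℤ) : Finset Edg := LRE (x + 6 * h) (x + 9 * h) 0 (y + h)

/-- dual top-bottom crossing of the tube on the right -/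
def JJ (x y h : ℤ) (F : Finset Edg) : Prop :=
  TBc (x + 6 * h) (x + 9 * h - 1) (0 - 1) (y + h) (dmp (DD x y h \ F))

theorem JJ_anti {x y h : ℤ} {F G : Finset Edg} (hFG : F ⊆ G) (hG : JJ x y h G) : JJ x y h F :=
  TBc.mono (H985IL.IL2.dmp_anti hFG) hG

/-- the increasing event -/
def II (a b x y h : ℤ) (F : Finset Edg) : Prop :=
  EE a b x (2 * h) F ∧ HC x 0 (2 * h) F ∧ LRc (x - 9 * h) (x - h) 0 (5 * h) F ∧
    TBc (x - 9 * h) (x - 5 * h) 0 (y + h) F

theorem II_mono {a b x y h : ℤ} {F G : Finset Edg} (hFG : F ⊆ G) (hF : II a b x y h F) :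
    II a b x y h G := by
  obtain ⟨h1, ⟨h2, h3, h4⟩, h5, h6⟩ := hF
  exact ⟨EE_mono hFG h1, ⟨h2.mono hFG, h3.mono hFG, h4.mono hFG⟩, h5.mono hFG, h6.mono hFG⟩

/-- the edges used by the increasing event -/
noncomputable def UU (x y h : ℤ) : Finset Edg :=
  RE (x - 3 * (2 * h)) (x + 3 * (2 * h)) 0 (0 + 3 * (2 * h)) ∪
    (RE (x - 9 * h) (x - h) 0 (5 * h) ∪ RE (x - 9 * h) (x - 5 * h) 0 (y + h))

theorem II_local {a b x y h : ℤ} (hh : 1 ≤ h) (F : Finset Edg) :
    II a b x y h F ↔ II a b x y h (F ∩ UU x y h) := by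
  have s1 : RE (x - 3 * (2 * h)) (x + 3 * (2 * h)) 0 (0 + 3 * (2 * h)) ⊆ UU x y h :=
    Finset.subset_union_left
  have s2 : RE (x - 9 * h) (x - h) 0 (5 * h) ⊆ UU x y h :=
    Finset.Subset.trans Finset.subset_union_left Finset.subset_union_right
  have s3 : RE (x - 9 * h) (x - 5 * h) 0 (y + h) ⊆ UU x y h :=
    Finset.Subset.trans Finset.subset_union_right Finset.subset_union_right
  have t1 : LRE (x - 3 * (2 * h)) (x + 3 * (2 * h)) (0 + 2 * h) (0 + 3 * (2 * h)) ⊆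
      UU x y h := Finset.Subset.trans (Finset.Subset.trans LRE_subset_RE
        (RE_mono4 le_rfl le_rfl (by omega) le_rfl)) s1
  have t2 : TBE (x + 2 * h) (x + 3 * (2 * h)) 0 (0 + 3 * (2 * h)) ⊆ UU x y h :=
    Finset.Subset.trans (Finset.Subset.trans TBE_subset_RE
        (RE_mono4 (by omega) le_rfl le_rfl le_rfl)) s1
  have t3 : TBE (x - 3 * (2 * h)) (x - 2 * h) 0 (0 + 3 * (2 * h)) ⊆ UU x y h :=
    Finset.Subset.trans (Finset.Subset.trans TBE_subset_RE
        (RE_mono4 le_rfl (by omega) le_rfl le_rfl)) s1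
  have t4 : LRE (x - 9 * h) (x - h) 0 (5 * h) ⊆ UU x y h :=
    Finset.Subset.trans LRE_subset_RE s2
  have t5 : TBE (x - 9 * h) (x - 5 * h) 0 (y + h) ⊆ UU x y h :=
    Finset.Subset.trans TBE_subset_RE s3
  unfold II HC
  refine and_congr ?_ (and_congr (and_congr (LRc_local t1) (and_congr (TBc_local t2)
    (TBc_local t3))) (and_congr (LRc_local t4) (TBc_local t5)))
  unfold EE
  rw [coe_inter_eq s1]

theorem JJ_local {x y h : ℤ} (F : Finset Edg) : JJ x y h F ↔ JJ x y h (F ∩ DD x y h) := by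
  unfold JJ
  rw [← H985IL.IL2.sd_inter (Finset.Subset.refl (DD x y h))]

theorem UD_disj {x y h : ℤ} (hh : 1 ≤ h) : Disjoint (UU x y h) (DD x y h) := by
  rw [Finset.disjoint_left]
  intro e he
  unfold UU at he
  unfold DD
  rw [Finset.mem_union, Finset.mem_union] at he
  obtain ⟨p, q, _ | _⟩ := e
  · simp only [mem_RE_false, mem_LRE_false] at he ⊢; omega
  · simp only [mem_RE_true, mem_LRE_true] at he ⊢; omega

/-! ### the events imply the connections -/

theorem det_open {m n a b x y h : ℤ} {F : Finset Edg} (hh : 1 ≤ h) (hy : 20 * h ≤ y)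
    (hx : 20 * h ≤ x) (hxm : x + 20 * h ≤ m) (hyn : y + 20 * h ≤ n) (ha : x - 2 * h ≤ a)
    (hb : b ≤ x + 2 * h) (hI : II a b x y h F)
    (harm : ∃ y' : Vtx, y'.1 = x - 10 * h ∧
      Reach (↑F ∩ ↑(RE (x - 10 * h) (x + h) (y - h) (y + h))) (x, y) y') :
    VA m n a b (x, y) F := by
  obtain ⟨⟨i, w, hi, hw, hE⟩, ⟨⟨s, s', hs, hs', hT⟩, ⟨fr, fr', hr1, hr2, hR⟩,
    ⟨fl, fl', hl1, hl2, hL⟩⟩, ⟨q, q', hq, hq', hQ⟩, ⟨g, g', hg, hg', hV⟩⟩ := hI
  obtain ⟨y', hy', hA⟩ := harm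
  have sub : ∀ {A B C D : ℤ} {u v : Vtx}, 0 ≤ A → B ≤ m → 0 ≤ C → D ≤ n →
      Reach ((↑F : Set Edg) ∩ ↑(RE A B C D)) u v →
      Reach ((↑F : Set Edg) ∩ ↑(RE 0 m 0 n)) u v := by
    intro A B C D u v h1 h2 h3 h4 hr
    exact hr.mono (Set.inter_subset_inter_right _ (by exact_mod_cast RE_mono4 h1 h2 h3 h4))
  have hT' : Reach ((↑F : Set Edg) ∩ ↑(RE (x - 3 * (2 * h)) (x + 3 * (2 * h)) (0 + 2 * h)
      (0 + 3 * (2 * h)))) (x - 3 * (2 * h), s) (x + 3 * (2 * h), s') :=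
    hT.mono (Set.inter_subset_inter_right _ (by exact_mod_cast LRE_subset_RE))
  have hR' : Reach ((↑F : Set Edg) ∩ ↑(RE (x + 2 * h) (x + 3 * (2 * h)) 0
      (0 + 3 * (2 * h)))) (fr, 0) (fr', 0 + 3 * (2 * h)) :=
    hR.mono (Set.inter_subset_inter_right _ (by exact_mod_cast TBE_subset_RE))
  have hL' : Reach ((↑F : Set Edg) ∩ ↑(RE (x - 3 * (2 * h)) (x - 2 * h) 0
      (0 + 3 * (2 * h)))) (fl, 0) (fl', 0 + 3 * (2 * h)) :=
    hL.mono (Set.inter_subset_inter_right _ (by exact_mod_cast TBE_subset_RE))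
  have hQ' : Reach ((↑F : Set Edg) ∩ ↑(RE (x - 9 * h) (x - h) 0 (5 * h))) (x - 9 * h, q)
      (x - h, q') :=
    hQ.mono (Set.inter_subset_inter_right _ (by exact_mod_cast LRE_subset_RE))
  have hV' : Reach ((↑F : Set Edg) ∩ ↑(RE (x - 9 * h) (x - 5 * h) 0 (y + h))) (g, 0)
      (g', y + h) :=
    hV.mono (Set.inter_subset_inter_right _ (by exact_mod_cast TBE_subset_RE))
  -- the arc is connected to the left foot of the half-circuit
  have k1 := (half_meet (z := x) (t := 0) (r := 2 * h) (by omega) hr1 hl1 hT' hR' hL' (i, 0) w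
    ⟨⟨by simp only; omega, by simp only; omega⟩, by simp only; omega, by simp only; omega⟩
    hw hE).1
  -- the horizontal tube meets the left tube of the half-circuit
  have k2 : Reach ((↑F : Set Edg) ∩ ↑(RE (x - 9 * h) (x - h) 0 (0 + 3 * (2 * h))))
      (x - 9 * h, q) (fl, 0) :=
    cross_meet (A := x - 9 * h) (B := x - h) (C := 0) (D := 0 + 3 * (2 * h))
      (a := x - 3 * (2 * h)) (b := x - 2 * h) (c := 0) (d := 5 * h) (by omega) (by omega)
      (by omega) le_rfl (by omega) (by omega) hQ' (by simp only; omega) (by simp only; omega)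
      hL' (by simp only; omega) (by simp only; omega)
  -- and the vertical tube
  have k3 : Reach ((↑F : Set Edg) ∩ ↑(RE (x - 9 * h) (x - h) 0 (y + h)))
      (x - 9 * h, q) (g, 0) :=
    cross_meet (A := x - 9 * h) (B := x - h) (C := 0) (D := y + h)
      (a := x - 9 * h) (b := x - 5 * h) (c := 0) (d := 5 * h) (by omega) (by omega)
      (by omega) le_rfl (by omega) (by omega) hQ' (by simp only; omega) (by simp only; omega)
      hV' (by simp only; omega) (by simp only; omega)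
  -- the arm meets the vertical tube
  have k4 : Reach ((↑F : Set Edg) ∩ ↑(RE (x - 10 * h) (x + h) 0 (y + h))) y' (g, 0) :=
    cross_meet (A := x - 10 * h) (B := x + h) (C := 0) (D := y + h)
      (a := x - 9 * h) (b := x - 5 * h) (c := y - h) (d := y + h) (by omega) (by omega)
      (by omega) (by omega) (by omega) (by omega) hA.symm (by omega) (by simp only; omega)
      hV' (by simp only; omega) (by simp only; omega)
  refine ⟨i, hi, ?_⟩
  rw [bd_bot (by omega) (by omega) (by omega) (by omega)]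
  have j1 := sub (by omega) (by omega) (by omega) (by omega) k1
  have j2 := sub (by omega) (by omega) (by omega) (by omega) k2
  have j3 := sub (by omega) (by omega) (by omega) (by omega) k3
  have j4 := sub (by omega) (by omega) (by omega) (by omega) k4
  have j5 := sub (by omega) (by omega) (by omega) (by omega) hA
  exact j1.trans (j2.symm.trans (j3.trans (j4.symm.trans j5.symm)))

theorem det_dual {m n a b x y h : ℤ} {s : Bool × Bool} {F : Finset Edg} (hh : 1 ≤ h)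
    (hy : 20 * h ≤ y) (hx : 20 * h ≤ x) (hxm : x + 20 * h ≤ m) (hyn : y + 20 * h ≤ n)
    (ha : x - 2 * h ≤ a) (hb : b ≤ x + 2 * h) (hJ : JJ x y h F)
    (harm : ∃ g : Vtx, g.1 = x + 10 * h ∧
      DReach (↑(RE (x - h) (x + 10 * h) (y - h) (y + h) \ F) : Set Edg)
        (H934E.cface (x, y) s) g) :
    FB m n a b (H934E.cface (x, y) s) F := by
  obtain ⟨g, hg, r1⟩ := harm
  obtain ⟨f, f', hf, hf', r2⟩ := hJ
  rw [← reach_dl, ← coe_dmp] at r1
  have r1' : Reach ((↑(dmp (RE 0 m 0 n \ F)) : Set Edg) ∩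
      ↑(RE (x - h - 1) (x + 10 * h) (y - h - 1) (y + h))) (H934E.cface (x, y) s) g := by
    refine r1.mono ?_
    rintro ⟨p, q, _ | _⟩ he
    · rw [mem_coe, mem_dmp, dls_f, Finset.mem_sdiff, mem_RE_true] at he
      refine ⟨?_, ?_⟩
      · rw [mem_coe, mem_dmp, dls_f, Finset.mem_sdiff, mem_RE_true]
        exact ⟨by omega, he.2⟩
      · rw [mem_coe, mem_RE_false]; omega
    · rw [mem_coe, mem_dmp, dls_t, Finset.mem_sdiff, mem_RE_false] at he
      refine ⟨?_, ?_⟩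
      · rw [mem_coe, mem_dmp, dls_t, Finset.mem_sdiff, mem_RE_false]
        exact ⟨by omega, he.2⟩
      · rw [mem_coe, mem_RE_true]; omega
  have r2' : Reach ((↑(dmp (RE 0 m 0 n \ F)) : Set Edg) ∩
      ↑(RE (x + 6 * h) (x + 9 * h - 1) (-1) (y + h))) (f, 0 - 1) (f', y + h) := by
    refine r2.mono ?_
    rintro ⟨p, q, _ | _⟩ ⟨he, he'⟩
    · rw [mem_coe, mem_dmp, dls_f, Finset.mem_sdiff] at he
      unfold DD at he
      rw [mem_LRE_true] at he
      refine ⟨?_, ?_⟩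
      · rw [mem_coe, mem_dmp, dls_f, Finset.mem_sdiff, mem_RE_true]
        exact ⟨by omega, he.2⟩
      · rw [mem_coe, mem_RE_false]; omega
    · rw [mem_coe, mem_dmp, dls_t, Finset.mem_sdiff] at he
      unfold DD at he
      rw [mem_LRE_false] at he
      refine ⟨?_, ?_⟩
      · rw [mem_coe, mem_dmp, dls_t, Finset.mem_sdiff, mem_RE_false]
        exact ⟨by omega, he.2⟩
      · rw [mem_coe, mem_RE_true]; omega
  have hcf : (H934E.cface (x, y) s).1 ≤ x + 6 * h := by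
    unfold H934E.cface
    split_ifs <;> simp only <;> omega
  have k := cross_meet (A := x - h - 1) (B := x + 10 * h) (C := -1) (D := y + h)
    (a := x + 6 * h) (b := x + 9 * h - 1) (c := y - h - 1) (d := y + h) (by omega) (by omega)
    (by omega) (by omega) (by omega) (by omega) r1' hcf (by omega) r2' (by simp only; omega)
    (by simp only; omega)
  have k2 : DReach (↑(RE 0 m 0 n \ F) : Set Edg) (H934E.cface (x, y) s) (f, 0 - 1) := by
    rw [← reach_dl, ← coe_dmp]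
    exact k.mono Set.inter_subset_left
  refine ⟨f, ⟨by omega, by omega⟩, ?_⟩
  have e1 : ofc m n f = (f, 0 - 1) := by
    unfold ofc
    rw [Int.emod_eq_of_lt (by omega) (by omega), if_pos (by omega)]
    norm_num
  rw [e1]
  refine k2.symm.mono ?_
  intro e he
  rw [mem_coe, Finset.mem_sdiff] at he
  exact ⟨fun h1 => he.2 (mem_coe.1 h1), mem_coe.2 he.1⟩

/-! ### the arms -/

def AO (x y h : ℤ) (F : Finset Edg) : Prop :=
  ∃ y' : Vtx, y'.1 = x - 10 * h ∧
    Reach (↑F ∩ ↑(RE (x - 10 * h) (x + h) (y - h) (y + h))) (x, y) y'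

def AD (s : Bool × Bool) (x y h : ℤ) (F : Finset Edg) : Prop :=
  ∃ g : Vtx, g.1 = x + 10 * h ∧
    DReach (↑(RE (x - h) (x + 10 * h) (y - h) (y + h) \ F) : Set Edg)
      (H934E.cface (x, y) s) g

theorem LArm_iff (s : Bool × Bool) (x y : ℤ) (k : ℕ) (F : Finset Edg) :
    H985IL.LArm s 10 k (x, y) F ↔ AO x y k F ∧ AD s x y k F := by
  have e : ((10 * k : ℕ) : ℤ) = 10 * (k : ℤ) := by push_cast; ring
  unfold H985IL.LArm AO AD
  rw [e]

theorem AO_mono {x y h : ℤ} {F G : Finset Edg} (hFG : F ⊆ G) (hF : AO x y h F) :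
    AO x y h G := by
  obtain ⟨y', h1, h2⟩ := hF
  exact ⟨y', h1, h2.mono (Set.inter_subset_inter_left _ (by exact_mod_cast hFG))⟩

theorem AD_anti {s : Bool × Bool} {x y h : ℤ} {F G : Finset Edg} (hFG : F ⊆ G)
    (hG : AD s x y h G) : AD s x y h F := by
  obtain ⟨g, hg, hr⟩ := hG
  refine ⟨g, hg, hr.mono ?_⟩
  exact_mod_cast Finset.sdiff_subset_sdiff (Finset.Subset.refl _) hFG

theorem AO_local {x y h : ℤ} (F : Finset Edg) : AO x y h F ↔
    AO x y h (F ∩ RE (x - 10 * h) (x + h) (y - h) (y + h)) := by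
  unfold AO
  rw [coe_inter_eq (Finset.Subset.refl _)]

theorem AD_local {s : Bool × Bool} {x y h : ℤ} (F : Finset Edg) : AD s x y h F ↔
    AD s x y h (F ∩ RE (x - h) (x + 10 * h) (y - h) (y + h)) := by
  unfold AD
  rw [← H985IL.IL2.sd_inter (Finset.Subset.refl _)]

theorem inter_eq {F G U T : Finset Edg} (h1 : F ⊆ G) (h2 : G ⊆ F ∪ U) (hd : ∀ e ∈ U, e ∉ T) :
    G ∩ T = F ∩ T := by
  ext e
  simp only [Finset.mem_inter]
  constructor
  · rintro ⟨h3, h4⟩
    refine ⟨?_, h4⟩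
    rcases Finset.mem_union.1 (h2 h3) with h5 | h5
    · exact h5
    · exact absurd h4 (hd e h5)
  · rintro ⟨h3, h4⟩
    exact ⟨h1 h3, h4⟩

theorem UU_arm {x y h : ℤ} (hh : 1 ≤ h) (hy : 20 * h ≤ y) (e : Edg) (he : e ∈ UU x y h) :
    e ∉ RE (x - h) (x + 10 * h) (y - h) (y + h) := by
  unfold UU at he
  rw [Finset.mem_union, Finset.mem_union] at he
  obtain ⟨p, q, _ | _⟩ := e
  · simp only [mem_RE_false] at he ⊢; omega
  · simp only [mem_RE_true] at he ⊢; omega

theorem DD_arm {x y h : ℤ} (hh : 1 ≤ h) (e : Edg) (he : e ∈ DD x y h) :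
    e ∉ RE (x - 10 * h) (x + h) (y - h) (y + h) := by
  unfold DD at he
  obtain ⟨p, q, _ | _⟩ := e
  · simp only [mem_RE_false, mem_LRE_false] at he ⊢; omega
  · simp only [mem_RE_true, mem_LRE_true] at he ⊢; omega

theorem UU_sub {m n x y h : ℤ} (hh : 1 ≤ h) (hy : 20 * h ≤ y)
    (hx : 20 * h ≤ x) (hxm : x + 20 * h ≤ m) (hyn : y + 20 * h ≤ n) :
    UU x y h ⊆ RE 0 m 0 n := by
  unfold UU
  refine Finset.union_subset (RE_mono4 (by omega) (by omega) (by omega) (by omega))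
    (Finset.union_subset (RE_mono4 (by omega) (by omega) (by omega) (by omega))
    (RE_mono4 (by omega) (by omega) (by omega) (by omega)))

theorem DD_sub {m n x y h : ℤ} (hh : 1 ≤ h) (hy : 20 * h ≤ y)
    (hx : 20 * h ≤ x) (hxm : x + 20 * h ≤ m) (hyn : y + 20 * h ≤ n) :
    DD x y h ⊆ RE 0 m 0 n := by
  unfold DD
  exact Finset.Subset.trans LRE_subset_RE
    (RE_mono4 (by omega) (by omega) (by omega) (by omega))

/-! ### probabilities -/

theorem AA_EE {m n a b x h : ℤ} {F : Finset Edg} (hh : 1 ≤ h) (hn : 1 ≤ n)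
    (hx : 20 * h ≤ x) (hxm : x + 20 * h ≤ m) (ha : x - 2 * h ≤ a) (hb : b ≤ x + 2 * h)
    (hF : AA m n a b (x + 6 * h) (x + 8 * h) F) : EE a b x (2 * h) F := by
  obtain ⟨i, j, hi, hj, hr⟩ := hF
  rw [bd_bot (by omega) (by omega) (by omega) (by omega),
    bd_bot (by omega) (by omega) (by omega) (by omega)] at hr
  obtain ⟨w, hw1, hw2, hw3⟩ := first_exit (a := x - 3 * (2 * h)) (b := x + 3 * (2 * h))
    (c := -1) (d := 0 + 3 * (2 * h)) (u := (i, 0)) (v := (j, 0))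
    ⟨⟨by simp only; omega, by simp only; omega⟩, by simp only; omega, by simp only; omega⟩ hr
    (by simp only; omega)
  have hw4 : inR 0 m 0 n w := by
    refine reach_inR (G := (↑F : Set Edg)) (u := (i, 0))
      ⟨⟨by simp only; omega, by simp only; omega⟩, by simp only; omega, by simp only; omega⟩
      (hw3.mono ?_)
    rintro e ⟨h1, -⟩
    exact h1
  have h5 := hw4.2.1
  refine ⟨i, w, hi, ?_, hw3.mono ?_⟩
  · unfold onH
    omega
  · rintro ⟨p, q, _ | _⟩ ⟨⟨h1, h2⟩, h3⟩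
    · refine ⟨h1, ?_⟩
      rw [mem_coe, mem_RE_false] at h2 h3 ⊢
      omega
    · refine ⟨h1, ?_⟩
      rw [mem_coe, mem_RE_true] at h2 h3 ⊢
      omega

theorem pr_JJ {S : Finset Edg} {x y h : ℤ} (hS : DD x y h ⊆ S) :
    P2 S (JJ x y h) = hh (1/2) (y + h + 1) (3 * h - 1) := by
  have h0 := H985IL.IL2.pr_dual hS (TBc (x + 6 * h) (x + 9 * h - 1) (0 - 1) (y + h))
  have h1 : Pr (fun _ => (1/2 : ℝ)) (dmp (DD x y h))
      (TBc (x + 6 * h) (x + 9 * h - 1) (0 - 1) (y + h)) =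
      hh (1/2) (y + h - (0 - 1)) (x + 9 * h - 1 - (x + 6 * h)) := by
    unfold DD
    rw [dmp_LRE]
    exact pr_TBc (1/2) (Finset.Subset.refl _)
  have e1 : y + h - (0 - 1) = y + h + 1 := by ring
  have e2 : x + 9 * h - 1 - (x + 6 * h) = 3 * h - 1 := by ring
  rw [e1, e2] at h1
  exact h0.trans h1

end L3

open L3 in
theorem low_small (hL : H934F.St_L) (K : ℕ) : ∃ (c : ℝ) (s : Bool × Bool), 0 < c ∧
    ∀ m n a b x y h : ℤ, 1 ≤ h → 20 * h ≤ y → y ≤ K * h → 20 * h ≤ x → x + 20 * h ≤ m →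
    y + 20 * h ≤ n → x - 2 * h ≤ a → a ≤ b → b ≤ x + 2 * h →
    c * ((h : ℝ) ^ (-(1/4) : ℝ) *
        P2 (RE 0 m 0 n) (AA m n a b (x + 6 * h) (x + 8 * h))) ≤
      P2 (RE 0 m 0 n) (On m n a b (x, y) (H934E.cface (x, y) s)) := by
  obtain ⟨c, s, hc, hArm⟩ := H985IL.long_arms hL 10 (by norm_num)
  obtain ⟨δ, hδ, hrsw⟩ := H985IL.IL2.rswK (K + 2)
  refine ⟨c * ((1/2 : ℝ) ^ 141 * (δ * δ)) * δ, s, by positivity, ?_⟩
  intro m n a b x y h hh1 hy hyK hx hxm hyn ha hab hb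
  obtain ⟨k, rfl⟩ := Int.eq_ofNat_of_zero_le (show 0 ≤ h by omega)
  set S := RE 0 m 0 n with hSdef
  have hK0 : (0 : ℤ) ≤ (K : ℤ) * k := by positivity
  have hU : UU x y k ⊆ S := UU_sub hh1 hy hx hxm hyn
  have hD : DD x y k ⊆ S := DD_sub hh1 hy hx hxm hyn
  -- probabilities
  have p1 : P2 S (AA m n a b (x + 6 * k) (x + 8 * k)) ≤ P2 S (EE a b x (2 * k)) :=
    Pr_mono okhalf2 fun F _ hF => AA_EE hh1 (by omega) hx hxm ha hb hF
  have p2 : (1/2 : ℝ) ^ 141 ≤ P2 S (HC x 0 (2 * k)) := by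
    apply pr_HC (by omega)
    refine Finset.Subset.trans VE_subset_RE (RE_mono4 (by omega) (by omega) (by omega)
      (by omega))
  have p3 : δ ≤ P2 S (LRc (x - 9 * k) (x - k) 0 (5 * k)) := by
    rw [show P2 S (LRc (x - 9 * k) (x - k) 0 (5 * k)) =
      hh (1/2) (x - k - (x - 9 * k)) (5 * k - 0) from pr_LRc (1/2)
        (Finset.Subset.trans LRE_subset_RE
          (RE_mono4 (by omega) (by omega) (by omega) (by omega)))]
    apply hrsw _ _ (by omega) (by omega)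
    push_cast
    nlinarith
  have p4 : δ ≤ P2 S (TBc (x - 9 * k) (x - 5 * k) 0 (y + k)) := by
    rw [show P2 S (TBc (x - 9 * k) (x - 5 * k) 0 (y + k)) =
      hh (1/2) (y + k - 0) (x - 5 * k - (x - 9 * k)) from pr_TBc (1/2)
        (Finset.Subset.trans TBE_subset_RE
          (RE_mono4 (by omega) (by omega) (by omega) (by omega)))]
    apply hrsw _ _ (by omega) (by omega)
    push_cast
    nlinarith
  have p5 : δ ≤ P2 S (JJ x y k) := by
    rw [pr_JJ hD]
    apply hrsw _ _ (by omega) (by omega)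
    push_cast
    nlinarith
  -- Harris for the increasing event
  have i1 := Pr_harris okhalf2 (LRc_incr S (x - 9 * k) (x - k) 0 (5 * k))
    (TBc_incr S (x - 9 * k) (x - 5 * k) 0 (y + k))
  have c1 : IncrE S (fun F => LRc (x - 9 * k) (x - k) 0 (5 * k) F ∧
      TBc (x - 9 * k) (x - 5 * k) 0 (y + k) F) :=
    fun F G hFG _ hF => ⟨hF.1.mono hFG, hF.2.mono hFG⟩
  have i2 := Pr_harris okhalf2 (HC_incr S x 0 (2 * k)) c1
  have c2 : IncrE S (fun F => HC x 0 (2 * k) F ∧ LRc (x - 9 * k) (x - k) 0 (5 * k) F ∧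
      TBc (x - 9 * k) (x - 5 * k) 0 (y + k) F) :=
    fun F G hFG hG hF => ⟨HC_incr S x 0 (2 * k) F G hFG hG hF.1, c1 F G hFG hG hF.2⟩
  have c3 : IncrE S (EE a b x (2 * k)) := fun F G hFG _ hF => EE_mono hFG hF
  have i3 := Pr_harris okhalf2 c3 c2
  have q0 : 0 ≤ P2 S (AA m n a b (x + 6 * k) (x + 8 * k)) := Pr_nonneg okhalf2 _ _
  have q1 : 0 ≤ P2 S (EE a b x (2 * k)) := Pr_nonneg okhalf2 _ _
  have q2 : 0 ≤ P2 S (HC x 0 (2 * k)) := Pr_nonneg okhalf2 _ _
  have hII : P2 S (AA m n a b (x + 6 * k) (x + 8 * k)) * ((1/2 : ℝ) ^ 141 * (δ * δ)) ≤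
      P2 S (II a b x y k) := by
    refine le_trans ?_ i3
    refine mul_le_mul p1 ?_ (by positivity) q1
    refine le_trans ?_ i2
    refine mul_le_mul p2 ?_ (by positivity) q2
    refine le_trans ?_ i1
    exact mul_le_mul p3 p4 hδ.le (hδ.le.trans p3)
  -- arms
  have hS2 : RE (((x, y) : Vtx).1 - ((10 * k : ℕ) : ℤ)) (((x, y) : Vtx).1 + ((10 * k : ℕ) : ℤ))
      (((x, y) : Vtx).2 - (k : ℤ)) (((x, y) : Vtx).2 + (k : ℤ)) ⊆ S := by
    push_cast
    exact RE_mono4 (by omega) (by omega) (by omega) (by omega)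
  have hA := hArm k (by exact_mod_cast hh1) (x, y) S hS2
  have hkey := H731G.harris_parts (S := S) (U := UU x y k) (D := DD x y k) hU hD (UD_disj hh1)
    (A := H985IL.LArm s 10 k (x, y)) (I := II a b x y k) (J := JJ x y k)
    (by
      intro F G _ hFG hGF hF
      rw [LArm_iff] at hF ⊢
      refine ⟨AO_mono hFG hF.1, ?_⟩
      rw [AD_local, inter_eq hFG hGF (UU_arm hh1 hy), ← AD_local]
      exact hF.2)
    (by
      intro F G _ hGF hFG hF
      rw [LArm_iff] at hF ⊢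
      refine ⟨?_, AD_anti hGF hF.2⟩
      rw [AO_local, ← inter_eq hGF hFG (DD_arm hh1), ← AO_local]
      exact hF.1)
    (fun F G hFG hF => II_mono hFG hF) (fun F => II_local hh1 F)
    (fun F G hFG hG => JJ_anti hFG hG) (fun F => JJ_local F)
  have hfin : P2 S (fun F => H985IL.LArm s 10 k (x, y) F ∧ II a b x y k F ∧ JJ x y k F) ≤
      P2 S (On m n a b (x, y) (H934E.cface (x, y) s)) := by
    apply Pr_mono okhalf2
    rintro F _ ⟨h1, h2, h3⟩
    rw [LArm_iff] at h1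
    exact ⟨det_open hh1 hy hx hxm hyn ha hb h2 h1.1,
      det_dual hh1 hy hx hxm hyn ha hb h3 h1.2⟩
  refine le_trans ?_ (hkey.trans hfin)
  have hpos : (0 : ℝ) ≤ c * (k : ℝ) ^ (-(1/4) : ℝ) := by positivity
  have ek : (((k : ℤ) : ℝ)) = (k : ℝ) := by norm_num
  rw [ek]
  calc c * ((1/2 : ℝ) ^ 141 * (δ * δ)) * δ * ((k : ℝ) ^ (-(1/4) : ℝ) *
        P2 S (AA m n a b (x + 6 * k) (x + 8 * k)))
      = (c * (k : ℝ) ^ (-(1/4) : ℝ)) * ((P2 S (AA m n a b (x + 6 * k) (x + 8 * k)) *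
        ((1/2 : ℝ) ^ 141 * (δ * δ))) * δ) := by ring
    _ ≤ _ := by
        refine mul_le_mul hA ?_ (by positivity) (hpos.trans hA)
        exact mul_le_mul hII p5 hδ.le (le_trans (by positivity) hII)

end H731G
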