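import Pool.Agent.H731R5.Gr.Defs

/-!
Task LD: duality of the two events.
-/

set_option autoImplicit false

namespace H731G

open H974 hiding bd
open H731C H731R H731A Finset

namespace LD

/-- the vertex to the upper right of an outer face of the rectangle of the inner faces -/
theorem ofc_bd {m n : ℤ} (hm : 2 ≤ m) (hn : 2 ≤ n) {j k : ℤ} (h1 : st m n (k - 1) = j)
    (h2 : st m n k = j + 1) :
    bd m n k = ((ofc (m - 1) (n - 1) j).1 + 1, (ofc (m - 1) (n - 1) j).2 + 1) := by
  obtain ⟨l, e0, r0, r1⟩ := emod_spec (N := 2 * (m + n)) (by omega) (k - 1)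
  generalize (k - 1) % (2 * (m + n)) = r at e0 r0 r1
  have ek : k = (r + 1) + l * (2 * (m + n)) := by linarith
  have s1 := Star.st_eq l r r0 r1
  rw [← e0, h1] at s1
  have d0 := Star.dlt_spec hm hn r
  by_cases hr : r + 1 < 2 * (m + n)
  · have s2 := Star.st_eq l (r + 1) (by omega) hr
    rw [← ek, h2] at s2
    have d1 := Star.dlt_spec hm hn (r + 1)
    have ej : j = (r - Star.dlt m n r) + l * (2 * ((m - 1) + (n - 1))) := by
      rw [s1]; ring
    have hd : Star.dlt m n (r + 1) = Star.dlt m n r := by linarith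
    rw [hd] at d1
    have hofc : ofc (m - 1) (n - 1) j = ofc (m - 1) (n - 1) (r - Star.dlt m n r) := by
      unfold ofc
      rw [ej, Int.add_mul_emod_self_right]
    rw [ek, bd_period, hofc]
    clear hofc ej s1 s2 e0 ek h1 h2
    rcases d0 with ⟨h, h4⟩ | ⟨h, h4, h5⟩ | ⟨h, h4, h5⟩ | ⟨h, h4⟩
    · rw [h] at d1 ⊢
      rw [bd_bot (by omega) (by omega) (by omega) (by omega)]
      unfold ofc
      rw [Int.emod_eq_of_lt (by omega) (by omega), if_pos (by omega)]
      ext <;> simp
    · rw [h] at d1 ⊢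
      rw [bd_right (by omega) (by omega) (by omega) (by omega)]
      unfold ofc
      rw [Int.emod_eq_of_lt (by omega) (by omega), if_neg (by omega), if_pos (by omega)]
      ext
      · simp
      · simp only; ring
    · rw [h] at d1 ⊢
      rw [bd_top (by omega) (by omega) (by omega) (by omega)]
      unfold ofc
      rw [Int.emod_eq_of_lt (by omega) (by omega), if_neg (by omega), if_neg (by omega),
        if_pos (by omega)]
      ext
      · simp only; ring
      · simp
    · rw [h] at d1 ⊢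
      rw [bd_left (by omega) (by omega) (by omega) (by omega)]
      unfold ofc
      rw [Int.emod_eq_of_lt (by omega) (by omega), if_neg (by omega), if_neg (by omega),
        if_neg (by omega)]
      ext
      · simp
      · simp only; ring
  · exfalso
    have hr' : r = 2 * (m + n) - 1 := by omega
    have ek' : k = 0 + (l + 1) * (2 * (m + n)) := by rw [ek, hr']; ring
    have s2 := Star.st_eq (m := m) (n := n) (l + 1) 0 le_rfl (by omega)
    rw [← ek', h2] at s2
    have d1 := Star.dlt_spec hm hn 0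
    have e3 : (2 * (m + n) - 4) * (l + 1) = (2 * (m + n) - 4) * l + (2 * (m + n) - 4) := by ring
    rw [e3] at s2
    generalize (2 * (m + n) - 4) * l = A at *
    omega

/-- discrete continuity: there is a step of `st` at height `j` -/
theorem exists_step {m n : ℤ} (hm : 2 ≤ m) (hn : 2 ≤ n) (x : ℤ) (s : ℕ) :
    ∀ j, st m n x ≤ j → j < st m n (x + s) →
      ∃ k, x + 1 ≤ k ∧ k ≤ x + s ∧ st m n (k - 1) = j ∧ st m n k = j + 1 := by
  induction s with
  | zero => intro j h1 h2; simp at h2; omega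
  | succ s ih =>
    intro j h1 h2
    by_cases h : j < st m n (x + s)
    · obtain ⟨k, k1, k2, k3⟩ := ih j h1 h
      exact ⟨k, k1, by push_cast; omega, k3⟩
    · have h4 := (st_succ hm hn (x + s)).2.1
      have e : x + ((s + 1 : ℕ) : ℤ) = x + s + 1 := by push_cast; ring
      rw [e] at h2
      refine ⟨x + s + 1, by omega, by push_cast; omega, ?_, by omega⟩
      rw [show x + (s : ℤ) + 1 - 1 = x + s by ring]
      omega

/-- dual steps in the rectangle of the inner faces are steps of the primal lattice -/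
theorem dadj_adj {m n : ℤ} {A : Finset Edg} {f g : Vtx}
    (h : DAdj ((↑(dmp (DTra.InE m n \ A)) : Set Edg)ᶜ ∩ ↑(RE 0 (m - 1) 0 (n - 1))) f g) :
    Adj (↑A : Set Edg) (f.1 + 1, f.2 + 1) (g.1 + 1, g.2 + 1) := by
  obtain ⟨e', ⟨h1, h2⟩, h3⟩ := h
  rw [← DTra.dmp_InE, Finset.mem_coe, mem_dmp] at h2
  rw [Set.mem_compl_iff, Finset.mem_coe, mem_dmp, Finset.mem_sdiff] at h1
  have hA : dl.symm e' ∈ A := by
    by_contra hcon
    exact h1 ⟨h2, hcon⟩
  have key : (src (dl.symm e') = ((dsrc e').1 + 1, (dsrc e').2 + 1)) ∧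
      (tgt (dl.symm e') = ((dtgt e').1 + 1, (dtgt e').2 + 1)) := by
    obtain ⟨p, q, _ | _⟩ := e'
    · rw [dls_f]
      constructor <;> simp
    · rw [dls_t]
      constructor <;> simp
  rcases h3 with ⟨rfl, rfl⟩ | ⟨rfl, rfl⟩
  · exact ⟨dl.symm e', Finset.mem_coe.mpr hA, Or.inl key⟩
  · exact ⟨dl.symm e', Finset.mem_coe.mpr hA, Or.inr key⟩

/-- dual paths in the rectangle of the inner faces are paths of the primal lattice -/
theorem dreach_reach {m n : ℤ} {A : Finset Edg} {f g : Vtx}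
    (h : DReach ((↑(dmp (DTra.InE m n \ A)) : Set Edg)ᶜ ∩ ↑(RE 0 (m - 1) 0 (n - 1))) f g) :
    Reach (↑A : Set Edg) (f.1 + 1, f.2 + 1) (g.1 + 1, g.2 + 1) := by
  induction h with
  | refl => exact Reach.refl _ _
  | tail _ hs ih => exact Relation.ReflTransGen.tail ih (dadj_adj hs)

theorem P2_one {S : Finset Edg} {e : Edg} (he : e ∈ S) :
    1 / 2 ≤ P2 S (fun F => e ∉ F) := by
  have h1 : S = insert e (S.erase e) := (Finset.insert_erase he).symm
  have he' : e ∉ S.erase e := Finset.notMem_erase _ _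
  have ok : Ok (fun _ : Edg => (1/2 : ℝ)) := okhalf2
  unfold P2 Pr
  rw [h1, Ex_insert _ he']
  have h2 : Ex (fun _ : Edg => (1/2 : ℝ)) (S.erase e) (fun F => ind (e ∉ F)) = 1 := by
    rw [Ex_congr (g := fun _ => 1), Ex_const]
    intro F hF
    exact ind_of (fun h => he' (hF h))
  have h3 : 0 ≤ Ex (fun _ : Edg => (1/2 : ℝ)) (S.erase e)
      (fun F => ind (e ∉ insert e F)) := Ex_nonneg ok (fun _ _ => ind_nonneg _)
  rw [h2]
  linarith

end LD

open LD DTra in
theorem on_dual {m n a b : ℤ} (hm : 2 ≤ m) (hn : 2 ≤ n) (hab : a ≤ b)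
    (hba : b < a + 2 * (m + n)) (f g : Vtx) :
    1 / 2 * P2 (RE 0 (m - 1) 0 (n - 1))
        (On (m - 1) (n - 1) (st m n b) (st m n (a + 2 * (m + n) - 1)) f g) ≤
      P2 (RE 0 m 0 n) (On m n a b (g.1 + 1, g.2 + 1) f) := by
  have ok : Ok (fun _ : Edg => (1/2 : ℝ)) := okhalf2
  have hm1 : 1 ≤ m := by omega
  have hn1 : 1 ≤ n := by omega
  have hP : P2 (InE m n) (fun F => On (m - 1) (n - 1) (st m n b) (st m n (a + 2 * (m + n) - 1))
        f g (dmp (InE m n \ F))) =
      P2 (RE 0 (m - 1) 0 (n - 1))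
        (On (m - 1) (n - 1) (st m n b) (st m n (a + 2 * (m + n) - 1)) f g) := by
    rw [DTra.P2_dual (InE m n) (fun F => On (m - 1) (n - 1) (st m n b)
      (st m n (a + 2 * (m + n) - 1)) f g F), dmp_InE]
  rw [← hP]
  have hR : RE 0 m 0 n = InE m n ∪ (RE 0 m 0 n \ InE m n) := by
    rw [Finset.union_sdiff_of_subset InE_subset]
  have hdis : Disjoint (InE m n) (RE 0 m 0 n \ InE m n) := Finset.disjoint_sdiff
  have e1 : P2 (RE 0 m 0 n) (On m n a b (g.1 + 1, g.2 + 1) f) =
      Ex (fun _ : Edg => (1/2 : ℝ)) (InE m n) (fun A =>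
        Ex (fun _ : Edg => (1/2 : ℝ)) (RE 0 m 0 n \ InE m n) (fun B =>
          ind (On m n a b (g.1 + 1, g.2 + 1) f (A ∪ B)))) := by
    unfold P2 Pr
    conv_lhs => rw [hR]
    rw [Ex_union hdis]
  rw [e1]
  unfold P2 Pr
  rw [← Ex_mul_left]
  refine Ex_mono ok fun A hA => ?_
  by_cases hOn : On (m - 1) (n - 1) (st m n b) (st m n (a + 2 * (m + n) - 1)) f g
      (dmp (InE m n \ A))
  · rw [ind_of hOn, mul_one]
    obtain ⟨⟨i', hi', hr1⟩, ⟨j', hj', hr2⟩⟩ := hOn
    -- the boundary face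
    obtain ⟨s, hs⟩ := Int.eq_ofNat_of_zero_le (show 0 ≤ a + 2 * (m + n) - 1 - b by omega)
    obtain ⟨j, hj1, hj2, hj3⟩ := Star.st_ivt hm hn b s i' hi'.1 (by
      rw [← hs, show b + (a + 2 * (m + n) - 1 - b) = a + 2 * (m + n) - 1 by ring]
      exact hi'.2)
    have hdr : DReach (↑(InE m n \ A) : Set Edg) (ifc m n j) f := by
      rw [← reach_dl, ← coe_dmp, Star.ifc_eq hm hn, hj3]
      exact hr1.mono Set.inter_subset_left
    -- the boundary vertex
    obtain ⟨t, ht⟩ := Int.eq_ofNat_of_zero_le (show 0 ≤ b - a + 1 by omega)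
    obtain ⟨k, hk1, hk2, hk3, hk4⟩ := exists_step hm hn (a + 2 * (m + n) - 1) t j' hj'.1 (by
      rw [← ht, show a + 2 * (m + n) - 1 + (b - a + 1) = b + 2 * (m + n) by ring,
        st_period hm hn]
      exact hj'.2)
    have hbd : bd m n (k - 2 * (m + n)) =
        ((ofc (m - 1) (n - 1) j').1 + 1, (ofc (m - 1) (n - 1) j').2 + 1) := by
      rw [← ofc_bd hm hn hk3 hk4]
      have := bd_period m n k (-1)
      rw [← this]
      congr 1
      ring
    have hpr : Reach (↑A : Set Edg) (bd m n (k - 2 * (m + n))) (g.1 + 1, g.2 + 1) := by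
      rw [hbd]
      exact dreach_reach hr2
    have h2 := P2_one (S := RE 0 m 0 n \ InE m n) (e := bed m n j)
      (Finset.mem_sdiff.mpr ⟨bed_mem hm1 hn1 j, bed_notMem hm1 hn1 j⟩)
    refine h2.trans ?_
    unfold P2 Pr
    refine Ex_mono ok fun B hB => ind_mono ?_
    intro hjB
    have hsub : (↑(InE m n \ A) : Set Edg) ⊆ (↑(A ∪ B) : Set Edg)ᶜ ∩ ↑(RE 0 m 0 n) := by
      intro e he
      rw [Finset.mem_coe, Finset.mem_sdiff] at he
      refine ⟨fun h => ?_, Finset.mem_coe.mpr (InE_subset he.1)⟩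
      rw [Finset.mem_coe, Finset.mem_union] at h
      rcases h with h | h
      · exact he.2 h
      · exact (Finset.mem_sdiff.mp (hB h)).2 he.1
    have hb : bed m n j ∈ (↑(A ∪ B) : Set Edg)ᶜ ∩ ↑(RE 0 m 0 n) := by
      refine ⟨fun h => ?_, Finset.mem_coe.mpr (bed_mem hm1 hn1 j)⟩
      rw [Finset.mem_coe, Finset.mem_union] at h
      rcases h with h | h
      · exact bed_notMem hm1 hn1 j (hA h)
      · exact hjB h
    refine ⟨⟨k - 2 * (m + n), ⟨by omega, by omega⟩, ?_⟩, ⟨j, ⟨hj1, by omega⟩, ?_⟩⟩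
    · refine hpr.mono ?_
      intro e he
      have he' := Finset.mem_coe.mp he
      exact ⟨Finset.mem_coe.mpr (Finset.mem_union_left _ he'),
        Finset.mem_coe.mpr (InE_subset (hA he'))⟩
    · exact (bed_dadj hb).reach.trans (hdr.mono hsub)
  · rw [ind_not_of hOn, mul_zero]
    exact Ex_nonneg ok (fun _ _ => ind_nonneg _)

end H731G
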