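import Pool.Agent.H731R5.Gr.Defs
import Pool.Agent.H731R4.Arcs.Chord
import Pool.Agent.H731R4.Arcs.Final

/-!
Task LE: comparison of the cross-ratios (lower bound).
-/

set_option autoImplicit false

namespace H731G

open H974 hiding bd
open H731C H731R H731A Finset

namespace LE

theorem ds_ge {m n x y h : ℤ} (hh : 1 ≤ h) (hy : 20 * h ≤ y) (hx : 20 * h ≤ x)
    (hxm : x + 20 * h ≤ m) (hyn : y + 20 * h ≤ n) (j : ℤ) : 20 * h + 1 ≤ ds m n (x, y) j := by
  have hm : 1 ≤ m := by omega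
  have hn : 1 ≤ n := by omega
  obtain ⟨k, r, X, Y, h0, hb, hc⟩ := Chord.coord hm hn j
  unfold ds
  rw [hb]
  simp only
  rcases hc with ⟨_, _, h3, h4⟩ | ⟨_, _, h3, h4⟩ | ⟨_, _, h3, h4⟩ | ⟨_, _, h3, h4⟩
  · have : 20 * h ≤ |y - Y| := by rw [h4, abs_of_nonneg (by omega)]; omega
    omega
  · have : 20 * h ≤ |x - X| := by rw [h3, abs_of_nonpos (by omega)]; omega
    omega
  · have : 20 * h ≤ |y - Y| := by rw [h4, abs_of_nonpos (by omega)]; omega
    omega
  · have : 20 * h ≤ |x - X| := by rw [h3, abs_of_nonneg (by omega)]; omega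
    omega

/-- size of the pair of a point near the foot and a boundary point -/
theorem sz_le_sv {K L : ℕ} {m n x y h : ℤ} (hK1 : m ≤ K * n) (hK2 : n ≤ K * m)
    (hh : 1 ≤ h) (hy : 20 * h ≤ y) (hyL : y ≤ L * h) (hx : 20 * h ≤ x)
    (hxm : x + 20 * h ≤ m) (hyn : y + 20 * h ≤ n) (e j : ℤ) (he : |e - x| ≤ 2 * h) :
    sz m n e j ≤ (((K + 2) * (L + 1) + 2) * (2 * ((K + 2) * (L + 1) + 1) + 1)) *
      sv m n (x, y) j := by
  have hm : 1 ≤ m := by omega
  have hn : 1 ≤ n := by omega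
  have hN : 0 < 2 * (m + n) := by omega
  set D := ds m n (x, y) j with hD
  have hD20 : 20 * h + 1 ≤ D := ds_ge hh hy hx hxm hyn j
  have hDdef : D = max |x - (bd m n j).1| |y - (bd m n j).2| + 1 := rfl
  have hbx : bd m n x = (x, 0) := bd_bot hm hn (by omega) (by omega)
  have hL0 : (0 : ℤ) ≤ L := by positivity
  have hK0 : (0 : ℤ) ≤ K := by positivity
  have hLD : (L : ℤ) * h ≤ L * D := mul_le_mul_of_nonneg_left (by omega) hL0
  have h1 : |(bd m n j).1 - (bd m n x).1| ≤ (L + 1) * D := by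
    rw [hbx]
    simp only
    have : |(bd m n j).1 - x| = |x - (bd m n j).1| := abs_sub_comm _ _
    rw [this]
    have h3 : |x - (bd m n j).1| ≤ D := by omega
    nlinarith
  have h2 : |(bd m n j).2 - (bd m n x).2| ≤ (L + 1) * D := by
    rw [hbx]
    simp only
    have h3 : |y - (bd m n j).2| ≤ D := by omega
    rw [sub_zero]
    have h4 : |(bd m n j).2| ≤ |y - (bd m n j).2| + y := by
      rcases abs_cases ((bd m n j).2) with ⟨q1, q2⟩ | ⟨q1, q2⟩ <;>
      rcases abs_cases (y - (bd m n j).2) with ⟨q3, q4⟩ | ⟨q3, q4⟩ <;> omega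
    nlinarith
  have hc := chord hm hn hK1 hK2 j x ((L + 1) * D) h1 h2
  set t := cd (2 * (m + n)) (j - e) with ht
  have ht0 : 0 ≤ t := cd_nonneg hN _
  have ht1 : t ≤ 2 * h + (K + 2) * ((L + 1) * D) := by
    have q1 := cd_add hN (j - x) (x - e)
    have q2 : j - x + (x - e) = j - e := by ring
    rw [q2] at q1
    have q3 := cd_le_abs hN (x - e)
    rw [abs_sub_comm] at q3
    omega
  have hk : t ≤ ((K + 2) * (L + 1) + 1) * D := by nlinarith
  have hr : rho m n e ≤ rho m n j + t := by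
    have q1 := rho_lip hm hn e j
    have q2 : cd (2 * (m + n)) (e - j) = t := by
      rw [ht, ← cd_neg hN (e - j), neg_sub]
    rw [q2] at q1
    exact q1
  have hrj := rho_nonneg hm hn j
  have hre := rho_nonneg hm hn e
  set k : ℤ := (K + 2) * (L + 1) + 1 with hkd
  have hk1 : 1 ≤ k := by nlinarith
  have e1 : sz m n e j = (t + 1) * (t + 1 + rho m n e + rho m n j) := rfl
  have e2 : sv m n (x, y) j = D * (D + rho m n j) := rfl
  have e3 : ((K : ℤ) + 2) * (L + 1) + 2 = k + 1 := by rw [hkd]; ring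
  rw [e1, e2, e3]
  have a1 : t + 1 ≤ (k + 1) * D := by nlinarith
  have a2 : t + 1 + rho m n e + rho m n j ≤ (2 * k + 1) * (D + rho m n j) := by nlinarith
  calc (t + 1) * (t + 1 + rho m n e + rho m n j)
      ≤ ((k + 1) * D) * ((2 * k + 1) * (D + rho m n j)) :=
        mul_le_mul a1 a2 (by omega) (by nlinarith)
    _ = (k + 1) * (2 * k + 1) * (D * (D + rho m n j)) := by ring

end LE

theorem eta_far (K L : ℕ) : ∃ c : ℝ, 0 < c ∧ ∀ m n a b x y h : ℤ, m ≤ K * n → n ≤ K * m →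
    1 ≤ h → 20 * h ≤ y → y ≤ L * h → 20 * h ≤ x → x + 20 * h ≤ m → y + 20 * h ≤ n → a ≤ b →
    x + 10 * h ≤ a → b ≤ x - 10 * h + 2 * (m + n) →
    c * HH m n a b (x, y) ≤ eta m n (x - 2 * h) (x + 2 * h) a b := by
  set M : ℝ := (((K : ℝ) + 2) * (L + 1) + 2) * (2 * ((K + 2) * (L + 1) + 1) + 1) with hM
  have hM0 : 0 < M := by positivity
  refine ⟨1 / ((L + 1) * M * M), by positivity, ?_⟩
  intro m n a b x y h hK1 hK2 hh hy hyL hx hxm hyn hab ha hb
  have hm : 1 ≤ m := by omega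
  have hn : 1 ≤ n := by omega
  have hN : 0 < 2 * (m + n) := by omega
  have s1 := LE.sz_le_sv hK1 hK2 hh hy hyL hx hxm hyn (x - 2 * h) a
    (by rw [abs_of_nonpos (by omega)]; omega)
  have s2 := LE.sz_le_sv hK1 hK2 hh hy hyL hx hxm hyn (x + 2 * h) b
    (by rw [abs_of_nonneg (by omega)]; omega)
  have s1' : (sz m n (x - 2 * h) a : ℝ) ≤ M * sv m n (x, y) a := by
    rw [hM]; exact_mod_cast s1
  have s2' : (sz m n (x + 2 * h) b : ℝ) ≤ M * sv m n (x, y) b := by
    rw [hM]; exact_mod_cast s2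
  -- the pair x - 2 h, x + 2 h
  have hL0 : (0 : ℤ) ≤ L := by positivity
  have hpx : px m (x, y) = min x (m - x) + 1 := rfl
  have hpy : py n (x, y) = min y (n - y) + 1 := rfl
  have r1 := rho_bot hm hn (i := x - 2 * h) (by omega) (by omega)
  have r2 := rho_bot hm hn (i := x + 2 * h) (by omega) (by omega)
  have c1 : cd (2 * (m + n)) (x + 2 * h - (x - 2 * h)) = 4 * h := by
    rw [cd_of_mem (by omega) (by omega) hN]; omega
  have s3 : px m (x, y) * py n (x, y) ≤ (L + 1) * sz m n (x - 2 * h) (x + 2 * h) := by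
    have e1 : sz m n (x - 2 * h) (x + 2 * h) =
      (4 * h + 1) * (4 * h + 1 + rho m n (x - 2 * h) + rho m n (x + 2 * h)) := by
      unfold sz; rw [c1]
    have q1 : px m (x, y) ≤ 4 * h + 1 + rho m n (x - 2 * h) + rho m n (x + 2 * h) := by
      omega
    have q2 : py n (x, y) ≤ (L + 1) * h := by
      have : py n (x, y) ≤ y + 1 := by omega
      nlinarith
    have q3 : 0 ≤ px m (x, y) := by omega
    have q4 : 0 ≤ py n (x, y) := by omega
    rw [e1]
    calc px m (x, y) * py n (x, y)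
        ≤ (4 * h + 1 + rho m n (x - 2 * h) + rho m n (x + 2 * h)) * ((L + 1) * h) :=
          mul_le_mul q1 q2 q4 (by omega)
      _ ≤ (4 * h + 1 + rho m n (x - 2 * h) + rho m n (x + 2 * h)) * ((L + 1) * (4 * h + 1)) := by
          apply mul_le_mul_of_nonneg_left _ (by omega)
          apply mul_le_mul_of_nonneg_left _ (by omega)
          omega
      _ = _ := by ring
  have s3' : (px m (x, y) : ℝ) * py n (x, y) ≤ (L + 1) * sz m n (x - 2 * h) (x + 2 * h) := by
    exact_mod_cast s3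
  have p1 : (1 : ℝ) ≤ sz m n (x - 2 * h) a := by exact_mod_cast sz_pos hm hn _ _
  have p2 : (1 : ℝ) ≤ sz m n (x + 2 * h) b := by exact_mod_cast sz_pos hm hn _ _
  have p3 : (1 : ℝ) ≤ sz m n a b := by exact_mod_cast sz_pos hm hn _ _
  have p4 : (1 : ℝ) ≤ sv m n (x, y) a := by exact_mod_cast sv_pos hm hn _ _
  have p5 : (1 : ℝ) ≤ sv m n (x, y) b := by exact_mod_cast sv_pos hm hn _ _
  have p6 : (1 : ℝ) ≤ sz m n (x - 2 * h) (x + 2 * h) := by exact_mod_cast sz_pos hm hn _ _
  unfold HH eta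
  set A : ℝ := (sv m n (x, y) a : ℝ) with hA
  set B : ℝ := (sv m n (x, y) b : ℝ) with hB
  set S : ℝ := (sz m n a b : ℝ) with hS
  set T : ℝ := (sz m n (x - 2 * h) (x + 2 * h) : ℝ) with hT
  set U : ℝ := (sz m n (x - 2 * h) a : ℝ) with hU
  set V : ℝ := (sz m n (x + 2 * h) b : ℝ) with hV
  set P : ℝ := (px m (x, y) : ℝ) * py n (x, y) with hP
  have hLp : (0 : ℝ) < (L : ℝ) + 1 := by positivity
  calc 1 / ((L + 1) * M * M) * (P * S / (A * B))
      ≤ 1 / ((L + 1) * M * M) * (((L + 1) * T) * S / (A * B)) := by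
        apply mul_le_mul_of_nonneg_left _ (by positivity)
        apply div_le_div_of_nonneg_right _ (by positivity)
        exact mul_le_mul_of_nonneg_right s3' (by linarith)
    _ = T * S / ((M * A) * (M * B)) := by
        field_simp
    _ ≤ T * S / (U * V) := by
        apply div_le_div_of_nonneg_left (by positivity) (by positivity)
        exact mul_le_mul s1' s2' (by linarith) (by positivity)

theorem eta_small (K L : ℕ) : ∃ c : ℝ, 0 < c ∧ ∀ m n a b x y h : ℤ, m ≤ K * n → n ≤ K * m →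
    1 ≤ h → 20 * h ≤ y → y ≤ L * h → 20 * h ≤ x → x + 20 * h ≤ m → y + 20 * h ≤ n →
    x - 2 * h ≤ a → a ≤ b → b ≤ x + 2 * h →
    c * HH m n a b (x, y) ≤ eta m n a b (x + 6 * h) (x + 8 * h) := by
  refine ⟨1 / 31680, by norm_num, ?_⟩
  intro m n a b x y h hK1 hK2 hh hy hyL hx hxm hyn ha hab hb
  have hm : 1 ≤ m := by omega
  have hn : 1 ≤ n := by omega
  have hN : 0 < 2 * (m + n) := by omega
  have hpx : px m (x, y) = min x (m - x) + 1 := rfl
  have hpy : py n (x, y) = min y (n - y) + 1 := rfl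
  have r1 := rho_bot hm hn (i := a) (by omega) (by omega)
  have r2 := rho_bot hm hn (i := b) (by omega) (by omega)
  have r3 := rho_bot hm hn (i := x + 6 * h) (by omega) (by omega)
  have r4 := rho_bot hm hn (i := x + 8 * h) (by omega) (by omega)
  have c1 : cd (2 * (m + n)) (x + 6 * h - a) = x + 6 * h - a := by
    rw [cd_of_mem (by omega) (by omega) hN]; omega
  have c2 : cd (2 * (m + n)) (x + 8 * h - b) = x + 8 * h - b := by
    rw [cd_of_mem (by omega) (by omega) hN]; omega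
  have c3 : cd (2 * (m + n)) (x + 8 * h - (x + 6 * h)) = 2 * h := by
    rw [cd_of_mem (by omega) (by omega) hN]; omega
  have ba : bd m n a = (a, 0) := bd_bot hm hn (by omega) (by omega)
  have bb : bd m n b = (b, 0) := bd_bot hm hn (by omega) (by omega)
  have d1 : y + 1 ≤ ds m n (x, y) a := by
    unfold ds; rw [ba]; simp only; rw [sub_zero]
    have : y ≤ |y| := le_abs_self y
    omega
  have d2 : y + 1 ≤ ds m n (x, y) b := by
    unfold ds; rw [bb]; simp only; rw [sub_zero]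
    have : y ≤ |y| := le_abs_self y
    omega
  have g1 : px m (x, y) ≤ rho m n a + 1 + 2 * h := by clear r2 r3 r4 c1 c2 c3 d1 d2 hpy; omega
  have g1' : rho m n a ≤ px m (x, y) - 1 + 2 * h := by clear r2 r3 r4 c1 c2 c3 d1 d2 hpy; omega
  have g2 : px m (x, y) ≤ rho m n b + 1 + 2 * h := by clear r1 r3 r4 c1 c2 c3 d1 d2 hpy; omega
  have g2' : rho m n b ≤ px m (x, y) - 1 + 2 * h := by clear r1 r3 r4 c1 c2 c3 d1 d2 hpy; omega
  have g3 : px m (x, y) ≤ rho m n (x + 6 * h) + 1 + 6 * h := by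
    clear r1 r2 r4 c1 c2 c3 d1 d2 hpy; omega
  have g3' : rho m n (x + 6 * h) ≤ px m (x, y) - 1 + 6 * h := by
    clear r1 r2 r4 c1 c2 c3 d1 d2 hpy; omega
  have g4 : px m (x, y) ≤ rho m n (x + 8 * h) + 1 + 8 * h := by
    clear r1 r2 r3 c1 c2 c3 d1 d2 hpy; omega
  have g4' : rho m n (x + 8 * h) ≤ px m (x, y) - 1 + 8 * h := by
    clear r1 r2 r3 c1 c2 c3 d1 d2 hpy; omega
  have g5 : 20 * h + 1 ≤ px m (x, y) := by clear r1 r2 r3 r4 c1 c2 c3 d1 d2 hpy; omega
  have g6 : py n (x, y) ≤ y + 1 := by clear r1 r2 r3 r4 c1 c2 c3 d1 d2 hpx; omega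
  have g7 : 1 ≤ py n (x, y) := by clear r1 r2 r3 r4 c1 c2 c3 d1 d2 hpx; omega
  clear hpx hpy r1 r2 r3 r4
  set W : ℤ := h * (h + px m (x, y)) with hW
  have v1 : px m (x, y) * py n (x, y) ≤ sv m n (x, y) a := by
    unfold sv
    rw [mul_comm (px m (x, y))]
    apply mul_le_mul (by omega) (by omega) (by omega) (by omega)
  have v2 : W ≤ sv m n (x, y) b := by
    unfold sv
    rw [hW]
    apply mul_le_mul (by omega) (by omega) (by omega) (by omega)
  have v3 : W ≤ sz m n (x + 6 * h) (x + 8 * h) := by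
    unfold sz
    rw [c3, hW]
    apply mul_le_mul (by omega) (by omega) (by omega) (by omega)
  have v4 : sz m n a (x + 6 * h) ≤ 144 * W := by
    have e : 144 * W = (9 * h) * (16 * (h + px m (x, y))) := by rw [hW]; ring
    unfold sz
    rw [c1, e]
    apply mul_le_mul (by omega) (by omega) (by omega) (by omega)
  have v5 : sz m n b (x + 8 * h) ≤ 220 * W := by
    have e : 220 * W = (11 * h) * (20 * (h + px m (x, y))) := by rw [hW]; ring
    unfold sz
    rw [c2, e]
    apply mul_le_mul (by omega) (by omega) (by omega) (by omega)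
  have hW0 : 1 ≤ W := by
    rw [hW]; nlinarith
  have w0 : (1 : ℝ) ≤ W := by exact_mod_cast hW0
  have v1' : (px m (x, y) : ℝ) * py n (x, y) ≤ sv m n (x, y) a := by exact_mod_cast v1
  have v2' : (W : ℝ) ≤ sv m n (x, y) b := by exact_mod_cast v2
  have v3' : (W : ℝ) ≤ sz m n (x + 6 * h) (x + 8 * h) := by exact_mod_cast v3
  have v4' : (sz m n a (x + 6 * h) : ℝ) ≤ 144 * W := by exact_mod_cast v4
  have v5' : (sz m n b (x + 8 * h) : ℝ) ≤ 220 * W := by exact_mod_cast v5
  have p1 : (1 : ℝ) ≤ sz m n a (x + 6 * h) := by exact_mod_cast sz_pos hm hn _ _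
  have p2 : (1 : ℝ) ≤ sz m n b (x + 8 * h) := by exact_mod_cast sz_pos hm hn _ _
  have p3 : (1 : ℝ) ≤ sz m n a b := by exact_mod_cast sz_pos hm hn _ _
  have p4 : (1 : ℝ) ≤ sv m n (x, y) a := by exact_mod_cast sv_pos hm hn _ _
  have p5 : (1 : ℝ) ≤ sv m n (x, y) b := by exact_mod_cast sv_pos hm hn _ _
  have p6 : (1 : ℝ) ≤ sz m n (x + 6 * h) (x + 8 * h) := by exact_mod_cast sz_pos hm hn _ _
  unfold HH eta
  set A : ℝ := (sv m n (x, y) a : ℝ) with hA
  set B : ℝ := (sv m n (x, y) b : ℝ) with hB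
  set S : ℝ := (sz m n a b : ℝ) with hS
  set T : ℝ := (sz m n (x + 6 * h) (x + 8 * h) : ℝ) with hT
  set U : ℝ := (sz m n a (x + 6 * h) : ℝ) with hU
  set V : ℝ := (sz m n b (x + 8 * h) : ℝ) with hV
  set P : ℝ := (px m (x, y) : ℝ) * py n (x, y) with hP
  calc 1 / 31680 * (P * S / (A * B))
      ≤ 1 / 31680 * (A * S / (A * W)) := by
        apply mul_le_mul_of_nonneg_left _ (by positivity)
        apply div_le_div₀ (by positivity) _ (by positivity) _
        · exact mul_le_mul_of_nonneg_right v1' (by linarith)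
        · exact mul_le_mul_of_nonneg_left v2' (by linarith)
    _ = S * W / ((144 * W) * (220 * W)) := by
        field_simp
        norm_num
    _ ≤ S * T / (U * V) := by
        apply div_le_div₀ (by positivity) _ (by positivity) _
        · exact mul_le_mul_of_nonneg_left v3' (by linarith)
        · exact mul_le_mul v4' v5' (by linarith) (by positivity)

end H731G
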