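import Pool.Agent.H731R5.Gr.HB
import Pool.Agent.H731R5.Gr.HS
import Pool.Agent.H731R5.Gr.L1
import Pool.Agent.H731R5.Gr.L2
import Pool.Agent.H731R5.Gr.L3
import Pool.Agent.H731R5.Gr.LD
import Pool.Agent.H731R5.Gr.LE
import Pool.Agent.H731R5.Gr.Defs
import Pool.Agent.H731R4.Arcs.Final

/-! Task LF: lower bound near the bottom side, assembly (helper228). -/

set_option autoImplicit false

namespace H731G

open H974 hiding bd
open H731C H731R H731A Finset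

namespace LF

theorem HH_nn {m n : ℤ} (hm : 1 ≤ m) (hn : 1 ≤ n) (a b : ℤ) {v : Vtx} (h0 : 0 ≤ v.1)
    (h1 : v.1 ≤ m) (h2 : 0 ≤ v.2) (h3 : v.2 ≤ n) : 0 ≤ HH m n a b v := by
  have e1 : (0:ℝ) ≤ px m v := by exact_mod_cast (by have := px_pos h0 h1; omega : 0 ≤ px m v)
  have e2 : (0:ℝ) ≤ py n v := by exact_mod_cast (by have := py_pos h2 h3; omega : 0 ≤ py n v)
  have e3 : (0:ℝ) ≤ sz m n a b := by
    exact_mod_cast (by have := sz_pos hm hn a b; omega : 0 ≤ sz m n a b)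
  have e4 : (0:ℝ) ≤ sv m n v a := by
    exact_mod_cast (by have := sv_pos hm hn v a; omega : 0 ≤ sv m n v a)
  have e5 : (0:ℝ) ≤ sv m n v b := by
    exact_mod_cast (by have := sv_pos hm hn v b; omega : 0 ≤ sv m n v b)
  unfold HH
  positivity

theorem cast_mul_rpow {k h : ℤ} (hk : 1 ≤ k) (hh : 1 ≤ h) :
    (((k * h : ℤ)) : ℝ) ^ (-(1/4) : ℝ) = (k : ℝ) ^ (-(1/4) : ℝ) * (h : ℝ) ^ (-(1/4) : ℝ) := by
  rw [Int.cast_mul, Real.mul_rpow]
  · exact_mod_cast (by omega : 0 ≤ k)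
  · exact_mod_cast (by omega : 0 ≤ h)

/-- the wired arc is far -/
theorem far (hL : H934F.St_L) (K : ℕ) : ∃ (c : ℝ) (s : Bool × Bool), 0 < c ∧
    ∀ m n a b x y h : ℤ, m ≤ K * n → n ≤ K * m → 1 ≤ h → 20 * h ≤ y → y ≤ 8000 * h →
    20 * h ≤ x → x + 20 * h ≤ m → y + 20 * h ≤ n → a ≤ b → x + 20 * h ≤ a →
    b ≤ x - 20 * h + 2 * (m + n) →
    c * ((h : ℝ) ^ (-(1/4) : ℝ) * (HH m n a b (x, y)) ^ ((1 : ℝ) / 3)) ≤
      P2 (RE 0 m 0 n) (On m n a b (x, y) (H934E.cface (x, y) s)) := by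
  obtain ⟨c1, s, hc1, h1⟩ := H731G.low_far hL 8000
  obtain ⟨c2, _, hc2, _, h2⟩ := AA_eta K
  obtain ⟨c3, hc3, h3⟩ := H731G.eta_far K 8000
  refine ⟨c1 * (c2 * c3 ^ ((1 : ℝ) / 3)), s, by positivity, ?_⟩
  intro m n a b x y h hK1 hK2 hh hy1 hy2 hx1 hx2 hy3 hab ha hb
  have hm : 1 ≤ m := by omega
  have hn : 1 ≤ n := by omega
  have g1 := h1 m n a b x y h hh hy1 (by push_cast; omega) hx1 hx2 hy3 hab ha hb
  have g2 := (h2 m n (x - 2 * h) (x + 2 * h) a b hm hn hK1 hK2 (by omega) (by omega) hab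
    (by omega)).1
  have g3 := h3 m n a b x y h hK1 hK2 hh hy1 (by push_cast; omega) hx1 hx2 hy3 hab (by omega)
    (by omega)
  have hH : 0 ≤ HH m n a b (x, y) := HH_nn hm hn a b (by simp only; omega) (by simp only; omega)
    (by simp only; omega) (by simp only; omega)
  have hp : 0 ≤ (h : ℝ) ^ (-(1/4) : ℝ) :=
    Real.rpow_nonneg (by exact_mod_cast (by omega : 0 ≤ h)) _
  refine le_trans ?_ g1
  have e1 : c3 ^ ((1 : ℝ) / 3) * (HH m n a b (x, y)) ^ ((1 : ℝ) / 3) ≤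
      (eta m n (x - 2 * h) (x + 2 * h) a b) ^ ((1 : ℝ) / 3) := by
    rw [← Real.mul_rpow hc3.le hH]
    exact Real.rpow_le_rpow (by positivity) g3 (by norm_num)
  have e2 : c2 * (c3 ^ ((1 : ℝ) / 3) * (HH m n a b (x, y)) ^ ((1 : ℝ) / 3)) ≤
      P2 (RE 0 m 0 n) (AA m n (x - 2 * h) (x + 2 * h) a b) :=
    (mul_le_mul_of_nonneg_left e1 hc2.le).trans g2
  calc c1 * (c2 * c3 ^ ((1 : ℝ) / 3)) *
        ((h : ℝ) ^ (-(1/4) : ℝ) * (HH m n a b (x, y)) ^ ((1 : ℝ) / 3))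
      = c1 * ((h : ℝ) ^ (-(1/4) : ℝ) *
          (c2 * (c3 ^ ((1 : ℝ) / 3) * (HH m n a b (x, y)) ^ ((1 : ℝ) / 3)))) := by ring
    _ ≤ _ := mul_le_mul_of_nonneg_left (mul_le_mul_of_nonneg_left e2 hp) hc1.le

/-- the wired arc is small and near -/
theorem small (hL : H934F.St_L) (K : ℕ) : ∃ (c : ℝ) (s : Bool × Bool), 0 < c ∧
    ∀ m n a b x y h : ℤ, m ≤ K * n → n ≤ K * m → 1 ≤ h → 3000 * h ≤ y → y ≤ 8000 * h →
    3000 * h ≤ x → x + 3000 * h ≤ m → y + 3000 * h ≤ n → x - 300 * h ≤ a → a ≤ b →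
    b ≤ x + 300 * h →
    c * ((h : ℝ) ^ (-(1/4) : ℝ) * (HH m n a b (x, y)) ^ ((1 : ℝ) / 3)) ≤
      P2 (RE 0 m 0 n) (On m n a b (x, y) (H934E.cface (x, y) s)) := by
  obtain ⟨c1, s, hc1, h1⟩ := H731G.low_small hL 8000
  obtain ⟨c2, _, hc2, _, h2⟩ := AA_eta K
  obtain ⟨c3, hc3, h3⟩ := H731G.eta_small K 8000
  have hk : 0 < ((150 : ℤ) : ℝ) ^ (-(1/4) : ℝ) := Real.rpow_pos_of_pos (by norm_num) _
  refine ⟨c1 * (((150 : ℤ) : ℝ) ^ (-(1/4) : ℝ) * (c2 * c3 ^ ((1 : ℝ) / 3))), s, by positivity, ?_⟩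
  intro m n a b x y h hK1 hK2 hh hy1 hy2 hx1 hx2 hy3 ha hab hb
  have hm : 1 ≤ m := by omega
  have hn : 1 ≤ n := by omega
  have g1 := h1 m n a b x y (150 * h) (by omega) (by omega) (by push_cast; omega) (by omega)
    (by omega) (by omega) (by omega) hab (by omega)
  have g2 := (h2 m n a b (x + 6 * (150 * h)) (x + 8 * (150 * h)) hm hn hK1 hK2 hab (by omega)
    (by omega) (by omega)).1
  have g3 := h3 m n a b x y (150 * h) hK1 hK2 (by omega) (by omega) (by push_cast; omega)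
    (by omega) (by omega) (by omega) (by omega) hab (by omega)
  have hH : 0 ≤ HH m n a b (x, y) := HH_nn hm hn a b (by simp only; omega) (by simp only; omega)
    (by simp only; omega) (by simp only; omega)
  have hp : 0 ≤ (h : ℝ) ^ (-(1/4) : ℝ) :=
    Real.rpow_nonneg (by exact_mod_cast (by omega : 0 ≤ h)) _
  refine le_trans ?_ g1
  rw [cast_mul_rpow (by norm_num) hh]
  have e1 : c3 ^ ((1 : ℝ) / 3) * (HH m n a b (x, y)) ^ ((1 : ℝ) / 3) ≤
      (eta m n a b (x + 6 * (150 * h)) (x + 8 * (150 * h))) ^ ((1 : ℝ) / 3) := by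
    rw [← Real.mul_rpow hc3.le hH]
    exact Real.rpow_le_rpow (by positivity) g3 (by norm_num)
  have e2 : c2 * (c3 ^ ((1 : ℝ) / 3) * (HH m n a b (x, y)) ^ ((1 : ℝ) / 3)) ≤
      P2 (RE 0 m 0 n) (AA m n a b (x + 6 * (150 * h)) (x + 8 * (150 * h))) :=
    (mul_le_mul_of_nonneg_left e1 hc2.le).trans g2
  calc c1 * (((150 : ℤ) : ℝ) ^ (-(1/4) : ℝ) * (c2 * c3 ^ ((1 : ℝ) / 3))) *
        ((h : ℝ) ^ (-(1/4) : ℝ) * (HH m n a b (x, y)) ^ ((1 : ℝ) / 3))
      = c1 * ((((150 : ℤ) : ℝ) ^ (-(1/4) : ℝ) * (h : ℝ) ^ (-(1/4) : ℝ)) *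
          (c2 * (c3 ^ ((1 : ℝ) / 3) * (HH m n a b (x, y)) ^ ((1 : ℝ) / 3)))) := by ring
    _ ≤ _ := mul_le_mul_of_nonneg_left
        (mul_le_mul_of_nonneg_left e2 (by positivity)) hc1.le

/-- both arcs are near: general step -/
theorem mid_step {c1 C X hp k : ℝ} (hc1 : 0 < c1) (hC : 0 < C) (hX : 0 ≤ X) (hXC : X ≤ C)
    (hhp : 0 ≤ hp) (hk : 0 < k) {P : ℝ} (h : c1 * (k * hp) ≤ P) :
    c1 * k / C ^ ((1 : ℝ) / 3) * (hp * X ^ ((1 : ℝ) / 3)) ≤ P := by
  refine le_trans ?_ h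
  have hC3 : 0 < C ^ ((1 : ℝ) / 3) := Real.rpow_pos_of_pos hC _
  have h1 : X ^ ((1 : ℝ) / 3) ≤ C ^ ((1 : ℝ) / 3) := Real.rpow_le_rpow hX hXC (by norm_num)
  rw [div_mul_eq_mul_div, div_le_iff₀ hC3]
  calc c1 * k * (hp * X ^ ((1 : ℝ) / 3)) ≤ c1 * k * (hp * C ^ ((1 : ℝ) / 3)) := by
        apply mul_le_mul_of_nonneg_left _ (by positivity)
        exact mul_le_mul_of_nonneg_left h1 hhp
    _ = c1 * (k * hp) * C ^ ((1 : ℝ) / 3) := by ring

/-- `On` implies `OnV` -/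
theorem On_OnV {m n a b : ℤ} {v f : Vtx} (hf : cor v f) :
    P2 (RE 0 m 0 n) (On m n a b v f) ≤ P2 (RE 0 m 0 n) (OnV m n a b v) := by
  have ok : Ok (fun _ : Edg => (1/2 : ℝ)) := okhalf2
  unfold P2
  exact Pr_mono ok fun F _ h => ⟨h.1, f, hf, h.2⟩

theorem mid (hL : H934F.St_L) (K : ℕ) : ∃ c : ℝ, 0 < c ∧
    ∀ m n a b x y h : ℤ, m ≤ K * n → n ≤ K * m → 1 ≤ h → 500 * h ≤ y → y ≤ 8000 * h →
    500 * h ≤ x → x + 500 * h ≤ m → y + 500 * h ≤ n → a + 250 * h ≤ b →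
    b + 250 * h ≤ a + 2 * (m + n) →
    ((x - 21 * h ≤ b ∧ b ≤ x + 21 * h) ∨ (x - 21 * h ≤ a ∧ a ≤ x + 21 * h)) →
    c * ((h : ℝ) ^ (-(1/4) : ℝ) * (HH m n a b (x, y)) ^ ((1 : ℝ) / 3)) ≤
      P2 (RE 0 m 0 n) (OnV m n a b (x, y)) := by
  obtain ⟨c1, s1, hc1, h1⟩ := H731G.low_mid hL 8000
  obtain ⟨c2, s2, hc2, h2⟩ := H731G.low_mid' hL 8000
  obtain ⟨C0, _, h3⟩ := H731G.HH_le K 8000
  set C := max C0 1 with hC
  have hC0 : 0 < C := lt_of_lt_of_le one_pos (le_max_right _ _)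
  have hk : 0 < ((25 : ℤ) : ℝ) ^ (-(1/4) : ℝ) := Real.rpow_pos_of_pos (by norm_num) _
  have hC3 : 0 < C ^ ((1 : ℝ) / 3) := Real.rpow_pos_of_pos hC0 _
  refine ⟨min (c1 * ((25 : ℤ) : ℝ) ^ (-(1/4) : ℝ) / C ^ ((1 : ℝ) / 3))
    (c2 * ((25 : ℤ) : ℝ) ^ (-(1/4) : ℝ) / C ^ ((1 : ℝ) / 3)), by positivity, ?_⟩
  intro m n a b x y h hK1 hK2 hh hy1 hy2 hx1 hx2 hy3 hab hba hnear
  have hm : 1 ≤ m := by omega
  have hn : 1 ≤ n := by omega
  have hH : 0 ≤ HH m n a b (x, y) := HH_nn hm hn a b (by simp only; omega) (by simp only; omega)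
    (by simp only; omega) (by simp only; omega)
  have hp : 0 ≤ (h : ℝ) ^ (-(1/4) : ℝ) :=
    Real.rpow_nonneg (by exact_mod_cast (by omega : 0 ≤ h)) _
  have hX3 : 0 ≤ (HH m n a b (x, y)) ^ ((1 : ℝ) / 3) := Real.rpow_nonneg hH _
  have g3 : HH m n a b (x, y) ≤ C := by
    refine le_trans (h3 m n a b x y (25 * h) hK1 hK2 (by omega) (by omega) (by push_cast; omega)
      (by omega) (by omega) (by omega) ?_) (le_max_left _ _)
    rcases hnear with hb | ha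
    · right
      rw [abs_le]
      omega
    · left
      rw [abs_le]
      omega
  rcases hnear with hb | ha
  · have g1 := h1 m n a b x y (25 * h) (by omega) (by omega) (by push_cast; omega) (by omega)
      (by omega) (by omega) (by omega) (by omega) (by omega) (by omega)
    rw [cast_mul_rpow (by norm_num) hh] at g1
    refine le_trans (mul_le_mul_of_nonneg_right (min_le_left _ _) (by positivity)) ?_
    exact mid_step hc1 hC0 hH g3 hp hk (g1.trans (On_OnV (cor_cface _ _)))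
  · have g1 := h2 m n a b x y (25 * h) (by omega) (by omega) (by push_cast; omega) (by omega)
      (by omega) (by omega) (by omega) (by omega) (by omega) (by omega)
    rw [cast_mul_rpow (by norm_num) hh] at g1
    refine le_trans (mul_le_mul_of_nonneg_right (min_le_right _ _) (by positivity)) ?_
    exact mid_step hc2 hC0 hH g3 hp hk (g1.trans (On_OnV (cor_cface _ _)))

/-- the vertex of the dual lattice -/
def fs (x y : ℤ) (s : Bool × Bool) : Vtx := (if s.1 then x - 1 else x, if s.2 then y - 1 else y)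

theorem fs_cface (x y : ℤ) (s : Bool × Bool) : H934E.cface (fs x y s) s = (x - 1, y - 1) := by
  obtain ⟨_ | _, _ | _⟩ := s <;> simp [fs, H934E.cface]

theorem fs_cor (x y : ℤ) (s : Bool × Bool) : cor (x, y) (fs x y s) := by
  obtain ⟨_ | _, _ | _⟩ := s <;> simp [fs, cor]

theorem fs_bd (x y : ℤ) (s : Bool × Bool) : (x - 1 ≤ (fs x y s).1 ∧ (fs x y s).1 ≤ x) ∧
    (y - 1 ≤ (fs x y s).2 ∧ (fs x y s).2 ≤ y) := by
  obtain ⟨_ | _, _ | _⟩ := s <;> simp [fs]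

/-- transfer from the dual rectangle -/
theorem transfer : ∃ C : ℝ, 0 < C ∧ ∀ (c : ℝ) (s : Bool × Bool) (m n a b x y h : ℤ), 0 < c →
    3 ≤ m → 3 ≤ n → a ≤ b → b < a + 2 * (m + n) → 1 ≤ h → 1 ≤ x → x + 2 ≤ m → 1 ≤ y →
    y + 2 ≤ n →
    c * ((h : ℝ) ^ (-(1/4) : ℝ) * (HH (m - 1) (n - 1) (st m n b) (st m n (a + 2 * (m + n) - 1))
      (fs x y s)) ^ ((1 : ℝ) / 3)) ≤
      P2 (RE 0 (m - 1) 0 (n - 1)) (On (m - 1) (n - 1) (st m n b)
        (st m n (a + 2 * (m + n) - 1)) (fs x y s) (H934E.cface (fs x y s) s)) →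
    c / (2 * C) * ((h : ℝ) ^ (-(1/4) : ℝ) * (HH m n a b (x, y)) ^ ((1 : ℝ) / 3)) ≤
      P2 (RE 0 m 0 n) (OnV m n a b (x, y)) := by
  obtain ⟨C0, hC0, h1⟩ := H731G.HH_star
  refine ⟨C0 ^ ((1 : ℝ) / 3), Real.rpow_pos_of_pos hC0 _, ?_⟩
  intro c s m n a b x y h hc hm hn hab hba hh hx1 hx2 hy1 hy2 hle
  have hfb := fs_bd x y s
  have g1 := (h1 m n a b (x, y) (fs x y s) hm hn (by simp only; omega) (by simp only; omega)
    (by simp only; omega) (by simp only; omega) (by simp only; rw [abs_le]; omega)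
    (by simp only; rw [abs_le]; omega) (by omega) (by omega) (by omega) (by omega)).2
  have g2 := H731G.on_dual (m := m) (n := n) (a := a) (b := b) (by omega) (by omega) hab hba
    (fs x y s) (x - 1, y - 1)
  simp only [sub_add_cancel] at g2
  rw [fs_cface] at hle
  have hH : 0 ≤ HH m n a b (x, y) := HH_nn (by omega) (by omega) a b (by simp only; omega)
    (by simp only; omega) (by simp only; omega) (by simp only; omega)
  have hH' : 0 ≤ HH (m - 1) (n - 1) (st m n b) (st m n (a + 2 * (m + n) - 1)) (fs x y s) :=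
    HH_nn (by omega) (by omega) _ _ (by omega) (by omega) (by omega) (by omega)
  have hp : 0 ≤ (h : ℝ) ^ (-(1/4) : ℝ) :=
    Real.rpow_nonneg (by exact_mod_cast (by omega : 0 ≤ h)) _
  have hC3 : 0 < C0 ^ ((1 : ℝ) / 3) := Real.rpow_pos_of_pos hC0 _
  have e1 : (HH m n a b (x, y)) ^ ((1 : ℝ) / 3) ≤ C0 ^ ((1 : ℝ) / 3) *
      (HH (m - 1) (n - 1) (st m n b) (st m n (a + 2 * (m + n) - 1)) (fs x y s)) ^
        ((1 : ℝ) / 3) := by
    rw [← Real.mul_rpow hC0.le hH']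
    exact Real.rpow_le_rpow hH g1 (by norm_num)
  refine le_trans ?_ (g2.trans (On_OnV (fs_cor x y s)))
  refine le_trans ?_ (mul_le_mul_of_nonneg_left hle (by norm_num : (0:ℝ) ≤ 1 / 2))
  have e2 : (h : ℝ) ^ (-(1/4) : ℝ) * (HH m n a b (x, y)) ^ ((1 : ℝ) / 3) ≤
      (h : ℝ) ^ (-(1/4) : ℝ) * (C0 ^ ((1 : ℝ) / 3) *
      (HH (m - 1) (n - 1) (st m n b) (st m n (a + 2 * (m + n) - 1)) (fs x y s)) ^
        ((1 : ℝ) / 3)) := mul_le_mul_of_nonneg_left e1 hp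
  calc c / (2 * C0 ^ ((1 : ℝ) / 3)) *
        ((h : ℝ) ^ (-(1/4) : ℝ) * (HH m n a b (x, y)) ^ ((1 : ℝ) / 3))
      ≤ c / (2 * C0 ^ ((1 : ℝ) / 3)) * ((h : ℝ) ^ (-(1/4) : ℝ) * (C0 ^ ((1 : ℝ) / 3) *
        (HH (m - 1) (n - 1) (st m n b) (st m n (a + 2 * (m + n) - 1)) (fs x y s)) ^
          ((1 : ℝ) / 3))) := mul_le_mul_of_nonneg_left e2 (by positivity)
    _ = 1 / 2 * (c * ((h : ℝ) ^ (-(1/4) : ℝ) *
        (HH (m - 1) (n - 1) (st m n b) (st m n (a + 2 * (m + n) - 1)) (fs x y s)) ^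
          ((1 : ℝ) / 3))) := by
        field_simp

/-- `st` on the bottom side -/
theorem st_small {m n i : ℤ} (hm : 1 ≤ m) (hn : 1 ≤ n) (h0 : 0 ≤ i) (h1 : i < m) :
    st m n i = i := by
  unfold st
  have e1 : i % (2 * (m + n)) = i := Int.emod_eq_of_lt h0 (by omega)
  have e2 : i / (2 * (m + n)) = 0 := Int.ediv_eq_zero_of_lt h0 (by omega)
  rw [e1, e2, if_neg (by omega), if_neg (by omega), if_neg (by omega)]
  ring

theorem st_small' {m n i : ℤ} (hm : 1 ≤ m) (hn : 1 ≤ n) (h0 : 0 ≤ i) (h1 : i < m) :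
    st m n (i + 2 * (m + n)) = i + (2 * (m + n) - 4) := by
  unfold st
  have e1 : (i + 2 * (m + n)) % (2 * (m + n)) = i := by
    rw [Int.add_emod_right]
    exact Int.emod_eq_of_lt h0 (by omega)
  have e2 : (i + 2 * (m + n)) / (2 * (m + n)) = 1 := by
    rw [Int.add_ediv_of_dvd_right (dvd_refl _), Int.ediv_eq_zero_of_lt h0 (by omega),
      Int.ediv_self (by omega)]
    rfl
  rw [e1, e2, if_neg (by omega), if_neg (by omega), if_neg (by omega)]
  ring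

/-- the events and the cross-ratio are periodic -/
theorem OnV_period (m n a b k x y : ℤ) :
    P2 (RE 0 m 0 n) (OnV m n (a + k * (2 * (m + n))) (b + k * (2 * (m + n))) (x, y)) =
      P2 (RE 0 m 0 n) (OnV m n a b (x, y)) := by
  unfold P2
  apply Pr_congr
  intro F _
  unfold OnV
  have h1 := (H731G.ev_period (m := m) (n := n) a b k (x, y) (x, y) 0 F).1
  have h2 := fun f => (H731G.ev_period (m := m) (n := n) a b k (x, y) f 0 F).2.1
  rw [h1]
  constructor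
  · rintro ⟨g1, f, g2, g3⟩
    exact ⟨g1, f, g2, (h2 f).1 g3⟩
  · rintro ⟨g1, f, g2, g3⟩
    exact ⟨g1, f, g2, (h2 f).2 g3⟩

end LF

open LF in
theorem on_lower_bot (hL : H934F.St_L) (K : ℕ) : ∃ c : ℝ, 0 < c ∧ ∀ m n a b x y h : ℤ,
    m ≤ K * n → n ≤ K * m → 1 ≤ h → 4000 * h ≤ y → y ≤ 8000 * h → 4000 * h ≤ x →
    x + 4000 * h ≤ m → y + 4000 * h ≤ n → a ≤ b → b < a + 2 * (m + n) →
    c * ((h : ℝ) ^ (-(1/4) : ℝ) * (HH m n a b (x, y)) ^ ((1 : ℝ) / 3)) ≤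
      P2 (RE 0 m 0 n) (OnV m n a b (x, y)) := by
  obtain ⟨c1, s1, hc1, h1⟩ := far hL (2 * K)
  obtain ⟨c2, s2, hc2, h2⟩ := small hL (2 * K)
  obtain ⟨c3, hc3, h3⟩ := mid hL K
  obtain ⟨C, hC, h4⟩ := transfer
  set c := min (min c1 c2) (min c3 (min (c1 / (2 * C)) (c2 / (2 * C)))) with hc
  have hc0 : 0 < c := by positivity
  have l1 : c ≤ c1 := (min_le_left _ _).trans (min_le_left _ _)
  have l2 : c ≤ c2 := (min_le_left _ _).trans (min_le_right _ _)
  have l3 : c ≤ c3 := (min_le_right _ _).trans (min_le_left _ _)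
  have l4 : c ≤ c1 / (2 * C) :=
    (min_le_right _ _).trans ((min_le_right _ _).trans (min_le_left _ _))
  have l5 : c ≤ c2 / (2 * C) :=
    (min_le_right _ _).trans ((min_le_right _ _).trans (min_le_right _ _))
  refine ⟨c, hc0, ?_⟩
  intro m n a b x y h hK1 hK2 hh hy1 hy2 hx1 hx2 hy3 hab hba
  have hp : 0 ≤ (h : ℝ) ^ (-(1/4) : ℝ) :=
    Real.rpow_nonneg (by exact_mod_cast (by omega : 0 ≤ h)) _
  have hm : 1 ≤ m := by omega
  have hn : 1 ≤ n := by omega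
  have hK1' : m ≤ ((2 * K : ℕ) : ℤ) * n := by
    push_cast
    nlinarith [mul_nonneg (Int.natCast_nonneg K) (by omega : 0 ≤ n)]
  have hK2' : n ≤ ((2 * K : ℕ) : ℤ) * m := by
    push_cast
    nlinarith [mul_nonneg (Int.natCast_nonneg K) (by omega : 0 ≤ m)]
  have hK1'' : m - 1 ≤ ((2 * K : ℕ) : ℤ) * (n - 1) := by
    push_cast
    nlinarith [mul_nonneg (Int.natCast_nonneg K) (by omega : 0 ≤ n - 2)]
  have hK2'' : n - 1 ≤ ((2 * K : ℕ) : ℤ) * (m - 1) := by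
    push_cast
    nlinarith [mul_nonneg (Int.natCast_nonneg K) (by omega : 0 ≤ m - 2)]
  clear_value c
  obtain ⟨Q, hQ⟩ : ∃ Q : ℤ → ℤ → Prop, ∀ a b, Q a b ↔
      c * ((h : ℝ) ^ (-(1/4) : ℝ) * (HH m n a b (x, y)) ^ ((1 : ℝ) / 3)) ≤
        P2 (RE 0 m 0 n) (OnV m n a b (x, y)) := ⟨_, fun _ _ => Iff.rfl⟩
  rw [← hQ]
  have hX : ∀ a b, 0 ≤ (h : ℝ) ^ (-(1/4) : ℝ) * (HH m n a b (x, y)) ^ ((1 : ℝ) / 3) := by
    intro a b
    have hH : 0 ≤ HH m n a b (x, y) := HH_nn hm hn a b (by simp only; omega)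
      (by simp only; omega) (by simp only; omega) (by simp only; omega)
    exact mul_nonneg hp (Real.rpow_nonneg hH _)
  have red : ∀ (a b : ℤ) (c' : ℝ), c ≤ c' →
      c' * ((h : ℝ) ^ (-(1/4) : ℝ) * (HH m n a b (x, y)) ^ ((1 : ℝ) / 3)) ≤
        P2 (RE 0 m 0 n) (OnV m n a b (x, y)) → Q a b := by
    intro a b c' hcc hle
    rw [hQ]
    exact (mul_le_mul_of_nonneg_right hcc (hX a b)).trans hle
  have per : ∀ a b k, Q (a + k * (2 * (m + n))) (b + k * (2 * (m + n))) → Q a b := by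
    intro a b k hq
    rw [hQ, OnV_period, H731G.HH_period] at hq
    rw [hQ]
    exact hq
  have hfar : ∀ a b, a ≤ b → x + 20 * h ≤ a → b ≤ x - 20 * h + 2 * (m + n) → Q a b := by
    intro a b hab ha hb
    exact red a b c1 l1 ((h1 m n a b x y h hK1' hK2' hh (by omega) hy2 (by omega) (by omega)
      (by omega) hab ha hb).trans (On_OnV (cor_cface _ _)))
  have hsmall : ∀ a b, x - 300 * h ≤ a → a ≤ b → b ≤ x + 300 * h → Q a b := by
    intro a b ha hab hb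
    exact red a b c2 l2 ((h2 m n a b x y h hK1' hK2' hh (by omega) hy2 (by omega) (by omega)
      (by omega) ha hab hb).trans (On_OnV (cor_cface _ _)))
  have hmid : ∀ a b, a + 250 * h ≤ b → b + 250 * h ≤ a + 2 * (m + n) →
      ((x - 21 * h ≤ b ∧ b ≤ x + 21 * h) ∨ (x - 21 * h ≤ a ∧ a ≤ x + 21 * h)) → Q a b := by
    intro a b hab hba hne
    exact red a b c3 l3 (h3 m n a b x y h hK1 hK2 hh (by omega) hy2 (by omega) (by omega)
      (by omega) hab hba hne)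
  have dfar : ∀ a b, a ≤ b → b < a + 2 * (m + n) → a ≤ x - 21 * h → x + 21 * h ≤ b → Q a b := by
    intro a b hab hba ha hb
    have hf := fs_bd x y s1
    have e1 : x + 21 * h ≤ st m n b := by
      have := Star.st_mono (m := m) (n := n) (by omega) (by omega) hb
      rwa [st_small hm hn (by omega) (by omega)] at this
    have e2 : st m n (a + 2 * (m + n) - 1) ≤ x - 21 * h - 1 + (2 * (m + n) - 4) := by
      have := Star.st_mono (m := m) (n := n) (by omega) (by omega)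
        (by omega : a + 2 * (m + n) - 1 ≤ x - 21 * h - 1 + 2 * (m + n))
      rwa [st_small' hm hn (by omega) (by omega)] at this
    have e3 : st m n b ≤ st m n (a + 2 * (m + n) - 1) :=
      Star.st_mono (by omega) (by omega) (by omega)
    refine red a b _ l4 (h4 c1 s1 m n a b x y h hc1 (by omega) (by omega) hab hba hh (by omega)
      (by omega) (by omega) (by omega) ?_)
    exact h1 (m - 1) (n - 1) _ _ (fs x y s1).1 (fs x y s1).2 h hK1'' hK2'' hh (by omega)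
      (by omega) (by omega) (by omega) (by omega) e3 (by omega) (by omega)
  have dsmall : ∀ a b, a ≤ b → b < a + 2 * (m + n) → x - 280 * h ≤ b →
      a + 2 * (m + n) ≤ x + 280 * h → Q a b := by
    intro a b hab hba hb ha
    have hf := fs_bd x y s2
    have e1 : st m n b = b := st_small hm hn (by omega) (by omega)
    have e2 : st m n (a + 2 * (m + n) - 1) = a + 2 * (m + n) - 1 :=
      st_small hm hn (by omega) (by omega)
    refine red a b _ l5 (h4 c2 s2 m n a b x y h hc2 (by omega) (by omega) hab hba hh (by omega)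
      (by omega) (by omega) (by omega) ?_)
    exact h2 (m - 1) (n - 1) _ _ (fs x y s2).1 (fs x y s2).2 h hK1'' hK2'' hh (by omega)
      (by omega) (by omega) (by omega) (by omega) (by omega) (by omega) (by omega)
  have nearb : ∀ a b, a ≤ b → b < a + 2 * (m + n) → x - 21 * h ≤ b → b ≤ x + 21 * h →
      Q a b := by
    intro a b hab hba hb1 hb2
    by_cases g1 : b < a + 250 * h
    · exact hsmall a b (by omega) hab (by omega)
    by_cases g2 : a + 2 * (m + n) < b + 250 * h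
    · exact dsmall a b hab hba (by omega) (by omega)
    exact hmid a b (by omega) (by omega) (Or.inl ⟨hb1, hb2⟩)
  have main : ∀ a b, a ≤ b → b < a + 2 * (m + n) → x < b → b ≤ x + 2 * (m + n) → Q a b := by
    intro a b hab hba hb1 hb2
    by_cases g1 : b ≤ x + 21 * h
    · exact nearb a b hab hba (by omega) g1
    by_cases g2 : x - 21 * h + 2 * (m + n) < b
    · exact per a b (-1) (nearb _ _ (by omega) (by omega) (by omega) (by omega))
    by_cases g3 : x + 20 * h ≤ a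
    · exact hfar a b hab g3 (by omega)
    by_cases g4 : a ≤ x - 21 * h
    · exact dfar a b hab hba g4 (by omega)
    by_cases g5 : b < a + 250 * h
    · exact hsmall a b (by omega) hab (by omega)
    by_cases g6 : a + 2 * (m + n) < b + 250 * h
    · exact per a b (-1) (dsmall _ _ (by omega) (by omega) (by omega) (by omega))
    exact hmid a b (by omega) (by omega) (Or.inr ⟨by omega, by omega⟩)
  have hN : 0 < 2 * (m + n) := by omega
  -- `x < b + k N ≤ x + N`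
  obtain ⟨k, hk1, hk2⟩ : ∃ k : ℤ, x < b + k * (2 * (m + n)) ∧
      b + k * (2 * (m + n)) ≤ x + 2 * (m + n) := by
    have e1 := Int.emod_nonneg (x - b) hN.ne'
    have e2 := Int.emod_lt_of_pos (x - b) hN
    have e3 := Int.emod_add_mul_ediv (x - b) (2 * (m + n))
    refine ⟨(x - b) / (2 * (m + n)) + 1, ?_, ?_⟩
    · rw [add_mul, one_mul, mul_comm ((x - b) / (2 * (m + n)))]
      omega
    · rw [add_mul, one_mul, mul_comm ((x - b) / (2 * (m + n)))]
      omega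
  refine per a b k (main _ _ (by omega) ?_ hk1 hk2)
  omega

end H731G
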