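import Pool.Agent.H731R5.Gr.Defs2

/-!
Task N5: comparison of the cross-ratios of nearby vertices.
-/

set_option autoImplicit false

namespace H731G

open H974 hiding bd
open H731C H731R H731A Finset

namespace N5

theorem bd_side {m n : ℤ} (hm : 1 ≤ m) (hn : 1 ≤ n) (j : ℤ) :
    (bd m n j).1 = 0 ∨ (bd m n j).1 = m ∨ (bd m n j).2 = 0 ∨ (bd m n j).2 = n := by
  obtain ⟨k, r, h, h1 | h1 | h1 | h1⟩ := side_cases hm hn j
  · rw [h, bd_period, bd_bot hm hn h1.1 h1.2]; simp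
  · rw [h, bd_period, bd_right hm hn h1.1 h1.2]; simp
  · rw [h, bd_period, bd_top hm hn h1.1 h1.2]; simp
  · rw [h, bd_period, bd_left hm hn h1.1 h1.2.le]; simp

theorem ds_ge {m n : ℤ} (hm : 1 ≤ m) (hn : 1 ≤ n) (j : ℤ) (v : Vtx)
    (h1 : 0 ≤ v.1 ∧ v.1 ≤ m) (h2 : 0 ≤ v.2 ∧ v.2 ≤ n) :
    min (px m v) (py n v) ≤ ds m n v j := by
  have h3 := bd_side hm hn j
  unfold px py ds
  have e1 := le_abs_self (v.1 - (bd m n j).1)
  have e2 := neg_abs_le (v.1 - (bd m n j).1)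
  have e3 := le_abs_self (v.2 - (bd m n j).2)
  have e4 := neg_abs_le (v.2 - (bd m n j).2)
  omega

theorem ds_cmp {m n : ℤ} (hm : 1 ≤ m) (hn : 1 ≤ n) (j : ℤ) (v w : Vtx)
    (h1 : 0 ≤ v.1 ∧ v.1 ≤ m) (h2 : 0 ≤ v.2 ∧ v.2 ≤ n)
    (h3 : 2 * |w.1 - v.1| ≤ min (px m v) (py n v)) (h4 : 2 * |w.2 - v.2| ≤ min (px m v) (py n v)) :
    ds m n v j ≤ 2 * ds m n w j ∧ 2 * ds m n w j ≤ 3 * ds m n v j := by
  have h5 := ds_ge hm hn j v h1 h2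
  have t1 : |w.1 - (bd m n j).1| ≤ |w.1 - v.1| + |v.1 - (bd m n j).1| := abs_sub_le _ _ _
  have t2 : |w.2 - (bd m n j).2| ≤ |w.2 - v.2| + |v.2 - (bd m n j).2| := abs_sub_le _ _ _
  have t3 : |v.1 - (bd m n j).1| ≤ |v.1 - w.1| + |w.1 - (bd m n j).1| := abs_sub_le _ _ _
  have t4 : |v.2 - (bd m n j).2| ≤ |v.2 - w.2| + |w.2 - (bd m n j).2| := abs_sub_le _ _ _
  rw [abs_sub_comm v.1 w.1] at t3
  rw [abs_sub_comm v.2 w.2] at t4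
  unfold ds at h5 ⊢
  omega

theorem sv_cmp {m n : ℤ} (hm : 1 ≤ m) (hn : 1 ≤ n) (j : ℤ) (v w : Vtx)
    (h1 : 0 ≤ v.1 ∧ v.1 ≤ m) (h2 : 0 ≤ v.2 ∧ v.2 ≤ n)
    (h3 : 2 * |w.1 - v.1| ≤ min (px m v) (py n v)) (h4 : 2 * |w.2 - v.2| ≤ min (px m v) (py n v)) :
    sv m n v j ≤ 4 * sv m n w j ∧ sv m n w j ≤ 4 * sv m n v j := by
  obtain ⟨h5, h6⟩ := ds_cmp hm hn j v w h1 h2 h3 h4
  have h7 := ds_pos m n v j
  have h8 := ds_pos m n w j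
  have h9 := rho_nonneg hm hn j
  unfold sv
  constructor
  · nlinarith [mul_le_mul h5 h5 (by omega) (by omega), mul_nonneg (by omega : (0 : ℤ) ≤ ds m n w j) h9,
      mul_le_mul_of_nonneg_right h5 h9]
  · nlinarith [mul_le_mul h6 h6 (by omega) (by omega), mul_nonneg (by omega : (0 : ℤ) ≤ ds m n v j) h9,
      mul_le_mul_of_nonneg_right h6 h9]

theorem cmp {P P' Q Q' S A A' B B' : ℝ} (hP : 0 < P) (hP' : 0 < P') (hQ : 0 < Q) (hQ' : 0 < Q')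
    (hS : 0 < S) (hA : 0 < A) (hA' : 0 < A') (hB : 0 < B) (hB' : 0 < B')
    (h1 : P' ≤ 2 * P) (h2 : Q' ≤ 2 * Q) (h3 : A ≤ 4 * A') (h4 : B ≤ 4 * B') :
    (P' * Q' * S) / (A' * B') ≤ 64 * ((P * Q * S) / (A * B)) := by
  have e : 64 * ((P * Q * S) / (A * B)) = ((2 * P) * (2 * Q) * S) / ((A / 4) * (B / 4)) := by
    field_simp
    ring
  rw [e]
  have h5 : A / 4 ≤ A' := by linarith
  have h6 : B / 4 ≤ B' := by linarith
  apply div_le_div₀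
  · positivity
  · gcongr
  · positivity
  · gcongr

end N5

open N5 in
theorem HH_near : ∃ C : ℝ, 0 < C ∧ ∀ (m n a b : ℤ) (v w : Vtx), 1 ≤ m → 1 ≤ n →
    (0 ≤ v.1 ∧ v.1 ≤ m) → (0 ≤ v.2 ∧ v.2 ≤ n) →
    2 * |w.1 - v.1| ≤ min (px m v) (py n v) → 2 * |w.2 - v.2| ≤ min (px m v) (py n v) →
    (0 ≤ w.1 ∧ w.1 ≤ m) → (0 ≤ w.2 ∧ w.2 ≤ n) →
    HH m n a b w ≤ C * HH m n a b v ∧ HH m n a b v ≤ C * HH m n a b w ∧
      min (px m v) (py n v) ≤ 2 * min (px m w) (py n w) ∧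
      min (px m w) (py n w) ≤ 2 * min (px m v) (py n v) := by
  refine ⟨64, by norm_num, ?_⟩
  intro m n a b v w hm hn hv1 hv2 h3 h4 hw1 hw2
  have e1 := le_abs_self (w.1 - v.1)
  have e2 := neg_abs_le (w.1 - v.1)
  have e3 := le_abs_self (w.2 - v.2)
  have e4 := neg_abs_le (w.2 - v.2)
  have p1 : px m v ≤ 2 * px m w ∧ px m w ≤ 2 * px m v := by
    unfold px py at *; omega
  have p2 : py n v ≤ 2 * py n w ∧ py n w ≤ 2 * py n v := by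
    unfold px py at *; omega
  have q1 := px_pos hv1.1 hv1.2
  have q2 := py_pos hv2.1 hv2.2
  have q3 := px_pos hw1.1 hw1.2
  have q4 := py_pos hw2.1 hw2.2
  have s0 := sz_pos hm hn a b
  have sa := sv_cmp hm hn a v w hv1 hv2 h3 h4
  have sb := sv_cmp hm hn b v w hv1 hv2 h3 h4
  have s1 := sv_pos hm hn v a
  have s2 := sv_pos hm hn v b
  have s3 := sv_pos hm hn w a
  have s4 := sv_pos hm hn w b
  have c : ∀ z : ℤ, 1 ≤ z → (0 : ℝ) < z := fun z hz => by exact_mod_cast (by omega : 0 < z)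
  have cc : ∀ x y : ℤ, x ≤ 2 * y → (x : ℝ) ≤ 2 * y := fun x y h => by exact_mod_cast h
  have cd' : ∀ x y : ℤ, x ≤ 4 * y → (x : ℝ) ≤ 4 * y := fun x y h => by exact_mod_cast h
  refine ⟨?_, ?_, ?_, ?_⟩
  · unfold HH
    exact cmp (c _ q1) (c _ q3) (c _ q2) (c _ q4) (c _ s0) (c _ s1) (c _ s3) (c _ s2) (c _ s4)
      (cc _ _ p1.2) (cc _ _ p2.2) (cd' _ _ sa.1) (cd' _ _ sb.1)
  · unfold HH
    exact cmp (c _ q3) (c _ q1) (c _ q4) (c _ q2) (c _ s0) (c _ s3) (c _ s1) (c _ s4) (c _ s2)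
      (cc _ _ p1.1) (cc _ _ p2.1) (cd' _ _ sa.2) (cd' _ _ sb.2)
  · omega
  · omega

end H731G
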