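import Pool.Agent.H731R5.Gr.S2
import Pool.Agent.H731R5.Gr.Defs2
import Pool.Agent.H731R5.Gr.S1
import Pool.Agent.H731R5.Gr.S3
import Pool.Agent.H731R5.Gr.N5
import Pool.Agent.H731R5.Gr.LF
import Pool.Agent.H934R3.D74.T12

/-!
# Task S4: second moment lower bound for the probability to meet a ball
-/

set_option autoImplicit false

namespace H731G

open H974 hiding bd
open H731C H731R H731A Finset

namespace S4

theorem HH_pos {m n a b : ℤ} {v : Vtx} (hm : 1 ≤ m) (hn : 1 ≤ n) (h0 : 0 ≤ v.1) (h1 : v.1 ≤ m)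
    (h2 : 0 ≤ v.2) (h3 : v.2 ≤ n) : 0 < HH m n a b v := by
  have a1 : (0 : ℝ) < px m v := by
    have := px_pos h0 h1
    exact_mod_cast (by omega : 0 < px m v)
  have a2 : (0 : ℝ) < py n v := by
    have := py_pos h2 h3
    exact_mod_cast (by omega : 0 < py n v)
  have a3 : (0 : ℝ) < sz m n a b := by
    have := sz_pos hm hn a b
    exact_mod_cast (by omega : 0 < sz m n a b)
  have a4 : (0 : ℝ) < sv m n v a := by
    have := sv_pos hm hn v a
    exact_mod_cast (by omega : 0 < sv m n v a)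
  have a5 : (0 : ℝ) < sv m n v b := by
    have := sv_pos hm hn v b
    exact_mod_cast (by omega : 0 < sv m n v b)
  unfold HH
  positivity

/-- the inputs -/
theorem main (K : ℕ) {c1 : ℝ} (hc1 : 0 < c1)
    (H1 : ∀ m n a b x y h : ℤ,
      m ≤ K * n → n ≤ K * m → 1 ≤ h → 4000 * h ≤ y → y ≤ 8000 * h → 4000 * h ≤ x →
      x + 4000 * h ≤ m → y + 4000 * h ≤ n → a ≤ b → b < a + 2 * (m + n) →
      c1 * ((h : ℝ) ^ (-(1/4) : ℝ) * (HH m n a b (x, y)) ^ ((1 : ℝ) / 3)) ≤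
        P2 (RE 0 m 0 n) (OnV m n a b (x, y)))
    {C2 : ℝ} (hC2 : 0 < C2)
    (H2 : ∀ (m n a b d : ℤ) (u w : Vtx),
      1 ≤ d → d = max |u.1 - w.1| |u.2 - w.2| → a ≤ b → b < a + 2 * (m + n) →
      2 * d ≤ u.1 → u.1 + 2 * d ≤ m → 2 * d ≤ u.2 → u.2 + 2 * d ≤ n →
      P2 (RE 0 m 0 n) (fun F => OnV m n a b u F ∧ OnV m n a b w F) ≤
        C2 * ((d : ℝ) ^ (-(1/2) : ℝ) * P2 (RE 0 m 0 n) (Out m n a b u (2 * d))))
    {C3 : ℝ} (hC3 : 0 < C3)
    (H3 : ∀ m n a b x y h r : ℤ,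
      m ≤ K * n → n ≤ K * m → 10 ≤ h → 50 * h ≤ y → y ≤ 100 * h → 50 * h ≤ x → x + 50 * h ≤ m →
      y + 50 * h ≤ n → a ≤ b → b < a + 2 * (m + n) → 1 ≤ r → r ≤ h →
      P2 (RE 0 m 0 n) (Out m n a b (x, y) r) ≤
        C3 * (((r : ℝ) / h) ^ ((1 : ℝ) / 4) * (HH m n a b (x, y)) ^ ((1 : ℝ) / 3)))
    {C4 : ℝ} (hC4 : 0 < C4)
    (H4 : ∀ (m n a b : ℤ) (v w : Vtx), 1 ≤ m → 1 ≤ n →
      (0 ≤ v.1 ∧ v.1 ≤ m) → (0 ≤ v.2 ∧ v.2 ≤ n) →
      2 * |w.1 - v.1| ≤ min (px m v) (py n v) → 2 * |w.2 - v.2| ≤ min (px m v) (py n v) →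
      (0 ≤ w.1 ∧ w.1 ≤ m) → (0 ≤ w.2 ∧ w.2 ≤ n) →
      HH m n a b w ≤ C4 * HH m n a b v ∧ HH m n a b v ≤ C4 * HH m n a b w ∧
        min (px m v) (py n v) ≤ 2 * min (px m w) (py n w) ∧
        min (px m w) (py n w) ≤ 2 * min (px m v) (py n v))
    (H5 : ∀ {m n a b r : ℤ} {v : Vtx}, 0 ≤ r → ∀ {F : Finset Edg},
      HitB m n a b v r F → Out m n a b v r F) :
    ∃ c : ℝ, 0 < c ∧
    ∀ m n a b x y h r : ℤ, m ≤ K * n → n ≤ K * m → 10 ≤ h → 5000 * h ≤ y → y ≤ 7000 * h →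
    5000 * h ≤ x → x + 5000 * h ≤ m → y + 5000 * h ≤ n → a ≤ b → b < a + 2 * (m + n) →
    1 ≤ r → r ≤ h →
    c * (((r : ℝ) / h) ^ ((1 : ℝ) / 4) * (HH m n a b (x, y)) ^ ((1 : ℝ) / 3)) ≤
      P2 (RE 0 m 0 n) (HitB m n a b (x, y) r) := by
  set D : ℝ := C4 ^ ((1 : ℝ) / 3) with hD
  have hD0 : 0 < D := by positivity
  set A : ℝ := c1 / D with hA
  have hA0 : 0 < A := by positivity
  set C5 : ℝ := (C2 + 1) * C3 * D with hC5
  have hC50 : 0 < C5 := by positivity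
  refine ⟨A ^ 2 / (18 * C5), by positivity, ?_⟩
  intro m n a b x y h r hmn hnm hh hy1 hy2 hx1 hx2 hyn hab hba hr1 hrh
  have hm : 1 ≤ m := by omega
  have hn : 1 ≤ n := by omega
  have hh0 : (0 : ℝ) < h := by exact_mod_cast (by omega : 0 < h)
  have hr0 : (1 : ℝ) ≤ r := by exact_mod_cast hr1
  have hHv : 0 < HH m n a b (x, y) := HH_pos hm hn (by simp; omega) (by simp; omega)
    (by simp; omega) (by simp; omega)
  set G : ℝ := (HH m n a b (x, y)) ^ ((1 : ℝ) / 3) with hG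
  have hG0 : 0 < G := by positivity
  set g0 : ℝ := (h : ℝ) ^ (-(1/4) : ℝ) with hg0
  have hg00 : 0 < g0 := by positivity
  set g : ℝ := g0 * G with hg
  have hgpos : 0 < g := by positivity
  -- the box
  have hbox : ∀ u ∈ H934F.t12_B (x, y) r, (|u.1 - x| ≤ r ∧ |u.2 - y| ≤ r) ∧
      (x - h ≤ u.1 ∧ u.1 ≤ x + h) ∧ (y - h ≤ u.2 ∧ u.2 ≤ y + h) := by
    intro u hu
    rw [H934F.t12_mem] at hu
    unfold H934F.nd at hu
    rw [max_le_iff] at hu
    have h1 := abs_le.1 hu.1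
    have h2 := abs_le.1 hu.2
    simp only at h1 h2
    refine ⟨hu, ⟨?_, ?_⟩, ?_, ?_⟩ <;> omega
  -- comparison of the cross-ratios
  have hcmp : ∀ u ∈ H934F.t12_B (x, y) r, 0 < HH m n a b u ∧
      (HH m n a b u) ^ ((1 : ℝ) / 3) ≤ D * G ∧ G ≤ D * (HH m n a b u) ^ ((1 : ℝ) / 3) := by
    intro u hu
    obtain ⟨⟨u1, u2⟩, ⟨u3, u4⟩, u5, u6⟩ := hbox u hu
    have hu0 : 0 < HH m n a b u := HH_pos hm hn (by omega) (by omega) (by omega) (by omega)
    obtain ⟨k1, k2, -, -⟩ := H4 m n a b (x, y) u hm hn ⟨by simp; omega, by simp; omega⟩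
      ⟨by simp; omega, by simp; omega⟩ (by unfold px py; simp only; omega)
      (by unfold px py; simp only; omega) ⟨by omega, by omega⟩ ⟨by omega, by omega⟩
    refine ⟨hu0, ?_, ?_⟩
    · rw [hD, hG, ← Real.mul_rpow hC4.le hHv.le]
      exact Real.rpow_le_rpow hu0.le k1 (by norm_num)
    · rw [hD, hG, ← Real.mul_rpow hC4.le hu0.le]
      exact Real.rpow_le_rpow hHv.le k2 (by norm_num)
  -- one point
  have one : ∀ u ∈ H934F.t12_B (x, y) r,
      A * g ≤ P2 (RE 0 m 0 n) (fun F => OnV m n a b u F ∧ True) := by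
    intro u hu
    obtain ⟨⟨u1, u2⟩, ⟨u3, u4⟩, u5, u6⟩ := hbox u hu
    obtain ⟨-, k1, k2⟩ := hcmp u hu
    have h1 := H1 m n a b u.1 u.2 h hmn hnm (by omega) (by omega) (by omega) (by omega) (by omega)
      (by omega) hab hba
    have e : P2 (RE 0 m 0 n) (fun F => OnV m n a b u F ∧ True) =
        P2 (RE 0 m 0 n) (OnV m n a b u) := by
      congr 1
      funext F
      exact propext (iff_of_eq (and_true _))
    rw [e]
    refine le_trans ?_ h1
    rw [hA, hg, div_mul_eq_mul_div, div_le_iff₀ hD0]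
    calc c1 * (g0 * G) ≤ c1 * (g0 * (D * (HH m n a b u) ^ ((1 : ℝ) / 3))) := by gcongr
      _ = _ := by ring
  -- two points
  have two : ∀ u ∈ H934F.t12_B (x, y) r, ∀ w ∈ H934F.t12_B (x, y) r,
      P2 (RE 0 m 0 n) (fun F => OnV m n a b u F ∧ OnV m n a b w F) ≤
        C5 * g * ((max (H934F.nd u w) 1 : ℤ) : ℝ) ^ (-(1/4) : ℝ) := by
    intro u hu w hw
    obtain ⟨⟨u1, u2⟩, ⟨u3, u4⟩, u5, u6⟩ := hbox u hu
    obtain ⟨⟨w1, w2⟩, ⟨w3, w4⟩, w5, w6⟩ := hbox w hw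
    obtain ⟨hu0, k1, k2⟩ := hcmp u hu
    have hu0' : 0 ≤ (HH m n a b u) ^ ((1 : ℝ) / 3) := by positivity
    have hd2 : H934F.nd u w ≤ 2 * h := by
      unfold H934F.nd
      rw [max_le_iff, abs_le, abs_le]
      omega
    have hd0 : 0 ≤ H934F.nd u w := by
      unfold H934F.nd
      exact le_trans (abs_nonneg _) (le_max_left _ _)
    have hout : ∀ s : ℤ, 1 ≤ s → s ≤ 80 * h → P2 (RE 0 m 0 n) (Out m n a b u s) ≤
        C3 * (((s : ℝ) / (80 * h)) ^ ((1 : ℝ) / 4) * (D * G)) := by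
      intro s hs1 hs2
      have h1 := H3 m n a b u.1 u.2 (80 * h) s hmn hnm (by omega) (by omega) (by omega) (by omega)
        (by omega) (by omega) hab hba hs1 hs2
      push_cast at h1
      refine h1.trans ?_
      have hs0 : (0 : ℝ) ≤ s := by exact_mod_cast (by omega : 0 ≤ s)
      gcongr
    rcases Nat.eq_zero_or_pos (H934F.nd u w).toNat with hz | hz
    · -- u = w
      have hd : H934F.nd u w = 0 := by omega
      rw [hd]
      have h1 : P2 (RE 0 m 0 n) (fun F => OnV m n a b u F ∧ OnV m n a b w F) ≤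
          P2 (RE 0 m 0 n) (Out m n a b u 1) := by
        apply Pr_mono okhalf2
        rintro F _ ⟨h3, _⟩
        exact H5 (by norm_num) ⟨u, by simp, h3⟩
      refine h1.trans ((hout 1 le_rfl (by omega)).trans ?_)
      have e1 : (((1 : ℤ) : ℝ) / (80 * h)) ^ ((1 : ℝ) / 4) ≤ g0 := by
        rw [hg0, show (-(1/4) : ℝ) = -((1 : ℝ)/4) by norm_num, Real.rpow_neg hh0.le,
          ← Real.inv_rpow hh0.le]
        apply Real.rpow_le_rpow (by positivity) _ (by norm_num)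
        push_cast
        rw [one_div]
        apply inv_anti₀ hh0
        linarith
      have e2 : ((max (0 : ℤ) 1 : ℤ) : ℝ) ^ (-(1/4) : ℝ) = 1 := by
        simp
      rw [e2, mul_one, hC5, hg]
      calc C3 * ((((1 : ℤ) : ℝ) / (80 * h)) ^ ((1 : ℝ) / 4) * (D * G)) ≤ C3 * (g0 * (D * G)) := by
            gcongr
        _ = 1 * C3 * D * (g0 * G) := by ring
        _ ≤ (C2 + 1) * C3 * D * (g0 * G) := by
            gcongr
            linarith
    · have hd1 : 1 ≤ H934F.nd u w := by omega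
      set d := H934F.nd u w with hd
      have hdr : (0 : ℝ) < d := by exact_mod_cast (by omega : 0 < d)
      rw [max_eq_left hd1]
      have h1 := H2 m n a b d u w hd1 (by rw [hd]; rfl) hab hba (by omega) (by omega) (by omega)
        (by omega)
      have h2 := hout (2 * d) (by omega) (by omega)
      have e1 : (((2 * d : ℤ) : ℝ) / (80 * h)) ^ ((1 : ℝ) / 4) ≤ (d : ℝ) ^ ((1 : ℝ) / 4) * g0 := by
        rw [hg0, show (-(1/4) : ℝ) = -((1 : ℝ)/4) by norm_num, Real.rpow_neg hh0.le,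
          ← div_eq_mul_inv, ← Real.div_rpow hdr.le hh0.le]
        apply Real.rpow_le_rpow (by positivity) _ (by norm_num)
        push_cast
        rw [div_le_div_iff₀ (by positivity) hh0]
        nlinarith [mul_pos hdr hh0]
      have e2 : (d : ℝ) ^ (-(1/2) : ℝ) * (d : ℝ) ^ ((1 : ℝ) / 4) = (d : ℝ) ^ (-(1/4) : ℝ) := by
        rw [← Real.rpow_add hdr]
        norm_num
      refine h1.trans ?_
      rw [hC5, hg]
      calc C2 * ((d : ℝ) ^ (-(1/2) : ℝ) * P2 (RE 0 m 0 n) (Out m n a b u (2 * d)))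
          ≤ C2 * ((d : ℝ) ^ (-(1/2) : ℝ) * (C3 * (((d : ℝ) ^ ((1 : ℝ) / 4) * g0) * (D * G)))) := by
            apply mul_le_mul_of_nonneg_left _ hC2.le
            apply mul_le_mul_of_nonneg_left _ (by positivity)
            refine h2.trans ?_
            gcongr
        _ = C2 * C3 * D * (g0 * G) * ((d : ℝ) ^ (-(1/2) : ℝ) * (d : ℝ) ^ ((1 : ℝ) / 4)) := by ring
        _ = C2 * C3 * D * (g0 * G) * (d : ℝ) ^ (-(1/4) : ℝ) := by rw [e2]
        _ ≤ _ := by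
            gcongr
            linarith
  -- second moment
  have key := H934F.t12_cs (RE 0 m 0 n) (H934F.t12_B (x, y) r) (fun v F => OnV m n a b v F)
    (fun _ => True) (a := A * g) (b := C5 * g * (72 * (r : ℝ) ^ (7/4 : ℝ))) (by positivity) one
    (by
      intro u hu
      refine (Finset.sum_le_sum fun w hw => two u hu w hw).trans ?_
      rw [← Finset.mul_sum]
      exact mul_le_mul_of_nonneg_left (H934F.t12_sum hr1 (H934F.t12_mem.1 hu)) (by positivity))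
  rw [H934F.t12_card (by omega)] at key
  have hq : H934E.Q (RE 0 m 0 n) (fun F => True ∧ ∃ v ∈ H934F.t12_B (x, y) r, OnV m n a b v F) ≤
      P2 (RE 0 m 0 n) (HitB m n a b (x, y) r) := by
    apply Pr_mono okhalf2
    rintro F _ ⟨-, u, hu, h3⟩
    exact ⟨u, (hbox u hu).1, h3⟩
  refine le_trans ?_ hq
  set q := H934E.Q (RE 0 m 0 n) (fun F => True ∧ ∃ v ∈ H934F.t12_B (x, y) r, OnV m n a b v F)
    with hqd
  set N : ℝ := (2 * (r : ℝ) + 1) ^ 2 with hN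
  have hN0 : 0 < N := by positivity
  have hN4 : 4 * (r : ℝ) ^ 2 ≤ N := by rw [hN]; nlinarith
  set b' : ℝ := (r : ℝ) ^ (7/4 : ℝ) with hb'
  have hb0 : 0 < b' := by positivity
  have k1 : N * (A ^ 2 * g) ≤ 72 * C5 * b' * q := by
    have h5 : (N * g) * (N * (A ^ 2 * g)) ≤ (N * g) * (72 * C5 * b' * q) := by
      calc (N * g) * (N * (A ^ 2 * g)) = (N * (A * g)) ^ 2 := by ring
        _ ≤ N * (C5 * g * (72 * b')) * q := key
        _ = (N * g) * (72 * C5 * b' * q) := by ring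
    exact le_of_mul_le_mul_left h5 (by positivity)
  have k2 : (r : ℝ) ^ 2 = (r : ℝ) ^ (1/4 : ℝ) * b' := by
    rw [hb', ← Real.rpow_add (by linarith), show (1/4 : ℝ) + 7/4 = ((2 : ℕ) : ℝ) by norm_num,
      Real.rpow_natCast]
  have k3 : ((r : ℝ) / h) ^ ((1 : ℝ) / 4) = (r : ℝ) ^ (1/4 : ℝ) * g0 := by
    rw [Real.div_rpow (by linarith) hh0.le, hg0, Real.rpow_neg hh0.le, div_eq_mul_inv]
  rw [k3]
  have k4 : 4 * ((r : ℝ) ^ (1/4 : ℝ) * b') * (A ^ 2 * g) ≤ 72 * C5 * b' * q := by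
    rw [← k2]
    exact le_trans (mul_le_mul_of_nonneg_right hN4 (by positivity)) k1
  have k5 : (4 * b') * ((r : ℝ) ^ (1/4 : ℝ) * (A ^ 2 * g)) ≤ (4 * b') * (18 * C5 * q) := by
    calc (4 * b') * ((r : ℝ) ^ (1/4 : ℝ) * (A ^ 2 * g)) =
        4 * ((r : ℝ) ^ (1/4 : ℝ) * b') * (A ^ 2 * g) := by ring
      _ ≤ 72 * C5 * b' * q := k4
      _ = (4 * b') * (18 * C5 * q) := by ring
  have k6 := le_of_mul_le_mul_left k5 (by positivity)
  rw [div_mul_eq_mul_div, div_le_iff₀ (by positivity)]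
  calc A ^ 2 * ((r : ℝ) ^ (1/4 : ℝ) * g0 * G) =
      (r : ℝ) ^ (1/4 : ℝ) * (A ^ 2 * g) := by rw [hg]; ring
    _ ≤ 18 * C5 * q := k6
    _ = q * (18 * C5) := by ring

end S4

theorem hit_lower_bot (hA : H934F.St_A) (hL : H934F.St_L) (K : ℕ) : ∃ c : ℝ, 0 < c ∧
    ∀ m n a b x y h r : ℤ, m ≤ K * n → n ≤ K * m → 10 ≤ h → 5000 * h ≤ y → y ≤ 7000 * h →
    5000 * h ≤ x → x + 5000 * h ≤ m → y + 5000 * h ≤ n → a ≤ b → b < a + 2 * (m + n) →
    1 ≤ r → r ≤ h →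
    c * (((r : ℝ) / h) ^ ((1 : ℝ) / 4) * (HH m n a b (x, y)) ^ ((1 : ℝ) / 3)) ≤
      P2 (RE 0 m 0 n) (HitB m n a b (x, y) r) := by
  obtain ⟨c1, hc1, H1⟩ := on_lower_bot hL K
  obtain ⟨C2, hC2, H2⟩ := H731G.two_pt_outer hA
  obtain ⟨C3, hC3, H3⟩ := H731G.out_upper_bot hA K
  obtain ⟨C4, hC4, H4⟩ := H731G.HH_near
  exact S4.main K hc1 H1 hC2 H2 hC3 H3 hC4 H4 (fun hr => fun h => H731G.hit_out hr h)

end H731G
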