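import Pool.Agent.H731R5.Gr.HPDefs2
import Pool.Agent.H731R5.Gr.P3
import Pool.Agent.H731R5.Gr.P4
import Pool.Agent.H731R5.Gr.S2
import Pool.Agent.H731R5.Gr.S3
import Pool.Agent.H731R5.Gr.S4

/-!
Task Q4 (helper575): second moment in the rectangle of the half-plane.
-/

set_option autoImplicit false

namespace H731G

open H974 hiding bd
open H731C H731R H731A H731G Finset H389KP MeasureTheory

namespace Q4

/-- the second moment method in a box -/
theorem sm (S : Finset Edg) (v0 : Vtx) {r : ℤ} (hr1 : 1 ≤ r) (V : Vtx → Finset Edg → Prop)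
    {A g C5 : ℝ} (hA0 : 0 < A) (hgpos : 0 < g) (hC50 : 0 < C5)
    (one : ∀ u ∈ H934F.t12_B v0 r, A * g ≤ P2 S (fun F => V u F ∧ True))
    (two : ∀ u ∈ H934F.t12_B v0 r, ∀ w ∈ H934F.t12_B v0 r,
      P2 S (fun F => V u F ∧ V w F) ≤
        C5 * g * ((max (H934F.nd u w) 1 : ℤ) : ℝ) ^ (-(1/4) : ℝ)) :
    A ^ 2 / (18 * C5) * ((r : ℝ) ^ (1/4 : ℝ) * g) ≤
      P2 S (fun F => True ∧ ∃ v ∈ H934F.t12_B v0 r, V v F) := by
  have hr0 : (1 : ℝ) ≤ r := by exact_mod_cast hr1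
  have key := H934F.t12_cs S (H934F.t12_B v0 r) V
    (fun _ => True) (a := A * g) (b := C5 * g * (72 * (r : ℝ) ^ (7/4 : ℝ))) (by positivity) one
    (by
      intro u hu
      refine (Finset.sum_le_sum fun w hw => two u hu w hw).trans ?_
      rw [← Finset.mul_sum]
      exact mul_le_mul_of_nonneg_left (H934F.t12_sum hr1 (H934F.t12_mem.1 hu)) (by positivity))
  rw [H934F.t12_card (by omega)] at key
  change A ^ 2 / (18 * C5) * ((r : ℝ) ^ (1/4 : ℝ) * g) ≤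
    H934E.Q S (fun F => True ∧ ∃ v ∈ H934F.t12_B v0 r, V v F)
  set q := H934E.Q S (fun F => True ∧ ∃ v ∈ H934F.t12_B v0 r, V v F) with hqd
  set N : ℝ := (2 * (r : ℝ) + 1) ^ 2 with hN
  have hN0 : 0 < N := by positivity
  have hN4 : 4 * (r : ℝ) ^ 2 ≤ N := by rw [hN]; nlinarith
  set b' : ℝ := (r : ℝ) ^ (7/4 : ℝ) with hb'
  have hb0 : 0 < b' := by positivity
  have k1 : N * (A ^ 2 * g) ≤ 72 * C5 * b' * q := by
    have h5 : (N * g) * (N * (A ^ 2 * g)) ≤ (N * g) * (72 * C5 * b' * q) := by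
      calc (N * g) * (N * (A ^ 2 * g)) = (N * (A * g)) ^ 2 := by ring
        _ ≤ N * (C5 * g * (72 * b')) * q := key
        _ = (N * g) * (72 * C5 * b' * q) := by ring
    exact le_of_mul_le_mul_left h5 (by positivity)
  have k2 : (r : ℝ) ^ 2 = (r : ℝ) ^ (1/4 : ℝ) * b' := by
    rw [hb', ← Real.rpow_add (by linarith), show (1/4 : ℝ) + 7/4 = ((2 : ℕ) : ℝ) by norm_num,
      Real.rpow_natCast]
  have k4 : 4 * ((r : ℝ) ^ (1/4 : ℝ) * b') * (A ^ 2 * g) ≤ 72 * C5 * b' * q := by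
    rw [← k2]
    exact le_trans (mul_le_mul_of_nonneg_right hN4 (by positivity)) k1
  have k5 : (4 * b') * ((r : ℝ) ^ (1/4 : ℝ) * (A ^ 2 * g)) ≤ (4 * b') * (18 * C5 * q) := by
    calc (4 * b') * ((r : ℝ) ^ (1/4 : ℝ) * (A ^ 2 * g)) =
        4 * ((r : ℝ) ^ (1/4 : ℝ) * b') * (A ^ 2 * g) := by ring
      _ ≤ 72 * C5 * b' * q := k4
      _ = (4 * b') * (18 * C5 * q) := by ring
  have k6 := le_of_mul_le_mul_left k5 (by positivity)
  rw [div_mul_eq_mul_div, div_le_iff₀ (by positivity)]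
  calc A ^ 2 * ((r : ℝ) ^ (1/4 : ℝ) * g) =
      (r : ℝ) ^ (1/4 : ℝ) * (A ^ 2 * g) := by ring
    _ ≤ 18 * C5 * q := k6
    _ = q * (18 * C5) := by ring

/-- the cross-ratio of the middle of the bottom side, height `M - 1` -/
theorem HH_half1 : ∃ C : ℝ, 0 < C ∧ ∀ M x y : ℤ, 1 ≤ y → 4 * (|x| + y) ≤ M →
    HH (2 * M) (M - 1) 0 M (x + M, y) ≤ C * ((y : ℝ) / ((|x| : ℤ) + y)) := by
  refine ⟨24 * 32 / 9, by norm_num, ?_⟩
  intro M x y hy hM
  have hx0 : 0 ≤ |x| := abs_nonneg x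
  have hx1 : x ≤ |x| := le_abs_self x
  have hx2 : -x ≤ |x| := neg_le_abs x
  have hM0 : 0 < M := by linarith
  have hm : (1 : ℤ) ≤ 2 * M := by omega
  have hn : (1 : ℤ) ≤ M - 1 := by omega
  have hrz : rho (2 * M) (M - 1) 0 = 0 := by
    rw [rho_bot hm hn le_rfl (by omega)]
    omega
  have hrM : rho (2 * M) (M - 1) M = M := by
    rw [rho_bot hm hn (by omega) (by omega)]
    omega
  have hcd : cd (2 * (2 * M + (M - 1))) (M - 0) = M := by
    rw [sub_zero, cd_of_mem (by omega) (by omega) (by omega)]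
    omega
  set z : ℤ := |x| + y with hz
  have hz1 : 1 ≤ z := by linarith
  -- the factors
  have hpx : px (2 * M) (x + M, y) ≤ 2 * M := by
    unfold px
    simp only
    omega
  have hpx0 : 0 ≤ px (2 * M) (x + M, y) := by
    unfold px
    simp only
    omega
  have hpy : py (M - 1) (x + M, y) ≤ 2 * y := by
    unfold py
    simp only
    omega
  have hpy0 : 0 ≤ py (M - 1) (x + M, y) := by
    unfold py
    simp only
    omega
  have hszE : sz (2 * M) (M - 1) 0 M = (M + 1) * (M + 1 + M) := by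
    unfold sz
    rw [hcd, hrz, hrM]
    ring
  have hsz : sz (2 * M) (M - 1) 0 M ≤ 6 * M ^ 2 := by
    rw [hszE]
    nlinarith
  have hsz0 : 0 ≤ sz (2 * M) (M - 1) 0 M := by
    rw [hszE]
    positivity
  have hb0 : H731A.bd (2 * M) (M - 1) 0 = (0, 0) := by
    unfold H731A.bd
    rw [if_pos (by rw [Int.zero_emod]; linarith), Int.zero_emod]
  have hbM : H731A.bd (2 * M) (M - 1) M = (M, 0) := by
    unfold H731A.bd
    have e : M % (2 * (2 * M + (M - 1))) = M := Int.emod_eq_of_lt (by omega) (by omega)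
    rw [e, if_pos (by linarith)]
  have hds0 : 3 * M ≤ 4 * ds (2 * M) (M - 1) (x + M, y) 0 := by
    unfold ds
    rw [hb0]
    simp only [sub_zero]
    have h1 : x + M ≤ |x + M| := le_abs_self _
    have h2 : |x + M| ≤ max |x + M| |y| := le_max_left _ _
    linarith
  have hdsM : z ≤ 2 * ds (2 * M) (M - 1) (x + M, y) M := by
    unfold ds
    rw [hbM]
    simp only [sub_zero, add_sub_cancel_right]
    have h1 : |x| ≤ max |x| |y| := le_max_left _ _
    have h2 : |y| ≤ max |x| |y| := le_max_right _ _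
    have h3 : y ≤ |y| := le_abs_self _
    linarith
  have hsv0 : 9 * M ^ 2 ≤ 16 * sv (2 * M) (M - 1) (x + M, y) 0 := by
    unfold sv
    rw [hrz]
    nlinarith
  have hsvM : z * M ≤ 2 * sv (2 * M) (M - 1) (x + M, y) M := by
    unfold sv
    rw [hrM]
    nlinarith
  unfold HH
  have c1 : ((px (2 * M) (x + M, y) : ℤ) : ℝ) ≤ 2 * M := by exact_mod_cast hpx
  have c1' : (0 : ℝ) ≤ ((px (2 * M) (x + M, y) : ℤ) : ℝ) := by exact_mod_cast hpx0
  have c2 : ((py (M - 1) (x + M, y) : ℤ) : ℝ) ≤ 2 * y := by exact_mod_cast hpy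
  have c2' : (0 : ℝ) ≤ ((py (M - 1) (x + M, y) : ℤ) : ℝ) := by exact_mod_cast hpy0
  have c3 : ((sz (2 * M) (M - 1) 0 M : ℤ) : ℝ) ≤ 6 * (M : ℝ) ^ 2 := by exact_mod_cast hsz
  have c3' : (0 : ℝ) ≤ ((sz (2 * M) (M - 1) 0 M : ℤ) : ℝ) := by exact_mod_cast hsz0
  have c4 : 9 * (M : ℝ) ^ 2 ≤ 16 * ((sv (2 * M) (M - 1) (x + M, y) 0 : ℤ) : ℝ) := by
    exact_mod_cast hsv0
  have c5 : (z : ℝ) * M ≤ 2 * ((sv (2 * M) (M - 1) (x + M, y) M : ℤ) : ℝ) := by
    exact_mod_cast hsvM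
  have hMr : (0 : ℝ) < M := by exact_mod_cast hM0
  have hyr : (1 : ℝ) ≤ y := by exact_mod_cast hy
  have hzr : (1 : ℝ) ≤ z := by exact_mod_cast hz1
  have hzz : ((|x| : ℤ) : ℝ) + (y : ℝ) = (z : ℝ) := by rw [hz]; push_cast; ring
  have num : ((px (2 * M) (x + M, y) : ℤ) : ℝ) * ((py (M - 1) (x + M, y) : ℤ) : ℝ) *
      ((sz (2 * M) (M - 1) 0 M : ℤ) : ℝ) ≤ (2 * M) * (2 * y) * (6 * (M : ℝ) ^ 2) := by
    apply mul_le_mul _ c3 c3' (by positivity)
    exact mul_le_mul c1 c2 c2' (by positivity)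
  have den : (9 / 16 * (M : ℝ) ^ 2) * (z * M / 2) ≤
      ((sv (2 * M) (M - 1) (x + M, y) 0 : ℤ) : ℝ) *
        ((sv (2 * M) (M - 1) (x + M, y) M : ℤ) : ℝ) := by
    apply mul_le_mul (by linarith) (by linarith) (by positivity)
    have : (0 : ℝ) ≤ 9 * (M : ℝ) ^ 2 := by positivity
    linarith
  have hden : (0 : ℝ) < (9 / 16 * (M : ℝ) ^ 2) * (z * M / 2) := by positivity
  calc _ ≤ ((2 * M) * (2 * y) * (6 * (M : ℝ) ^ 2)) / ((9 / 16 * (M : ℝ) ^ 2) * (z * M / 2)) :=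
        div_le_div₀ (by positivity) num hden den
    _ = 24 * 32 / 9 * ((y : ℝ) / ((|x| : ℤ) + y)) := by
        rw [hzz]
        field_simp
        ring

/-- the rectangle event implies that the path of the rectangle passes at the vertex -/
theorem HR_OnV {M : ℤ} (hM : 1 ≤ M) {v : Vtx} {F : Finset Edg} (h : HR M v F) :
    OnV (2 * M) (M - 1) 0 M v F := by
  obtain ⟨f, hf, h1, j, hj, h2⟩ := h
  exact ⟨h1, f, hf, j, ⟨hj.1, by omega⟩, h2⟩

end Q4

open Q4 in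
theorem rect_hit_low (hA : H934F.St_A) (hL : H934F.St_L) : ∃ (c : ℝ) (r0 : ℤ), 0 < c ∧ 1 ≤ r0 ∧
    ∀ M x y r : ℤ, r0 ≤ y → 5 * (|x| + y) ≤ M → M ≤ 7 * (|x| + y) → 1 ≤ r → r0 * r ≤ y →
    c * (((r : ℝ) / y) ^ ((1 : ℝ) / 4) * ((y : ℝ) / ((|x| : ℤ) + y)) ^ ((1 : ℝ) / 3)) ≤
      P2 (RE 0 (2 * M) 0 (M - 1)) (HRHit M (x + M, y) r) := by
  obtain ⟨c1, r1, hc1, hr1', H1⟩ := half_rect_low hL
  obtain ⟨C2, hC2, H2⟩ := H731G.two_pt_outer hA
  obtain ⟨C3, hC3, H3⟩ := H731G.out_upper_bot hA 3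
  obtain ⟨C4, hC4, H4⟩ := HH_half1
  set A : ℝ := c1 * ((2 : ℝ) ^ (-(1/4) : ℝ) * (1/4 : ℝ) ^ ((1 : ℝ) / 3)) with hA'
  have hA0 : 0 < A := by positivity
  set D : ℝ := (C4 * 4) ^ ((1 : ℝ) / 3) with hD
  have hD0 : 0 < D := by positivity
  set E : ℝ := (240 : ℝ) ^ ((1 : ℝ) / 4) with hE
  have hE0 : 0 < E := by positivity
  set C5 : ℝ := (C2 + 1) * C3 * E * D with hC5
  have hC50 : 0 < C5 := by positivity
  refine ⟨A ^ 2 / (18 * C5), 2 * r1 + 4000, by positivity, by omega, ?_⟩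
  intro M x y r hy hM1 hM2 hr1 hry
  have hax := abs_nonneg x
  have hxa := abs_le.1 (le_refl |x|)
  have hr4 : 4000 * r ≤ y := by nlinarith
  have hy0 : (0 : ℝ) < y := by exact_mod_cast (by omega : 0 < y)
  have hz0 : (0 : ℝ) < ((|x| : ℤ) : ℝ) + y := by
    have : (0 : ℝ) ≤ ((|x| : ℤ) : ℝ) := by exact_mod_cast hax
    linarith
  have hM3 : 1 ≤ M := by omega
  set G : ℝ := ((y : ℝ) / ((|x| : ℤ) + y)) ^ ((1 : ℝ) / 3) with hG
  have hG0 : 0 < G := by positivity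
  set g0 : ℝ := (y : ℝ) ^ (-(1/4) : ℝ) with hg0
  have hg00 : 0 < g0 := by positivity
  set g : ℝ := g0 * G with hg
  have hgpos : 0 < g := by positivity
  -- the box
  have hbox : ∀ u ∈ H934F.t12_B (x + M, y) r, (|u.1 - (x + M)| ≤ r ∧ |u.2 - y| ≤ r) ∧
      (|x| - r ≤ |u.1 - M| ∧ |u.1 - M| ≤ |x| + r) ∧ (y - r ≤ u.2 ∧ u.2 ≤ y + r) := by
    intro u hu
    rw [H934F.t12_mem] at hu
    unfold H934F.nd at hu
    rw [max_le_iff] at hu
    have h1 := abs_le.1 hu.1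
    have h2 := abs_le.1 hu.2
    simp only at h1 h2
    refine ⟨hu, ⟨?_, ?_⟩, ?_, ?_⟩
    · rcases abs_cases x with h3 | h3 <;> rcases abs_cases (u.1 - M) with h4 | h4 <;> omega
    · rcases abs_cases x with h3 | h3 <;> rcases abs_cases (u.1 - M) with h4 | h4 <;> omega
    · omega
    · omega
  -- comparison of the ratios
  have hratio : ∀ u ∈ H934F.t12_B (x + M, y) r,
      (1/4 : ℝ) * ((y : ℝ) / ((|x| : ℤ) + y)) ≤ (u.2 : ℝ) / ((|u.1 - M| : ℤ) + u.2) ∧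
      (u.2 : ℝ) / ((|u.1 - M| : ℤ) + u.2) ≤ 4 * ((y : ℝ) / ((|x| : ℤ) + y)) := by
    intro u hu
    obtain ⟨-, ⟨u3, u4⟩, u5, u6⟩ := hbox u hu
    have k0 : 0 < |u.1 - M| + u.2 := by
      have := abs_nonneg (u.1 - M)
      omega
    have k0' : (0 : ℝ) < ((|u.1 - M| : ℤ) : ℝ) + u.2 := by exact_mod_cast k0
    have k1 : y ≤ 2 * u.2 := by omega
    have k2 : u.2 ≤ 2 * y := by omega
    have k3 : |u.1 - M| + u.2 ≤ 2 * (|x| + y) := by omega
    have k4 : |x| + y ≤ 2 * (|u.1 - M| + u.2) := by omega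
    have k1' : (y : ℝ) ≤ 2 * u.2 := by exact_mod_cast k1
    have k2' : (u.2 : ℝ) ≤ 2 * y := by exact_mod_cast k2
    have k3' : ((|u.1 - M| : ℤ) : ℝ) + u.2 ≤ 2 * (((|x| : ℤ) : ℝ) + y) := by exact_mod_cast k3
    have k4' : ((|x| : ℤ) : ℝ) + y ≤ 2 * (((|u.1 - M| : ℤ) : ℝ) + u.2) := by exact_mod_cast k4
    constructor
    · rw [mul_div_assoc', div_le_div_iff₀ hz0 k0']
      have := mul_le_mul k1' k3' k0'.le (by linarith)
      nlinarith
    · rw [mul_div_assoc', div_le_div_iff₀ k0' hz0]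
      have := mul_le_mul k2' k4' hz0.le (by linarith)
      nlinarith
  -- one point
  have one : ∀ u ∈ H934F.t12_B (x + M, y) r,
      A * g ≤ P2 (RE 0 (2 * M) 0 (M - 1)) (fun F => HR M u F ∧ True) := by
    intro u hu
    obtain ⟨-, ⟨u3, u4⟩, u5, u6⟩ := hbox u hu
    obtain ⟨k1, -⟩ := hratio u hu
    have h1 := H1 M (u.1 - M) u.2 (by omega) (by omega) (by omega)
    rw [sub_add_cancel] at h1
    have e : P2 (RE 0 (2 * M) 0 (M - 1)) (fun F => HR M u F ∧ True) =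
        P2 (RE 0 (2 * M) 0 (M - 1)) (fun F => ∃ f, cor (u.1, u.2) f ∧
          On4 (2 * M) (M - 1) 0 M M (2 * M) (u.1, u.2) f F) := by
      congr 1
      funext F
      exact propext (iff_of_eq (and_true _))
    rw [e]
    refine le_trans ?_ h1
    rw [hA', hg, hg0, hG, mul_assoc]
    apply mul_le_mul_of_nonneg_left _ hc1.le
    have k5 : (2 : ℝ) ^ (-(1/4) : ℝ) * (y : ℝ) ^ (-(1/4) : ℝ) ≤ (u.2 : ℝ) ^ (-(1/4) : ℝ) := by
      rw [← Real.mul_rpow (by norm_num) hy0.le]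
      apply Real.rpow_le_rpow_of_nonpos _ _ (by norm_num)
      · exact_mod_cast (by omega : 0 < u.2)
      · exact_mod_cast (by omega : u.2 ≤ 2 * y)
    have k6 : (1/4 : ℝ) ^ ((1 : ℝ) / 3) * ((y : ℝ) / ((|x| : ℤ) + y)) ^ ((1 : ℝ) / 3) ≤
        ((u.2 : ℝ) / ((|u.1 - M| : ℤ) + u.2)) ^ ((1 : ℝ) / 3) := by
      rw [← Real.mul_rpow (by norm_num) (by positivity)]
      exact Real.rpow_le_rpow (by positivity) k1 (by norm_num)
    calc _ = ((2 : ℝ) ^ (-(1/4) : ℝ) * (y : ℝ) ^ (-(1/4) : ℝ)) *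
          ((1/4 : ℝ) ^ ((1 : ℝ) / 3) * ((y : ℝ) / ((|x| : ℤ) + y)) ^ ((1 : ℝ) / 3)) := by ring
      _ ≤ _ := mul_le_mul k5 k6 (by positivity) ((by positivity : (0:ℝ) ≤ _).trans k5)
  -- two points
  have two : ∀ u ∈ H934F.t12_B (x + M, y) r, ∀ w ∈ H934F.t12_B (x + M, y) r,
      P2 (RE 0 (2 * M) 0 (M - 1)) (fun F => HR M u F ∧ HR M w F) ≤
        C5 * g * ((max (H934F.nd u w) 1 : ℤ) : ℝ) ^ (-(1/4) : ℝ) := by
    intro u hu w hw
    obtain ⟨⟨u1, u2⟩, ⟨u3, u4⟩, u5, u6⟩ := hbox u hu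
    obtain ⟨⟨w1, w2⟩, ⟨w3, w4⟩, w5, w6⟩ := hbox w hw
    have u1' := abs_le.1 u1
    have u2' := abs_le.1 u2
    have w1' := abs_le.1 w1
    have w2' := abs_le.1 w2
    obtain ⟨-, k2⟩ := hratio u hu
    have hHH : (HH (2 * M) (M - 1) 0 M u) ^ ((1 : ℝ) / 3) ≤ D * G := by
      have h1 := H4 M (u.1 - M) u.2 (by omega) (by omega)
      rw [sub_add_cancel] at h1
      rw [hD, hG, ← Real.mul_rpow (by positivity) (by positivity)]
      apply Real.rpow_le_rpow _ _ (by norm_num)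
      · exact (S4.HH_pos (by omega) (by omega) (by omega) (by omega) (by omega) (by omega)).le
      · refine h1.trans ?_
        rw [mul_assoc]
        exact mul_le_mul_of_nonneg_left k2 hC4.le
    have hd2 : H934F.nd u w ≤ 2 * r := by
      unfold H934F.nd
      rw [max_le_iff, abs_le, abs_le]
      omega
    have hd0 : 0 ≤ H934F.nd u w := by
      unfold H934F.nd
      exact le_trans (abs_nonneg _) (le_max_left _ _)
    obtain ⟨h, hh1, hh2⟩ : ∃ h : ℤ, 60 * h ≤ y ∧ y < 60 * h + 60 := ⟨y / 60, by omega, by omega⟩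
    have hh0 : (0 : ℝ) < h := by exact_mod_cast (by omega : 0 < h)
    have hyh : (y : ℝ) ≤ 120 * h := by exact_mod_cast (by omega : y ≤ 120 * h)
    have hout : ∀ s : ℤ, 1 ≤ s → s ≤ h →
        P2 (RE 0 (2 * M) 0 (M - 1)) (Out (2 * M) (M - 1) 0 M u s) ≤
        C3 * (((120 * s : ℝ) / y) ^ ((1 : ℝ) / 4) * (D * G)) := by
      intro s hs1 hs2
      have h1 := H3 (2 * M) (M - 1) 0 M u.1 u.2 h s (by push_cast; omega) (by push_cast; omega)
        (by omega) (by omega) (by omega) (by omega) (by omega) (by omega) (by omega) (by omega)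
        hs1 hs2
      refine h1.trans ?_
      have hs0 : (0 : ℝ) ≤ s := by exact_mod_cast (by omega : 0 ≤ s)
      apply mul_le_mul_of_nonneg_left _ hC3.le
      apply mul_le_mul _ hHH _ (by positivity)
      · apply Real.rpow_le_rpow (by positivity) _ (by norm_num)
        rw [div_le_div_iff₀ hh0 hy0]
        nlinarith [mul_le_mul_of_nonneg_left hyh hs0]
      · apply Real.rpow_nonneg
        exact (S4.HH_pos (by omega) (by omega) (by omega) (by omega) (by omega) (by omega)).le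
    have hmono : P2 (RE 0 (2 * M) 0 (M - 1)) (fun F => HR M u F ∧ HR M w F) ≤
        P2 (RE 0 (2 * M) 0 (M - 1)) (fun F => OnV (2 * M) (M - 1) 0 M u F ∧
          OnV (2 * M) (M - 1) 0 M w F) := by
      apply Pr_mono okhalf2
      rintro F _ ⟨h3, h4⟩
      exact ⟨HR_OnV hM3 h3, HR_OnV hM3 h4⟩
    rcases Nat.eq_zero_or_pos (H934F.nd u w).toNat with hz | hz
    · -- u = w
      have hd : H934F.nd u w = 0 := by omega
      rw [hd]
      have h1 : P2 (RE 0 (2 * M) 0 (M - 1)) (fun F => OnV (2 * M) (M - 1) 0 M u F ∧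
          OnV (2 * M) (M - 1) 0 M w F) ≤
          P2 (RE 0 (2 * M) 0 (M - 1)) (Out (2 * M) (M - 1) 0 M u 1) := by
        apply Pr_mono okhalf2
        rintro F _ ⟨h3, _⟩
        exact H731G.hit_out (by norm_num) ⟨u, by simp, h3⟩
      refine hmono.trans (h1.trans ((hout 1 le_rfl (by omega)).trans ?_))
      have e1 : ((120 * ((1 : ℤ) : ℝ)) / y) ^ ((1 : ℝ) / 4) ≤ E * g0 := by
        rw [hE, hg0, show (-(1/4) : ℝ) = -((1 : ℝ)/4) by norm_num, Real.rpow_neg hy0.le,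
          ← Real.inv_rpow hy0.le, ← Real.mul_rpow (by norm_num) (by positivity)]
        apply Real.rpow_le_rpow (by positivity) _ (by norm_num)
        push_cast
        rw [div_eq_mul_inv]
        have : (0 : ℝ) ≤ (y : ℝ)⁻¹ := by positivity
        nlinarith
      have e2 : ((max (0 : ℤ) 1 : ℤ) : ℝ) ^ (-(1/4) : ℝ) = 1 := by
        simp
      rw [e2, mul_one, hC5, hg]
      calc C3 * (((120 * ((1 : ℤ) : ℝ)) / y) ^ ((1 : ℝ) / 4) * (D * G))
          ≤ C3 * ((E * g0) * (D * G)) := by gcongr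
        _ = 1 * C3 * E * D * (g0 * G) := by ring
        _ ≤ (C2 + 1) * C3 * E * D * (g0 * G) := by
            gcongr
            linarith
    · have hd1 : 1 ≤ H934F.nd u w := by omega
      set d := H934F.nd u w with hd
      have hdr : (0 : ℝ) < d := by exact_mod_cast (by omega : 0 < d)
      rw [max_eq_left hd1]
      have h1 := H2 (2 * M) (M - 1) 0 M d u w hd1 (by rw [hd]; rfl) (by omega) (by omega)
        (by omega) (by omega) (by omega) (by omega)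
      have h2 := hout (2 * d) (by omega) (by omega)
      have e1 : ((120 * ((2 * d : ℤ) : ℝ)) / y) ^ ((1 : ℝ) / 4) ≤
          E * ((d : ℝ) ^ ((1 : ℝ) / 4) * g0) := by
        rw [hE, hg0, show (-(1/4) : ℝ) = -((1 : ℝ)/4) by norm_num, Real.rpow_neg hy0.le,
          ← Real.inv_rpow hy0.le, ← Real.mul_rpow hdr.le (by positivity),
          ← Real.mul_rpow (by norm_num) (by positivity)]
        apply Real.rpow_le_rpow (by positivity) _ (by norm_num)
        push_cast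
        rw [div_eq_mul_inv]
        exact le_of_eq (by ring)
      have e2 : (d : ℝ) ^ (-(1/2) : ℝ) * (d : ℝ) ^ ((1 : ℝ) / 4) = (d : ℝ) ^ (-(1/4) : ℝ) := by
        rw [← Real.rpow_add hdr]
        norm_num
      refine hmono.trans (h1.trans ?_)
      rw [hC5, hg]
      calc C2 * ((d : ℝ) ^ (-(1/2) : ℝ) *
            P2 (RE 0 (2 * M) 0 (M - 1)) (Out (2 * M) (M - 1) 0 M u (2 * d)))
          ≤ C2 * ((d : ℝ) ^ (-(1/2) : ℝ) *
            (C3 * ((E * ((d : ℝ) ^ ((1 : ℝ) / 4) * g0)) * (D * G)))) := by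
            apply mul_le_mul_of_nonneg_left _ hC2.le
            apply mul_le_mul_of_nonneg_left _ (by positivity)
            refine h2.trans ?_
            gcongr
        _ = C2 * C3 * E * D * (g0 * G) * ((d : ℝ) ^ (-(1/2) : ℝ) * (d : ℝ) ^ ((1 : ℝ) / 4)) := by
            ring
        _ = C2 * C3 * E * D * (g0 * G) * (d : ℝ) ^ (-(1/4) : ℝ) := by rw [e2]
        _ ≤ _ := by
            gcongr
            linarith
  have key := sm (RE 0 (2 * M) 0 (M - 1)) (x + M, y) hr1 (fun v F => HR M v F) hA0 hgpos hC50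
    one two
  have hq : P2 (RE 0 (2 * M) 0 (M - 1))
      (fun F => True ∧ ∃ v ∈ H934F.t12_B (x + M, y) r, HR M v F) ≤
      P2 (RE 0 (2 * M) 0 (M - 1)) (HRHit M (x + M, y) r) := by
    apply Pr_mono okhalf2
    rintro F _ ⟨-, u, hu, h3⟩
    exact ⟨u, (hbox u hu).1, h3⟩
  refine le_trans (le_of_eq ?_) (key.trans hq)
  have hr0 : (0 : ℝ) ≤ r := by exact_mod_cast (by omega : 0 ≤ r)
  rw [Real.div_rpow hr0 hy0.le, hg, hg0, Real.rpow_neg hy0.le, div_eq_mul_inv]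
  ring

end H731G
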