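import Pool.Agent.H731R3.Cardy.Defs

/-!
Task N1: local modifications (counting).
-/

set_option autoImplicit false

namespace H731G

open H974 H731C Finset

namespace N1

theorem P2_eq (S : Finset Edg) (A : Finset Edg → Prop) :
    P2 S A = (1 / 2) ^ S.card * ∑ F ∈ S.powerset, ind (A F) := by
  unfold P2 Pr Ex
  rw [Finset.mul_sum]
  refine Finset.sum_congr rfl fun F hF => ?_
  rw [Finset.mem_powerset] at hF
  rw [Finset.prod_const, Finset.prod_const, show (1 - 1 / 2 : ℝ) = 1 / 2 by norm_num, ← pow_add]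
  congr 2
  rw [Finset.card_sdiff_of_subset hF]
  have := Finset.card_le_card hF
  omega

open Classical in
theorem sum_ind (S : Finset Edg) (A : Finset Edg → Prop) :
    ∑ F ∈ S.powerset, ind (A F) = ((S.powerset.filter A).card : ℝ) := by
  rw [Finset.card_filter, Nat.cast_sum]
  refine Finset.sum_congr rfl fun F _ => ?_
  by_cases h : A F <;> simp [ind, h]

end N1

theorem local_mod {S B : Finset Edg} {A A' : Finset Edg → Prop}
    (h : ∀ F ⊆ S, A F → ∃ G ⊆ S, (∀ e ∉ B, (e ∈ G ↔ e ∈ F)) ∧ A' G) :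
    P2 S A ≤ 2 ^ B.card * P2 S A' := by
  classical
  rw [N1.P2_eq, N1.P2_eq, N1.sum_ind, N1.sum_ind]
  have h' : ∀ F : Finset Edg, ∃ G : Finset Edg, F ⊆ S → A F →
      G ⊆ S ∧ (∀ e ∉ B, (e ∈ G ↔ e ∈ F)) ∧ A' G := by
    intro F
    by_cases h1 : F ⊆ S ∧ A F
    · obtain ⟨G, h2, h3, h4⟩ := h F h1.1 h1.2
      exact ⟨G, fun _ _ => ⟨h2, h3, h4⟩⟩
    · exact ⟨∅, fun h2 h3 => absurd ⟨h2, h3⟩ h1⟩
  choose g hg using h'
  have key : (S.powerset.filter A).card ≤ ((S.powerset.filter A') ×ˢ B.powerset).card := by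
    refine Finset.card_le_card_of_injOn (fun F => (g F, F ∩ B)) ?_ ?_
    · intro F hF
      rw [Finset.mem_coe, Finset.mem_filter, Finset.mem_powerset] at hF
      obtain ⟨h2, h3, h4⟩ := hg F hF.1 hF.2
      rw [Finset.mem_coe, Finset.mem_product, Finset.mem_filter, Finset.mem_powerset,
        Finset.mem_powerset]
      exact ⟨⟨h2, h4⟩, Finset.inter_subset_right⟩
    · intro F hF F' hF' hFF
      rw [Finset.mem_coe, Finset.mem_filter, Finset.mem_powerset] at hF hF'
      simp only [Prod.mk.injEq] at hFF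
      ext e
      by_cases he : e ∈ B
      · have h5 : e ∈ F ∩ B ↔ e ∈ F' ∩ B := by rw [hFF.2]
        simpa [he] using h5
      · rw [← (hg F hF.1 hF.2).2.1 e he, ← (hg F' hF'.1 hF'.2).2.1 e he, hFF.1]
  rw [Finset.card_product, Finset.card_powerset] at key
  have key' : ((S.powerset.filter A).card : ℝ) ≤
      ((S.powerset.filter A').card : ℝ) * 2 ^ B.card := by exact_mod_cast key
  have hpos : (0 : ℝ) ≤ (1 / 2) ^ S.card := by positivity
  calc (1 / 2 : ℝ) ^ S.card * ((S.powerset.filter A).card : ℝ)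
      ≤ (1 / 2 : ℝ) ^ S.card * (((S.powerset.filter A').card : ℝ) * 2 ^ B.card) :=
        mul_le_mul_of_nonneg_left key' hpos
    _ = 2 ^ B.card * ((1 / 2 : ℝ) ^ S.card * ((S.powerset.filter A').card : ℝ)) := by ring

end H731G
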