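import Pool.Agent.H731R5.Gr.Defs
import Pool.Agent.H731R5.Gr.N1

/-!
Task N3: lower bound at the vertices near the boundary.
-/

set_option autoImplicit false

namespace H731G

open H974 hiding bd
open H731C H731R H731A Finset

namespace N3

/-- vertical path -/
theorem vpath {G : Set Edg} {x c d : ℤ} (hcd : c ≤ d)
    (h : ∀ t, c ≤ t → t < d → ((x, t, false) : Edg) ∈ G) : Reach G (x, c) (x, d) := by
  induction d, hcd using Int.leInduction with
  | base => exact Reach.refl _ _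
  | succ d hd ih =>
    refine (ih fun t h1 h2 => h t h1 (by omega)).trans (Adj.reach ?_)
    exact ⟨(x, d, false), h d hd (by omega), Or.inl ⟨rfl, rfl⟩⟩

/-- vertical dual path -/
theorem dvpath {G : Set Edg} {x c d : ℤ} (hcd : c ≤ d)
    (h : ∀ t, c < t → t ≤ d → ((x, t, true) : Edg) ∈ G) : DReach G (x, c) (x, d) := by
  induction d, hcd using Int.leInduction with
  | base => exact DReach.refl _ _
  | succ d hd ih =>
    refine (ih fun t h1 h2 => h t h1 (by omega)).trans (DAdj.reach ?_)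
    refine ⟨(x, d + 1, true), h (d + 1) (by omega) (by omega), Or.inl ⟨?_, rfl⟩⟩
    rw [dsrc_true, add_sub_cancel_right]

/-- surgery along a set of vertices -/
theorem surg {F G : Set Edg} {W : Vtx → Prop} {u v : Vtx}
    (hFG : ∀ e ∈ F, ¬ (W (src e) ∧ W (tgt e)) → e ∈ G) (hW : ∀ w, W w → Reach G w v)
    (h : Reach F u v) : Reach G u v := by
  classical
  induction h using Relation.ReflTransGen.head_induction_on with
  | refl => exact Reach.refl _ _
  | @head a c hs _ ih =>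
    by_cases ha : W a
    · exact hW a ha
    · obtain ⟨e, he, h⟩ := hs
      refine Reach.trans (Adj.reach ⟨e, hFG e he ?_, h⟩) ih
      rintro ⟨h1, h2⟩
      rcases h with ⟨h3, h4⟩ | ⟨h3, h4⟩
      · rw [h3] at h1; exact ha h1
      · rw [h4] at h2; exact ha h2

theorem dsurg {F G : Set Edg} {W : Vtx → Prop} {u v v' : Vtx} (hv : W v)
    (hFG : ∀ e ∈ F, ¬ (W (dsrc e) ∧ W (dtgt e)) → e ∈ G) (hW : ∀ w, W w → DReach G w v')
    (h : DReach F u v) : DReach G u v' := by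
  classical
  induction h using Relation.ReflTransGen.head_induction_on with
  | refl => exact hW v hv
  | @head a c hs _ ih =>
    by_cases ha : W a
    · exact hW a ha
    · obtain ⟨e, he, h⟩ := hs
      refine DReach.trans (DAdj.reach ⟨e, hFG e he ?_, h⟩) ih
      rintro ⟨h1, h2⟩
      rcases h with ⟨h3, h4⟩ | ⟨h3, h4⟩
      · rw [h3] at h1; exact ha h1
      · rw [h4] at h2; exact ha h2

theorem ofc_bot {m n i : ℤ} (hm : 1 ≤ m) (hn : 1 ≤ n) (h0 : 0 ≤ i) (h1 : i < m) :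
    ofc m n i = (i, -1) := by
  unfold ofc
  rw [Int.emod_eq_of_lt h0 (by omega), if_pos h1]

theorem ifc_bot {m n i : ℤ} (hm : 1 ≤ m) (hn : 1 ≤ n) (h0 : 0 ≤ i) (h1 : i < m) :
    ifc m n i = (i, 0) := by
  unfold ifc
  rw [Int.emod_eq_of_lt h0 (by omega), if_pos h1]

theorem ofc_m {m n : ℤ} (hm : 1 ≤ m) (hn : 1 ≤ n) : ofc m n m = (m, 0) := by
  unfold ofc
  rw [Int.emod_eq_of_lt (by omega) (by omega), if_neg (by omega), if_pos (by omega), sub_self]

theorem ifc_m {m n : ℤ} (hm : 1 ≤ m) (hn : 1 ≤ n) : ifc m n m = (m - 1, 0) := by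
  unfold ifc
  rw [Int.emod_eq_of_lt (by omega) (by omega), if_neg (by omega), if_pos (by omega), sub_self]

theorem neg_one_mod {m n : ℤ} (hm : 1 ≤ m) (hn : 1 ≤ n) :
    (-1 : ℤ) % (2 * (m + n)) = 2 * (m + n) - 1 :=
  emod_eq (k := -1) (by ring) (by omega) (by omega)

theorem ofc_neg {m n : ℤ} (hm : 1 ≤ m) (hn : 1 ≤ n) : ofc m n (-1) = (-1, 0) := by
  unfold ofc
  rw [neg_one_mod hm hn, if_neg (by omega), if_neg (by omega), if_neg (by omega)]
  ext
  · rfl
  · show 2 * (m + n) - (2 * (m + n) - 1) - 1 = 0; ring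

theorem ifc_neg {m n : ℤ} (hm : 1 ≤ m) (hn : 1 ≤ n) : ifc m n (-1) = (0, 0) := by
  unfold ifc
  rw [neg_one_mod hm hn, if_neg (by omega), if_neg (by omega), if_neg (by omega)]
  ext
  · rfl
  · show 2 * (m + n) - (2 * (m + n) - 1) - 1 = 0; ring

/-- the outer face number `x` is a corner face of the boundary vertex number `x` -/
theorem cor_ofc {m n x : ℤ} (hm : 1 ≤ m) (hn : 1 ≤ n) (h0 : 0 ≤ x) (h1 : x ≤ m) :
    cor (x, 0) (ofc m n x) := by
  rcases h1.lt_or_eq with h | h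
  · rw [ofc_bot hm hn h0 h]; exact ⟨Or.inl rfl, Or.inr rfl⟩
  · rw [h, ofc_m hm hn]; exact ⟨Or.inl rfl, Or.inl rfl⟩

theorem cor_ofc' {m n x : ℤ} (hm : 1 ≤ m) (hn : 1 ≤ n) (h0 : 0 ≤ x) (h1 : x ≤ m) :
    cor (x, 0) (ofc m n (x - 1)) := by
  rcases h0.lt_or_eq with h | h
  · rw [ofc_bot hm hn (by omega) (by omega)]; exact ⟨Or.inr rfl, Or.inr rfl⟩
  · rw [← h, zero_sub, ofc_neg hm hn]; exact ⟨Or.inr rfl, Or.inl rfl⟩

theorem cor_ifc {m n x i : ℤ} (hm : 1 ≤ m) (hn : 1 ≤ n) (h0 : 0 ≤ x) (h1 : x ≤ m)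
    (hi : x - 1 ≤ i ∧ i < x + 1) : cor (x, 0) (ifc m n i) := by
  have h : i = x - 1 ∨ i = x := by omega
  rcases h with h | h
  · rcases h0.lt_or_eq with h2 | h2
    · rw [h, ifc_bot hm hn (by omega) (by omega)]; exact ⟨Or.inr rfl, Or.inl rfl⟩
    · rw [h, ← h2, zero_sub, ifc_neg hm hn]; exact ⟨Or.inl rfl, Or.inl rfl⟩
  · rcases h1.lt_or_eq with h2 | h2
    · rw [h, ifc_bot hm hn h0 h2]; exact ⟨Or.inl rfl, Or.inl rfl⟩
    · rw [h, h2, ifc_m hm hn]; exact ⟨Or.inr rfl, Or.inl rfl⟩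

/-- an inequality without modification -/
theorem no_mod {S : Finset Edg} {A A' : Finset Edg → Prop} (k : ℕ)
    (h : ∀ F ⊆ S, A F → A' F) : P2 S A ≤ 2 ^ k * P2 S A' := by
  have h1 : P2 S A ≤ P2 S A' := Pr_mono okhalf2 h
  have h2 : 0 ≤ P2 S A' := Pr_nonneg okhalf2 _ _
  have h3 : (1 : ℝ) ≤ 2 ^ k := one_le_pow₀ (by norm_num)
  nlinarith

/-- modification of few edges -/
theorem modk {S B : Finset Edg} {A A' : Finset Edg → Prop} {k : ℕ} (hB : B.card ≤ k)
    (h : ∀ F ⊆ S, A F → ∃ G ⊆ S, (∀ e ∉ B, (e ∈ G ↔ e ∈ F)) ∧ A' G) :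
    P2 S A ≤ 2 ^ k * P2 S A' := by
  have h1 := local_mod h
  have h2 : 0 ≤ P2 S A' := Pr_nonneg okhalf2 _ _
  have h3 : (2 : ℝ) ^ B.card ≤ 2 ^ k := pow_le_pow_right₀ (by norm_num) hB
  nlinarith

/-- near the free arc: the modified configuration is good -/
theorem free_key {m n a b x y : ℤ} (hm : 1 ≤ m) (hn : 1 ≤ n) (hy : 1 ≤ y) (hyx : y ≤ x)
    (hxy : x + y ≤ m) (hyn : 2 * y ≤ n) (hbx : b < x)
    (hxa : x < a + 2 * (m + n)) {F G : Finset Edg}
    (h1 : ∀ e ∈ F ∩ RE 0 m 0 n, ¬ ((x ≤ (src e).1 ∧ (src e).1 ≤ x + 1 ∧ 0 ≤ (src e).2 ∧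
      (src e).2 ≤ y + 1) ∧ (x ≤ (tgt e).1 ∧ (tgt e).1 ≤ x + 1 ∧ 0 ≤ (tgt e).2 ∧
      (tgt e).2 ≤ y + 1)) → e ∈ G)
    (h2 : ∀ t, 0 ≤ t → t ≤ y → ((x, t, false) : Edg) ∈ G)
    (h3 : ∀ t, 0 ≤ t → t ≤ y → ((x + 1, t, false) : Edg) ∈ G)
    (h4 : ((x, y + 1, true) : Edg) ∈ G)
    (h5 : ∀ t, 0 ≤ t → t ≤ y → ((x, t, true) : Edg) ∉ G)
    (hF : AA m n a b x x F) : OnV m n a b (x, y) G := by
  obtain ⟨i, j, hi, hj, hr⟩ := hF
  have hjx : j = x := by omega
  rw [hjx, bd_bot (i := x) hm hn (by omega) (by omega)] at hr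
  -- vertical paths in `G`
  have key : ∀ w : Vtx, (x ≤ w.1 ∧ w.1 ≤ x + 1 ∧ 0 ≤ w.2 ∧ w.2 ≤ y + 1) →
      Reach (↑G ∩ ↑(RE 0 m 0 n)) w (x, y + 1) := by
    rintro ⟨p, t⟩ ⟨k1, k2, k3, k4⟩
    simp only at k1 k2 k3 k4
    have hp : p = x ∨ p = x + 1 := by omega
    rcases hp with hp | hp
    · rw [hp]
      refine vpath k4 fun s hs1 hs2 => ⟨?_, ?_⟩
      · exact Finset.mem_coe.mpr (h2 s (by omega) (by omega))
      · rw [Finset.mem_coe, mem_RE_false]; omega
    · rw [hp]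
      refine Reach.trans (v := (x + 1, y + 1)) (vpath k4 fun s hs1 hs2 => ⟨?_, ?_⟩) ?_
      · exact Finset.mem_coe.mpr (h3 s (by omega) (by omega))
      · rw [Finset.mem_coe, mem_RE_false]; omega
      · refine Adj.reach ⟨(x, y + 1, true), ⟨Finset.mem_coe.mpr h4, ?_⟩, Or.inr ⟨rfl, rfl⟩⟩
        rw [Finset.mem_coe, mem_RE_true]; omega
  constructor
  · refine ⟨i, hi, ?_⟩
    refine surg (W := fun w => x ≤ w.1 ∧ w.1 ≤ x + 1 ∧ 0 ≤ w.2 ∧ w.2 ≤ y + 1)
      (v := (x, 0)) ?_ ?_ hr |>.trans ?_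
    · rintro e ⟨he1, he2⟩ hne
      exact ⟨Finset.mem_coe.mpr (h1 e (Finset.mem_inter.mpr ⟨he1, he2⟩) hne), he2⟩
    · intro w hw
      exact (key w hw).trans (key (x, 0) ⟨le_rfl, by simp, le_rfl, by simp; omega⟩).symm
    · exact (key (x, 0) ⟨le_rfl, by simp, le_rfl, by simp; omega⟩).trans
        (key (x, y) ⟨le_rfl, by simp, by simp; omega, by simp⟩).symm
  · refine ⟨(x, y), ⟨Or.inl rfl, Or.inl rfl⟩, x, ⟨by omega, hxa⟩, ?_⟩
    rw [ofc_bot hm hn (by omega) (by omega)]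
    refine dvpath (by omega) fun t ht1 ht2 => ⟨?_, ?_⟩
    · exact fun h => h5 t (by omega) ht2 (Finset.mem_coe.mp h)
    · rw [Finset.mem_coe, mem_RE_true]; omega

/-- near the wired arc: the modified configuration is good -/
theorem wired_key {m n a b x y : ℤ} (hm : 1 ≤ m) (hn : 1 ≤ n) (hy : 1 ≤ y) (hyx : y ≤ x)
    (hxy : x + y ≤ m) (hyn : 2 * y ≤ n) (hax : a < x) (hxb : x < b) {F G : Finset Edg}
    (h1 : ∀ e ∈ RE 0 m 0 n, e ∉ F → ¬ ((x - 1 ≤ (dsrc e).1 ∧ (dsrc e).1 ≤ x ∧ 0 ≤ (dsrc e).2 ∧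
      (dsrc e).2 ≤ y) ∧ (x - 1 ≤ (dtgt e).1 ∧ (dtgt e).1 ≤ x ∧ 0 ≤ (dtgt e).2 ∧
      (dtgt e).2 ≤ y)) → e ∉ G)
    (h2 : ∀ t, 0 ≤ t → t < y → ((x, t, false) : Edg) ∈ G)
    (h3 : ((x, y, false) : Edg) ∉ G)
    (h4 : ∀ t, 1 ≤ t → t ≤ y → ((x, t, true) : Edg) ∉ G)
    (h5 : ∀ t, 1 ≤ t → t ≤ y → ((x - 1, t, true) : Edg) ∉ G)
    (hF : WA m n b (a + 2 * (m + n)) (x - 1) (x + 1) F) : OnV m n a b (x, y) G := by
  obtain ⟨i, j, hi, hj, hr⟩ := hF
  have key : ∀ w : Vtx, (x - 1 ≤ w.1 ∧ w.1 ≤ x ∧ 0 ≤ w.2 ∧ w.2 ≤ y) →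
      DReach ((↑G : Set Edg)ᶜ ∩ ↑(RE 0 m 0 n)) w (x, y) := by
    rintro ⟨p, t⟩ ⟨k1, k2, k3, k4⟩
    simp only at k1 k2 k3 k4
    have hp : p = x ∨ p = x - 1 := by omega
    rcases hp with hp | hp
    · rw [hp]
      refine dvpath k4 fun s hs1 hs2 => ⟨?_, ?_⟩
      · exact fun h => h4 s (by omega) hs2 (Finset.mem_coe.mp h)
      · rw [Finset.mem_coe, mem_RE_true]; omega
    · rw [hp]
      refine DReach.trans (v := (x - 1, y)) (dvpath k4 fun s hs1 hs2 => ⟨?_, ?_⟩) ?_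
      · exact fun h => h5 s (by omega) hs2 (Finset.mem_coe.mp h)
      · rw [Finset.mem_coe, mem_RE_true]; omega
      · refine DAdj.reach ⟨(x, y, false), ⟨fun h => h3 (Finset.mem_coe.mp h), ?_⟩,
          Or.inl ⟨rfl, rfl⟩⟩
        rw [Finset.mem_coe, mem_RE_false]; omega
  constructor
  · refine ⟨x, ⟨by omega, by omega⟩, ?_⟩
    rw [bd_bot hm hn (by omega) (by omega)]
    refine vpath (by omega) fun t ht1 ht2 => ⟨?_, ?_⟩
    · exact Finset.mem_coe.mpr (h2 t ht1 ht2)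
    · rw [Finset.mem_coe, mem_RE_false]; omega
  · refine ⟨(x, y), ⟨Or.inl rfl, Or.inl rfl⟩, j, hj, ?_⟩
    have hi2 : ifc m n i = (i, 0) := ifc_bot hm hn (by omega) (by omega)
    rw [hi2] at hr
    refine dsurg (W := fun w => x - 1 ≤ w.1 ∧ w.1 ≤ x ∧ 0 ≤ w.2 ∧ w.2 ≤ y)
      (v := (i, 0)) ?_ ?_ ?_ hr
    · exact ⟨hi.1, by simp; omega, le_rfl, by simp; omega⟩
    · rintro e ⟨he1, he2⟩ hne
      exact ⟨fun h => h1 e he2 (fun h' => he1 (Finset.mem_coe.mpr h')) hne (Finset.mem_coe.mp h),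
        he2⟩
    · exact key

/-- vertical edges -/
noncomputable def Vs (x c d : ℤ) : Finset Edg := (Icc c d).image fun t => ((x, t, false) : Edg)

/-- horizontal edges -/
noncomputable def Hs (x c d : ℤ) : Finset Edg := (Icc c d).image fun t => ((x, t, true) : Edg)

theorem mem_Vs {x c d : ℤ} {e : Edg} :
    e ∈ Vs x c d ↔ e.1 = x ∧ (c ≤ e.2.1 ∧ e.2.1 ≤ d) ∧ e.2.2 = false := by
  obtain ⟨p, t, f⟩ := e
  unfold Vs
  simp only [mem_image, mem_Icc, Prod.mk.injEq]
  constructor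
  · rintro ⟨s, hs, h1, h2, h3⟩
    exact ⟨h1.symm, h2 ▸ hs, h3.symm⟩
  · rintro ⟨h1, h2, h3⟩
    exact ⟨t, h2, h1.symm, rfl, h3.symm⟩

theorem mem_Hs {x c d : ℤ} {e : Edg} :
    e ∈ Hs x c d ↔ e.1 = x ∧ (c ≤ e.2.1 ∧ e.2.1 ≤ d) ∧ e.2.2 = true := by
  obtain ⟨p, t, f⟩ := e
  unfold Hs
  simp only [mem_image, mem_Icc, Prod.mk.injEq]
  constructor
  · rintro ⟨s, hs, h1, h2, h3⟩
    exact ⟨h1.symm, h2 ▸ hs, h3.symm⟩
  · rintro ⟨h1, h2, h3⟩
    exact ⟨t, h2, h1.symm, rfl, h3.symm⟩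

theorem card_Vs (x c d : ℤ) : (Vs x c d).card ≤ (d + 1 - c).toNat := by
  unfold Vs
  refine card_image_le.trans ?_
  rw [Int.card_Icc]

theorem card_Hs (x c d : ℤ) : (Hs x c d).card ≤ (d + 1 - c).toNat := by
  unfold Hs
  refine card_image_le.trans ?_
  rw [Int.card_Icc]

/-- the modification -/
theorem modify {S B O : Finset Edg} {A A' : Finset Edg → Prop} {k : ℕ} (hB : B.card ≤ k)
    (hO : O ⊆ B) (hOS : O ⊆ S) (h : ∀ F ⊆ S, A F → A' ((F \ B) ∪ O)) :
    P2 S A ≤ 2 ^ k * P2 S A' := by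
  refine modk hB fun F hF hA => ⟨(F \ B) ∪ O, ?_, ?_, h F hF hA⟩
  · exact union_subset (sdiff_subset.trans hF) hOS
  · intro e he
    simp only [mem_union, mem_sdiff]
    constructor
    · rintro (h1 | h1)
      · exact h1.1
      · exact absurd (hO h1) he
    · intro h1
      exact Or.inl ⟨h1, he⟩

end N3

open N3

theorem near_free_low {m n a b x y : ℤ} (hm : 1 ≤ m) (hn : 1 ≤ n) (hy : 0 ≤ y) (hyx : y ≤ x)
    (hxy : x + y ≤ m) (hyn : 2 * y ≤ n) (hab : a ≤ b) (hbx : b < x)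
    (hxa : x < a + 2 * (m + n)) :
    P2 (RE 0 m 0 n) (AA m n a b x x) ≤
      2 ^ (3 * y.toNat + 4) * P2 (RE 0 m 0 n) (OnV m n a b (x, y)) := by
  classical
  rcases hy.lt_or_eq with hy1 | hy0
  · set O : Finset Edg := Vs x 0 y ∪ Vs (x + 1) 0 y ∪ Hs x (y + 1) (y + 1) with hO
    set B : Finset Edg := Vs x 0 y ∪ Vs (x + 1) 0 y ∪ Hs x 0 (y + 1) with hB
    refine modify (B := B) (O := O) ?_ ?_ ?_ ?_
    · refine (card_union_le _ _).trans ?_
      have k1 := card_union_le (Vs x 0 y) (Vs (x + 1) 0 y)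
      have k2 := card_Vs x 0 y
      have k3 := card_Vs (x + 1) 0 y
      have k4 := card_Hs x 0 (y + 1)
      omega
    · intro e he
      simp only [hO, hB, mem_union, mem_Vs, mem_Hs] at he ⊢
      rcases he with (he | he) | he
      · exact Or.inl (Or.inl he)
      · exact Or.inl (Or.inr he)
      · exact Or.inr ⟨he.1, ⟨by omega, he.2.1.2⟩, he.2.2⟩
    · rintro ⟨p, t, f⟩ he
      simp only [hO, mem_union, mem_Vs, mem_Hs] at he
      cases f
      · rw [mem_RE_false]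
        simp only [Bool.false_eq_true, and_false, or_false, and_true] at he
        omega
      · rw [mem_RE_true]
        simp only [Bool.true_eq_false, and_false, false_or, and_true] at he
        omega
    · intro F hF hA
      refine free_key hm hn hy1 hyx hxy hyn hbx hxa (F := F) ?_ ?_ ?_ ?_ ?_ hA
      · rintro ⟨p, t, f⟩ he hne
        rw [mem_union, mem_sdiff]
        refine Or.inl ⟨(mem_inter.mp he).1, fun h => hne ?_⟩
        simp only [hB, mem_union, mem_Vs, mem_Hs] at h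
        cases f
        · simp only [Bool.false_eq_true, and_false, or_false, and_true] at h
          simp only [src_mk, tgt_false]
          omega
        · simp only [Bool.true_eq_false, and_false, false_or, and_true] at h
          simp only [src_mk, tgt_true]
          omega
      · intro t h1 h2
        refine mem_union_right _ ?_
        simp only [hO, mem_union, mem_Vs, mem_Hs]
        exact Or.inl (Or.inl ⟨trivial, ⟨h1, h2⟩, trivial⟩)
      · intro t h1 h2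
        refine mem_union_right _ ?_
        simp only [hO, mem_union, mem_Vs, mem_Hs]
        exact Or.inl (Or.inr ⟨trivial, ⟨h1, h2⟩, trivial⟩)
      · refine mem_union_right _ ?_
        simp only [hO, mem_union, mem_Vs, mem_Hs]
        exact Or.inr ⟨trivial, ⟨le_rfl, le_rfl⟩, trivial⟩
      · intro t h1 h2 h
        rw [mem_union, mem_sdiff] at h
        rcases h with ⟨-, h⟩ | h
        · apply h
          simp only [hB, mem_union, mem_Vs, mem_Hs]
          exact Or.inr ⟨trivial, ⟨h1, by omega⟩, trivial⟩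
        · simp only [hO, mem_union, mem_Vs, mem_Hs, Bool.true_eq_false, and_false, false_or] at h
          omega
  · refine no_mod _ fun F _ hA => ?_
    obtain ⟨i, j, hi, hj, hr⟩ := hA
    have hjx : j = x := by omega
    rw [hjx, bd_bot (i := x) hm hn (by omega) (by omega)] at hr
    rw [← hy0]
    exact ⟨⟨i, hi, hr⟩, ofc m n x, cor_ofc hm hn (by omega) (by omega), x, ⟨by omega, hxa⟩,
      DReach.refl _ _⟩

theorem near_wired_low {m n a b x y : ℤ} (hm : 1 ≤ m) (hn : 1 ≤ n) (hy : 0 ≤ y) (hyx : y ≤ x)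
    (hxy : x + y ≤ m) (hyn : 2 * y ≤ n) (hax : a < x) (hxb : x < b)
    (hba : b < a + 2 * (m + n)) :
    P2 (RE 0 m 0 n) (WA m n b (a + 2 * (m + n)) (x - 1) (x + 1)) ≤
      2 ^ (3 * y.toNat + 4) * P2 (RE 0 m 0 n) (OnV m n a b (x, y)) := by
  classical
  rcases hy.lt_or_eq with hy1 | hy0
  · set O : Finset Edg := Vs x 0 (y - 1) with hO
    set B : Finset Edg := Vs x 0 y ∪ Hs x 1 y ∪ Hs (x - 1) 1 y with hB
    refine modify (B := B) (O := O) ?_ ?_ ?_ ?_
    · refine (card_union_le _ _).trans ?_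
      have k1 := card_union_le (Vs x 0 y) (Hs x 1 y)
      have k2 := card_Vs x 0 y
      have k3 := card_Hs x 1 y
      have k4 := card_Hs (x - 1) 1 y
      omega
    · intro e he
      simp only [hO, hB, mem_union, mem_Vs, mem_Hs] at he ⊢
      exact Or.inl (Or.inl ⟨he.1, ⟨he.2.1.1, by omega⟩, he.2.2⟩)
    · rintro ⟨p, t, f⟩ he
      simp only [hO, mem_Vs] at he
      cases f
      · rw [mem_RE_false]
        omega
      · simp only [Bool.true_eq_false, and_false] at he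
    · intro F hF hA
      refine wired_key hm hn hy1 hyx hxy hyn hax hxb (F := F) ?_ ?_ ?_ ?_ ?_ hA
      · rintro ⟨p, t, f⟩ heR heF hne he
        rw [mem_union, mem_sdiff] at he
        rcases he with he | he
        · exact heF he.1
        · simp only [hO, mem_Vs] at he
          cases f
          · apply hne
            simp only [dsrc_false, dtgt_mk]
            omega
          · simp only [Bool.true_eq_false, and_false] at he
      · intro t h1 h2
        refine mem_union_right _ ?_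
        simp only [hO, mem_Vs]
        exact ⟨trivial, ⟨h1, by omega⟩, trivial⟩
      · intro h
        rw [mem_union, mem_sdiff] at h
        rcases h with ⟨-, h⟩ | h
        · apply h
          simp only [hB, mem_union, mem_Vs, mem_Hs]
          exact Or.inl (Or.inl ⟨trivial, ⟨hy, le_rfl⟩, trivial⟩)
        · simp only [hO, mem_Vs] at h
          omega
      · intro t h1 h2 h
        rw [mem_union, mem_sdiff] at h
        rcases h with ⟨-, h⟩ | h
        · apply h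
          simp only [hB, mem_union, mem_Vs, mem_Hs]
          exact Or.inl (Or.inr ⟨trivial, ⟨h1, h2⟩, trivial⟩)
        · simp only [hO, mem_Vs, Bool.true_eq_false, and_false] at h
      · intro t h1 h2 h
        rw [mem_union, mem_sdiff] at h
        rcases h with ⟨-, h⟩ | h
        · apply h
          simp only [hB, mem_union, mem_Vs, mem_Hs]
          exact Or.inr ⟨trivial, ⟨h1, h2⟩, trivial⟩
        · simp only [hO, mem_Vs, Bool.true_eq_false, and_false] at h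
  · refine no_mod _ fun F _ hA => ?_
    obtain ⟨i, j, hi, hj, hr⟩ := hA
    rw [← hy0]
    refine ⟨⟨x, ⟨by omega, by omega⟩, ?_⟩, ifc m n i, cor_ifc hm hn (by omega) (by omega) hi,
      j, hj, hr⟩
    rw [bd_bot (i := x) hm hn (by omega) (by omega)]
    exact Reach.refl _ _

theorem near_end_low {m n a b x y : ℤ} (hm : 1 ≤ m) (hn : 1 ≤ n) (hy : 0 ≤ y) (hyx : y ≤ x)
    (hxy : x + y ≤ m) (hyn : 2 * y ≤ n) (hab : a ≤ b) (hba : b < a + 2 * (m + n))
    (h : x = a ∨ x = b) :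
    1 ≤ 2 ^ (3 * y.toNat + 4) * P2 (RE 0 m 0 n) (OnV m n a b (x, y)) := by
  classical
  rw [← P2_true (S := RE 0 m 0 n) (A := fun _ => True) (fun _ => trivial)]
  -- the column of faces and the outer face
  obtain ⟨j, p, hj, hp, hc, hof⟩ : ∃ j p : ℤ, (b ≤ j ∧ j < a + 2 * (m + n)) ∧
      (p = x ∨ p = x - 1) ∧ (cor (x, 0) (ofc m n j)) ∧ (1 ≤ y → ofc m n j = (p, -1)) := by
    rcases h with h | h
    · refine ⟨x - 1 + 2 * (m + n), x - 1, ⟨by omega, by omega⟩, Or.inr rfl, ?_, ?_⟩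
      · have := ofc_period m n (x - 1) 1
        rw [one_mul] at this
        rw [this]
        exact cor_ofc' hm hn (by omega) (by omega)
      · intro hy1
        have := ofc_period m n (x - 1) 1
        rw [one_mul] at this
        rw [this, ofc_bot hm hn (by omega) (by omega)]
    · refine ⟨x, x, ⟨by omega, by omega⟩, Or.inl rfl, cor_ofc hm hn (by omega) (by omega), ?_⟩
      intro hy1
      rw [ofc_bot hm hn (by omega) (by omega)]
  rcases hy.lt_or_eq with hy1 | hy0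
  · set O : Finset Edg := Vs x 0 (y - 1) with hO
    set B : Finset Edg := Vs x 0 (y - 1) ∪ Hs p 0 y with hB
    refine modify (B := B) (O := O) ?_ ?_ ?_ ?_
    · refine (card_union_le _ _).trans ?_
      have k2 := card_Vs x 0 (y - 1)
      have k3 := card_Hs p 0 y
      omega
    · exact subset_union_left
    · rintro ⟨q, t, f⟩ he
      simp only [hO, mem_Vs] at he
      cases f
      · rw [mem_RE_false]
        omega
      · simp only [Bool.true_eq_false, and_false] at he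
    · intro F hF _
      refine ⟨⟨x, by omega, ?_⟩, (p, y), ⟨hp, Or.inl rfl⟩, j, hj, ?_⟩
      · rw [bd_bot (i := x) hm hn (by omega) (by omega)]
        refine vpath hy fun t ht1 ht2 => ⟨?_, ?_⟩
        · refine Finset.mem_coe.mpr (mem_union_right _ ?_)
          simp only [hO, mem_Vs]
          exact ⟨trivial, ⟨ht1, by omega⟩, trivial⟩
        · rw [Finset.mem_coe, mem_RE_false]; omega
      · rw [hof hy1]
        refine dvpath (by omega) fun t ht1 ht2 => ⟨?_, ?_⟩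
        · intro h'
          have h2 := Finset.mem_coe.mp h'
          rw [mem_union, mem_sdiff] at h2
          rcases h2 with ⟨-, h2⟩ | h2
          · apply h2
            simp only [hB, mem_union, mem_Vs, mem_Hs]
            exact Or.inr ⟨trivial, ⟨by omega, ht2⟩, trivial⟩
          · simp only [hO, mem_Vs, Bool.true_eq_false, and_false] at h2
        · rw [Finset.mem_coe, mem_RE_true]; omega
  · refine no_mod _ fun F _ _ => ?_
    rw [← hy0]
    refine ⟨⟨x, by omega, ?_⟩, ofc m n j, hc, j, hj, DReach.refl _ _⟩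
    rw [bd_bot (i := x) hm hn (by omega) (by omega)]
    exact Reach.refl _ _

end H731G
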