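import Pool.Agent.H731R5.Gr.HPDefs2
import Pool.Agent.H731R5.Gr.N3
import Pool.Agent.H731R5.Gr.LD

/-!
Task Q5: the half-plane, near the boundary (helper640).
-/

set_option autoImplicit false

namespace H731G

open H974 hiding bd
open H731C H731R H731A Finset H389KP MeasureTheory

namespace Q5

theorem HR_of_OnV {M : ℤ} {v : Vtx} {G : Finset Edg} (h1 : OnV (2 * M) (M - 1) 0 M v G)
    (h2 : OnV (2 * M) (M - 1) (2 * M - 2 * (2 * M + (M - 1))) M v G) : HR M v G := by
  obtain ⟨f, hf, h3⟩ := h2.2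
  exact ⟨f, hf, h1.1, h3⟩

open N3 in
/-- `x ≥ 1` -/
theorem free_low {M x y : ℤ} (hM : 2 ≤ M) (hy : 0 ≤ y) (hyx : y ≤ x)
    (hxy : x + y ≤ 2 * M) (hyn : 2 * y ≤ M - 1) (hbx : M < x) (hxa : x < 2 * M) :
    P2 (RE 0 (2 * M) 0 (M - 1)) (AA (2 * M) (M - 1) 0 M x x) ≤
      2 ^ (3 * y.toNat + 4) * P2 (RE 0 (2 * M) 0 (M - 1)) (HR M (x, y)) := by
  classical
  have hm : 1 ≤ 2 * M := by omega
  have hn : 1 ≤ M - 1 := by omega
  rcases hy.lt_or_eq with hy1 | hy0
  · set O : Finset Edg := Vs x 0 y ∪ Vs (x + 1) 0 y ∪ Hs x (y + 1) (y + 1) with hO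
    set B : Finset Edg := Vs x 0 y ∪ Vs (x + 1) 0 y ∪ Hs x 0 (y + 1) with hB
    refine modify (B := B) (O := O) ?_ ?_ ?_ ?_
    · refine (card_union_le _ _).trans ?_
      have k1 := card_union_le (Vs x 0 y) (Vs (x + 1) 0 y)
      have k2 := card_Vs x 0 y
      have k3 := card_Vs (x + 1) 0 y
      have k4 := card_Hs x 0 (y + 1)
      omega
    · intro e he
      simp only [hO, hB, mem_union, mem_Vs, mem_Hs] at he ⊢
      rcases he with (he | he) | he
      · exact Or.inl (Or.inl he)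
      · exact Or.inl (Or.inr he)
      · exact Or.inr ⟨he.1, ⟨by omega, he.2.1.2⟩, he.2.2⟩
    · rintro ⟨p, t, f⟩ he
      simp only [hO, mem_union, mem_Vs, mem_Hs] at he
      cases f
      · rw [mem_RE_false]
        simp only [Bool.false_eq_true, and_false, or_false, and_true] at he
        omega
      · rw [mem_RE_true]
        simp only [Bool.true_eq_false, and_false, false_or, and_true] at he
        omega
    · intro F hF hA
      have g1 : ∀ e ∈ F ∩ RE 0 (2 * M) 0 (M - 1), ¬ ((x ≤ (src e).1 ∧ (src e).1 ≤ x + 1 ∧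
          0 ≤ (src e).2 ∧ (src e).2 ≤ y + 1) ∧ (x ≤ (tgt e).1 ∧ (tgt e).1 ≤ x + 1 ∧
          0 ≤ (tgt e).2 ∧ (tgt e).2 ≤ y + 1)) → e ∈ F \ B ∪ O := by
        rintro ⟨p, t, f⟩ he hne
        rw [mem_union, mem_sdiff]
        refine Or.inl ⟨(mem_inter.mp he).1, fun h => hne ?_⟩
        simp only [hB, mem_union, mem_Vs, mem_Hs] at h
        cases f
        · simp only [Bool.false_eq_true, and_false, or_false, and_true] at h
          simp only [src_mk, tgt_false]
          omega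
        · simp only [Bool.true_eq_false, and_false, false_or, and_true] at h
          simp only [src_mk, tgt_true]
          omega
      have g2 : ∀ t, 0 ≤ t → t ≤ y → ((x, t, false) : Edg) ∈ F \ B ∪ O := by
        intro t h1 h2
        refine mem_union_right _ ?_
        simp only [hO, mem_union, mem_Vs, mem_Hs]
        exact Or.inl (Or.inl ⟨trivial, ⟨h1, h2⟩, trivial⟩)
      have g3 : ∀ t, 0 ≤ t → t ≤ y → ((x + 1, t, false) : Edg) ∈ F \ B ∪ O := by
        intro t h1 h2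
        refine mem_union_right _ ?_
        simp only [hO, mem_union, mem_Vs, mem_Hs]
        exact Or.inl (Or.inr ⟨trivial, ⟨h1, h2⟩, trivial⟩)
      have g4 : ((x, y + 1, true) : Edg) ∈ F \ B ∪ O := by
        refine mem_union_right _ ?_
        simp only [hO, mem_union, mem_Vs, mem_Hs]
        exact Or.inr ⟨trivial, ⟨le_rfl, le_rfl⟩, trivial⟩
      have g5 : ∀ t, 0 ≤ t → t ≤ y → ((x, t, true) : Edg) ∉ F \ B ∪ O := by
        intro t h1 h2 h
        rw [mem_union, mem_sdiff] at h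
        rcases h with ⟨-, h⟩ | h
        · apply h
          simp only [hB, mem_union, mem_Vs, mem_Hs]
          exact Or.inr ⟨trivial, ⟨h1, by omega⟩, trivial⟩
        · simp only [hO, mem_union, mem_Vs, mem_Hs, Bool.true_eq_false, and_false, false_or] at h
          omega
      have hA' : AA (2 * M) (M - 1) (2 * M - 2 * (2 * M + (M - 1))) M x x F := by
        obtain ⟨i, j, hi, hj, hr⟩ := hA
        exact ⟨i, j, ⟨by omega, hi.2⟩, hj, hr⟩
      exact HR_of_OnV
        (free_key hm hn hy1 hyx hxy hyn hbx (by omega) (F := F) g1 g2 g3 g4 g5 hA)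
        (free_key hm hn hy1 hyx hxy hyn hbx (by omega) (F := F) g1 g2 g3 g4 g5 hA')
  · refine no_mod _ fun F _ hA => ?_
    obtain ⟨i, j, hi, hj, hr⟩ := hA
    have hjx : j = x := by omega
    rw [hjx, bd_bot (i := x) hm hn (by omega) (by omega)] at hr
    rw [← hy0]
    exact ⟨ofc (2 * M) (M - 1) x, cor_ofc hm hn (by omega) (by omega), ⟨i, hi, hr⟩, x,
      ⟨by omega, by omega⟩, DReach.refl _ _⟩

open N3 in
/-- `x ≤ -1` -/
theorem wired_low {M x y : ℤ} (hM : 2 ≤ M) (hy : 0 ≤ y) (hyx : y ≤ x)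
    (hxy : x + y ≤ 2 * M) (hyn : 2 * y ≤ M - 1) (hax : 0 < x) (hxb : x < M) :
    P2 (RE 0 (2 * M) 0 (M - 1)) (WA (2 * M) (M - 1) M (2 * M) (x - 1) (x + 1)) ≤
      2 ^ (3 * y.toNat + 4) * P2 (RE 0 (2 * M) 0 (M - 1)) (HR M (x, y)) := by
  classical
  have hm : 1 ≤ 2 * M := by omega
  have hn : 1 ≤ M - 1 := by omega
  rcases hy.lt_or_eq with hy1 | hy0
  · set O : Finset Edg := Vs x 0 (y - 1) with hO
    set B : Finset Edg := Vs x 0 y ∪ Hs x 1 y ∪ Hs (x - 1) 1 y with hB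
    refine modify (B := B) (O := O) ?_ ?_ ?_ ?_
    · refine (card_union_le _ _).trans ?_
      have k1 := card_union_le (Vs x 0 y) (Hs x 1 y)
      have k2 := card_Vs x 0 y
      have k3 := card_Hs x 1 y
      have k4 := card_Hs (x - 1) 1 y
      omega
    · intro e he
      simp only [hO, hB, mem_union, mem_Vs, mem_Hs] at he ⊢
      exact Or.inl (Or.inl ⟨he.1, ⟨he.2.1.1, by omega⟩, he.2.2⟩)
    · rintro ⟨p, t, f⟩ he
      simp only [hO, mem_Vs] at he
      cases f
      · rw [mem_RE_false]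
        omega
      · simp only [Bool.true_eq_false, and_false] at he
    · intro F hF hA
      have g1 : ∀ e ∈ RE 0 (2 * M) 0 (M - 1), e ∉ F → ¬ ((x - 1 ≤ (dsrc e).1 ∧
          (dsrc e).1 ≤ x ∧ 0 ≤ (dsrc e).2 ∧ (dsrc e).2 ≤ y) ∧ (x - 1 ≤ (dtgt e).1 ∧
          (dtgt e).1 ≤ x ∧ 0 ≤ (dtgt e).2 ∧ (dtgt e).2 ≤ y)) → e ∉ F \ B ∪ O := by
        rintro ⟨p, t, f⟩ heR heF hne he
        rw [mem_union, mem_sdiff] at he
        rcases he with he | he
        · exact heF he.1
        · simp only [hO, mem_Vs] at he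
          cases f
          · apply hne
            simp only [dsrc_false, dtgt_mk]
            omega
          · simp only [Bool.true_eq_false, and_false] at he
      have g2 : ∀ t, 0 ≤ t → t < y → ((x, t, false) : Edg) ∈ F \ B ∪ O := by
        intro t h1 h2
        refine mem_union_right _ ?_
        simp only [hO, mem_Vs]
        exact ⟨trivial, ⟨h1, by omega⟩, trivial⟩
      have g3 : ((x, y, false) : Edg) ∉ F \ B ∪ O := by
        intro h
        rw [mem_union, mem_sdiff] at h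
        rcases h with ⟨-, h⟩ | h
        · apply h
          simp only [hB, mem_union, mem_Vs, mem_Hs]
          exact Or.inl (Or.inl ⟨trivial, ⟨hy, le_rfl⟩, trivial⟩)
        · simp only [hO, mem_Vs] at h
          omega
      have g4 : ∀ t, 1 ≤ t → t ≤ y → ((x, t, true) : Edg) ∉ F \ B ∪ O := by
        intro t h1 h2 h
        rw [mem_union, mem_sdiff] at h
        rcases h with ⟨-, h⟩ | h
        · apply h
          simp only [hB, mem_union, mem_Vs, mem_Hs]
          exact Or.inl (Or.inr ⟨trivial, ⟨h1, h2⟩, trivial⟩)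
        · simp only [hO, mem_Vs, Bool.true_eq_false, and_false] at h
      have g5 : ∀ t, 1 ≤ t → t ≤ y → ((x - 1, t, true) : Edg) ∉ F \ B ∪ O := by
        intro t h1 h2 h
        rw [mem_union, mem_sdiff] at h
        rcases h with ⟨-, h⟩ | h
        · apply h
          simp only [hB, mem_union, mem_Vs, mem_Hs]
          exact Or.inr ⟨trivial, ⟨h1, h2⟩, trivial⟩
        · simp only [hO, mem_Vs, Bool.true_eq_false, and_false] at h
      have hA1 : WA (2 * M) (M - 1) M (0 + 2 * (2 * M + (M - 1))) (x - 1) (x + 1) F := by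
        obtain ⟨i, j, hi, hj, hr⟩ := hA
        exact ⟨i, j, hi, ⟨hj.1, by omega⟩, hr⟩
      have hA2 : WA (2 * M) (M - 1) M (2 * M - 2 * (2 * M + (M - 1)) +
          2 * (2 * M + (M - 1))) (x - 1) (x + 1) F := by
        obtain ⟨i, j, hi, hj, hr⟩ := hA
        exact ⟨i, j, hi, ⟨hj.1, by omega⟩, hr⟩
      exact HR_of_OnV
        (wired_key hm hn hy1 hyx hxy hyn (by omega) hxb (F := F) g1 g2 g3 g4 g5 hA1)
        (wired_key hm hn hy1 hyx hxy hyn (by omega) hxb (F := F) g1 g2 g3 g4 g5 hA2)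
  · refine no_mod _ fun F _ hA => ?_
    obtain ⟨i, j, hi, hj, hr⟩ := hA
    rw [← hy0]
    refine ⟨ifc (2 * M) (M - 1) i, cor_ifc hm hn (by omega) (by omega) hi,
      ⟨x, ⟨by omega, by omega⟩, ?_⟩, j, ⟨hj.1, by omega⟩, hr⟩
    rw [bd_bot (i := x) hm hn (by omega) (by omega)]
    exact Reach.refl _ _

open N3 in
/-- `x = 0` -/
theorem end_low {M y : ℤ} (hM : 2 ≤ M) (hy : 0 ≤ y) (hyn : 2 * y ≤ M - 1) :
    1 ≤ 2 ^ (3 * y.toNat + 4) * P2 (RE 0 (2 * M) 0 (M - 1)) (HR M (M, y)) := by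
  classical
  have hm : 1 ≤ 2 * M := by omega
  have hn : 1 ≤ M - 1 := by omega
  rw [← P2_true (S := RE 0 (2 * M) 0 (M - 1)) (A := fun _ => True) (fun _ => trivial)]
  have hof : ofc (2 * M) (M - 1) M = (M, -1) := ofc_bot hm hn (by omega) (by omega)
  rcases hy.lt_or_eq with hy1 | hy0
  · set O : Finset Edg := Vs M 0 (y - 1) with hO
    set B : Finset Edg := Vs M 0 (y - 1) ∪ Hs M 0 y with hB
    refine modify (B := B) (O := O) ?_ ?_ ?_ ?_
    · refine (card_union_le _ _).trans ?_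
      have k2 := card_Vs M 0 (y - 1)
      have k3 := card_Hs M 0 y
      omega
    · exact subset_union_left
    · rintro ⟨q, t, f⟩ he
      simp only [hO, mem_Vs] at he
      cases f
      · rw [mem_RE_false]
        omega
      · simp only [Bool.true_eq_false, and_false] at he
    · intro F hF _
      refine ⟨(M, y), ⟨Or.inl rfl, Or.inl rfl⟩, ⟨M, by omega, ?_⟩, M, ⟨le_rfl, by omega⟩, ?_⟩
      · rw [bd_bot (i := M) hm hn (by omega) (by omega)]
        refine vpath hy fun t ht1 ht2 => ⟨?_, ?_⟩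
        · refine Finset.mem_coe.mpr (mem_union_right _ ?_)
          simp only [hO, mem_Vs]
          exact ⟨trivial, ⟨ht1, by omega⟩, trivial⟩
        · rw [Finset.mem_coe, mem_RE_false]; omega
      · rw [hof]
        refine dvpath (by omega) fun t ht1 ht2 => ⟨?_, ?_⟩
        · intro h'
          have h2 := Finset.mem_coe.mp h'
          rw [mem_union, mem_sdiff] at h2
          rcases h2 with ⟨-, h2⟩ | h2
          · apply h2
            simp only [hB, mem_union, mem_Vs, mem_Hs]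
            exact Or.inr ⟨trivial, ⟨by omega, ht2⟩, trivial⟩
          · simp only [hO, mem_Vs, Bool.true_eq_false, and_false] at h2
        · rw [Finset.mem_coe, mem_RE_true]; omega
  · refine no_mod _ fun F _ _ => ?_
    rw [← hy0]
    refine ⟨ofc (2 * M) (M - 1) M, cor_ofc hm hn (by omega) (by omega), ⟨M, by omega, ?_⟩, M,
      ⟨le_rfl, by omega⟩, DReach.refl _ _⟩
    rw [bd_bot (i := M) hm hn (by omega) (by omega)]
    exact Reach.refl _ _

open DTra LD in
/-- touching probability, lower bound by duality -/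
theorem WA_low {m n b e c d : ℤ} (hm : 1 ≤ m) (hn : 1 ≤ n) :
    1 / 2 * P2 (RE 0 (m - 1) 0 (n - 1)) (FA m n c d b e) ≤
      P2 (RE 0 m 0 n) (WA m n b e c d) := by
  have ok : Ok (fun _ : Edg => (1/2 : ℝ)) := okhalf2
  have hP : P2 (InE m n) (fun F => FA m n c d b e (dmp (InE m n \ F))) =
      P2 (RE 0 (m - 1) 0 (n - 1)) (FA m n c d b e) := by
    rw [DTra.P2_dual, dmp_InE]
  rw [← hP]
  have hR : RE 0 m 0 n = InE m n ∪ (RE 0 m 0 n \ InE m n) := by
    rw [Finset.union_sdiff_of_subset InE_subset]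
  have hdis : Disjoint (InE m n) (RE 0 m 0 n \ InE m n) := Finset.disjoint_sdiff
  have e1 : P2 (RE 0 m 0 n) (WA m n b e c d) =
      Ex (fun _ : Edg => (1/2 : ℝ)) (InE m n) (fun A =>
        Ex (fun _ : Edg => (1/2 : ℝ)) (RE 0 m 0 n \ InE m n) (fun B =>
          ind (WA m n b e c d (A ∪ B)))) := by
    unfold P2 Pr
    conv_lhs => rw [hR]
    rw [Ex_union hdis]
  rw [e1]
  unfold P2 Pr
  rw [← Ex_mul_left]
  refine Ex_mono ok fun A hA => ?_
  by_cases hFA : FA m n c d b e (dmp (InE m n \ A))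
  · rw [ind_of hFA, mul_one]
    obtain ⟨i, j, hi, hj, hr⟩ := hFA
    have h2 := P2_one (S := RE 0 m 0 n \ InE m n) (e := bed m n j)
      (Finset.mem_sdiff.mpr ⟨bed_mem hm hn j, bed_notMem hm hn j⟩)
    refine h2.trans ?_
    unfold P2 Pr
    refine Ex_mono ok fun B hB => ind_mono ?_
    intro hjB
    have hdr : DReach (↑(InE m n \ A) : Set Edg) (ifc m n i) (ifc m n j) := by
      rw [← reach_dl, ← coe_dmp]
      exact hr.mono Set.inter_subset_left
    have hsub : (↑(InE m n \ A) : Set Edg) ⊆ (↑(A ∪ B) : Set Edg)ᶜ ∩ ↑(RE 0 m 0 n) := by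
      intro e he
      rw [Finset.mem_coe, Finset.mem_sdiff] at he
      refine ⟨fun h => ?_, Finset.mem_coe.mpr (InE_subset he.1)⟩
      rw [Finset.mem_coe, Finset.mem_union] at h
      rcases h with h | h
      · exact he.2 h
      · exact (Finset.mem_sdiff.mp (hB h)).2 he.1
    have hb : bed m n j ∈ (↑(A ∪ B) : Set Edg)ᶜ ∩ ↑(RE 0 m 0 n) := by
      refine ⟨fun h => ?_, Finset.mem_coe.mpr (bed_mem hm hn j)⟩
      rw [Finset.mem_coe, Finset.mem_union] at h
      rcases h with h | h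
      · exact bed_notMem hm hn j (hA h)
      · exact hjB h
    exact ⟨i, j, hi, hj, (bed_dadj hb).reach.trans (hdr.mono hsub).symm⟩
  · rw [ind_not_of hFA, mul_zero]
    exact Ex_nonneg ok (fun _ _ => ind_nonneg _)

/-- sizes on the bottom side -/
theorem sz_bot {m n i j : ℤ} (hm : 1 ≤ m) (hn : 1 ≤ n) (h0 : 0 ≤ i) (hij : i ≤ j)
    (hj : j ≤ m) : sz m n i j = (j - i + 1) * (j - i + 1 + min i (m - i) + min j (m - j)) := by
  have e1 : cd (2 * (m + n)) (j - i) = j - i := by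
    rw [cd_of_mem (by omega) (by omega) (by omega)]
    omega
  unfold sz
  rw [e1, rho_bot hm hn h0 (by omega), rho_bot hm hn (by omega) hj]

/-- from integers to the cross-ratio -/
theorem quot16 {s1 s2 s3 s4 t : ℤ} (ht : 1 ≤ t) (h3 : 1 ≤ s3) (h4 : 1 ≤ s4)
    (h : s3 * s4 ≤ 16 * t * (s1 * s2)) :
    1 / 16 * ((1 : ℝ) / t) ≤ ((s1 : ℝ) * s2) / ((s3 : ℝ) * s4) := by
  have ht' : (0 : ℝ) < t := by exact_mod_cast (by omega : 0 < t)
  have h3' : (0 : ℝ) < s3 := by exact_mod_cast (by omega : 0 < s3)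
  have h4' : (0 : ℝ) < s4 := by exact_mod_cast (by omega : 0 < s4)
  have h' : (s3 : ℝ) * s4 ≤ 16 * t * (s1 * s2) := by exact_mod_cast h
  rw [le_div_iff₀ (by positivity)]
  have : 1 / 16 * ((1 : ℝ) / t) * (s3 * s4) ≤ 1 / 16 * ((1 : ℝ) / t) * (16 * t * (s1 * s2)) :=
    mul_le_mul_of_nonneg_left h' (by positivity)
  refine this.trans (le_of_eq ?_)
  field_simp

theorem eta_pos_side {M x : ℤ} (hx : 1 ≤ x) (hxM : 4 * x ≤ M) :
    1 / 16 * ((1 : ℝ) / ((x + 1 : ℤ) : ℝ)) ≤ eta (2 * M) (M - 1) 0 M (M + x) (M + x) := by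
  have hm : 1 ≤ 2 * M := by omega
  have hn : 1 ≤ M - 1 := by omega
  unfold eta
  refine quot16 (by omega) (sz_pos hm hn _ _) (sz_pos hm hn _ _) ?_
  rw [sz_bot hm hn (by omega : (0:ℤ) ≤ 0) (by omega : (0:ℤ) ≤ M + x) (by omega),
    sz_bot hm hn (by omega : (0:ℤ) ≤ M) (by omega : M ≤ M + x) (by omega),
    sz_bot hm hn (by omega : (0:ℤ) ≤ 0) (by omega : (0:ℤ) ≤ M) (by omega),
    sz_bot hm hn (by omega : (0:ℤ) ≤ M + x) le_rfl (by omega)]
  have r1 : min (0:ℤ) (2 * M - 0) = 0 := by omega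
  have r2 : min M (2 * M - M) = M := by omega
  have r3 : min (M + x) (2 * M - (M + x)) = M - x := by omega
  rw [r1, r2, r3]
  have k1 : M + x + 1 ≤ 2 * (M + 1) := by omega
  have k2 : 2 * M + 1 ≤ 2 * (1 + 2 * M - 2 * x) := by omega
  have k3 : (M + x + 1) * (2 * M + 1) ≤ (2 * (M + 1)) * (2 * (1 + 2 * M - 2 * x)) :=
    mul_le_mul k1 k2 (by omega) (by omega)
  have k4 : 0 ≤ (M + 1) * (1 + 2 * M - 2 * x) := mul_nonneg (by omega) (by omega)
  have k5 : (M + x + 1) * (2 * M + 1) ≤ 16 * ((M + 1) * (1 + 2 * M - 2 * x)) := by nlinarith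
  have k6 : 0 ≤ (x + 1) * (2 * M + 1) := mul_nonneg (by omega) (by omega)
  have k7 := mul_le_mul_of_nonneg_left k5 k6
  calc (M + x - 0 + 1) * (M + x - 0 + 1 + 0 + (M - x)) *
        ((M + x - M + 1) * (M + x - M + 1 + M + (M - x)))
      = (x + 1) * (2 * M + 1) * ((M + x + 1) * (2 * M + 1)) := by ring
    _ ≤ (x + 1) * (2 * M + 1) * (16 * ((M + 1) * (1 + 2 * M - 2 * x))) := k7
    _ = _ := by ring

theorem eta_neg_side {M k : ℤ} (hk : 1 ≤ k) (hkM : 4 * k ≤ M) :
    1 / 16 * ((1 : ℝ) / ((k + 1 : ℤ) : ℝ)) ≤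
      eta (2 * M - 1) (M - 1 - 1) (M - k - 1) (M - k) M (2 * M - 1) := by
  have hm : 1 ≤ 2 * M - 1 := by omega
  have hn : 1 ≤ M - 1 - 1 := by omega
  unfold eta
  refine quot16 (by omega) (sz_pos hm hn _ _) (sz_pos hm hn _ _) ?_
  rw [sz_bot hm hn (by omega : (0:ℤ) ≤ M - k - 1) (by omega : M - k - 1 ≤ M) (by omega),
    sz_bot hm hn (by omega : (0:ℤ) ≤ M - k) (by omega : M - k ≤ 2 * M - 1) (by omega),
    sz_bot hm hn (by omega : (0:ℤ) ≤ M - k - 1) (by omega : M - k - 1 ≤ M - k) (by omega),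
    sz_bot hm hn (by omega : (0:ℤ) ≤ M) (by omega : M ≤ 2 * M - 1) (by omega)]
  have r1 : min (M - k - 1) (2 * M - 1 - (M - k - 1)) = M - k - 1 := by omega
  have r2 : min (M - k) (2 * M - 1 - (M - k)) = M - k := by omega
  have r3 : min M (2 * M - 1 - M) = M - 1 := by omega
  have r4 : min (2 * M - 1) (2 * M - 1 - (2 * M - 1)) = 0 := by omega
  rw [r1, r2, r3, r4]
  have k1 : (k + 2) * (2 * M) ≤ (2 * (k + 1)) * (2 * M) :=
    mul_le_mul_of_nonneg_right (by omega) (by omega)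
  have k2 : (M + k) * (2 * M) ≤ (2 * M) * (2 * M) :=
    mul_le_mul_of_nonneg_right (by omega) (by omega)
  have k3 : (k + 2) * (2 * M) * ((M + k) * (2 * M)) ≤
      (2 * (k + 1)) * (2 * M) * ((2 * M) * (2 * M)) :=
    mul_le_mul k1 k2 (mul_nonneg (by omega) (by omega)) (mul_nonneg (by omega) (by omega))
  have k4 : M * (M * M) ≤ (2 * M - 2 * k + 1) * (M * (2 * M - 1)) := by
    refine mul_le_mul (by omega) (mul_le_mul_of_nonneg_left (by omega) (by omega))
      (mul_nonneg (by omega) (by omega)) (by omega)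
  have k5 := mul_le_mul_of_nonneg_left k4 (by omega : 0 ≤ 32 * (k + 1))
  have k6 : 0 ≤ (k + 1) * (M * (M * M)) :=
    mul_nonneg (by omega) (mul_nonneg (by omega) (mul_nonneg (by omega) (by omega)))
  calc (M - (M - k - 1) + 1) * (M - (M - k - 1) + 1 + (M - k - 1) + (M - 1)) *
        ((2 * M - 1 - (M - k) + 1) * (2 * M - 1 - (M - k) + 1 + (M - k) + 0))
      = (k + 2) * (2 * M) * ((M + k) * (2 * M)) := by ring
    _ ≤ (2 * (k + 1)) * (2 * M) * ((2 * M) * (2 * M)) := k3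
    _ ≤ 32 * (k + 1) * ((2 * M - 2 * k + 1) * (M * (2 * M - 1))) := by nlinarith
    _ = _ := by ring

theorem st_small {m n i : ℤ} (hm : 1 ≤ m) (hn : 1 ≤ n) (h0 : 0 ≤ i) (h1 : i < m) :
    st m n i = i := by
  unfold st
  have e1 : i % (2 * (m + n)) = i := Int.emod_eq_of_lt h0 (by omega)
  have e2 : i / (2 * (m + n)) = 0 := Int.ediv_eq_zero_of_lt h0 (by omega)
  rw [e1, e2, if_neg (by omega), if_neg (by omega), if_neg (by omega)]
  ring

theorem fin {c0 k R E Q P K : ℝ} {y : ℤ} {r : ℕ} (hc : 0 < c0) (hk : 0 ≤ k) (hR : 0 ≤ R)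
    (hE : k * R ≤ E) (hQ : c0 * E ^ ((1 : ℝ) / 3) ≤ Q) (hP : Q ≤ 2 ^ (3 * y.toNat + 4) * P)
    (hP0 : 0 ≤ P) (hyr : y ≤ r) (hK : K ≤ c0 * k ^ ((1 : ℝ) / 3)) :
    ((2 : ℝ) ^ (3 * r + 4))⁻¹ * K * R ^ ((1 : ℝ) / 3) ≤ P := by
  have h1 : k ^ ((1 : ℝ) / 3) * R ^ ((1 : ℝ) / 3) ≤ E ^ ((1 : ℝ) / 3) := by
    rw [← Real.mul_rpow hk hR]
    exact Real.rpow_le_rpow (by positivity) hE (by norm_num)
  have h2 : (2 : ℝ) ^ (3 * y.toNat + 4) ≤ 2 ^ (3 * r + 4) :=
    pow_le_pow_right₀ (by norm_num) (by omega)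
  have h3 : K * R ^ ((1 : ℝ) / 3) ≤ c0 * k ^ ((1 : ℝ) / 3) * R ^ ((1 : ℝ) / 3) :=
    mul_le_mul_of_nonneg_right hK (by positivity)
  have h4 : c0 * k ^ ((1 : ℝ) / 3) * R ^ ((1 : ℝ) / 3) ≤ c0 * E ^ ((1 : ℝ) / 3) := by
    rw [mul_assoc]
    exact mul_le_mul_of_nonneg_left h1 hc.le
  have h5 : (2 : ℝ) ^ (3 * y.toNat + 4) * P ≤ 2 ^ (3 * r + 4) * P :=
    mul_le_mul_of_nonneg_right h2 hP0
  rw [mul_assoc, inv_mul_le_iff₀ (by positivity)]
  linarith

end Q5

open Q5 in
theorem rect_near_low (r : ℕ) : ∃ c : ℝ, 0 < c ∧ ∀ M x y : ℤ, 0 ≤ y → y ≤ r →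
    4 * (|x| + y + 1) ≤ M → M ≤ 8 * (|x| + y + 1) →
    c * ((1 : ℝ) / ((|x| : ℤ) + 1)) ^ ((1 : ℝ) / 3) ≤
      P2 (RE 0 (2 * M) 0 (M - 1)) (HR M (x + M, y)) := by
  obtain ⟨c0, C, hc0, -, h⟩ := AA_eta 3
  set k0 : ℝ := (1 / 16 : ℝ) ^ ((1 : ℝ) / 3) with hk0
  have hk0p : 0 < k0 := by positivity
  set K : ℝ := min 1 (c0 / 2 * k0) with hK
  have hKp : 0 < K := lt_min one_pos (by positivity)
  refine ⟨((2 : ℝ) ^ (3 * r + 4))⁻¹ * K, by positivity, ?_⟩
  intro M x y hy hyr hM1 hM2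
  have habs : 0 ≤ |x| := abs_nonneg x
  have hP0 : 0 ≤ P2 (RE 0 (2 * M) 0 (M - 1)) (HR M (x + M, y)) := Pr_nonneg okhalf2 _ _
  have hR0 : (0 : ℝ) ≤ (1 : ℝ) / (((|x| : ℤ) : ℝ) + 1) := by
    have : (0 : ℝ) ≤ ((|x| : ℤ) : ℝ) := by exact_mod_cast habs
    positivity
  rcases lt_trichotomy x 0 with hx | hx | hx
  · -- `x ≤ -1`
    have hxabs : |x| = -x := abs_of_neg hx
    have h1 := wired_low (M := M) (x := x + M) (y := y) (by omega) hy (by omega) (by omega)
      (by omega) (by omega) (by omega)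
    have h2 := WA_low (m := 2 * M) (n := M - 1) (b := M) (e := 2 * M) (c := x + M - 1)
      (d := x + M + 1) (by omega) (by omega)
    have h3 : P2 (RE 0 (2 * M - 1) 0 (M - 1 - 1)) (FA (2 * M) (M - 1) (x + M - 1) (x + M + 1) M
        (2 * M)) = P2 (RE 0 (2 * M - 1) 0 (M - 1 - 1))
          (AA (2 * M - 1) (M - 1 - 1) (x + M - 1) (x + M) M (2 * M - 1)) := by
      congr 1
      funext F
      refine propext ?_
      rw [FA_iff (by omega) (by omega) (by omega) (by omega),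
        st_small (i := x + M - 1) (by omega) (by omega) (by omega) (by omega),
        st_small (i := x + M + 1 - 1) (by omega) (by omega) (by omega) (by omega),
        st_small (i := M) (by omega) (by omega) (by omega) (by omega),
        st_small (i := 2 * M - 1) (by omega) (by omega) (by omega) (by omega),
        show x + M + 1 - 1 = x + M by ring]
    have h4 := (h (2 * M - 1) (M - 1 - 1) (x + M - 1) (x + M) M (2 * M - 1) (by omega) (by omega)
      (by push_cast; omega) (by push_cast; omega) (by omega) (by omega) (by omega) (by omega)).1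
    have h5 := eta_neg_side (M := M) (k := -x) (by omega) (by omega)
    have e1 : M - -x - 1 = x + M - 1 := by ring
    have e2 : M - -x = x + M := by ring
    rw [e1, e2] at h5
    rw [h3] at h2
    refine fin (c0 := c0 / 2) (k := 1 / 16) (Q := P2 (RE 0 (2 * M) 0 (M - 1))
      (WA (2 * M) (M - 1) M (2 * M) (x + M - 1) (x + M + 1))) (by positivity) (by norm_num)
      hR0 ?_ ?_ h1 hP0 hyr (min_le_right _ _)
      (E := eta (2 * M - 1) (M - 1 - 1) (x + M - 1) (x + M) M (2 * M - 1))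
    · rw [hxabs]
      push_cast at h5 ⊢
      exact h5
    · linarith
  · -- `x = 0`
    subst hx
    have h1 := end_low (M := M) (y := y) (by omega) hy (by simp at hM1; omega)
    rw [zero_add] at hP0 ⊢
    refine fin (c0 := 1) (k := 1) (Q := 1) (E := 1) one_pos zero_le_one hR0 ?_ ?_ h1 hP0 hyr ?_
    · simp
    · simp
    · simp only [Real.one_rpow, mul_one]
      exact min_le_left _ _
  · -- `x ≥ 1`
    have hxabs : |x| = x := abs_of_pos hx
    have h1 := free_low (M := M) (x := x + M) (y := y) (by omega) hy (by omega) (by omega)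
      (by omega) (by omega) (by omega)
    have h4 := (h (2 * M) (M - 1) 0 M (x + M) (x + M) (by omega) (by omega)
      (by push_cast; omega) (by push_cast; omega) (by omega) (by omega) (by omega) (by omega)).1
    have h5 := eta_pos_side (M := M) (x := x) (by omega) (by omega)
    rw [add_comm M x] at h5
    refine fin (c0 := c0) (k := 1 / 16) (Q := P2 (RE 0 (2 * M) 0 (M - 1))
      (AA (2 * M) (M - 1) 0 M (x + M) (x + M))) hc0 (by norm_num)
      hR0 ?_ h4 h1 hP0 hyr ?_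
    · rw [hxabs]
      push_cast at h5 ⊢
      exact h5
    · refine (min_le_right _ _).trans ?_
      have : 0 ≤ c0 * k0 := by positivity
      rw [← hk0]
      linarith

end H731G
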