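import Pool.Agent.H731R5.Gr.Defs2
import Pool.Agent.H731R5.Gr.RO

/-!
Rotations for `HitB`.
-/

set_option autoImplicit false

namespace H731G

open H974 hiding bd
open H731C H731R H731A Finset

namespace S5

open RO

theorem OnV_rot_pt {m n : ℤ} (hm : 1 ≤ m) (hn : 1 ≤ n) (a b : ℤ) (v : Vtx) (F : Finset Edg) :
    OnV m n a b v F ↔ OnV n m (a - m) (b - m) ((rot m).ψ v) ((rot m).mp F) := by
  unfold OnV
  rw [← VA_rot hm hn]
  constructor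
  · rintro ⟨h2, f, hf, h3⟩
    exact ⟨h2, rf m f, (cor_rot m v f).mpr hf, (FB_rot hm hn a b f F).mp h3⟩
  · rintro ⟨h2, f, hf, h3⟩
    refine ⟨h2, rg m f, ?_, ?_⟩
    · rw [← cor_rot m v, rf_rg]; exact hf
    · rw [FB_rot hm hn, rf_rg]; exact h3

theorem HitB_rot_pt {m n : ℤ} (hm : 1 ≤ m) (hn : 1 ≤ n) (a b : ℤ) (v : Vtx) (r : ℤ)
    (F : Finset Edg) :
    HitB m n a b v r F ↔ HitB n m (a - m) (b - m) ((rot m).ψ v) r ((rot m).mp F) := by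
  obtain ⟨x, y⟩ := v
  unfold HitB
  constructor
  · rintro ⟨⟨p, q⟩, ⟨h1, h2⟩, h3⟩
    refine ⟨(rot m).ψ (p, q), ?_, (OnV_rot_pt hm hn a b (p, q) F).mp h3⟩
    rw [rot_ψ, rot_ψ]
    simp only at h1 h2 ⊢
    refine ⟨h2, ?_⟩
    have : m - p - (m - x) = -(p - x) := by ring
    rw [this, abs_neg]
    exact h1
  · rintro ⟨⟨p, q⟩, ⟨h1, h2⟩, h3⟩
    refine ⟨(m - q, p), ?_, ?_⟩
    · rw [rot_ψ] at h1 h2
      simp only at h1 h2 ⊢
      refine ⟨?_, h1⟩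
      have : m - q - x = -(q - (m - x)) := by ring
      rw [this, abs_neg]
      exact h2
    · rw [OnV_rot_pt hm hn, rot_ψ]
      have : ((p, m - (m - q)) : Vtx) = (p, q) := by
        ext
        · rfl
        · show m - (m - q) = q; ring
      rw [this]
      exact h3

theorem HitB_rot {m n : ℤ} (hm : 1 ≤ m) (hn : 1 ≤ n) (a b : ℤ) (v : Vtx) (r : ℤ) :
    P2 (RE 0 m 0 n) (HitB m n a b v r) =
      P2 (RE 0 n 0 m) (HitB n m (a - m) (b - m) ((rot m).ψ v) r) := by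
  have hR : (rot m).mp (RE 0 m 0 n) = RE 0 n 0 m := by
    rw [rot_RE]; congr 1 <;> ring
  have h1 := (rot m).pr (1/2) (RE 0 m 0 n) (HitB n m (a - m) (b - m) ((rot m).ψ v) r)
  rw [hR] at h1
  unfold P2
  rw [h1]
  apply Pr_congr
  intro F _
  exact HitB_rot_pt hm hn a b v r F

theorem HitB_shift (m n a b : ℤ) (v : Vtx) (r k : ℤ) :
    P2 (RE 0 m 0 n) (HitB m n a b v r) = P2 (RE 0 m 0 n) (HitB m n (a - k * (2 * (m + n)))
      (b - k * (2 * (m + n))) v r) := by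
  apply Pr_congr
  intro F _
  unfold HitB OnV
  have h1 : ∀ u, VA m n a b u F ↔
      VA m n (a - k * (2 * (m + n))) (b - k * (2 * (m + n))) u F := by
    intro u
    constructor
    · rintro ⟨i, hi, hr⟩
      refine ⟨i - k * (2 * (m + n)), ⟨by omega, by omega⟩, ?_⟩
      rw [← bd_period m n (i - k * (2 * (m + n))) k, sub_add_cancel]
      exact hr
    · rintro ⟨i, hi, hr⟩
      refine ⟨i + k * (2 * (m + n)), ⟨by omega, by omega⟩, ?_⟩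
      rw [bd_period m n i k]
      exact hr
  have h2 : ∀ f, FB m n a b f F ↔
      FB m n (a - k * (2 * (m + n))) (b - k * (2 * (m + n))) f F := by
    intro f
    constructor
    · rintro ⟨i, hi, hr⟩
      refine ⟨i - k * (2 * (m + n)), ⟨by omega, by omega⟩, ?_⟩
      rw [← DPar.ofc_period m n (i - k * (2 * (m + n))) k, sub_add_cancel]
      exact hr
    · rintro ⟨i, hi, hr⟩
      refine ⟨i + k * (2 * (m + n)), ⟨by omega, by omega⟩, ?_⟩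
      rw [DPar.ofc_period m n i k]
      exact hr
  simp only [h1, h2]

/-- Equivalence of two vertices under a rotation. -/
def EqvH (m n s m' n' : ℤ) (v v' : Vtx) : Prop :=
  (0 ≤ v'.1 ∧ v'.1 ≤ m') ∧ (0 ≤ v'.2 ∧ v'.2 ≤ n') ∧
    ((px m' v' = px m v ∧ py n' v' = py n v) ∨ (px m' v' = py n v ∧ py n' v' = px m v)) ∧
    (∀ a b r, P2 (RE 0 m 0 n) (HitB m n a b v r) =
      P2 (RE 0 m' 0 n') (HitB m' n' (a - s) (b - s) v' r)) ∧
    ∀ a b, HH m n a b v = HH m' n' (a - s) (b - s) v'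

theorem EqvH.shift (m n : ℤ) (v : Vtx) (k : ℤ) (h1 : 0 ≤ v.1 ∧ v.1 ≤ m) (h2 : 0 ≤ v.2 ∧ v.2 ≤ n) :
    EqvH m n (k * (2 * (m + n))) m n v v :=
  ⟨h1, h2, Or.inl ⟨rfl, rfl⟩, fun a b r => HitB_shift m n a b v r k,
    fun a b => HH_shift m n a b v k⟩

theorem EqvH.rot1 {m n s m' n' : ℤ} {v v' : Vtx} (hm : 1 ≤ m') (hn : 1 ≤ n')
    (h : EqvH m n s m' n' v v') : EqvH m n (s + m') n' m' v (v'.2, m' - v'.1) := by
  obtain ⟨h1, h2, h3, h4, h5⟩ := h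
  have e : (rot m').ψ v' = (v'.2, m' - v'.1) := by
    obtain ⟨x, y⟩ := v'
    rw [rot_ψ]
  have e1 : px n' (v'.2, m' - v'.1) = py n' v' := rfl
  have e2 : py m' (v'.2, m' - v'.1) = px m' v' := by
    unfold px py
    simp only
    omega
  refine ⟨h2, ⟨by simp only; omega, by simp only; omega⟩, ?_, ?_, ?_⟩
  · rw [e1, e2]
    rcases h3 with h3 | h3
    · exact Or.inr ⟨h3.2, h3.1⟩
    · exact Or.inl ⟨h3.2, h3.1⟩
  · intro a b r
    rw [h4, HitB_rot hm hn, e]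
    congr 2 <;> ring
  · intro a b
    rw [h5, HH_rot hm hn, e]
    congr 1 <;> ring

end S5

open RO S5

theorem HitB_bottom {m n : ℤ} (hm : 1 ≤ m) (hn : 1 ≤ n) (v : Vtx) (h1 : 0 ≤ v.1 ∧ v.1 ≤ m)
    (h2 : 0 ≤ v.2 ∧ v.2 ≤ n) :
    ∃ (s m' n' x y : ℤ), ((m' = m ∧ n' = n) ∨ (m' = n ∧ n' = m)) ∧
      (y + 1 = min (px m v) (py n v)) ∧ y ≤ x ∧ x + y ≤ m' ∧ 2 * y ≤ n' ∧
      (∀ a b r, P2 (RE 0 m 0 n) (HitB m n a b v r) =
        P2 (RE 0 m' 0 n') (HitB m' n' (a - s) (b - s) (x, y) r)) ∧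
      ∀ a b, HH m n a b v = HH m' n' (a - s) (b - s) (x, y) := by
  obtain ⟨x, y⟩ := v
  simp only at h1 h2
  have hmin : min (px m (x, y)) (py n (x, y)) = min (min x (m - x)) (min y (n - y)) + 1 := by
    unfold px py
    simp only
    omega
  rw [hmin]
  have hs0 := EqvH.shift m n (x, y) 0 h1 h2
  have hs1 := hs0.rot1 hm hn
  have hs2 := hs1.rot1 hn hm
  have hs3 := hs2.rot1 hm hn
  rcases (by omega : (y ≤ x ∧ y ≤ m - x ∧ y ≤ n - y) ∨ (m - x ≤ x ∧ m - x ≤ y ∧ m - x ≤ n - y) ∨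
    (n - y ≤ y ∧ n - y ≤ x ∧ n - y ≤ m - x) ∨ (x ≤ m - x ∧ x ≤ y ∧ x ≤ n - y)) with
    h | h | h | h
  · exact ⟨_, m, n, x, y, Or.inl ⟨rfl, rfl⟩, by omega, by omega, by omega, by omega,
      hs0.2.2.2.1, hs0.2.2.2.2⟩
  · exact ⟨_, n, m, y, m - x, Or.inr ⟨rfl, rfl⟩, by omega, by omega, by omega, by omega,
      hs1.2.2.2.1, hs1.2.2.2.2⟩
  · exact ⟨_, m, n, m - x, n - y, Or.inl ⟨rfl, rfl⟩, by omega, by omega, by omega, by omega,
      hs2.2.2.2.1, hs2.2.2.2.2⟩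
  · refine ⟨_, n, m, n - y, m - (m - x), Or.inr ⟨rfl, rfl⟩, by omega, by omega, by omega,
      by omega, hs3.2.2.2.1, hs3.2.2.2.2⟩

end H731G
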