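import Pool.Agent.H731R5.Gr.NB
import Pool.Agent.H731R5.Gr.N5
import Pool.Agent.H731R5.Gr.S1
import Pool.Agent.H731R5.Gr.S2
import Pool.Agent.H731R5.Gr.S4
import Pool.Agent.H731R5.Gr.S5

/-!
The exploration path in a rectangle: probability of passing at distance at most `r` of a vertex,
for all vertices and all `r` up to half of the distance to the boundary.
-/

set_option autoImplicit false

namespace H731G

open H974 hiding bd
open H731C H731R H731A Finset

namespace Sc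

theorem HitB_mono {m n a b r r' : ℤ} {v : Vtx} (h : r ≤ r') {F : Finset Edg}
    (hF : HitB m n a b v r F) : HitB m n a b v r' F := by
  obtain ⟨u, ⟨h1, h2⟩, h3⟩ := hF
  exact ⟨u, ⟨h1.trans h, h2.trans h⟩, h3⟩

theorem OnV_HitB {m n a b r : ℤ} {v : Vtx} (h : 0 ≤ r) {F : Finset Edg}
    (hF : OnV m n a b v F) : HitB m n a b v r F :=
  ⟨v, ⟨by simpa using h, by simpa using h⟩, hF⟩

theorem OnV_rect {m n a b : ℤ} (hm : 1 ≤ m) (hn : 1 ≤ n) {v : Vtx} {F : Finset Edg}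
    (h : OnV m n a b v F) : (0 ≤ v.1 ∧ v.1 ≤ m) ∧ (0 ≤ v.2 ∧ v.2 ≤ n) := by
  obtain ⟨⟨i, -, hr⟩, -⟩ := h
  have := reach_inR (bd_inR hm hn i) hr
  unfold inR at this
  omega

theorem P2_mono' {S : Finset Edg} {A B : Finset Edg → Prop} (h : ∀ F, A F → B F) :
    P2 S A ≤ P2 S B := Pr_mono okhalf2 (fun F _ => h F)

theorem P2_zero {S : Finset Edg} {A : Finset Edg → Prop} (h : ∀ F, ¬ A F) : P2 S A = 0 := by
  unfold P2 Pr
  rw [Ex_congr (g := fun _ => 0) (fun F _ => ind_not_of (h F)), Ex_const]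

/-- quarter power: monotone and multiplicative comparison -/
theorem quart_le {x y k : ℝ} (hx : 0 ≤ x) (hy : 0 ≤ y) (hk : 0 ≤ k) (h : x ≤ k ^ 4 * y) :
    x ^ ((1 : ℝ) / 4) ≤ k * y ^ ((1 : ℝ) / 4) := by
  have h1 : x ^ ((1 : ℝ) / 4) ≤ (k ^ 4 * y) ^ ((1 : ℝ) / 4) :=
    Real.rpow_le_rpow hx h (by norm_num)
  have h2 : (k ^ 4 * y) ^ ((1 : ℝ) / 4) = k * y ^ ((1 : ℝ) / 4) := by
    rw [Real.mul_rpow (by positivity) hy]
    congr 1
    rw [← Real.rpow_natCast k 4, ← Real.rpow_mul hk]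
    norm_num
  rw [← h2]; exact h1

theorem inv_quart {x : ℝ} (hx : 0 < x) : x ^ (-(1/4) : ℝ) = (1 / x) ^ ((1 : ℝ) / 4) := by
  rw [Real.rpow_neg hx.le, one_div x, Real.inv_rpow hx.le]

end Sc

open Sc

/-- Upper bound, small radius. -/
theorem scale_small (hA : H934F.St_A) (K : ℕ) : ∃ C : ℝ, 0 < C ∧ ∀ (m n a b r : ℤ) (v : Vtx),
    m ≤ K * n → n ≤ K * m → a ≤ b → b < a + 2 * (m + n) → 501 ≤ min (px m v) (py n v) →
    (0 ≤ v.1 ∧ v.1 ≤ m) → (0 ≤ v.2 ∧ v.2 ≤ n) →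
    1 ≤ r → 50 * r + 1 ≤ min (px m v) (py n v) →
    P2 (RE 0 m 0 n) (HitB m n a b v r) ≤
      C * (((r : ℝ) / (min (px m v) (py n v) : ℤ)) ^ ((1 : ℝ) / 4) *
        HH m n a b v ^ ((1 : ℝ) / 3)) := by
  obtain ⟨C, hC, up⟩ := H731G.out_upper_bot hA K
  refine ⟨C * 4, by positivity, ?_⟩
  intro m n a b r v hmn hnm hab hba hρ hv1 hv2 hr hr2
  have hv1' : 500 ≤ v.1 ∧ 500 ≤ m - v.1 := by
    have := (le_min_iff.1 hρ).1
    unfold px at this; omega
  have hv2' : 500 ≤ v.2 ∧ 500 ≤ n - v.2 := by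
    have := (le_min_iff.1 hρ).2
    unfold py at this; omega
  obtain ⟨s, m', n', x, y, hmn', hyr, hyx, hxy, hyn, hP, hH⟩ :=
    H731G.HitB_bottom (m := m) (n := n) (by omega) (by omega) v hv1 hv2
  have hmK : m' ≤ K * n' := by rcases hmn' with ⟨rfl, rfl⟩ | ⟨rfl, rfl⟩ <;> assumption
  have hnK : n' ≤ K * m' := by rcases hmn' with ⟨rfl, rfl⟩ | ⟨rfl, rfl⟩ <;> assumption
  have hsum : m' + n' = m + n := by omega
  have hHn : 0 ≤ HH m' n' (a - s) (b - s) (x, y) :=
    HH_nonneg (by omega) (by omega) ⟨by simp only; omega, by simp only; omega⟩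
      ⟨by simp only; omega, by simp only; omega⟩
  have hHp : 0 ≤ HH m' n' (a - s) (b - s) (x, y) ^ ((1 : ℝ) / 3) := Real.rpow_nonneg hHn _
  rw [hP a b r, hH a b]
  have hu := up m' n' (a - s) (b - s) x y (y / 50) r hmK hnK (by omega) (by omega) (by omega)
      (by omega) (by omega) (by omega) (by omega) (by rw [hsum]; omega) hr (by omega)
  refine (P2_mono' (fun F hF => H731G.hit_out (by omega) hF)).trans (hu.trans ?_)
  rw [← hyr]
  have hh : (0 : ℝ) < ((y / 50 : ℤ) : ℝ) := by exact_mod_cast (by omega : (0:ℤ) < y / 50)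
  have hy1 : (0 : ℝ) < ((y + 1 : ℤ) : ℝ) := by exact_mod_cast (by omega : (0:ℤ) < y + 1)
  have hrr : (0 : ℝ) < (r : ℝ) := by exact_mod_cast (by omega : (0:ℤ) < r)
  have h1 : ((r : ℝ) / (y / 50 : ℤ)) ^ ((1 : ℝ) / 4) ≤
      4 * ((r : ℝ) / (y + 1 : ℤ)) ^ ((1 : ℝ) / 4) := by
    apply quart_le (by positivity) (by positivity) (by norm_num)
    rw [div_le_iff₀ hh]
    have e : ((y + 1 : ℤ) : ℝ) ≤ 256 * ((y / 50 : ℤ) : ℝ) := by
      exact_mod_cast (by omega : y + 1 ≤ 256 * (y / 50))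
    have e2 : (4 : ℝ) ^ 4 * (r / ((y + 1 : ℤ) : ℝ)) * ((y / 50 : ℤ) : ℝ) =
        r * (256 * ((y / 50 : ℤ) : ℝ)) / ((y + 1 : ℤ) : ℝ) := by ring
    rw [e2, le_div_iff₀ hy1]
    exact mul_le_mul_of_nonneg_left e hrr.le
  calc C * (((r : ℝ) / (y / 50 : ℤ)) ^ ((1 : ℝ) / 4) *
        HH m' n' (a - s) (b - s) (x, y) ^ ((1 : ℝ) / 3))
      ≤ C * ((4 * ((r : ℝ) / (y + 1 : ℤ)) ^ ((1 : ℝ) / 4)) *
          HH m' n' (a - s) (b - s) (x, y) ^ ((1 : ℝ) / 3)) :=
        mul_le_mul_of_nonneg_left (mul_le_mul_of_nonneg_right h1 hHp) hC.le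
    _ = _ := by ring

/-- Lower bound, small radius. -/
theorem scale_low (hA : H934F.St_A) (hL : H934F.St_L) (K : ℕ) : ∃ c : ℝ, 0 < c ∧
    ∀ (m n a b r : ℤ) (v : Vtx),
    m ≤ K * n → n ≤ K * m → a ≤ b → b < a + 2 * (m + n) → 60000 ≤ min (px m v) (py n v) →
    (0 ≤ v.1 ∧ v.1 ≤ m) → (0 ≤ v.2 ∧ v.2 ≤ n) →
    1 ≤ r → r ≤ (min (px m v) (py n v) - 1) / 5500 →
    c * (((r : ℝ) / (min (px m v) (py n v) : ℤ)) ^ ((1 : ℝ) / 4) *
        HH m n a b v ^ ((1 : ℝ) / 3)) ≤ P2 (RE 0 m 0 n) (HitB m n a b v r) := by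
  obtain ⟨c, hc, lo⟩ := H731G.hit_lower_bot hA hL K
  refine ⟨c, hc, ?_⟩
  intro m n a b r v hmn hnm hab hba hρ hv1 hv2 hr hr2
  have hv1' : 59999 ≤ v.1 ∧ 59999 ≤ m - v.1 := by
    have := (le_min_iff.1 hρ).1
    unfold px at this; omega
  have hv2' : 59999 ≤ v.2 ∧ 59999 ≤ n - v.2 := by
    have := (le_min_iff.1 hρ).2
    unfold py at this; omega
  obtain ⟨s, m', n', x, y, hmn', hyr, hyx, hxy, hyn, hP, hH⟩ :=
    H731G.HitB_bottom (m := m) (n := n) (by omega) (by omega) v hv1 hv2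
  have hmK : m' ≤ K * n' := by rcases hmn' with ⟨rfl, rfl⟩ | ⟨rfl, rfl⟩ <;> assumption
  have hnK : n' ≤ K * m' := by rcases hmn' with ⟨rfl, rfl⟩ | ⟨rfl, rfl⟩ <;> assumption
  have hsum : m' + n' = m + n := by omega
  have hHn : 0 ≤ HH m' n' (a - s) (b - s) (x, y) :=
    HH_nonneg (by omega) (by omega) ⟨by simp only; omega, by simp only; omega⟩
      ⟨by simp only; omega, by simp only; omega⟩
  have hHp : 0 ≤ HH m' n' (a - s) (b - s) (x, y) ^ ((1 : ℝ) / 3) := Real.rpow_nonneg hHn _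
  rw [← hyr] at hr2
  rw [hP a b r, hH a b, ← hyr]
  have hu := lo m' n' (a - s) (b - s) x y (y / 5500) r hmK hnK (by omega) (by omega) (by omega)
      (by omega) (by omega) (by omega) (by omega) (by rw [hsum]; omega) hr (by omega)
  refine le_trans ?_ hu
  have hh : (0 : ℝ) < ((y / 5500 : ℤ) : ℝ) := by exact_mod_cast (by omega : (0:ℤ) < y / 5500)
  have hy1 : (0 : ℝ) < ((y + 1 : ℤ) : ℝ) := by exact_mod_cast (by omega : (0:ℤ) < y + 1)
  have hrr : (0 : ℝ) < (r : ℝ) := by exact_mod_cast (by omega : (0:ℤ) < r)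
  have h1 : ((r : ℝ) / (y + 1 : ℤ)) ^ ((1 : ℝ) / 4) ≤
      ((r : ℝ) / (y / 5500 : ℤ)) ^ ((1 : ℝ) / 4) := by
    apply Real.rpow_le_rpow (by positivity) _ (by norm_num)
    apply div_le_div_of_nonneg_left hrr.le hh
    exact_mod_cast (by omega : y / 5500 ≤ y + 1)
  exact mul_le_mul_of_nonneg_left (mul_le_mul_of_nonneg_right h1 hHp) hc.le

theorem HH_third_near {C : ℝ} (hC : 0 ≤ C) {h h' : ℝ} (h0 : 0 ≤ h) (h1 : 0 ≤ h')
    (hle : h' ≤ C * h) : h' ^ ((1 : ℝ) / 3) ≤ C ^ ((1 : ℝ) / 3) * h ^ ((1 : ℝ) / 3) :=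
  NB.third_le h1 h0 hC hle

/-- **One-point estimate at all scales**, for all vertices of the rectangle. -/
theorem green_scale (hA : H934F.St_A) (hL : H934F.St_L) (K : ℕ) : ∃ (c C : ℝ), 0 < c ∧ 0 < C ∧
    ∀ (m n a b r : ℤ) (v : Vtx), 1 ≤ m → 1 ≤ n → m ≤ K * n → n ≤ K * m → a ≤ b →
    b < a + 2 * (m + n) → (0 ≤ v.1 ∧ v.1 ≤ m) → (0 ≤ v.2 ∧ v.2 ≤ n) → 0 ≤ r →
    2 * r ≤ min (px m v) (py n v) →
    c * ((((r + 1 : ℤ) : ℝ) / (min (px m v) (py n v) : ℤ)) ^ ((1 : ℝ) / 4) *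
        HH m n a b v ^ ((1 : ℝ) / 3)) ≤ P2 (RE 0 m 0 n) (HitB m n a b v r) ∧
      P2 (RE 0 m 0 n) (HitB m n a b v r) ≤
        C * ((((r + 1 : ℤ) : ℝ) / (min (px m v) (py n v) : ℤ)) ^ ((1 : ℝ) / 4) *
          HH m n a b v ^ ((1 : ℝ) / 3)) := by
  obtain ⟨c1, C1, hc1, hC1, hnear⟩ := near_bounds K 120002
  obtain ⟨c2, C2, hc2, hC2, hgreen⟩ := green' hA hL K
  obtain ⟨C3, hC3, hsmall⟩ := scale_small hA K
  obtain ⟨c4, hc4, hlow⟩ := scale_low hA hL K
  obtain ⟨C5, hC5, hHn⟩ := H731G.HH_near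
  have hT : 0 < C5 ^ ((1 : ℝ) / 3) := by positivity
  refine ⟨min (min c1 c2) (c4 / 10),
    max (max (16 * (120005 ^ 2 * (C1 * C5 ^ ((1 : ℝ) / 3)))) (2 * C3))
      (3 * (407 ^ 2 * (C3 * C5 ^ ((1 : ℝ) / 3)))),
    lt_min (lt_min hc1 hc2) (by positivity), lt_max_of_lt_right (by positivity), ?_⟩
  intro m n a b r v hm hn h1 h2 hab hba hv1 hv2 hr hrρ
  have hpx := px_pos hv1.1 hv1.2
  have hpy := py_pos hv2.1 hv2.2
  have hρ1 : 1 ≤ min (px m v) (py n v) := le_min hpx hpy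
  have hnv := fun w => hHn m n a b v w hm hn hv1 hv2
  set ρ := min (px m v) (py n v) with hρ
  set H := HH m n a b v with hH
  have hH0 : 0 ≤ H := HH_nonneg hm hn hv1 hv2
  have hH3 : 0 ≤ H ^ ((1 : ℝ) / 3) := Real.rpow_nonneg hH0 _
  have hρR : (0 : ℝ) < (ρ : ℝ) := by exact_mod_cast (by omega : (0:ℤ) < ρ)
  have hr1R : (0 : ℝ) < ((r + 1 : ℤ) : ℝ) := by exact_mod_cast (by omega : (0:ℤ) < r + 1)
  have hq0 : (0 : ℝ) < ((r + 1 : ℤ) : ℝ) / (ρ : ℝ) := by positivity
  have hq1 : ((r + 1 : ℤ) : ℝ) / (ρ : ℝ) ≤ 1 := by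
    rw [div_le_one hρR]; exact_mod_cast (by omega : r + 1 ≤ ρ)
  set q := (((r + 1 : ℤ) : ℝ) / (ρ : ℝ)) ^ ((1 : ℝ) / 4) with hq
  have hqp : 0 < q := by positivity
  have hqle : q ≤ 1 := by
    rw [hq]
    calc _ ≤ (1 : ℝ) ^ ((1 : ℝ) / 4) := Real.rpow_le_rpow hq0.le hq1 (by norm_num)
      _ = 1 := Real.one_rpow _
  have hqH : 0 ≤ q * H ^ ((1 : ℝ) / 3) := by positivity
  constructor
  · -- lower bound
    rcases le_or_gt ρ 60001 with hs | hs
    · have e1 := (hnear m n a b v hm hn h1 h2 hab hba hv1 hv2 (by push_cast; omega)).1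
      refine le_trans ?_ (e1.trans (P2_mono' (fun F hF => OnV_HitB hr hF)))
      calc _ ≤ c1 * (q * H ^ ((1 : ℝ) / 3)) :=
            mul_le_mul_of_nonneg_right ((min_le_left _ _).trans (min_le_left _ _)) hqH
        _ ≤ c1 * (1 * H ^ ((1 : ℝ) / 3)) :=
            mul_le_mul_of_nonneg_left (mul_le_mul_of_nonneg_right hqle hH3) hc1.le
        _ = _ := by ring
    · rcases eq_or_lt_of_le hr with hr0 | hr0
      · subst hr0
        have e1 := (hgreen m n a b v h1 h2 hab hba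
          (by have := min_le_left (px m v) (py n v); omega)
          (by have := min_le_right (px m v) (py n v); omega)).1
        refine le_trans ?_ (e1.trans (P2_mono' (fun F hF => OnV_HitB le_rfl hF)))
        rw [← hρ, inv_quart hρR]
        have e2 : (1 / (ρ : ℝ)) ^ ((1 : ℝ) / 4) = q := by
          rw [hq]; norm_num
        rw [e2]
        exact mul_le_mul_of_nonneg_right ((min_le_left _ _).trans (min_le_right _ _)) hqH
      · rcases le_or_gt r ((ρ - 1) / 5500) with hrs | hrs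
        · have e1 := hlow m n a b r v h1 h2 hab hba (by omega) hv1 hv2 (by omega) hrs
          refine le_trans ?_ e1
          have hrR : (0 : ℝ) < (r : ℝ) := by exact_mod_cast hr0
          have e2 : q ≤ 10 * ((r : ℝ) / (ρ : ℝ)) ^ ((1 : ℝ) / 4) := by
            apply quart_le hq0.le (by positivity) (by norm_num)
            rw [div_le_iff₀ hρR]
            have e3 : (10 : ℝ) ^ 4 * ((r : ℝ) / (ρ : ℝ)) * (ρ : ℝ) = 10 ^ 4 * r := by
              field_simp
            rw [e3]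
            exact_mod_cast (by omega : r + 1 ≤ 10 ^ 4 * r)
          calc _ ≤ c4 / 10 * (q * H ^ ((1 : ℝ) / 3)) :=
                mul_le_mul_of_nonneg_right (min_le_right _ _) hqH
            _ ≤ c4 / 10 * ((10 * ((r : ℝ) / (ρ : ℝ)) ^ ((1 : ℝ) / 4)) * H ^ ((1 : ℝ) / 3)) :=
                mul_le_mul_of_nonneg_left (mul_le_mul_of_nonneg_right e2 hH3) (by positivity)
            _ = _ := by ring
        · have e1 := hlow m n a b ((ρ - 1) / 5500) v h1 h2 hab hba (by omega) hv1 hv2 (by omega)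
            le_rfl
          refine le_trans ?_ (e1.trans (P2_mono' (fun F hF => HitB_mono (by omega) hF)))
          have hrR : (0 : ℝ) < (((ρ - 1) / 5500 : ℤ) : ℝ) := by
            exact_mod_cast (by omega : 0 < (ρ - 1) / 5500)
          have e2 : q ≤ 10 * ((((ρ - 1) / 5500 : ℤ) : ℝ) / (ρ : ℝ)) ^ ((1 : ℝ) / 4) := by
            apply quart_le hq0.le (by positivity) (by norm_num)
            rw [div_le_iff₀ hρR]
            have e3 : (10 : ℝ) ^ 4 * ((((ρ - 1) / 5500 : ℤ) : ℝ) / (ρ : ℝ)) * (ρ : ℝ) =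
                10 ^ 4 * (((ρ - 1) / 5500 : ℤ) : ℝ) := by
              field_simp
            rw [e3]
            exact_mod_cast (by omega : r + 1 ≤ 10 ^ 4 * ((ρ - 1) / 5500))
          calc _ ≤ c4 / 10 * (q * H ^ ((1 : ℝ) / 3)) :=
                mul_le_mul_of_nonneg_right (min_le_right _ _) hqH
            _ ≤ c4 / 10 * ((10 * ((((ρ - 1) / 5500 : ℤ) : ℝ) / (ρ : ℝ)) ^ ((1 : ℝ) / 4)) *
                  H ^ ((1 : ℝ) / 3)) :=
                mul_le_mul_of_nonneg_left (mul_le_mul_of_nonneg_right e2 hH3) (by positivity)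
            _ = _ := by ring
  · -- upper bound
    rcases le_or_gt ρ 60001 with hs | hs
    · -- near the boundary: union bound
      have e1 : P2 (RE 0 m 0 n) (HitB m n a b v r) ≤
          ∑ u ∈ (Finset.Icc (v.1 - r) (v.1 + r) ×ˢ Finset.Icc (v.2 - r) (v.2 + r)),
            P2 (RE 0 m 0 n) (OnV m n a b u) := by
        refine le_trans (P2_mono' (B := fun F => ∃ u ∈ (Finset.Icc (v.1 - r) (v.1 + r) ×ˢ
          Finset.Icc (v.2 - r) (v.2 + r)), OnV m n a b u F) ?_) (Pr_exists_le okhalf2 _ _ _)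
        rintro F ⟨u, ⟨g1, g2⟩, g3⟩
        refine ⟨u, ?_, g3⟩
        rw [Finset.mem_product, Finset.mem_Icc, Finset.mem_Icc]
        rw [abs_le] at g1 g2
        omega
      have e2 : ∀ u ∈ (Finset.Icc (v.1 - r) (v.1 + r) ×ˢ Finset.Icc (v.2 - r) (v.2 + r)),
          P2 (RE 0 m 0 n) (OnV m n a b u) ≤ C1 * C5 ^ ((1 : ℝ) / 3) * H ^ ((1 : ℝ) / 3) := by
        intro u hu
        rw [Finset.mem_product, Finset.mem_Icc, Finset.mem_Icc] at hu
        by_cases hR : (0 ≤ u.1 ∧ u.1 ≤ m) ∧ (0 ≤ u.2 ∧ u.2 ≤ n)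
        · obtain ⟨k1, k2, k3, k4⟩ := hnv u
            (by have : |u.1 - v.1| ≤ r := abs_le.2 ⟨by omega, by omega⟩
                omega)
            (by have : |u.2 - v.2| ≤ r := abs_le.2 ⟨by omega, by omega⟩
                omega) hR.1 hR.2
          have k5 := (hnear m n a b u hm hn h1 h2 hab hba hR.1 hR.2 (by push_cast; omega)).2
          have k6 := HH_third_near hC5.le hH0 (HH_nonneg hm hn hR.1 hR.2) k1
          calc _ ≤ C1 * HH m n a b u ^ ((1 : ℝ) / 3) := k5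
            _ ≤ C1 * (C5 ^ ((1 : ℝ) / 3) * H ^ ((1 : ℝ) / 3)) :=
                mul_le_mul_of_nonneg_left k6 hC1.le
            _ = _ := by ring
        · rw [P2_zero (fun F hF => hR (OnV_rect hm hn hF))]
          positivity
      have e3 := Finset.sum_le_sum e2
      rw [Finset.sum_const, Finset.card_product, Int.card_Icc, Int.card_Icc, nsmul_eq_mul] at e3
      have e4 : (((v.1 + r + 1 - (v.1 - r)).toNat * (v.2 + r + 1 - (v.2 - r)).toNat : ℕ) : ℝ) ≤
          120005 ^ 2 := by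
        have g1 : (v.1 + r + 1 - (v.1 - r)).toNat ≤ 120005 := by omega
        have g2 : (v.2 + r + 1 - (v.2 - r)).toNat ≤ 120005 := by omega
        have g3 : (v.1 + r + 1 - (v.1 - r)).toNat * (v.2 + r + 1 - (v.2 - r)).toNat ≤
            120005 ^ 2 := by
          calc _ ≤ 120005 * 120005 := Nat.mul_le_mul g1 g2
            _ = 120005 ^ 2 := by norm_num
        exact_mod_cast g3
      have e5 : (1 : ℝ) ≤ 16 * q := by
        have : (1 : ℝ) ^ ((1 : ℝ) / 4) ≤ 16 * q := by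
          rw [hq]
          apply quart_le (by norm_num) hq0.le (by norm_num)
          have : (1 : ℝ) / 65536 ≤ ((r + 1 : ℤ) : ℝ) / (ρ : ℝ) := by
            rw [div_le_div_iff₀ (by norm_num) hρR]
            exact_mod_cast (by omega : 1 * ρ ≤ (r + 1) * 65536)
          norm_num at this ⊢
          linarith
        simpa using this
      calc _ ≤ _ := e1
        _ ≤ _ := e3
        _ ≤ 120005 ^ 2 * (C1 * C5 ^ ((1 : ℝ) / 3) * H ^ ((1 : ℝ) / 3)) :=
            mul_le_mul_of_nonneg_right e4 (by positivity)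
        _ = 1 * (120005 ^ 2 * (C1 * C5 ^ ((1 : ℝ) / 3)) * H ^ ((1 : ℝ) / 3)) := by ring
        _ ≤ (16 * q) * (120005 ^ 2 * (C1 * C5 ^ ((1 : ℝ) / 3)) * H ^ ((1 : ℝ) / 3)) :=
            mul_le_mul_of_nonneg_right e5 (by positivity)
        _ = 16 * (120005 ^ 2 * (C1 * C5 ^ ((1 : ℝ) / 3))) * (q * H ^ ((1 : ℝ) / 3)) := by ring
        _ ≤ _ := mul_le_mul_of_nonneg_right ((le_max_left _ _).trans (le_max_left _ _)) hqH
    · rcases le_or_gt (50 * (r + 1) + 1) ρ with hrs | hrs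
      · have e1 := hsmall m n a b (r + 1) v h1 h2 hab hba (by omega) hv1 hv2 (by omega) hrs
        refine (P2_mono' (fun F hF => HitB_mono (by omega : r ≤ r + 1) hF)).trans (e1.trans ?_)
        refine mul_le_mul_of_nonneg_right ?_ hqH
        calc C3 ≤ 2 * C3 := by linarith
          _ ≤ _ := (le_max_right _ _).trans (le_max_left _ _)
      · -- covering
        obtain ⟨s, hs1, hs2⟩ : ∃ s : ℤ, s = ρ / 200 ∧ 300 ≤ s := ⟨ρ / 200, rfl, by omega⟩
        obtain ⟨t, ht1, ht2, ht3⟩ : ∃ t : ℤ, t = r / s ∧ 0 ≤ t ∧ t ≤ 101 := by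
          refine ⟨r / s, rfl, Int.ediv_nonneg hr (by omega), ?_⟩
          have : r < 102 * s := by omega
          have := Int.ediv_lt_of_lt_mul (by omega : 0 < s) this
          omega
        have hts : t * s ≤ r := by rw [ht1]; exact Int.ediv_mul_le r (by omega)
        have e1 : P2 (RE 0 m 0 n) (HitB m n a b v r) ≤
            ∑ p ∈ (Finset.Icc (-t - 1) (t + 1) ×ˢ Finset.Icc (-t - 1) (t + 1)).filter
                (fun p : ℤ × ℤ => |p.1 * s| ≤ r ∧ |p.2 * s| ≤ r),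
              P2 (RE 0 m 0 n) (HitB m n a b (v.1 + p.1 * s, v.2 + p.2 * s) s) := by
          refine le_trans (P2_mono' (B := fun F => ∃ p ∈ (Finset.Icc (-t - 1) (t + 1) ×ˢ
            Finset.Icc (-t - 1) (t + 1)).filter
                (fun p : ℤ × ℤ => |p.1 * s| ≤ r ∧ |p.2 * s| ≤ r),
            HitB m n a b (v.1 + p.1 * s, v.2 + p.2 * s) s F) ?_) (Pr_exists_le okhalf2 _ _ _)
          rintro F ⟨u, ⟨g1, g2⟩, g3⟩
          have key : ∀ z : ℤ, |z| ≤ r → ∃ i : ℤ, (-t - 1 ≤ i ∧ i ≤ t + 1) ∧ |i * s| ≤ r ∧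
              |z - i * s| ≤ s := by
            intro z hz
            rcases le_or_gt 0 z with h0 | h0
            · rw [abs_of_nonneg h0] at hz
              have a1 := Int.ediv_mul_le z (by omega : s ≠ 0)
              have a2 := Int.lt_ediv_add_one_mul_self z (by omega : 0 < s)
              have a3 : 0 ≤ z / s := Int.ediv_nonneg h0 (by omega)
              have a4 : z / s ≤ t := by rw [ht1]; exact Int.ediv_le_ediv (by omega) hz
              refine ⟨z / s, ⟨by omega, by omega⟩, ?_, ?_⟩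
              · rw [abs_of_nonneg (by positivity)]; omega
              · rw [abs_le]; constructor <;> linarith
            · rw [abs_of_neg h0] at hz
              have a1 := Int.ediv_mul_le (-z) (by omega : s ≠ 0)
              have a2 := Int.lt_ediv_add_one_mul_self (-z) (by omega : 0 < s)
              have a3 : 0 ≤ (-z) / s := Int.ediv_nonneg (by omega) (by omega)
              have a4 : (-z) / s ≤ t := by rw [ht1]; exact Int.ediv_le_ediv (by omega) hz
              refine ⟨-((-z) / s), ⟨by omega, by omega⟩, ?_, ?_⟩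
              · rw [neg_mul, abs_neg, abs_of_nonneg (by positivity)]; omega
              · rw [abs_le]; constructor <;> linarith
          obtain ⟨i, hi1, hi2, hi3⟩ := key (u.1 - v.1) g1
          obtain ⟨j, hj1, hj2, hj3⟩ := key (u.2 - v.2) g2
          refine ⟨(i, j), ?_, u, ⟨?_, ?_⟩, g3⟩
          · rw [Finset.mem_filter, Finset.mem_product, Finset.mem_Icc, Finset.mem_Icc]
            exact ⟨⟨hi1, hj1⟩, hi2, hj2⟩
          · have : u.1 - (v.1 + i * s) = u.1 - v.1 - i * s := by ring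
            simp only [this]; exact hi3
          · have : u.2 - (v.2 + j * s) = u.2 - v.2 - j * s := by ring
            simp only [this]; exact hj3
        have e2 : ∀ p ∈ (Finset.Icc (-t - 1) (t + 1) ×ˢ Finset.Icc (-t - 1) (t + 1)).filter
                (fun p : ℤ × ℤ => |p.1 * s| ≤ r ∧ |p.2 * s| ≤ r),
            P2 (RE 0 m 0 n) (HitB m n a b (v.1 + p.1 * s, v.2 + p.2 * s) s) ≤
              C3 * C5 ^ ((1 : ℝ) / 3) * H ^ ((1 : ℝ) / 3) := by
          intro p hp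
          rw [Finset.mem_filter] at hp
          obtain ⟨-, hp1, hp2⟩ := hp
          have hx1 : px m v - 1 ≤ v.1 ∧ px m v - 1 ≤ m - v.1 := by unfold px; omega
          have hy1 : py n v - 1 ≤ v.2 ∧ py n v - 1 ≤ n - v.2 := by unfold py; omega
          have hρx : ρ ≤ px m v := min_le_left _ _
          have hρy : ρ ≤ py n v := min_le_right _ _
          have hp1' := abs_le.1 hp1
          have hp2' := abs_le.1 hp2
          have w1 : 0 ≤ v.1 + p.1 * s ∧ v.1 + p.1 * s ≤ m := by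
            constructor <;> linarith
          have w2 : 0 ≤ v.2 + p.2 * s ∧ v.2 + p.2 * s ≤ n := by
            constructor <;> linarith
          obtain ⟨k1, k2, k3, k4⟩ := hnv (v.1 + p.1 * s, v.2 + p.2 * s)
            (by simp only [add_sub_cancel_left]; omega)
            (by simp only [add_sub_cancel_left]; omega) w1 w2
          have k5 := hsmall m n a b s (v.1 + p.1 * s, v.2 + p.2 * s) h1 h2 hab hba (by omega) w1 w2
            (by omega) (by omega)
          have k6 := HH_third_near hC5.le hH0 (HH_nonneg hm hn w1 w2) k1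
          set ρ' := min (px m (v.1 + p.1 * s, v.2 + p.2 * s))
            (py n (v.1 + p.1 * s, v.2 + p.2 * s)) with hρ'
          have hρ'R : (0 : ℝ) < (ρ' : ℝ) := by exact_mod_cast (by omega : 0 < ρ')
          have hsR : (0 : ℝ) < (s : ℝ) := by exact_mod_cast (by omega : 0 < s)
          have k7 : ((s : ℝ) / (ρ' : ℝ)) ^ ((1 : ℝ) / 4) ≤ 1 := by
            calc _ ≤ (1 : ℝ) ^ ((1 : ℝ) / 4) := by
                  apply Real.rpow_le_rpow (by positivity) _ (by norm_num)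
                  rw [div_le_one hρ'R]; exact_mod_cast (by omega : s ≤ ρ')
              _ = 1 := Real.one_rpow _
          have k8 : 0 ≤ HH m n a b (v.1 + p.1 * s, v.2 + p.2 * s) ^ ((1 : ℝ) / 3) :=
            Real.rpow_nonneg (HH_nonneg hm hn w1 w2) _
          calc _ ≤ _ := k5
            _ ≤ C3 * (1 * HH m n a b (v.1 + p.1 * s, v.2 + p.2 * s) ^ ((1 : ℝ) / 3)) :=
                mul_le_mul_of_nonneg_left (mul_le_mul_of_nonneg_right k7 k8) hC3.le
            _ = C3 * HH m n a b (v.1 + p.1 * s, v.2 + p.2 * s) ^ ((1 : ℝ) / 3) := by ring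
            _ ≤ C3 * (C5 ^ ((1 : ℝ) / 3) * H ^ ((1 : ℝ) / 3)) :=
                mul_le_mul_of_nonneg_left k6 hC3.le
            _ = _ := by ring
        have e3 := Finset.sum_le_sum e2
        rw [Finset.sum_const, nsmul_eq_mul] at e3
        have e4 : (((Finset.Icc (-t - 1) (t + 1) ×ˢ Finset.Icc (-t - 1) (t + 1)).filter
            (fun p : ℤ × ℤ => |p.1 * s| ≤ r ∧ |p.2 * s| ≤ r)).card : ℝ) ≤ 407 ^ 2 := by
          have g0 := Finset.card_filter_le (Finset.Icc (-t - 1) (t + 1) ×ˢ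
            Finset.Icc (-t - 1) (t + 1)) (fun p : ℤ × ℤ => |p.1 * s| ≤ r ∧ |p.2 * s| ≤ r)
          rw [Finset.card_product, Int.card_Icc] at g0
          have g1 : (t + 1 + 1 - (-t - 1)).toNat ≤ 407 := by omega
          have g3 : ((Finset.Icc (-t - 1) (t + 1) ×ˢ Finset.Icc (-t - 1) (t + 1)).filter
            (fun p : ℤ × ℤ => |p.1 * s| ≤ r ∧ |p.2 * s| ≤ r)).card ≤ 407 ^ 2 := by
            calc _ ≤ _ := g0
              _ ≤ 407 * 407 := Nat.mul_le_mul g1 g1
              _ = 407 ^ 2 := by norm_num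
          exact_mod_cast g3
        have e5 : (1 : ℝ) ≤ 3 * q := by
          have : (1 : ℝ) ^ ((1 : ℝ) / 4) ≤ 3 * q := by
            rw [hq]
            apply quart_le (by norm_num) hq0.le (by norm_num)
            have : (1 : ℝ) / 81 ≤ ((r + 1 : ℤ) : ℝ) / (ρ : ℝ) := by
              rw [div_le_div_iff₀ (by norm_num) hρR]
              exact_mod_cast (by omega : 1 * ρ ≤ (r + 1) * 81)
            norm_num at this ⊢
            linarith
          simpa using this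
        calc _ ≤ _ := e1
          _ ≤ _ := e3
          _ ≤ 407 ^ 2 * (C3 * C5 ^ ((1 : ℝ) / 3) * H ^ ((1 : ℝ) / 3)) :=
              mul_le_mul_of_nonneg_right e4 (by positivity)
          _ = 1 * (407 ^ 2 * (C3 * C5 ^ ((1 : ℝ) / 3)) * H ^ ((1 : ℝ) / 3)) := by ring
          _ ≤ (3 * q) * (407 ^ 2 * (C3 * C5 ^ ((1 : ℝ) / 3)) * H ^ ((1 : ℝ) / 3)) :=
              mul_le_mul_of_nonneg_right e5 (by positivity)
          _ = 3 * (407 ^ 2 * (C3 * C5 ^ ((1 : ℝ) / 3))) * (q * H ^ ((1 : ℝ) / 3)) := by ring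
          _ ≤ _ := mul_le_mul_of_nonneg_right (le_max_right _ _) hqH

end H731G
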