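import Pool.Agent.H731R5.Gr.Q1
import Pool.Agent.H731R5.Gr.Q2
import Pool.Agent.H731R5.Gr.Q3
import Pool.Agent.H731R5.Gr.Q4
import Pool.Agent.H731R5.Gr.Q5
import Pool.Agent.H731R5.Gr.HPDefs2
import Pool.Agent.H731R5.Gr.HPfin
import Pool.Agent.H731R5.Gr.Sc

/-!
The exploration path in the half-plane, at all scales.
-/

set_option autoImplicit false

namespace H731G

open H974 hiding bd
open H731C H731R H731A Finset H389KP MeasureTheory

namespace HPf

theorem HRHit_mono {M r r' : ℤ} {v : Vtx} (h : r ≤ r') {F : Finset Edg}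
    (hF : HRHit M v r F) : HRHit M v r' F := by
  obtain ⟨u, ⟨h1, h2⟩, h3⟩ := hF
  exact ⟨u, ⟨h1.trans h, h2.trans h⟩, h3⟩

theorem HR_HRHit {M r : ℤ} {v : Vtx} (h : 0 ≤ r) {F : Finset Edg}
    (hF : HR M v F) : HRHit M v r F :=
  ⟨v, ⟨by simpa using h, by simpa using h⟩, hF⟩

theorem third_le' {x y k : ℝ} (hx : 0 ≤ x) (hy : 0 ≤ y) (hk : 0 ≤ k) (h : x ≤ k * y) :
    x ^ ((1 : ℝ) / 3) ≤ k ^ ((1 : ℝ) / 3) * y ^ ((1 : ℝ) / 3) := by
  rw [← Real.mul_rpow hk hy]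
  exact Real.rpow_le_rpow hx h (by norm_num)

theorem quart_le' {x y k : ℝ} (hx : 0 ≤ x) (hy : 0 ≤ y) (hk : 0 ≤ k) (h : x ≤ k * y) :
    x ^ ((1 : ℝ) / 4) ≤ k ^ ((1 : ℝ) / 4) * y ^ ((1 : ℝ) / 4) := by
  rw [← Real.mul_rpow hk hy]
  exact Real.rpow_le_rpow hx h (by norm_num)

end HPf

open HPf

/-- **The half-plane at all scales.** -/
theorem half_green_scale (hA : H934F.St_A) (hL : H934F.St_L) : ∃ (c C : ℝ), 0 < c ∧ 0 < C ∧
    ∀ (x : ℤ) (y r : ℕ), 1 ≤ y → 2 * r ≤ y →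
    c * ((((r : ℝ) + 1) / y) ^ ((1 : ℝ) / 4) *
        ((y : ℝ) / (((|x| + y : ℤ)) : ℝ)) ^ ((1 : ℝ) / 3)) ≤ perc.real {ω | VisB ω x y r} ∧
      perc.real {ω | VisB ω x y r} ≤
        C * ((((r : ℝ) + 1) / y) ^ ((1 : ℝ) / 4) *
          ((y : ℝ) / (((|x| + y : ℤ)) : ℝ)) ^ ((1 : ℝ) / 3)) := by
  obtain ⟨c1, C1, hc1, hC1, hg⟩ := green_scale hA hL 2
  obtain ⟨C2, hC2, hH⟩ := HH_half
  obtain ⟨c3, r3, hc3, hr3, hlow⟩ := half_rect_low hL
  obtain ⟨c4, r4, hc4, hr4, hhit⟩ := H731G.rect_hit_low hA hL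
  obtain ⟨T, hT1, hT2, hT3⟩ : ∃ T : ℕ, r3 ≤ T ∧ r4 ≤ T ∧ 12 ≤ (T : ℤ) :=
    ⟨(max (max r3 r4) 12).toNat, by omega, by omega, by omega⟩
  obtain ⟨c5, hc5, hnear⟩ := H731G.rect_near_low T
  have hTR : (0 : ℝ) < (T : ℝ) + 1 := by positivity
  have hr4R : (0 : ℝ) < (r4 : ℝ) := by exact_mod_cast (by omega : 0 < r4)
  have hk4 : (0 : ℝ) < (2 * (r4 : ℝ)) ^ ((1 : ℝ) / 4) := by positivity
  have hkT : (0 : ℝ) < ((T : ℝ) + 1) ^ ((1 : ℝ) / 3) := by positivity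
  have hh2 : (0 : ℝ) < (2 : ℝ) ^ ((1 : ℝ) / 3) := by positivity
  have hh4 : (0 : ℝ) < (2 : ℝ) ^ ((1 : ℝ) / 4) := by positivity
  refine ⟨min (min (c3 / 2 ^ ((1 : ℝ) / 3)) (c5 / ((T : ℝ) + 1) ^ ((1 : ℝ) / 3)))
      (min (c4 / 2 ^ ((1 : ℝ) / 3) / 2 ^ ((1 : ℝ) / 4))
        (c4 / 2 ^ ((1 : ℝ) / 3) / (2 * (r4 : ℝ)) ^ ((1 : ℝ) / 4))) / 2,
    2 * (C1 * C2 ^ ((1 : ℝ) / 3)), ?_, by positivity, ?_⟩
  · have : 0 < min (min (c3 / 2 ^ ((1 : ℝ) / 3)) (c5 / ((T : ℝ) + 1) ^ ((1 : ℝ) / 3)))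
      (min (c4 / 2 ^ ((1 : ℝ) / 3) / 2 ^ ((1 : ℝ) / 4))
        (c4 / 2 ^ ((1 : ℝ) / 3) / (2 * (r4 : ℝ)) ^ ((1 : ℝ) / 4))) :=
      lt_min (lt_min (by positivity) (by positivity)) (lt_min (by positivity) (by positivity))
    linarith
  intro x y r hy hry
  have hax : 0 ≤ |x| := abs_nonneg x
  have hyR : (0 : ℝ) < (y : ℝ) := by exact_mod_cast (by omega : 0 < y)
  have hrR : (0 : ℝ) ≤ (r : ℝ) := Nat.cast_nonneg r
  have hzR : (0 : ℝ) < ((|x| + y : ℤ) : ℝ) := by exact_mod_cast (by omega : 0 < |x| + (y : ℤ))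
  have hxx := neg_abs_le x
  have hxx' := le_abs_self x
  set q := (((r : ℝ) + 1) / y) ^ ((1 : ℝ) / 4) with hq
  set g := ((y : ℝ) / (((|x| + y : ℤ)) : ℝ)) ^ ((1 : ℝ) / 3) with hgdef
  have hq0 : 0 < q := by positivity
  have hg0 : 0 < g := by positivity
  have hq1 : q ≤ 1 := by
    rw [hq]
    calc _ ≤ (1 : ℝ) ^ ((1 : ℝ) / 4) := by
          apply Real.rpow_le_rpow (by positivity) _ (by norm_num)
          rw [div_le_one hyR]
          exact_mod_cast (by omega : r + 1 ≤ y)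
      _ = 1 := Real.one_rpow _
  have hg1 : g ≤ 1 := by
    rw [hgdef]
    calc _ ≤ (1 : ℝ) ^ ((1 : ℝ) / 3) := by
          apply Real.rpow_le_rpow (by positivity) _ (by norm_num)
          rw [div_le_one hzR]
          exact_mod_cast (by omega : (y : ℤ) ≤ |x| + y)
      _ = 1 := Real.one_rpow _
  constructor
  · -- lower bound
    obtain ⟨M, hM⟩ : ∃ M : ℕ, (M : ℤ) = 6 * (|x| + y) :=
      ⟨(6 * (|x| + y)).toNat, Int.toNat_of_nonneg (by omega)⟩
    have e1 := H731G.hit_ge (x := x) (y := y) (r := r) (by omega) M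
    have e2 := H731G.hit_low (M := (M : ℤ)) (x := x) (y := (y : ℤ)) (r := (r : ℤ)) (by omega)
      (by omega) (by omega) (by omega) (by omega)
    suffices key : min (min (c3 / 2 ^ ((1 : ℝ) / 3)) (c5 / ((T : ℝ) + 1) ^ ((1 : ℝ) / 3)))
        (min (c4 / 2 ^ ((1 : ℝ) / 3) / 2 ^ ((1 : ℝ) / 4))
          (c4 / 2 ^ ((1 : ℝ) / 3) / (2 * (r4 : ℝ)) ^ ((1 : ℝ) / 4))) * (q * g) ≤
        P2 (RE 0 (2 * (M : ℤ)) 0 (M - 1)) (HRHit M (x + M, (y : ℤ) - 1) r) by
      calc _ = (min (min (c3 / 2 ^ ((1 : ℝ) / 3)) (c5 / ((T : ℝ) + 1) ^ ((1 : ℝ) / 3)))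
        (min (c4 / 2 ^ ((1 : ℝ) / 3) / 2 ^ ((1 : ℝ) / 4))
          (c4 / 2 ^ ((1 : ℝ) / 3) / (2 * (r4 : ℝ)) ^ ((1 : ℝ) / 4))) * (q * g)) / 2 := by ring
        _ ≤ (2 * P2 (VE (-(M : ℤ)) M 0 M) (HHit M (x, (y : ℤ)) r)) / 2 := by
            have := key.trans e2
            linarith
        _ = P2 (VE (-(M : ℤ)) M 0 M) (HHit M (x, (y : ℤ)) r) := by ring
        _ ≤ _ := e1
    have hqg : 0 ≤ q * g := by positivity
    rcases lt_or_ge ((y : ℤ) - 1) T with hs | hs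
    · -- near the boundary
      have e3 := hnear (M : ℤ) x ((y : ℤ) - 1) (by omega) (by omega) (by omega) (by omega)
      refine le_trans ?_ (e3.trans (Sc.P2_mono' (fun F hF => HR_HRHit (by omega) hF)))
      have hx1 : (0 : ℝ) < ((|x| : ℤ) : ℝ) + 1 := by
        exact_mod_cast (by omega : 0 < |x| + 1)
      have k1 : g ≤ ((T : ℝ) + 1) ^ ((1 : ℝ) / 3) *
          ((1 : ℝ) / (((|x| : ℤ) : ℝ) + 1)) ^ ((1 : ℝ) / 3) := by
        apply third_le' (by positivity) (by positivity) hTR.le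
        rw [mul_one_div, div_le_div_iff₀ hzR hx1]
        have a1 : (y : ℝ) ≤ (T : ℝ) + 1 := by exact_mod_cast (by omega : y ≤ T + 1)
        have a2 : ((|x| : ℤ) : ℝ) + 1 ≤ ((|x| + y : ℤ) : ℝ) := by
          exact_mod_cast (by omega : |x| + 1 ≤ |x| + (y : ℤ))
        exact mul_le_mul a1 a2 hx1.le hTR.le
      calc _ ≤ c5 / ((T : ℝ) + 1) ^ ((1 : ℝ) / 3) * (q * g) :=
            mul_le_mul_of_nonneg_right ((min_le_left _ _).trans (min_le_right _ _)) hqg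
        _ ≤ c5 / ((T : ℝ) + 1) ^ ((1 : ℝ) / 3) * (1 * (((T : ℝ) + 1) ^ ((1 : ℝ) / 3) *
          ((1 : ℝ) / (((|x| : ℤ) : ℝ) + 1)) ^ ((1 : ℝ) / 3))) :=
            mul_le_mul_of_nonneg_left (mul_le_mul hq1 k1 hg0.le (by norm_num)) (by positivity)
        _ = _ := by field_simp
    · -- large y
      set y' := (y : ℤ) - 1 with hy'
      have hy1 : (0 : ℝ) < (y' : ℝ) := by
        exact_mod_cast (by omega : (0 : ℤ) < y')
      have hz1 : (0 : ℝ) < (((|x| : ℤ) : ℝ) + (y' : ℝ)) := by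
        exact_mod_cast (by omega : (0 : ℤ) < |x| + y')
      have hyy : (y' : ℝ) ≤ y := by exact_mod_cast (by omega : y' ≤ y)
      have k2 : g / 2 ^ ((1 : ℝ) / 3) ≤
          ((y' : ℝ) / (((|x| : ℤ) : ℝ) + (y' : ℝ))) ^ ((1 : ℝ) / 3) := by
        rw [div_le_iff₀ hh2, mul_comm]
        apply third_le' (by positivity) (by positivity) (by norm_num)
        rw [← mul_div_assoc, div_le_div_iff₀ hzR hz1]
        have a1 : (y : ℝ) ≤ 2 * (y' : ℝ) := by
          exact_mod_cast (by omega : (y : ℤ) ≤ 2 * y')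
        have a2 : (((|x| : ℤ) : ℝ) + (y' : ℝ)) ≤ ((|x| + y : ℤ) : ℝ) := by
          exact_mod_cast (by omega : |x| + y' ≤ |x| + (y : ℤ))
        exact mul_le_mul a1 a2 hz1.le (by positivity)
      have k3 : 0 ≤ ((y' : ℝ) / (((|x| : ℤ) : ℝ) + (y' : ℝ))) ^ ((1 : ℝ) / 3) := by positivity
      rcases Nat.eq_zero_or_pos r with hr0 | hr0
      · have e3 := hlow (M : ℤ) x y' (by omega) (by omega) (by omega)
        refine le_trans ?_ (e3.trans (Sc.P2_mono' (fun F hF => HR_HRHit (by omega) hF)))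
        have k1 : q ≤ (y' : ℝ) ^ (-(1/4) : ℝ) := by
          rw [Sc.inv_quart hy1, hq, hr0]
          apply Real.rpow_le_rpow (by positivity) _ (by norm_num)
          rw [Nat.cast_zero, zero_add]
          exact div_le_div_of_nonneg_left (by norm_num) hy1 hyy
        calc _ ≤ c3 / 2 ^ ((1 : ℝ) / 3) * (q * g) :=
              mul_le_mul_of_nonneg_right ((min_le_left _ _).trans (min_le_left _ _)) hqg
          _ = c3 * (q * (g / 2 ^ ((1 : ℝ) / 3))) := by ring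
          _ ≤ _ := mul_le_mul_of_nonneg_left (mul_le_mul k1 k2 (by positivity)
              (hq0.le.trans k1)) hc3.le
      · rcases le_or_gt (r4 * (r : ℤ)) y' with hrs | hrs
        · have e3 := hhit (M : ℤ) x y' (r : ℤ) (by omega) (by omega) (by omega) (by omega) hrs
          refine le_trans ?_ e3
          have hr0R : (0 : ℝ) < ((r : ℤ) : ℝ) := by exact_mod_cast hr0
          have k1 : q / 2 ^ ((1 : ℝ) / 4) ≤ (((r : ℤ) : ℝ) / (y' : ℝ)) ^ ((1 : ℝ) / 4) := by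
            rw [div_le_iff₀ hh4, mul_comm, hq]
            apply quart_le' (by positivity) (by positivity) (by norm_num)
            rw [← mul_div_assoc, div_le_div_iff₀ hyR hy1]
            have a1 : (r : ℝ) + 1 ≤ 2 * ((r : ℤ) : ℝ) := by
              exact_mod_cast (by omega : (r : ℤ) + 1 ≤ 2 * (r : ℤ))
            exact mul_le_mul a1 hyy hy1.le (by positivity)
          have k4 : 0 ≤ (((r : ℤ) : ℝ) / (y' : ℝ)) ^ ((1 : ℝ) / 4) := by positivity
          calc _ ≤ c4 / 2 ^ ((1 : ℝ) / 3) / 2 ^ ((1 : ℝ) / 4) * (q * g) :=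
                mul_le_mul_of_nonneg_right ((min_le_right _ _).trans (min_le_left _ _)) hqg
            _ = c4 * ((q / 2 ^ ((1 : ℝ) / 4)) * (g / 2 ^ ((1 : ℝ) / 3))) := by ring
            _ ≤ _ := mul_le_mul_of_nonneg_left (mul_le_mul k1 k2 (by positivity) k4) hc4.le
        · have hd1 : 1 ≤ y' / r4 := by
            rw [Int.le_ediv_iff_mul_le (by omega)]; omega
          have hd2 : r4 * (y' / r4) ≤ y' := by
            rw [mul_comm]; exact Int.ediv_mul_le y' (by omega)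
          have hd3 : y' < (y' / r4 + 1) * r4 := Int.lt_ediv_add_one_mul_self y' (by omega)
          have hd4 : y' / r4 ≤ r := by
            have h5 : y' / r4 < r := Int.ediv_lt_of_lt_mul (by omega) (by linarith)
            omega
          have e3 := hhit (M : ℤ) x y' (y' / r4) (by omega) (by omega) (by omega) hd1 hd2
          refine le_trans ?_ (e3.trans (Sc.P2_mono' (fun F hF => HRHit_mono hd4 hF)))
          have hdR : (1 : ℝ) ≤ ((y' / r4 : ℤ) : ℝ) := by exact_mod_cast hd1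
          have k1 : q / (2 * (r4 : ℝ)) ^ ((1 : ℝ) / 4) ≤
              (((y' / r4 : ℤ) : ℝ) / (y' : ℝ)) ^ ((1 : ℝ) / 4) := by
            rw [div_le_iff₀ hk4, mul_comm]
            refine hq1.trans ?_
            have : (1 : ℝ) ^ ((1 : ℝ) / 4) ≤ (2 * (r4 : ℝ)) ^ ((1 : ℝ) / 4) *
                (((y' / r4 : ℤ) : ℝ) / (y' : ℝ)) ^ ((1 : ℝ) / 4) := by
              apply quart_le' (by norm_num) (by positivity) (by positivity)
              rw [← mul_div_assoc, le_div_iff₀ hy1, one_mul]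
              have a1 : (y' : ℝ) ≤ (((y' / r4 : ℤ) : ℝ) + 1) * r4 := by
                exact_mod_cast hd3.le
              nlinarith
            simpa using this
          have k4 : 0 ≤ (((y' / r4 : ℤ) : ℝ) / (y' : ℝ)) ^ ((1 : ℝ) / 4) := by positivity
          calc _ ≤ c4 / 2 ^ ((1 : ℝ) / 3) / (2 * (r4 : ℝ)) ^ ((1 : ℝ) / 4) * (q * g) :=
                mul_le_mul_of_nonneg_right ((min_le_right _ _).trans (min_le_right _ _)) hqg
            _ = c4 * ((q / (2 * (r4 : ℝ)) ^ ((1 : ℝ) / 4)) * (g / 2 ^ ((1 : ℝ) / 3))) := by ring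
            _ ≤ _ := mul_le_mul_of_nonneg_left (mul_le_mul k1 k2 (by positivity) k4) hc4.le
  · -- upper bound
    apply H731G.hit_le (by omega) (4 * (|x| + y)).toNat
    intro M hM
    have hM' : 4 * (|x| + (y : ℤ)) ≤ M := by omega
    have e1 := H731G.hit_up (M := (M : ℤ)) (x := x) (y := (y : ℤ)) (r := (r : ℤ)) (by omega)
      (by omega) (by omega) (by omega) (by omega)
    have p2 : min (px (2 * (M : ℤ)) (x + M, (y : ℤ))) (py (M : ℤ) (x + M, (y : ℤ))) = y + 1 := by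
      unfold px py; simp only; omega
    have e2 := (hg (2 * (M : ℤ)) (M : ℤ) 0 M (r : ℤ) (x + M, (y : ℤ)) (by omega) (by omega)
      (by push_cast; omega) (by push_cast; omega) (by omega) (by omega)
      ⟨by simp only; omega, by simp only; omega⟩ ⟨by simp only; omega, by simp only; omega⟩
      (by omega) (by rw [p2]; omega)).2
    have e3 := hH (M : ℤ) x (y : ℤ) (by omega) hM'
    rw [p2] at e2
    have hHn : 0 ≤ HH (2 * (M : ℤ)) M 0 M (x + M, (y : ℤ)) :=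
      HH_nonneg (by omega) (by omega) ⟨by simp only; omega, by simp only; omega⟩
        ⟨by simp only; omega, by simp only; omega⟩
    have k1 : ((((r : ℤ) + 1 : ℤ) : ℝ) / (((y : ℤ) + 1 : ℤ) : ℝ)) ^ ((1 : ℝ) / 4) ≤ q := by
      rw [hq]
      apply Real.rpow_le_rpow (by positivity) _ (by norm_num)
      push_cast
      apply div_le_div_of_nonneg_left (by positivity) hyR
      linarith
    have k2 : HH (2 * (M : ℤ)) M 0 M (x + M, (y : ℤ)) ^ ((1 : ℝ) / 3) ≤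
        C2 ^ ((1 : ℝ) / 3) * g := by
      rw [hgdef]
      apply third_le' hHn (by positivity) hC2.le
      refine e3.trans (le_of_eq ?_)
      push_cast; rfl
    have k3 : 0 ≤ HH (2 * (M : ℤ)) M 0 M (x + M, (y : ℤ)) ^ ((1 : ℝ) / 3) :=
      Real.rpow_nonneg hHn _
    calc _ ≤ _ := e1
      _ ≤ 2 * (C1 * (((((r : ℤ) + 1 : ℤ) : ℝ) / (((y : ℤ) + 1 : ℤ) : ℝ)) ^ ((1 : ℝ) / 4) *
            HH (2 * (M : ℤ)) M 0 M (x + M, (y : ℤ)) ^ ((1 : ℝ) / 3))) :=
          mul_le_mul_of_nonneg_left e2 (by norm_num)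
      _ ≤ 2 * (C1 * (q * (C2 ^ ((1 : ℝ) / 3) * g))) :=
          mul_le_mul_of_nonneg_left (mul_le_mul_of_nonneg_left
            (mul_le_mul k1 k2 k3 hq0.le) hC1.le) (by norm_num)
      _ = _ := by ring

end H731G
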