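import Pool.Agent.H731R5.Gr.Defs

/-!
Task LM (helper731): mirror image of the two arms of length `L h`.
-/

set_option autoImplicit false

namespace H731G

open H974 hiding bd
open H731C H731R H731A Finset

namespace LM

/-- the reflection of the faces -/
def fr (k : ℤ) (f : Vtx) : Vtx := (k - 1 - f.1, f.2)

theorem dadj {k : ℤ} {F : Set Edg} {f g : Vtx} (h : DAdj F f g) :
    DAdj ((rfx k).φ '' F) (fr k f) (fr k g) := by
  obtain ⟨e, he, hc⟩ := h
  refine ⟨(rfx k).φ e, Set.mem_image_of_mem _ he, ?_⟩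
  obtain ⟨x, y, _ | _⟩ := e
  · rw [rfx_φf]
    simp only [dsrc_false, dtgt_mk] at hc ⊢
    rcases hc with ⟨h1, h2⟩ | ⟨h1, h2⟩
    · right
      rw [← h1, ← h2]
      simp only [fr, Prod.mk.injEq, and_true]
      omega
    · left
      rw [← h1, ← h2]
      simp only [fr, Prod.mk.injEq, and_true]
      omega
  · rw [rfx_φt]
    simp only [dsrc_true, dtgt_mk] at hc ⊢
    rcases hc with ⟨h1, h2⟩ | ⟨h1, h2⟩
    · left
      rw [← h1, ← h2]
      simp only [fr, Prod.mk.injEq, and_true]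
      omega
    · right
      rw [← h1, ← h2]
      simp only [fr, Prod.mk.injEq, and_true]
      omega

theorem dreach {k : ℤ} {F : Set Edg} {f g : Vtx} (h : DReach F f g) :
    DReach ((rfx k).φ '' F) (fr k f) (fr k g) := by
  induction h with
  | refl => exact DReach.refl _ _
  | tail _ hs ih => exact ih.trans (dadj hs).reach

theorem fr_cface (v : Vtx) (s : Bool × Bool) :
    fr (2 * v.1) (H934E.cface v s) = H934E.cface v (!s.1, s.2) := by
  obtain ⟨_ | _, s2⟩ := s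
  · simp only [fr, H934E.cface, Bool.not_false, Prod.mk.injEq, and_true]
    simp only [Bool.false_eq_true, if_false, if_true]
    ring
  · simp only [fr, H934E.cface, Bool.not_true, Prod.mk.injEq, and_true]
    simp only [Bool.false_eq_true, if_false, if_true]
    ring

/-- the mirror image of the arms -/
theorem mirror {s : Bool × Bool} {L h : ℕ} {v : Vtx} {F : Finset Edg}
    (hF : H985IL.LArm s L h v F) :
    RArm (!s.1, s.2) L h v ((rfx (2 * v.1)).mp F) := by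
  obtain ⟨⟨y, hy, r1⟩, g, hg, r2⟩ := hF
  refine ⟨⟨(rfx (2 * v.1)).ψ y, ?_, ?_⟩, fr (2 * v.1) g, ?_, ?_⟩
  · obtain ⟨y1, y2⟩ := y
    simp only at hy
    rw [rfx_ψ]
    simp only
    omega
  · have hR : (rfx (2 * v.1)).mp (RE (v.1 - (L * h : ℕ)) (v.1 + h) (v.2 - h) (v.2 + h)) =
        RE (v.1 - h) (v.1 + (L * h : ℕ)) (v.2 - h) (v.2 + h) := by
      rw [rfx_RE]; congr 1 <;> ring
    have := (sym_reach (rfx (2 * v.1)) hR (F := F) (u := v) (v := y)).mpr r1
    have e : (rfx (2 * v.1)).ψ v = v := by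
      obtain ⟨v1, v2⟩ := v
      rw [rfx_ψ]
      simp only [Prod.mk.injEq, and_true]
      ring
    rw [e] at this
    exact this
  · simp only [fr]
    omega
  · have hR : (rfx (2 * v.1)).mp (RE (v.1 - h) (v.1 + (L * h : ℕ)) (v.2 - h) (v.2 + h)) =
        RE (v.1 - (L * h : ℕ)) (v.1 + h) (v.2 - h) (v.2 + h) := by
      rw [rfx_RE]; congr 1 <;> ring
    have := dreach (k := 2 * v.1) r2
    rw [← LSym.coe_mp, LSym.mp_sdiff, hR, fr_cface] at this
    exact this

/-- the box -/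
noncomputable def Bx (L h : ℕ) (v : Vtx) : Finset Edg :=
  RE (v.1 - (L * h : ℕ)) (v.1 + (L * h : ℕ)) (v.2 - h) (v.2 + h)

theorem Bx_refl (L h : ℕ) (v : Vtx) : (rfx (2 * v.1)).mp (Bx L h v) = Bx L h v := by
  unfold Bx
  rw [rfx_RE]; congr 1 <;> ring

theorem RArm_local {s : Bool × Bool} {L h : ℕ} (h3 : 3 ≤ L) (v : Vtx) (F : Finset Edg) :
    RArm s L h v F ↔ RArm s L h v (F ∩ Bx L h v) := by
  have hL : (h : ℤ) ≤ ((L * h : ℕ) : ℤ) := by
    have : h ≤ L * h := Nat.le_mul_of_pos_left h (by omega)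
    exact_mod_cast this
  have s1 : RE (v.1 - h) (v.1 + (L * h : ℕ)) (v.2 - h) (v.2 + h) ⊆ Bx L h v := by
    unfold Bx
    rintro ⟨x, y, _ | _⟩ h
    · simp only [mem_RE_false] at h ⊢; omega
    · simp only [mem_RE_true] at h ⊢; omega
  have s2 : RE (v.1 - (L * h : ℕ)) (v.1 + h) (v.2 - h) (v.2 + h) ⊆ Bx L h v := by
    unfold Bx
    rintro ⟨x, y, _ | _⟩ h
    · simp only [mem_RE_false] at h ⊢; omega
    · simp only [mem_RE_true] at h ⊢; omega
  unfold RArm
  rw [coe_inter_eq s1, ← H985IL.IL2.sd_inter s2]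

end LM

open LM in
theorem long_arms_mirror (hL : H934F.St_L) (L : ℕ) (h3 : 3 ≤ L) :
    ∃ (c : ℝ) (s : Bool × Bool), 0 < c ∧ ∀ h : ℕ, 1 ≤ h → ∀ (v : Vtx) (S : Finset Edg),
    RE (v.1 - (L * h : ℕ)) (v.1 + (L * h : ℕ)) (v.2 - h) (v.2 + h) ⊆ S →
    c * (h : ℝ) ^ (-(1/4) : ℝ) ≤ P2 S (RArm s L h v) := by
  obtain ⟨c, s, hc, H⟩ := H985IL.long_arms hL L h3
  refine ⟨c, (!s.1, s.2), hc, fun h hh v S hS => ?_⟩
  have h1 := H h hh v (Bx L h v) (Finset.Subset.refl _)
  rw [P2_local (R := Bx L h v) hS (RArm_local h3 v)]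
  refine h1.trans ?_
  have h2 : P2 (Bx L h v) (RArm (!s.1, s.2) L h v) =
      P2 (Bx L h v) (fun F => RArm (!s.1, s.2) L h v ((rfx (2 * v.1)).mp F)) := by
    have := (rfx (2 * v.1)).pr (1/2) (Bx L h v) (RArm (!s.1, s.2) L h v)
    rw [Bx_refl] at this
    exact this
  rw [h2]
  exact Pr_mono okhalf2 (fun F _ hF => mirror hF)

end H731G
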