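import Pool.Agent.H731R5.Gr.Defs2
import Pool.Agent.H731R5.Gr.N1

/-!
Green function, task N2: upper bounds at the vertices near the boundary.
-/

set_option autoImplicit false

namespace H731G

open H974 hiding bd
open H731C H731R H731A Finset

namespace N2

/-- a vertical open path -/
theorem column {G : Set Edg} (x : ℤ) (k : ℕ)
    (h : ∀ t : ℤ, 0 ≤ t → t < k → ((x, t, false) : Edg) ∈ G) : Reach G (x, (k : ℤ)) (x, 0) := by
  induction k with
  | zero => exact Reach.refl _ _
  | succ k ih =>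
    refine Reach.trans (Adj.reach ?_) (ih fun t h1 h2 => h t h1 (by push_cast; omega))
    refine ⟨(x, (k : ℤ), false), h k (by omega) (by push_cast; omega), Or.inr ⟨rfl, ?_⟩⟩
    rw [tgt_false]
    push_cast
    rfl

/-- a vertical dual path -/
theorem dcolumn {G : Set Edg} (p : ℤ) (k : ℕ)
    (h : ∀ t : ℤ, 1 ≤ t → t ≤ k → ((p, t, true) : Edg) ∈ G) : DReach G (p, (k : ℤ)) (p, 0) := by
  induction k with
  | zero => exact DReach.refl _ _
  | succ k ih =>
    refine DReach.trans (DAdj.reach ?_) (ih fun t h1 h2 => h t h1 (by push_cast; omega))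
    refine ⟨(p, ((k + 1 : ℕ) : ℤ), true), h _ (by push_cast; omega) le_rfl,
      Or.inr ⟨?_, rfl⟩⟩
    rw [dsrc_true]
    push_cast
    ext
    · rfl
    · show (k : ℤ) + 1 - 1 = k
      ring

theorem ifc_bot {m n i : ℤ} (_hm : 1 ≤ m) (hn : 1 ≤ n) (h0 : 0 ≤ i) (h1 : i < m) :
    ifc m n i = (i, 0) := by
  unfold ifc
  rw [Int.emod_eq_of_lt h0 (by omega), if_pos h1]

theorem ofc_bot {m n i : ℤ} (_hm : 1 ≤ m) (hn : 1 ≤ n) (h0 : 0 ≤ i) (h1 : i < m) :
    ofc m n i = (i, -1) := by
  unfold ofc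
  rw [Int.emod_eq_of_lt h0 (by omega), if_pos h1]

theorem ofc_m {m n : ℤ} (hm : 1 ≤ m) (hn : 1 ≤ n) : ofc m n m = (m, 0) := by
  unfold ofc
  rw [Int.emod_eq_of_lt (by omega) (by omega), if_neg (by omega), if_pos (by omega), sub_self]

theorem ofc_neg1 {m n : ℤ} (hm : 1 ≤ m) (hn : 1 ≤ n) : ofc m n (-1) = (-1, 0) := by
  have h : ofc m n (-1) = ofc m n (2 * (m + n) - 1) := by
    rw [← ofc_period m n (-1) 1]
    congr 1
    ring
  rw [h]
  unfold ofc
  rw [Int.emod_eq_of_lt (by omega) (by omega), if_neg (by omega), if_neg (by omega),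
    if_neg (by omega)]
  ext
  · rfl
  · show 2 * (m + n) - (2 * (m + n) - 1) - 1 = 0
    ring

/-- the bottom corners of the dual lattice are isolated -/
theorem corner_isolated {m n : ℤ} {G : Set Edg} {g f : Vtx} (hf : f = (-1, -1) ∨ f = (m, -1)) :
    ¬ DAdj (G ∩ ↑(RE 0 m 0 n)) g f := by
  rintro ⟨⟨x, y, _ | _⟩, ⟨-, heR⟩, h⟩
  · rw [Finset.mem_coe, mem_RE_false] at heR
    rw [dsrc_false, dtgt_mk] at h
    rcases hf with rfl | rfl <;> rcases h with ⟨h5, h6⟩ | ⟨h5, h6⟩
    all_goals
      have h7 := congrArg Prod.fst h5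
      have h8 := congrArg Prod.snd h5
      have h9 := congrArg Prod.fst h6
      have h10 := congrArg Prod.snd h6
      simp only at h7 h8 h9 h10
      omega
  · rw [Finset.mem_coe, mem_RE_true] at heR
    rw [dsrc_true, dtgt_mk] at h
    rcases hf with rfl | rfl <;> rcases h with ⟨h5, h6⟩ | ⟨h5, h6⟩
    all_goals
      have h7 := congrArg Prod.fst h5
      have h8 := congrArg Prod.snd h5
      have h9 := congrArg Prod.fst h6
      have h10 := congrArg Prod.snd h6
      simp only at h7 h8 h9 h10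
      omega

theorem corner_ne {m n : ℤ} (hm : 1 ≤ m) (hn : 1 ≤ n) {f : Vtx} (j : ℤ)
    (hf : f = (-1, -1) ∨ f = (m, -1)) : f ≠ ofc m n j := by
  intro h
  obtain ⟨h0, h1⟩ := H731A.DTra.res_cases hm hn j
  unfold ofc at h
  generalize j % (2 * (m + n)) = r at *
  rcases hf with rfl | rfl
  all_goals
    split_ifs at h
    all_goals
      have h7 := congrArg Prod.fst h
      have h8 := congrArg Prod.snd h
      simp only at h7 h8
      omega

/-- a dual path from the free arc to an outer face near the wired arc passes through the inner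
face -/
theorem outer_step {m n a b j i : ℤ} (hm : 1 ≤ m) (hn : 1 ≤ n) {G : Set Edg}
    (h1 : a ≤ i) (h2 : i < b) (h3 : b ≤ j) (h4 : j < a + 2 * (m + n))
    (h : DReach (G ∩ ↑(RE 0 m 0 n)) (ofc m n j) (ofc m n i)) :
    DReach (G ∩ ↑(RE 0 m 0 n)) (ofc m n j) (ifc m n i) := by
  rcases Relation.ReflTransGen.cases_tail h with h5 | ⟨g, h5, h6⟩
  · exact absurd h5 (ofc_neq hm hn (by omega) (by omega))
  · rw [← dadj_ofc hm hn h6]
    exact h5

end N2

open N2

theorem near_free_up {m n a b x y : ℤ} (hm : 1 ≤ m) (hn : 1 ≤ n) (hy : 0 ≤ y) (hyx : y ≤ x)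
    (hxy : x + y ≤ m) (hyn : 2 * y ≤ n) (_hab : a ≤ b) (_hbx : b < x)
    (_hxa : x < a + 2 * (m + n)) :
    P2 (RE 0 m 0 n) (OnV m n a b (x, y)) ≤
      2 ^ (y.toNat) * P2 (RE 0 m 0 n) (AA m n a b x x) := by
  classical
  obtain ⟨k, rfl⟩ := Int.eq_ofNat_of_zero_le hy
  obtain ⟨B, hB⟩ : ∃ B : Finset Edg, B = (range k).image (fun t : ℕ => ((x, (t : ℤ), false) : Edg)) :=
    ⟨_, rfl⟩
  have hmem : ∀ t : ℤ, 0 ≤ t → t < k → ((x, t, false) : Edg) ∈ B := by
    intro t h1 h2
    rw [hB, mem_image]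
    refine ⟨t.toNat, mem_range.2 (by omega), ?_⟩
    rw [Int.toNat_of_nonneg h1]
  have hcard : B.card = k := by
    rw [hB, card_image_of_injective, card_range]
    intro s t h
    simp only [Prod.mk.injEq, Nat.cast_inj, true_and, and_true] at h
    exact h
  have hBS : B ⊆ RE 0 m 0 n := by
    intro e he
    rw [hB, mem_image] at he
    obtain ⟨t, ht, rfl⟩ := he
    have := mem_range.1 ht
    rw [mem_RE_false]
    omega
  have key := local_mod (S := RE 0 m 0 n) (B := B) (A := OnV m n a b (x, (k : ℤ)))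
    (A' := AA m n a b x x) (by
      intro F hF hA
      refine ⟨F ∪ B, union_subset hF hBS, ?_, ?_⟩
      · intro e he
        rw [mem_union]
        exact ⟨fun h => h.resolve_right he, Or.inl⟩
      · obtain ⟨⟨i, hi, hr⟩, -⟩ := hA
        refine ⟨i, x, hi, ⟨le_rfl, le_rfl⟩, ?_⟩
        rw [bd_bot (i := x) hm hn (by omega) (by omega)]
        refine Reach.trans (hr.mono ?_) (column x k ?_)
        · intro e he
          exact ⟨by rw [mem_coe, mem_union]; exact Or.inl he.1, he.2⟩
        · intro t h1 h2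
          refine ⟨by rw [mem_coe, mem_union]; exact Or.inr (hmem t h1 h2), ?_⟩
          rw [mem_coe, mem_RE_false]
          omega)
  rw [hcard] at key
  rw [Int.toNat_natCast]
  exact key

theorem near_wired_up {m n a b x y : ℤ} (hm : 1 ≤ m) (hn : 1 ≤ n) (hy : 0 ≤ y) (hyx : y ≤ x)
    (hxy : x + y ≤ m) (hyn : 2 * y ≤ n) (hax : a < x) (hxb : x < b)
    (_hba : b < a + 2 * (m + n)) :
    P2 (RE 0 m 0 n) (OnV m n a b (x, y)) ≤
      2 ^ (2 * y.toNat) * P2 (RE 0 m 0 n) (WA m n b (a + 2 * (m + n)) (x - 1) (x + 1)) := by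
  classical
  obtain ⟨k, rfl⟩ := Int.eq_ofNat_of_zero_le hy
  obtain ⟨B, hB⟩ : ∃ B : Finset Edg, B =
      (range k).image (fun t : ℕ => ((x - 1, (t : ℤ) + 1, true) : Edg)) ∪
      (range k).image (fun t : ℕ => ((x, (t : ℤ) + 1, true) : Edg)) := ⟨_, rfl⟩
  have hmem : ∀ p t : ℤ, (p = x ∨ p = x - 1) → 1 ≤ t → t ≤ k → ((p, t, true) : Edg) ∈ B := by
    intro p t hp h1 h2
    rw [hB, mem_union, mem_image, mem_image]
    rcases hp with rfl | rfl
    · right
      refine ⟨(t - 1).toNat, mem_range.2 (by omega), ?_⟩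
      rw [Int.toNat_of_nonneg (by omega)]
      simp
    · left
      refine ⟨(t - 1).toNat, mem_range.2 (by omega), ?_⟩
      rw [Int.toNat_of_nonneg (by omega)]
      simp
  have hcard : B.card ≤ 2 * k := by
    rw [hB]
    refine (card_union_le _ _).trans ?_
    have h1 := card_image_le (s := range k) (f := fun t : ℕ => ((x - 1, (t : ℤ) + 1, true) : Edg))
    have h2 := card_image_le (s := range k) (f := fun t : ℕ => ((x, (t : ℤ) + 1, true) : Edg))
    rw [card_range] at h1 h2
    omega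
  have key := local_mod (S := RE 0 m 0 n) (B := B) (A := OnV m n a b (x, (k : ℤ)))
    (A' := WA m n b (a + 2 * (m + n)) (x - 1) (x + 1)) (by
      intro F hF hA
      refine ⟨F \ B, sdiff_subset.trans hF, ?_, ?_⟩
      · intro e he
        rw [Finset.mem_sdiff]
        exact ⟨fun h => h.1, fun h => ⟨h, he⟩⟩
      · obtain ⟨-, ⟨f1, f2⟩, ⟨hf1, hf2⟩, j, ⟨hj1, hj2⟩, hr⟩ := hA
        simp only at hf1 hf2
        have hr' : DReach ((↑(F \ B) : Set Edg)ᶜ ∩ ↑(RE 0 m 0 n)) (ofc m n j) (f1, f2) := by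
          refine hr.mono ?_
          rintro e ⟨he1, he2⟩
          refine ⟨fun h => he1 ?_, he2⟩
          rw [mem_coe, Finset.mem_sdiff] at h
          exact h.1
        by_cases hin : 0 ≤ f2 ∧ 0 ≤ f1 ∧ f1 < m
        · obtain ⟨h1, h2, h3⟩ := hin
          refine ⟨f1, j, ⟨by omega, by omega⟩, ⟨hj1, hj2⟩, ?_⟩
          rw [ifc_bot hm hn h2 h3]
          obtain ⟨l, rfl⟩ := Int.eq_ofNat_of_zero_le h1
          refine DReach.trans hr' (dcolumn f1 l ?_)
          intro t ht1 ht2
          refine ⟨fun h => ?_, ?_⟩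
          · rw [mem_coe, Finset.mem_sdiff] at h
            exact h.2 (hmem f1 t hf1 ht1 (by omega))
          · rw [mem_coe, mem_RE_true]
            omega
        · -- the vertex is on the bottom side
          have hk : k = 0 := by omega
          subst hk
          by_cases hb1 : f2 = -1 ∧ 0 ≤ f1 ∧ f1 < m
          · obtain ⟨h1, h2, h3⟩ := hb1
            refine ⟨f1, j, ⟨by omega, by omega⟩, ⟨hj1, hj2⟩, ?_⟩
            refine outer_step hm hn (a := a) (b := b) (by omega) (by omega) hj1 hj2 ?_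
            rw [ofc_bot hm hn h2 h3, ← h1]
            exact hr'
          · by_cases hb2 : f2 = 0 ∧ f1 = -1
            · obtain ⟨h1, h2⟩ := hb2
              refine ⟨-1, j, ⟨by omega, by omega⟩, ⟨hj1, hj2⟩, ?_⟩
              refine outer_step hm hn (a := a) (b := b) (by omega) (by omega) hj1 hj2 ?_
              rw [ofc_neg1 hm hn, ← h1, ← h2]
              rw [h1, h2] at hr' ⊢
              exact hr'
            · by_cases hb3 : f2 = 0 ∧ f1 = m
              · obtain ⟨h1, h2⟩ := hb3
                refine ⟨m, j, ⟨by omega, by omega⟩, ⟨hj1, hj2⟩, ?_⟩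
                refine outer_step hm hn (a := a) (b := b) (by omega) (by omega) hj1 hj2 ?_
                rw [ofc_m hm hn]
                rw [h1, h2] at hr'
                exact hr'
              · exfalso
                have hc : ((f1, f2) : Vtx) = (-1, -1) ∨ ((f1, f2) : Vtx) = (m, -1) := by
                  simp only [Prod.mk.injEq]
                  omega
                rcases Relation.ReflTransGen.cases_tail hr' with h5 | ⟨g, h5, h6⟩
                · exact corner_ne hm hn j hc h5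
                · exact corner_isolated hc h6)
  rw [Int.toNat_natCast]
  refine key.trans ?_
  refine mul_le_mul_of_nonneg_right ?_ ?_
  · exact pow_le_pow_right₀ (by norm_num) hcard
  · unfold P2
    exact Pr_nonneg okhalf2 _ _

end H731G
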