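import Pool.Agent.H731R5.Gr.Defs2
import Pool.Agent.H731R4.Arcs.Chord
import Pool.Agent.H731R4.Arcs.Final
import Pool.Agent.H731R4.Arcs.Final2

/-!
Task N4: algebra near the boundary.
-/

set_option autoImplicit false

namespace H731G

open H974 hiding bd
open H731C H731R H731A Finset

namespace N4

theorem abs_shift {y b : ℤ} (hy : 0 ≤ y) : |y - b| ≤ |0 - b| + y ∧ |0 - b| ≤ |y - b| + y := by
  constructor
  · rcases abs_cases (y - b) with ⟨h1, h2⟩ | ⟨h1, h2⟩ <;>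
      rcases abs_cases (0 - b) with ⟨h3, h4⟩ | ⟨h3, h4⟩ <;> omega
  · rcases abs_cases (y - b) with ⟨h1, h2⟩ | ⟨h1, h2⟩ <;>
      rcases abs_cases (0 - b) with ⟨h3, h4⟩ | ⟨h3, h4⟩ <;> omega

theorem ds_bounds {K r : ℕ} {m n x y : ℤ} (j : ℤ) (hm : 1 ≤ m) (hn : 1 ≤ n) (h1 : m ≤ K * n)
    (h2 : n ≤ K * m) (hy : 0 ≤ y) (hr : y ≤ r) (h0 : 0 ≤ x) (hxm : x ≤ m) :
    ds m n (x, y) j ≤ ((r : ℤ) + 1) * (cd (2 * (m + n)) (j - x) + 1) ∧
      cd (2 * (m + n)) (j - x) + 1 ≤ (((K : ℤ) + 2) * (r + 1)) * ds m n (x, y) j := by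
  have hN : 0 < 2 * (m + n) := by omega
  have hbx : bd m n x = (x, 0) := bd_bot hm hn h0 hxm
  have hl := bd_lip hm hn x j
  have hc := chord (K := K) hm hn h1 h2 x j (max |x - (bd m n j).1| |0 - (bd m n j).2|)
    (by rw [hbx]; exact le_max_left _ _) (by rw [hbx]; exact le_max_right _ _)
  rw [hbx] at hl
  simp only at hl
  have hcd : cd (2 * (m + n)) (x - j) = cd (2 * (m + n)) (j - x) := by
    rw [← cd_neg hN, neg_sub]
  rw [hcd] at hl hc
  have ht := cd_nonneg hN (j - x)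
  obtain ⟨a1, a2⟩ := abs_shift (b := (bd m n j).2) hy
  have hds : ds m n (x, y) j = max |x - (bd m n j).1| |y - (bd m n j).2| + 1 := rfl
  have hd1 := ds_pos m n (x, y) j
  set t := cd (2 * (m + n)) (j - x) with htdef
  set s := max |x - (bd m n j).1| |0 - (bd m n j).2| with hs
  have hK : (0 : ℤ) ≤ K := Int.natCast_nonneg K
  have hr0 : (0 : ℤ) ≤ r := Int.natCast_nonneg r
  have e1 : ds m n (x, y) j ≤ s + 1 + r := by
    rw [hds]; omega
  have e2 : s ≤ ds m n (x, y) j - 1 + r := by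
    rw [hds]; omega
  have e3 : s ≤ t := by omega
  constructor
  · nlinarith [mul_nonneg hr0 ht]
  · have e4 : s + 1 ≤ (r + 1) * ds m n (x, y) j := by
      nlinarith [mul_nonneg hr0 (sub_nonneg.2 hd1)]
    have e5 : ((K : ℤ) + 2) * (s + 1) ≤ (K + 2) * ((r + 1) * ds m n (x, y) j) :=
      mul_le_mul_of_nonneg_left e4 (by omega)
    nlinarith

theorem comp {K r : ℕ} {m n x y : ℤ} (j : ℤ) (hm : 1 ≤ m) (hn : 1 ≤ n) (h1 : m ≤ K * n)
    (h2 : n ≤ K * m) (hy : 0 ≤ y) (hr : y ≤ r) (h0 : 0 ≤ x) (hxm : x ≤ m) :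
    sv m n (x, y) j ≤ (2 * (((K : ℤ) + 2) * (r + 1)) ^ 2) * sz m n x j ∧
      sz m n x j ≤ (2 * (((K : ℤ) + 2) * (r + 1)) ^ 2) * sv m n (x, y) j := by
  obtain ⟨b1, b2⟩ := ds_bounds j hm hn h1 h2 hy hr h0 hxm
  have hN : 0 < 2 * (m + n) := by omega
  have hK : (0 : ℤ) ≤ K := Int.natCast_nonneg K
  have hr0 : (0 : ℤ) ≤ r := Int.natCast_nonneg r
  have ht := cd_nonneg hN (j - x)
  have hd1 := ds_pos m n (x, y) j
  have r1 := rho_nonneg hm hn x
  have r2 := rho_nonneg hm hn j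
  have r3 := rho_lip hm hn x j
  have hcd : cd (2 * (m + n)) (x - j) = cd (2 * (m + n)) (j - x) := by
    rw [← cd_neg hN, neg_sub]
  rw [hcd] at r3
  unfold sv sz
  set t := cd (2 * (m + n)) (j - x) + 1 with htdef
  set d := ds m n (x, y) j with hd
  set A : ℤ := ((K : ℤ) + 2) * (r + 1) with hA
  have hA1 : (r : ℤ) + 1 ≤ A := by rw [hA]; nlinarith
  have hA2 : 1 ≤ A := by omega
  have b3 : d ≤ A * t := b1.trans (mul_le_mul_of_nonneg_right hA1 (by omega))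
  constructor
  · have c1 : d + rho m n j ≤ A * (t + rho m n x + rho m n j) := by
      nlinarith [mul_nonneg (sub_nonneg.2 hA2) r2, mul_nonneg (by omega : 0 ≤ A) r1]
    have c2 : d * (d + rho m n j) ≤ (A * t) * (A * (t + rho m n x + rho m n j)) :=
      mul_le_mul b3 c1 (by omega) (by have := mul_nonneg (by omega : 0 ≤ A) (by omega : 0 ≤ t); omega)
    have c3 : 0 ≤ t * (t + rho m n x + rho m n j) := mul_nonneg (by omega) (by omega)
    have c4 : 0 ≤ A ^ 2 * (t * (t + rho m n x + rho m n j)) := mul_nonneg (by positivity) c3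
    calc d * (d + rho m n j) ≤ (A * t) * (A * (t + rho m n x + rho m n j)) := c2
      _ = A ^ 2 * (t * (t + rho m n x + rho m n j)) := by ring
      _ ≤ 2 * A ^ 2 * (t * (t + rho m n x + rho m n j)) := by linarith
  · have c1 : t + rho m n x + rho m n j ≤ 2 * (A * (d + rho m n j)) := by
      have : t + rho m n x + rho m n j ≤ 2 * (A * d + rho m n j) := by omega
      nlinarith [mul_nonneg (sub_nonneg.2 hA2) r2]
    have c2 : t * (t + rho m n x + rho m n j) ≤ (A * d) * (2 * (A * (d + rho m n j))) :=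
      mul_le_mul b2 c1 (by omega) (by have := mul_nonneg (by omega : 0 ≤ A) (by omega : 0 ≤ d); omega)
    calc t * (t + rho m n x + rho m n j) ≤ (A * d) * (2 * (A * (d + rho m n j))) := c2
      _ = 2 * A ^ 2 * (d * (d + rho m n j)) := by ring

/-- the constant -/
noncomputable def kKr (K r : ℕ) : ℝ := 2 * (((K : ℝ) + 2) * (r + 1)) ^ 2

theorem kKr_pos (K r : ℕ) : 0 < kKr K r := by unfold kKr; positivity

theorem compR {K r : ℕ} {m n x y : ℤ} (j : ℤ) (hm : 1 ≤ m) (hn : 1 ≤ n) (h1 : m ≤ K * n)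
    (h2 : n ≤ K * m) (hy : 0 ≤ y) (hr : y ≤ r) (h0 : 0 ≤ x) (hxm : x ≤ m) :
    (sv m n (x, y) j : ℝ) ≤ kKr K r * sz m n x j ∧
      (sz m n x j : ℝ) ≤ kKr K r * sv m n (x, y) j := by
  obtain ⟨c1, c2⟩ := comp j hm hn h1 h2 hy hr h0 hxm
  unfold kKr
  constructor
  · exact_mod_cast c1
  · exact_mod_cast c2

theorem px_eq {m n x y : ℤ} (hm : 1 ≤ m) (hn : 1 ≤ n) (h0 : 0 ≤ x) (hxm : x ≤ m) :
    px m (x, y) = rho m n x + 1 := by
  rw [rho_bot hm hn h0 hxm]; rfl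

theorem py_eq {n x y : ℤ} (hyn : 2 * y ≤ n) : py n (x, y) = y + 1 := by
  unfold py
  simp only
  omega

theorem sz_self {m n x : ℤ} (hm : 1 ≤ m) (hn : 1 ≤ n) :
    sz m n x x = 1 + 2 * rho m n x := by
  have hN : 0 < 2 * (m + n) := by omega
  have : cd (2 * (m + n)) (x - x) = 0 := by
    rw [sub_self, cd_of_mem (le_refl 0) (by omega) hN]; omega
  unfold sz
  rw [this]; ring

theorem szR_pos {m n : ℤ} (hm : 1 ≤ m) (hn : 1 ≤ n) (i j : ℤ) : (0 : ℝ) < sz m n i j := by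
  exact_mod_cast (by linarith [sz_pos hm hn i j] : (0 : ℤ) < sz m n i j)

theorem svR_pos {m n : ℤ} (hm : 1 ≤ m) (hn : 1 ≤ n) (v : Vtx) (j : ℤ) : (0 : ℝ) < sv m n v j := by
  exact_mod_cast (by linarith [sv_pos hm hn v j] : (0 : ℤ) < sv m n v j)

theorem pR {m n x y : ℤ} {r : ℕ} (hm : 1 ≤ m) (hn : 1 ≤ n) (hy : 0 ≤ y) (hr : y ≤ r)
    (h0 : 0 ≤ x) (hxm : x ≤ m) (hyn : 2 * y ≤ n) :
    (px m (x, y) : ℝ) * py n (x, y) ≤ ((r : ℝ) + 1) * sz m n x x ∧
      (sz m n x x : ℝ) ≤ 2 * ((px m (x, y) : ℝ) * py n (x, y)) := by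
  have r1 := rho_nonneg hm hn x
  rw [px_eq hm hn h0 hxm, py_eq hyn, sz_self hm hn]
  have hr0 : (0 : ℤ) ≤ r := Int.natCast_nonneg r
  constructor
  · have : (rho m n x + 1) * (y + 1) ≤ ((r : ℤ) + 1) * (1 + 2 * rho m n x) := by
      have e1 : (rho m n x + 1) * (y + 1) ≤ (rho m n x + 1) * (r + 1) :=
        mul_le_mul_of_nonneg_left (by omega) (by omega)
      nlinarith [mul_nonneg hr0 r1]
    exact_mod_cast this
  · have : 1 + 2 * rho m n x ≤ 2 * ((rho m n x + 1) * (y + 1)) := by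
      nlinarith [mul_nonneg hy r1]
    exact_mod_cast this

theorem HH_le {K r : ℕ} {m n a b x y : ℤ} (hm : 1 ≤ m) (hn : 1 ≤ n) (h1 : m ≤ K * n)
    (h2 : n ≤ K * m) (hy : 0 ≤ y) (hr : y ≤ r) (h0 : 0 ≤ x) (hxm : x ≤ m) (hyn : 2 * y ≤ n) :
    HH m n a b (x, y) ≤ (((r : ℝ) + 1) * 1 * kKr K r * kKr K r) *
      (((sz m n x x : ℝ) * sz m n a b) / ((sz m n a x : ℝ) * sz m n b x)) := by
  have p1 := px_pos (m := m) (v := (x, y)) h0 hxm
  have p2 := py_pos (n := n) (v := (x, y)) hy (by simp only; omega)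
  have q1 : (0 : ℝ) < px m (x, y) := by exact_mod_cast (by omega : (0 : ℤ) < px m (x, y))
  have q2 : (0 : ℝ) < py n (x, y) := by exact_mod_cast (by omega : (0 : ℤ) < py n (x, y))
  unfold HH
  refine ratio_comp (mul_pos q1 q2) (szR_pos hm hn a b) (svR_pos hm hn _ a) (svR_pos hm hn _ b)
    (szR_pos hm hn x x) (szR_pos hm hn a b) (szR_pos hm hn a x) (szR_pos hm hn b x)
    (pR hm hn hy hr h0 hxm hyn).1 (by rw [one_mul]) ?_ ?_
  · rw [sz_symm hm hn a x]; exact (compR a hm hn h1 h2 hy hr h0 hxm).2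
  · rw [sz_symm hm hn b x]; exact (compR b hm hn h1 h2 hy hr h0 hxm).2

theorem le_HH {K r : ℕ} {m n a b x y : ℤ} (hm : 1 ≤ m) (hn : 1 ≤ n) (h1 : m ≤ K * n)
    (h2 : n ≤ K * m) (hy : 0 ≤ y) (hr : y ≤ r) (h0 : 0 ≤ x) (hxm : x ≤ m) (hyn : 2 * y ≤ n) :
    ((sz m n x x : ℝ) * sz m n a b) / ((sz m n a x : ℝ) * sz m n b x) ≤
      (2 * 1 * kKr K r * kKr K r) * HH m n a b (x, y) := by
  have p1 := px_pos (m := m) (v := (x, y)) h0 hxm
  have p2 := py_pos (n := n) (v := (x, y)) hy (by simp only; omega)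
  have q1 : (0 : ℝ) < px m (x, y) := by exact_mod_cast (by omega : (0 : ℤ) < px m (x, y))
  have q2 : (0 : ℝ) < py n (x, y) := by exact_mod_cast (by omega : (0 : ℤ) < py n (x, y))
  unfold HH
  refine ratio_comp (szR_pos hm hn x x) (szR_pos hm hn a b) (szR_pos hm hn a x)
    (szR_pos hm hn b x) (mul_pos q1 q2) (szR_pos hm hn a b) (svR_pos hm hn _ a)
    (svR_pos hm hn _ b) (pR hm hn hy hr h0 hxm hyn).2 (by rw [one_mul]) ?_ ?_
  · rw [sz_symm hm hn a x]; exact (compR a hm hn h1 h2 hy hr h0 hxm).1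
  · rw [sz_symm hm hn b x]; exact (compR b hm hn h1 h2 hy hr h0 hxm).1

theorem stepR {m n : ℤ} (hm : 1 ≤ m) (hn : 1 ≤ n) (i j j' : ℤ) (h : |j - j'| ≤ 1) :
    (sz m n i j : ℝ) ≤ 6 * sz m n i j' := by
  exact_mod_cast sz_step hm hn i j j' h

theorem wired {m n a b x : ℤ} (hm : 1 ≤ m) (hn : 1 ≤ n) :
    ((sz m n a b : ℝ) * sz m n (x - 1) (x + 1)) / ((sz m n a (x + 1) : ℝ) * sz m n b (x - 1)) ≤
        (36 * 1 * 6 * 6) *
          (((sz m n x x : ℝ) * sz m n a b) / ((sz m n a x : ℝ) * sz m n b x)) ∧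
      ((sz m n x x : ℝ) * sz m n a b) / ((sz m n a x : ℝ) * sz m n b x) ≤
        (36 * 1 * 6 * 6) * (((sz m n a b : ℝ) * sz m n (x - 1) (x + 1)) /
          ((sz m n a (x + 1) : ℝ) * sz m n b (x - 1))) := by
  have e1 : |x + 1 - x| ≤ 1 := by rw [add_sub_cancel_left]; norm_num
  have e2 : |x - 1 - x| ≤ 1 := by rw [show x - 1 - x = -1 by ring]; norm_num
  have e3 : |x - (x + 1)| ≤ 1 := by rw [show x - (x + 1) = -1 by ring]; norm_num
  have e4 : |x - (x - 1)| ≤ 1 := by rw [show x - (x - 1) = 1 by ring]; norm_num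
  have s1 : (sz m n (x - 1) (x + 1) : ℝ) ≤ 36 * sz m n x x := by
    have t1 := stepR hm hn (x - 1) (x + 1) x e1
    have t2 := stepR hm hn x (x - 1) x e2
    rw [sz_symm hm hn (x - 1) x] at t1
    linarith
  have s2 : (sz m n x x : ℝ) ≤ 36 * sz m n (x - 1) (x + 1) := by
    have t1 := stepR hm hn x x (x - 1) e4
    have t2 := stepR hm hn (x - 1) x (x + 1) e3
    rw [sz_symm hm hn x (x - 1)] at t1
    linarith
  rw [mul_comm (sz m n a b : ℝ) (sz m n (x - 1) (x + 1) : ℝ)]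
  constructor
  · exact ratio_comp (szR_pos hm hn _ _) (szR_pos hm hn _ _) (szR_pos hm hn _ _)
      (szR_pos hm hn _ _) (szR_pos hm hn _ _) (szR_pos hm hn _ _) (szR_pos hm hn _ _)
      (szR_pos hm hn _ _) s1 (by rw [one_mul]) (stepR hm hn a x (x + 1) e3)
      (stepR hm hn b x (x - 1) e4)
  · exact ratio_comp (szR_pos hm hn _ _) (szR_pos hm hn _ _) (szR_pos hm hn _ _)
      (szR_pos hm hn _ _) (szR_pos hm hn _ _) (szR_pos hm hn _ _) (szR_pos hm hn _ _)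
      (szR_pos hm hn _ _) s2 (by rw [one_mul]) (stepR hm hn a (x + 1) x e1)
      (stepR hm hn b (x - 1) x e2)

theorem HH_symm {m n : ℤ} (hm : 1 ≤ m) (hn : 1 ≤ n) (a b : ℤ) (v : Vtx) :
    HH m n a b v = HH m n b a v := by
  unfold HH
  rw [sz_symm hm hn a b, mul_comm (sv m n v a : ℝ)]

theorem end_a {K r : ℕ} {m n b x y : ℤ} (hm : 1 ≤ m) (hn : 1 ≤ n) (h1 : m ≤ K * n)
    (h2 : n ≤ K * m) (hy : 0 ≤ y) (hr : y ≤ r) (h0 : 0 ≤ x) (hxm : x ≤ m) (hyn : 2 * y ≤ n) :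
    1 ≤ (1 * kKr K r * ((r + 1) ^ 2) * 1) * HH m n x b (x, y) ∧
      HH m n x b (x, y) ≤ ((r + 1) * kKr K r * 1 * 1) * 1 := by
  have p1 := px_pos (m := m) (v := (x, y)) h0 hxm
  have p2 := py_pos (n := n) (v := (x, y)) hy (by simp only; omega)
  have q1 : (0 : ℝ) < px m (x, y) := by exact_mod_cast (by omega : (0 : ℤ) < px m (x, y))
  have q2 : (0 : ℝ) < py n (x, y) := by exact_mod_cast (by omega : (0 : ℤ) < py n (x, y))
  have hbx : bd m n x = (x, 0) := bd_bot hm hn h0 hxm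
  have r1 := rho_nonneg hm hn x
  have hds : ds m n (x, y) x = y + 1 := by
    unfold ds
    rw [hbx]
    simp only [sub_self, abs_zero, sub_zero]
    rw [abs_of_nonneg hy]
    omega
  have hr0 : (0 : ℤ) ≤ r := Int.natCast_nonneg r
  have s1 : (px m (x, y) : ℝ) ≤ 1 * sv m n (x, y) x := by
    have : px m (x, y) ≤ 1 * sv m n (x, y) x := by
      unfold sv
      rw [hds, px_eq hm hn h0 hxm]
      nlinarith [mul_nonneg hy r1]
    exact_mod_cast this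
  have s2 : (sv m n (x, y) x : ℝ) ≤ ((r : ℝ) + 1) ^ 2 * px m (x, y) := by
    have : sv m n (x, y) x ≤ ((r : ℤ) + 1) ^ 2 * px m (x, y) := by
      unfold sv
      rw [hds, px_eq hm hn h0 hxm]
      have e1 : (y + 1) * (y + 1 + rho m n x) ≤ (r + 1) * (r + 1 + rho m n x) :=
        mul_le_mul (by omega) (by omega) (by omega) (by omega)
      nlinarith [mul_nonneg hr0 r1, mul_nonneg (mul_nonneg hr0 hr0) r1]
    exact_mod_cast this
  have s3 : (py n (x, y) : ℝ) ≤ (r : ℝ) + 1 := by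
    rw [py_eq hyn]
    exact_mod_cast (by omega : y + 1 ≤ (r : ℤ) + 1)
  have s4 : (1 : ℝ) ≤ py n (x, y) := by exact_mod_cast p2
  have t1 : (px m (x, y) : ℝ) * py n (x, y) ≤ (r + 1) * px m (x, y) := by
    rw [mul_comm]; exact mul_le_mul_of_nonneg_right s3 q1.le
  have t2 : (px m (x, y) : ℝ) ≤ 1 * (px m (x, y) * py n (x, y)) := by
    rw [one_mul]; exact le_mul_of_one_le_right q1.le s4
  have hone : ((px m (x, y) : ℝ) * sv m n (x, y) b) / ((px m (x, y) : ℝ) * sv m n (x, y) b) = 1 :=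
    div_self (mul_pos q1 (svR_pos hm hn _ b)).ne'
  constructor
  · have := ratio_comp (k1 := 1) (k2 := kKr K r) (k3 := ((r : ℝ) + 1) ^ 2) (k4 := 1)
      q1 (svR_pos hm hn (x, y) b) q1 (svR_pos hm hn (x, y) b)
      (mul_pos q1 q2) (szR_pos hm hn x b) (svR_pos hm hn (x, y) x) (svR_pos hm hn (x, y) b)
      t2 (compR b hm hn h1 h2 hy hr h0 hxm).1 s2 (by rw [one_mul])
    rw [hone] at this
    exact this
  · have := ratio_comp (k1 := (r : ℝ) + 1) (k2 := kKr K r) (k3 := 1) (k4 := 1)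
      (mul_pos q1 q2) (szR_pos hm hn x b) (svR_pos hm hn (x, y) x) (svR_pos hm hn (x, y) b)
      q1 (svR_pos hm hn (x, y) b) q1 (svR_pos hm hn (x, y) b)
      t1 (compR b hm hn h1 h2 hy hr h0 hxm).2 s1 (by rw [one_mul])
    rw [hone] at this
    exact this

end N4

open N4

theorem HH_free (K r : ℕ) : ∃ c C : ℝ, 0 < c ∧ 0 < C ∧ ∀ m n a b x y : ℤ, 1 ≤ m → 1 ≤ n →
    m ≤ K * n → n ≤ K * m → 0 ≤ y → y ≤ r → y ≤ x → x + y ≤ m → 2 * y ≤ n → a ≤ b → b < x →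
    x < a + 2 * (m + n) →
    c * HH m n a b (x, y) ≤ eta m n a b x x ∧ eta m n a b x x ≤ C * HH m n a b (x, y) := by
  have hC := kKr_pos K r
  refine ⟨(((r : ℝ) + 1) * 1 * kKr K r * kKr K r)⁻¹, 2 * 1 * kKr K r * kKr K r, by positivity,
    by positivity, ?_⟩
  intro m n a b x y hm hn h1 h2 hy hr hyx hxy hyn _ _ _
  have e : eta m n a b x x =
      ((sz m n x x : ℝ) * sz m n a b) / ((sz m n a x : ℝ) * sz m n b x) := by
    unfold eta; rw [mul_comm (sz m n a b : ℝ)]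
  rw [e]
  constructor
  · rw [inv_mul_le_iff₀ (by positivity)]
    exact HH_le hm hn h1 h2 hy hr (by omega) (by omega) hyn
  · exact le_HH hm hn h1 h2 hy hr (by omega) (by omega) hyn

theorem HH_wired (K r : ℕ) : ∃ c C : ℝ, 0 < c ∧ 0 < C ∧ ∀ m n a b x y : ℤ, 1 ≤ m → 1 ≤ n →
    m ≤ K * n → n ≤ K * m → 0 ≤ y → y ≤ r → y ≤ x → x + y ≤ m → 2 * y ≤ n → a < x → x < b →
    b < a + 2 * (m + n) →
    c * HH m n a b (x, y) ≤
        ((sz m n a b : ℝ) * sz m n (x - 1) (x + 1)) / ((sz m n a (x + 1) : ℝ) * sz m n b (x - 1)) ∧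
      ((sz m n a b : ℝ) * sz m n (x - 1) (x + 1)) / ((sz m n a (x + 1) : ℝ) * sz m n b (x - 1)) ≤
        C * HH m n a b (x, y) := by
  have hC := kKr_pos K r
  refine ⟨((((r : ℝ) + 1) * 1 * kKr K r * kKr K r) * (36 * 1 * 6 * 6))⁻¹,
    (36 * 1 * 6 * 6) * (2 * 1 * kKr K r * kKr K r), by positivity, by positivity, ?_⟩
  intro m n a b x y hm hn h1 h2 hy hr hyx hxy hyn _ _ _
  obtain ⟨w1, w2⟩ := wired (a := a) (b := b) (x := x) hm hn
  constructor
  · rw [inv_mul_le_iff₀ (by positivity)]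
    refine le_trans (HH_le hm hn h1 h2 hy hr (by omega) (by omega) hyn) ?_
    rw [mul_assoc (((r : ℝ) + 1) * 1 * kKr K r * kKr K r)]
    exact mul_le_mul_of_nonneg_left w2 (by positivity)
  · refine le_trans w1 ?_
    rw [mul_assoc (36 * 1 * 6 * 6 : ℝ)]
    exact mul_le_mul_of_nonneg_left (le_HH hm hn h1 h2 hy hr (by omega) (by omega) hyn)
      (by positivity)

theorem HH_end (K r : ℕ) : ∃ c C : ℝ, 0 < c ∧ 0 < C ∧ ∀ m n a b x y : ℤ, 1 ≤ m → 1 ≤ n →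
    m ≤ K * n → n ≤ K * m → 0 ≤ y → y ≤ r → y ≤ x → x + y ≤ m → 2 * y ≤ n →
    x = a ∨ x = b → c ≤ HH m n a b (x, y) ∧ HH m n a b (x, y) ≤ C := by
  have hC := kKr_pos K r
  refine ⟨(1 * kKr K r * (((r : ℝ) + 1) ^ 2) * 1)⁻¹, (((r : ℝ) + 1) * kKr K r * 1 * 1) * 1,
    by positivity, by positivity, ?_⟩
  intro m n a b x y hm hn h1 h2 hy hr hyx hxy hyn hx
  have key : ∀ b, (1 * kKr K r * (((r : ℝ) + 1) ^ 2) * 1)⁻¹ ≤ HH m n x b (x, y) ∧
      HH m n x b (x, y) ≤ (((r : ℝ) + 1) * kKr K r * 1 * 1) * 1 := by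
    intro b
    obtain ⟨k1, k2⟩ := end_a (b := b) (x := x) hm hn h1 h2 hy hr (by omega) (by omega) hyn
    refine ⟨?_, k2⟩
    rw [inv_le_iff_one_le_mul₀' (by positivity)]
    exact k1
  rcases hx with rfl | rfl
  · exact key b
  · rw [HH_symm hm hn a x]
    exact key a

end H731G
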