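import Pool.Agent.H731R5.Gr.N2
import Pool.Agent.H731R5.Gr.N3
import Pool.Agent.H731R5.Gr.N4
import Pool.Agent.H731R5.Gr.Defs2
import Pool.Agent.H731R5.Gr.Fin

/-!
One-point function of the exploration path at the vertices near the boundary, and at all vertices.
-/

set_option autoImplicit false

namespace H731G

open H974 hiding bd
open H731C H731R H731A Finset

namespace NB

/-- `c x ≤ y` and `y ≤ C x` for the cube roots -/
theorem third_le {x y C : ℝ} (hx : 0 ≤ x) (hy : 0 ≤ y) (hC : 0 ≤ C) (h : x ≤ C * y) :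
    x ^ ((1 : ℝ) / 3) ≤ C ^ ((1 : ℝ) / 3) * y ^ ((1 : ℝ) / 3) := by
  rw [← Real.mul_rpow hC hy]
  exact Real.rpow_le_rpow hx h (by norm_num)

theorem third_ge {x y c : ℝ} (hx : 0 ≤ x) (hc : 0 ≤ c) (h : c * x ≤ y) :
    c ^ ((1 : ℝ) / 3) * x ^ ((1 : ℝ) / 3) ≤ y ^ ((1 : ℝ) / 3) := by
  rw [← Real.mul_rpow hc hx]
  exact Real.rpow_le_rpow (mul_nonneg hc hx) h (by norm_num)

/-- Combination of the bounds. -/
theorem combine {q p e H c0 C0 c1 C1 A B : ℝ} (hH : 0 ≤ H) (he : 0 ≤ e) (hc0 : 0 < c0)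
    (hC0 : 0 < C0) (hc1 : 0 < c1) (hC1 : 0 < C1) (hA : 0 < A) (hB : 0 < B)
    (h1 : c0 * e ^ ((1 : ℝ) / 3) ≤ q) (h2 : q ≤ C0 * e ^ ((1 : ℝ) / 3))
    (h3 : c1 * H ≤ e) (h4 : e ≤ C1 * H) (h5 : q ≤ A * p) (h6 : p ≤ B * q) :
    c0 * c1 ^ ((1 : ℝ) / 3) / A * H ^ ((1 : ℝ) / 3) ≤ p ∧
      p ≤ B * C0 * C1 ^ ((1 : ℝ) / 3) * H ^ ((1 : ℝ) / 3) := by
  have k1 := third_ge hH hc1.le h3
  have k2 := third_le he hH hC1.le h4
  constructor
  · have : c0 * c1 ^ ((1 : ℝ) / 3) / A * H ^ ((1 : ℝ) / 3) =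
        (c0 * (c1 ^ ((1 : ℝ) / 3) * H ^ ((1 : ℝ) / 3))) / A := by ring
    rw [this, div_le_iff₀ hA]
    calc c0 * (c1 ^ ((1 : ℝ) / 3) * H ^ ((1 : ℝ) / 3)) ≤ c0 * e ^ ((1 : ℝ) / 3) :=
          mul_le_mul_of_nonneg_left k1 hc0.le
      _ ≤ q := h1
      _ ≤ A * p := h5
      _ = p * A := by ring
  · calc p ≤ B * q := h6
      _ ≤ B * (C0 * e ^ ((1 : ℝ) / 3)) := mul_le_mul_of_nonneg_left h2 hB.le
      _ ≤ B * (C0 * (C1 ^ ((1 : ℝ) / 3) * H ^ ((1 : ℝ) / 3))) :=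
          mul_le_mul_of_nonneg_left (mul_le_mul_of_nonneg_left k2 hC0.le) hB.le
      _ = _ := by ring

theorem OnV_per (m n a b k : ℤ) (v : Vtx) :
    P2 (RE 0 m 0 n) (OnV m n (a + k * (2 * (m + n))) (b + k * (2 * (m + n))) v) =
      P2 (RE 0 m 0 n) (OnV m n a b v) := by
  unfold P2
  apply Pr_congr
  intro F _
  unfold OnV
  have h1 := (H731G.ev_period (m := m) (n := n) a b k v v 0 F).1
  have h2 := fun f => (H731G.ev_period (m := m) (n := n) a b k v f 0 F).2.1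
  rw [h1]
  constructor
  · rintro ⟨g1, f, g2, g3⟩
    exact ⟨g1, f, g2, (h2 f).1 g3⟩
  · rintro ⟨g1, f, g2, g3⟩
    exact ⟨g1, f, g2, (h2 f).2 g3⟩

theorem two_pow_le {y r k l : ℕ} (h : y ≤ r) : (2 : ℝ) ^ (k * y + l) ≤ 2 ^ (k * r + l) :=
  pow_le_pow_right₀ (by norm_num) (by nlinarith)

end NB

open NB

/-- the bottom side -/
theorem near_bot (K r : ℕ) : ∃ c C : ℝ, 0 < c ∧ 0 < C ∧ ∀ m n a b x y : ℤ, 1 ≤ m → 1 ≤ n →
    m ≤ K * n → n ≤ K * m → 0 ≤ y → y ≤ r → y ≤ x → x + y ≤ m → 2 * y ≤ n → a ≤ b →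
    b < a + 2 * (m + n) → a ≤ x → x < a + 2 * (m + n) →
    c * HH m n a b (x, y) ^ ((1 : ℝ) / 3) ≤ P2 (RE 0 m 0 n) (OnV m n a b (x, y)) ∧
      P2 (RE 0 m 0 n) (OnV m n a b (x, y)) ≤ C * HH m n a b (x, y) ^ ((1 : ℝ) / 3) := by
  obtain ⟨c0, C0, hc0, hC0, hAA⟩ := H731A.AA_eta K
  obtain ⟨w0, W0, hw0, hW0, hWA⟩ := H731A.WA_eta K
  obtain ⟨c1, C1, hc1, hC1, hfree⟩ := H731G.HH_free K r
  obtain ⟨c2, C2, hc2, hC2, hwired⟩ := H731G.HH_wired K r
  obtain ⟨c3, C3, hc3, hC3, hend⟩ := H731G.HH_end K r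
  have pA : (0 : ℝ) < 2 ^ (3 * r + 4) := by positivity
  have pB : (0 : ℝ) < 2 ^ (2 * r) := by positivity
  have u1 : 0 < c0 * c1 ^ ((1 : ℝ) / 3) / 2 ^ (3 * r + 4) := by positivity
  have u2 : 0 < w0 * c2 ^ ((1 : ℝ) / 3) / 2 ^ (3 * r + 4) := by positivity
  have u3 : 0 < 1 / (2 ^ (3 * r + 4) * C3 ^ ((1 : ℝ) / 3)) := by positivity
  refine ⟨min (min (c0 * c1 ^ ((1 : ℝ) / 3) / 2 ^ (3 * r + 4))
      (w0 * c2 ^ ((1 : ℝ) / 3) / 2 ^ (3 * r + 4)))
      (1 / (2 ^ (3 * r + 4) * C3 ^ ((1 : ℝ) / 3))),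
    max (max (2 ^ (2 * r) * C0 * C1 ^ ((1 : ℝ) / 3)) (2 ^ (2 * r) * W0 * C2 ^ ((1 : ℝ) / 3)))
      (1 / c3 ^ ((1 : ℝ) / 3)),
    lt_min (lt_min u1 u2) u3, lt_max_of_lt_right (by positivity), ?_⟩
  intro m n a b x y hm hn h1 h2 hy hyr hyx hxy hyn hab hba hax hxa
  set H := HH m n a b (x, y) with hHdef
  set p := P2 (RE 0 m 0 n) (OnV m n a b (x, y)) with hp
  have hH : 0 ≤ H := HH_nonneg hm hn ⟨by simp only; omega, by simp only; omega⟩
    ⟨by simp only; omega, by simp only; omega⟩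
  have hH3 : 0 ≤ H ^ ((1 : ℝ) / 3) := Real.rpow_nonneg hH _
  have hyN : y.toNat ≤ r := by omega
  have p4 : (2 : ℝ) ^ (3 * y.toNat + 4) ≤ 2 ^ (3 * r + 4) := two_pow_le hyN
  have p2 : (2 : ℝ) ^ (2 * y.toNat) ≤ 2 ^ (2 * r) := by
    have := two_pow_le (k := 2) (l := 0) hyN
    simpa using this
  have p1 : (2 : ℝ) ^ (y.toNat) ≤ 2 ^ (2 * r) :=
    pow_le_pow_right₀ (by norm_num) (by omega)
  have hp0 : 0 ≤ p := Pr_nonneg okhalf2 _ _
  by_cases hend' : x = a ∨ x = b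
  · obtain ⟨e1, e2⟩ := hend m n a b x y hm hn h1 h2 hy hyr hyx hxy hyn hend'
    have e3 := H731G.near_end_low hm hn hy hyx hxy hyn hab hba hend'
    rw [← hp] at e3
    have e4 : 1 ≤ 2 ^ (3 * r + 4) * p := e3.trans (mul_le_mul_of_nonneg_right p4 hp0)
    constructor
    · have k : H ^ ((1 : ℝ) / 3) ≤ C3 ^ ((1 : ℝ) / 3) := Real.rpow_le_rpow hH e2 (by norm_num)
      calc _ ≤ 1 / (2 ^ (3 * r + 4) * C3 ^ ((1 : ℝ) / 3)) * H ^ ((1 : ℝ) / 3) :=
            mul_le_mul_of_nonneg_right (min_le_right _ _) hH3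
        _ ≤ 1 / (2 ^ (3 * r + 4) * C3 ^ ((1 : ℝ) / 3)) * C3 ^ ((1 : ℝ) / 3) :=
            mul_le_mul_of_nonneg_left k u3.le
        _ = 1 / 2 ^ (3 * r + 4) := by
            field_simp
        _ ≤ p := by
            rw [div_le_iff₀ pA, mul_comm]; exact e4
    · have k : c3 ^ ((1 : ℝ) / 3) ≤ H ^ ((1 : ℝ) / 3) := Real.rpow_le_rpow hc3.le e1 (by norm_num)
      have hc3' : 0 < c3 ^ ((1 : ℝ) / 3) := by positivity
      calc p ≤ 1 := Pr_le_one okhalf2 _ _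
        _ ≤ 1 / c3 ^ ((1 : ℝ) / 3) * H ^ ((1 : ℝ) / 3) := by
            rw [one_div_mul_eq_div, le_div_iff₀ hc3', one_mul]; exact k
        _ ≤ _ := mul_le_mul_of_nonneg_right (le_max_right _ _) hH3
  · have hxa' : a < x := by
      rcases lt_or_eq_of_le hax with h | h
      · exact h
      · exact absurd (Or.inl h.symm) hend'
    have hs : ∀ i j, (0 : ℝ) < sz m n i j := fun i j => by
      have := H731A.sz_pos hm hn i j
      exact_mod_cast (by linarith : (0 : ℤ) < H731A.sz m n i j)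
    rcases lt_or_ge b x with hbx | hbx
    · -- free
      obtain ⟨e1, e2⟩ := hfree m n a b x y hm hn h1 h2 hy hyr hyx hxy hyn hab hbx hxa
      obtain ⟨e3, e4⟩ := hAA m n a b x x hm hn h1 h2 hab hbx le_rfl hxa
      have e5 := H731G.near_free_up hm hn hy hyx hxy hyn hab hbx hxa
      have e6 := H731G.near_free_low hm hn hy hyx hxy hyn hab hbx hxa
      rw [← hp] at e5 e6
      have q0 : 0 ≤ P2 (RE 0 m 0 n) (AA m n a b x x) := Pr_nonneg okhalf2 _ _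
      have he : 0 ≤ eta m n a b x x := by
        unfold eta
        have := hs a b
        have := hs x x
        have := hs a x
        have := hs b x
        positivity
      obtain ⟨r1, r2⟩ := combine hH he hc0 hC0 hc1 hC1 pA pB e3 e4 e1 e2
        (e6.trans (mul_le_mul_of_nonneg_right p4 hp0))
        (e5.trans (mul_le_mul_of_nonneg_right p1 q0))
      exact ⟨(mul_le_mul_of_nonneg_right ((min_le_left _ _).trans (min_le_left _ _)) hH3).trans r1,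
        r2.trans (mul_le_mul_of_nonneg_right ((le_max_left _ _).trans (le_max_left _ _)) hH3)⟩
    · -- wired
      have hbx' : x < b := by
        rcases lt_or_eq_of_le hbx with h | h
        · exact h
        · exact absurd (Or.inr h) hend'
      obtain ⟨e1, e2⟩ := hwired m n a b x y hm hn h1 h2 hy hyr hyx hxy hyn hxa' hbx' hba
      obtain ⟨e3, e4⟩ := hWA m n a b (x - 1) (x + 1) hm hn h1 h2 (by omega) (by omega) (by omega)
        hba
      have e5 := H731G.near_wired_up hm hn hy hyx hxy hyn hxa' hbx' hba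
      have e6 := H731G.near_wired_low hm hn hy hyx hxy hyn hxa' hbx' hba
      rw [← hp] at e5 e6
      have q0 : 0 ≤ P2 (RE 0 m 0 n) (WA m n b (a + 2 * (m + n)) (x - 1) (x + 1)) :=
        Pr_nonneg okhalf2 _ _
      have he : 0 ≤ ((sz m n a b : ℝ) * sz m n (x - 1) (x + 1)) /
          ((sz m n a (x + 1) : ℝ) * sz m n b (x - 1)) := by
        have := hs a b
        have := hs (x - 1) (x + 1)
        have := hs a (x + 1)
        have := hs b (x - 1)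
        positivity
      obtain ⟨r1, r2⟩ := combine hH he hw0 hW0 hc2 hC2 pA pB e3 e4 e1 e2
        (e6.trans (mul_le_mul_of_nonneg_right p4 hp0))
        (e5.trans (mul_le_mul_of_nonneg_right p2 q0))
      exact ⟨(mul_le_mul_of_nonneg_right ((min_le_left _ _).trans (min_le_right _ _)) hH3).trans r1,
        r2.trans (mul_le_mul_of_nonneg_right ((le_max_right _ _).trans (le_max_left _ _)) hH3)⟩

/-- all vertices at bounded distance of the boundary -/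
theorem near_bounds (K r : ℕ) : ∃ c C : ℝ, 0 < c ∧ 0 < C ∧ ∀ (m n a b : ℤ) (v : Vtx), 1 ≤ m →
    1 ≤ n → m ≤ K * n → n ≤ K * m → a ≤ b → b < a + 2 * (m + n) → (0 ≤ v.1 ∧ v.1 ≤ m) →
    (0 ≤ v.2 ∧ v.2 ≤ n) → min (px m v) (py n v) ≤ r + 1 →
    c * HH m n a b v ^ ((1 : ℝ) / 3) ≤ P2 (RE 0 m 0 n) (OnV m n a b v) ∧
      P2 (RE 0 m 0 n) (OnV m n a b v) ≤ C * HH m n a b v ^ ((1 : ℝ) / 3) := by
  obtain ⟨c, C, hc, hC, h⟩ := near_bot K r
  refine ⟨c, C, hc, hC, ?_⟩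
  intro m n a b v hm hn h1 h2 hab hba hv1 hv2 hr
  obtain ⟨s, m', n', x, y, hmn', hyr, hyx, hxy, hyn, hP, hH⟩ := H731G.OnV_bottom hm hn v hv1 hv2
  have hmK : m' ≤ K * n' := by rcases hmn' with ⟨rfl, rfl⟩ | ⟨rfl, rfl⟩ <;> assumption
  have hnK : n' ≤ K * m' := by rcases hmn' with ⟨rfl, rfl⟩ | ⟨rfl, rfl⟩ <;> assumption
  have hsum : m' + n' = m + n := by omega
  have hpx := px_pos hv1.1 hv1.2
  have hpy := py_pos hv2.1 hv2.2
  have hN : (0 : ℤ) < 2 * (m' + n') := by omega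
  obtain ⟨k, hk1, hk2⟩ : ∃ k : ℤ, a - s + k * (2 * (m' + n')) ≤ x ∧
      x < a - s + k * (2 * (m' + n')) + 2 * (m' + n') := by
    refine ⟨(x - (a - s)) / (2 * (m' + n')), ?_, ?_⟩
    · have := Int.ediv_mul_le (x - (a - s)) hN.ne'
      linarith
    · have := Int.lt_ediv_add_one_mul_self (x - (a - s)) hN
      linarith
  rw [hP a b, hH a b, ← NB.OnV_per m' n' (a - s) (b - s) k,
    ← H731G.HH_period m' n' (a - s) (b - s) k]
  exact h m' n' (a - s + k * (2 * (m' + n'))) (b - s + k * (2 * (m' + n'))) x y (by omega)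
    (by omega) hmK hnK (by omega) (by omega) hyx hxy hyn (by linarith) (by linarith) hk1 hk2

end H731G
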