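import Pool.Agent.H731R5.Gr.HPDefs

/-!
Task P1: the half-plane, finite volume approximation.
-/

set_option autoImplicit false

namespace H731G

open H974 hiding bd
open H731C H731R H731A Finset H389KP MeasureTheory

namespace P1

/-! ### from finite volume to infinite volume -/

theorem axis_reach (ω : Conf) (M : ℕ) : ∀ k : ℕ, Reach (↑(ON M ω) ∪ NA) (0, 0) (-(k : ℤ), 0) := by
  intro k
  induction k with
  | zero => exact Relation.ReflTransGen.refl
  | succ k ih =>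
    refine Relation.ReflTransGen.tail ih ?_
    refine ⟨(-((k : ℤ) + 1), 0, true), Or.inr ⟨?_, rfl, rfl⟩, Or.inr ⟨?_, ?_⟩⟩
    · show -((k : ℤ) + 1) < 0
      omega
    · rw [src_mk]; push_cast; rfl
    · rw [tgt_true]
      ext
      · show -((k : ℤ) + 1) + 1 = -(k : ℤ)
        ring
      · rfl

theorem HVA_Cm {ω : Conf} {M : ℕ} {v : Vtx} (h : HVA M v (ON M ω)) :
    0 ≤ v.2 ∧ (v.1, v.2.toNat) ∈ Cm ω := by
  obtain ⟨p, ⟨_, hp⟩, hr⟩ := h
  apply reach_Cm (N := M)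
  unfold W
  obtain ⟨k, hk⟩ : ∃ k : ℕ, p = -(k : ℤ) := ⟨(-p).toNat, by omega⟩
  rw [hk] at hr
  exact (axis_reach ω M k).trans (hr.mono fun e he => Or.inl he.1)

theorem not_open_of {ω : Conf} {M : ℕ} {e : Edg} (h1 : e ∈ VE (-(M : ℤ)) M 0 M)
    (h2 : e ∉ ON M ω) : ¬ (ω (tn e) = true) := by
  intro h
  apply h2
  unfold ON
  rw [mem_GO]
  exact ⟨h1, h⟩

theorem dual_edge {ω : Conf} {M : ℕ} {e : Edg} (h1 : e ∈ VE (-(M : ℤ)) M 0 M)
    (h2 : e ∉ ON M ω) : 0 ≤ (dsrc e).2 ∧ 0 ≤ (dtgt e).2 ∧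
      DJoined ω ((dsrc e).1, ((dsrc e).2 + 1).toNat) ((dtgt e).1, ((dtgt e).2 + 1).toNat) := by
  have h3 := not_open_of h1 h2
  obtain ⟨x, y, _ | _⟩ := e
  · rw [mem_VE_false] at h1
    rw [dsrc_false, dtgt_mk]
    refine ⟨by simp only; omega, by simp only; omega, Or.inr ⟨?_, Or.inr ⟨?_, ?_⟩⟩⟩
    · simp
    · simp only; omega
    · unfold H389KP.IsOpen
      simp only [Bool.false_eq_true, and_false, if_false]
      have e1 : x - 1 + 1 = x := by ring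
      have e2 : (y + 1).toNat - 1 = y.toNat := by omega
      rw [e1, e2]
      exact h3
  · rw [mem_VE_true] at h1
    rw [dsrc_true, dtgt_mk]
    refine ⟨by simp only; omega, by simp only; omega, Or.inl ⟨?_, ?_⟩⟩
    · simp only [Prod.mk.injEq, true_and]; omega
    · unfold H389KP.IsOpen
      have e2 : (y - 1 + 1).toNat = y.toNat := by congr 1; ring
      simp only [e2]
      have hy0 : ¬ (y.toNat = 0) := by omega
      simp only [hy0, false_and, if_false]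
      exact h3

theorem row_Cp (ω : Conf) : ∀ k : ℕ, ((k : ℤ), 0) ∈ Cp ω := by
  intro k
  induction k with
  | zero => exact Relation.EqvGen.refl _
  | succ k ih =>
    refine Relation.EqvGen.trans _ _ _ ih (Relation.EqvGen.rel _ _ (Or.inr ⟨?_, Or.inl ⟨rfl, ?_⟩⟩))
    · push_cast; rfl
    · show (0 : ℤ) ≤ (k : ℤ)
      omega

theorem HFB_Cp {ω : Conf} {M : ℕ} {f : Vtx} (h : HFB M f (ON M ω)) :
    0 ≤ f.2 ∧ (f.1, (f.2 + 1).toNat) ∈ Cp ω := by
  obtain ⟨p, ⟨hp, _⟩, hr⟩ := h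
  unfold DReach at hr
  induction hr with
  | refl =>
    refine ⟨le_rfl, ?_⟩
    obtain ⟨k, rfl⟩ : ∃ k : ℕ, p = (k : ℤ) := ⟨p.toNat, by omega⟩
    refine Relation.EqvGen.trans _ _ _ (row_Cp ω k) (Relation.EqvGen.rel _ _ (Or.inl ⟨?_, ?_⟩))
    · simp
    · unfold H389KP.IsOpen
      simp
  | @tail u v _ hs ih =>
    obtain ⟨e, ⟨he1, he2⟩, hc⟩ := hs
    have he1' : e ∉ ON M ω := fun h => he1 (Finset.mem_coe.mpr h)
    obtain ⟨k1, k2, k3⟩ := dual_edge (Finset.mem_coe.mp he2) he1'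
    rcases hc with ⟨h1, h2⟩ | ⟨h1, h2⟩
    · rw [h1] at k1 k3
      rw [h2] at k2 k3
      exact ⟨k2, Relation.EqvGen.trans _ _ _ ih.2 (Relation.EqvGen.rel _ _ k3)⟩
    · rw [h1] at k1 k3
      rw [h2] at k2 k3
      exact ⟨k1, Relation.EqvGen.trans _ _ _ ih.2
        (Relation.EqvGen.symm _ _ (Relation.EqvGen.rel _ _ k3))⟩

theorem HV_Vis {ω : Conf} {M : ℕ} {x : ℤ} {y : ℕ} (hy : 1 ≤ y)
    (h : HV M (x, (y : ℤ)) (ON M ω)) : Vis ω (x, y) := by
  obtain ⟨h1, f, hf, h2⟩ := h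
  obtain ⟨_, h3⟩ := HVA_Cm h1
  simp only [Int.toNat_natCast] at h3
  obtain ⟨h4, h5⟩ := HFB_Cp h2
  refine ⟨h3, _, h5, ?_, ?_⟩
  · obtain ⟨hf1, _⟩ := hf
    simp only at hf1 ⊢
    omega
  · obtain ⟨_, hf2⟩ := hf
    simp only at hf2 ⊢
    omega

/-! ### from infinite volume to finite volume -/

theorem ON_sub (M : ℕ) (ω : Conf) : ON M ω ⊆ VE (-(M : ℤ)) M 0 M := by
  intro e he
  unfold ON at he
  rw [mem_GO] at he
  exact he.1

theorem HVA_mono {ω : Conf} {M M' : ℕ} (hM : M ≤ M') {v : Vtx} (h : HVA M v (ON M ω)) :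
    HVA M' v (ON M' ω) := by
  obtain ⟨p, ⟨h1, h2⟩, hr⟩ := h
  refine ⟨p, ⟨by omega, h2⟩, hr.mono ?_⟩
  rintro e ⟨he1, he2⟩
  exact ⟨Finset.mem_coe.mpr (ON_mono hM ω (Finset.mem_coe.mp he1)),
    Finset.mem_coe.mpr (VE_mono (by omega) (by omega) (by omega) (Finset.mem_coe.mp he2))⟩

theorem HFB_mono {ω : Conf} {M M' : ℕ} (hM : M ≤ M') {f : Vtx} (h : HFB M f (ON M ω)) :
    HFB M' f (ON M' ω) := by
  obtain ⟨p, ⟨h1, h2⟩, hr⟩ := h
  refine ⟨p, ⟨h1, by omega⟩, ?_⟩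
  unfold DReach at hr ⊢
  refine Relation.ReflTransGen.mono ?_ _ _ hr
  rintro u v ⟨e, ⟨he1, he2⟩, hc⟩
  refine ⟨e, ⟨?_, ?_⟩, hc⟩
  · intro he
    apply he1
    have he' := Finset.mem_coe.mp he
    unfold ON at he'
    rw [mem_GO] at he'
    apply Finset.mem_coe.mpr
    unfold ON
    rw [mem_GO]
    exact ⟨Finset.mem_coe.mp he2, he'.2⟩
  · exact Finset.mem_coe.mpr (VE_mono (by omega) (by omega) (by omega) (Finset.mem_coe.mp he2))

theorem Cm_HVA {ω : Conf} {v : ℤ × ℕ} (h : v ∈ Cm ω) :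
    ∃ M : ℕ, HVA M (v.1, (v.2 : ℤ)) (ON M ω) := by
  obtain ⟨N, hN⟩ := Cm_reach h
  have key : ∀ w : Vtx, Reach (↑(ON N ω) ∪ NA) (0, 0) w →
      ∃ p : ℤ, p ≤ 0 ∧ Reach (↑(ON N ω)) (p, 0) w := by
    intro w hw
    induction hw with
    | refl => exact ⟨0, le_rfl, Relation.ReflTransGen.refl⟩
    | @tail u w _ hs ih =>
      obtain ⟨e, he | he, hc⟩ := hs
      · obtain ⟨p, hp, hr⟩ := ih
        exact ⟨p, hp, Relation.ReflTransGen.tail hr ⟨e, he, hc⟩⟩
      · obtain ⟨x, y, b⟩ := e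
        obtain ⟨h1, h2, h3⟩ := he
        simp only at h1 h2 h3
        subst h2 h3
        rw [src_mk, tgt_true] at hc
        rcases hc with ⟨-, h5⟩ | ⟨h5, -⟩
        · rw [← h5]
          exact ⟨x + 1, by omega, Relation.ReflTransGen.refl⟩
        · rw [← h5]
          exact ⟨x, by omega, Relation.ReflTransGen.refl⟩
  obtain ⟨p, hp, hr⟩ := key _ hN
  refine ⟨max N (-p).toNat, p, ⟨by omega, hp⟩, ?_⟩
  refine Reach.mono ?_ hr
  intro e he
  have he' := ON_mono (le_max_left N (-p).toNat) ω (Finset.mem_coe.mp he)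
  exact ⟨Finset.mem_coe.mpr he', Finset.mem_coe.mpr (ON_sub _ _ he')⟩

/-- The invariant of the dual cluster. -/
def Inv (ω : Conf) (g : ℤ × ℕ) : Prop :=
  (g.2 = 0 ∧ 0 ≤ g.1) ∨ (1 ≤ g.2 ∧ ∃ M : ℕ, HFB M (g.1, (g.2 : ℤ) - 1) (ON M ω))

theorem HFB_step {ω : Conf} {e : Edg} (h0 : ∃ M : ℕ, e ∈ VE (-(M : ℤ)) M 0 M)
    (h1 : ¬ ω (tn e) = true) :
    (∃ M : ℕ, HFB M (dsrc e) (ON M ω)) ↔ ∃ M : ℕ, HFB M (dtgt e) (ON M ω) := by
  obtain ⟨N, hN⟩ := h0
  have hadj : ∀ M : ℕ, N ≤ M →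
      e ∈ ((↑(ON M ω) : Set Edg)ᶜ ∩ ↑(VE (-(M : ℤ)) M 0 M)) := by
    intro M hM
    refine ⟨?_, Finset.mem_coe.mpr (VE_mono (by omega) (by omega) (by omega) hN)⟩
    intro he
    have he' := Finset.mem_coe.mp he
    unfold ON at he'
    rw [mem_GO] at he'
    exact h1 he'.2
  constructor
  · rintro ⟨M, hM⟩
    obtain ⟨p, hp, hr⟩ := HFB_mono (le_max_left M N) hM
    exact ⟨max M N, p, hp, Relation.ReflTransGen.tail hr
      ⟨e, hadj _ (le_max_right _ _), Or.inl ⟨rfl, rfl⟩⟩⟩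
  · rintro ⟨M, hM⟩
    obtain ⟨p, hp, hr⟩ := HFB_mono (le_max_left M N) hM
    exact ⟨max M N, p, hp, Relation.ReflTransGen.tail hr
      ⟨e, hadj _ (le_max_right _ _), Or.inr ⟨rfl, rfl⟩⟩⟩

theorem Inv_step {ω : Conf} {g g' : ℤ × ℕ} (h : DJoined ω g g') : Inv ω g ↔ Inv ω g' := by
  obtain ⟨x, y⟩ := g
  rcases h with ⟨rfl, h⟩ | ⟨rfl, h⟩
  · simp only at h
    rcases Nat.eq_zero_or_pos y with hy | hy
    · subst hy
      unfold H389KP.IsOpen at h
      simp only [and_self, if_true, not_lt] at h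
      constructor
      · intro _
        refine Or.inr ⟨by simp, (x + 1).toNat, x, ⟨h, by omega⟩, ?_⟩
        have : (((x, 0 + 1) : ℤ × ℕ).1, (((x, 0 + 1) : ℤ × ℕ).2 : ℤ) - 1) = ((x, 0) : Vtx) := by
          simp
        rw [this]
        exact Relation.ReflTransGen.refl
      · intro _
        exact Or.inl ⟨rfl, h⟩
    · unfold H389KP.IsOpen at h
      have hy0 : ¬ (y = 0) := by omega
      simp only [hy0, false_and, if_false] at h
      have h2 := HFB_step (ω := ω) (e := (x, (y : ℤ), true))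
        ⟨x.natAbs + y + 1, by rw [mem_VE_true]; omega⟩ (by
          unfold tn
          simpa using h)
      rw [dsrc_true, dtgt_mk] at h2
      unfold Inv
      simp only
      push_cast
      rw [add_sub_cancel_right, ← h2]
      constructor
      · rintro (⟨h3, _⟩ | ⟨_, h3⟩)
        · exact absurd h3 hy0
        · exact Or.inr ⟨trivial, h3⟩
      · rintro (⟨h3, _⟩ | ⟨_, h3⟩)
        · exact absurd h3 (by simp)
        · exact Or.inr ⟨hy, h3⟩
  · simp only at h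
    rcases h with ⟨h1, h2⟩ | ⟨h1, h2⟩
    · constructor
      · intro _
        exact Or.inl ⟨h1, by simp only; omega⟩
      · intro _
        exact Or.inl ⟨h1, h2⟩
    · unfold H389KP.IsOpen at h2
      simp only [Bool.false_eq_true, and_false, if_false] at h2
      have h3 := HFB_step (ω := ω) (e := (x + 1, (y : ℤ) - 1, false))
        ⟨x.natAbs + y + 1, by rw [mem_VE_false]; omega⟩ (by
          unfold tn
          have : ((y : ℤ) - 1).toNat = y - 1 := by omega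
          simp only [this]
          exact h2)
      rw [dsrc_false, dtgt_mk, add_sub_cancel_right] at h3
      unfold Inv
      simp only
      rw [← h3]
      constructor
      · rintro (⟨h4, _⟩ | ⟨_, h4⟩)
        · omega
        · exact Or.inr ⟨h1, h4⟩
      · rintro (⟨h4, _⟩ | ⟨_, h4⟩)
        · omega
        · exact Or.inr ⟨h1, h4⟩

theorem Cp_Inv {ω : Conf} {g : ℤ × ℕ} (h : g ∈ Cp ω) : Inv ω g := by
  have key : ∀ a b : ℤ × ℕ, Relation.EqvGen (DJoined ω) a b → (Inv ω a ↔ Inv ω b) := by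
    intro a b hab
    induction hab with
    | rel a b h => exact Inv_step h
    | refl a => exact Iff.rfl
    | symm a b _ ih => exact ih.symm
    | trans a b c _ _ ih1 ih2 => exact ih1.trans ih2
  exact (key _ _ h).mp (Or.inl ⟨rfl, le_rfl⟩)

theorem Vis_HV {ω : Conf} {x : ℤ} {y : ℕ} (hy : 1 ≤ y) (h : Vis ω (x, y)) :
    ∃ M : ℕ, HV M (x, (y : ℤ)) (ON M ω) := by
  obtain ⟨h1, f, hf, h2, h3⟩ := h
  obtain ⟨M1, hM1⟩ := Cm_HVA h1
  obtain ⟨p, q⟩ := f
  simp only at h2 h3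
  rcases Cp_Inv hf with ⟨h4, _⟩ | ⟨h4, M2, hM2⟩
  · simp only at h4
    omega
  · refine ⟨max M1 M2, HVA_mono (le_max_left _ _) hM1, _, ?_, HFB_mono (le_max_right _ _) hM2⟩
    unfold cor
    simp only at h4 ⊢
    omega

theorem HV_mono {ω : Conf} {M M' : ℕ} (hM : M ≤ M') {v : Vtx} (h : HV M v (ON M ω)) :
    HV M' v (ON M' ω) := by
  obtain ⟨h1, f, hf, h2⟩ := h
  exact ⟨HVA_mono hM h1, f, hf, HFB_mono hM h2⟩

end P1

open P1

theorem half_ge {x : ℤ} {y : ℕ} (hy : 1 ≤ y) (M : ℕ) :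
    P2 (VE (-(M : ℤ)) M 0 M) (HV M (x, (y : ℤ))) ≤ perc.real {ω | Vis ω (x, y)} := by
  rw [← ON_event]
  apply measureReal_mono
  · intro ω hω
    exact HV_Vis hy hω
  · exact measure_ne_top _ _

theorem half_le {x : ℤ} {y : ℕ} (hy : 1 ≤ y) (M₀ : ℕ) {B : ℝ}
    (h : ∀ M : ℕ, M₀ ≤ M → P2 (VE (-(M : ℤ)) M 0 M) (HV M (x, (y : ℤ))) ≤ B) :
    perc.real {ω | Vis ω (x, y)} ≤ B := by
  have hm : Monotone (fun N : ℕ => {ω : Conf | HV N (x, (y : ℤ)) (ON N ω)}) := by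
    intro N M h ω hω
    exact HV_mono h hω
  have hU : {ω | Vis ω (x, y)} = ⋃ N : ℕ, {ω : Conf | HV N (x, (y : ℤ)) (ON N ω)} := by
    ext ω
    simp only [Set.mem_setOf_eq, Set.mem_iUnion]
    constructor
    · exact Vis_HV hy
    · rintro ⟨M, hM⟩
      exact HV_Vis hy hM
  have ht := tendsto_measure_iUnion_atTop (μ := perc) hm
  rw [← hU] at ht
  have h2 := (ENNReal.tendsto_toReal (measure_ne_top perc _)).comp ht
  refine le_of_tendsto h2 ?_
  filter_upwards [Filter.eventually_ge_atTop M₀] with N hN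
  have := h N hN
  rw [← ON_event] at this
  exact this

end H731G
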