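import Pool.Agent.H731R5.Gr.HPDefs2
import Pool.Agent.H731R5.Gr.P1

/-!
Task Q1: the half-plane at all scales, finite volume approximation.
-/

set_option autoImplicit false

namespace H731G

open H974 hiding bd
open H731C H731R H731A H731G Finset H389KP MeasureTheory

namespace Q1

theorem HHit_VisB {ω : Conf} {M : ℕ} {x : ℤ} {y r : ℕ} (hr : r < y)
    (h : HHit M (x, (y : ℤ)) r (ON M ω)) : VisB ω x y r := by
  obtain ⟨u, ⟨h1, h2⟩, h3⟩ := h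
  obtain ⟨u1, u2⟩ := u
  simp only at h1 h2
  have h4 := (abs_le.mp h2).1
  obtain ⟨k, rfl⟩ : ∃ k : ℕ, u2 = (k : ℤ) := ⟨u2.toNat, by omega⟩
  exact ⟨(u1, k), ⟨h1, h2⟩, P1.HV_Vis (by omega) h3⟩

theorem VisB_HHit {ω : Conf} {x : ℤ} {y r : ℕ} (hr : r < y) (h : VisB ω x y r) :
    ∃ M : ℕ, HHit M (x, (y : ℤ)) r (ON M ω) := by
  obtain ⟨⟨u1, k⟩, ⟨h1, h2⟩, h3⟩ := h
  simp only at h1 h2
  have h4 := (abs_le.mp h2).1
  obtain ⟨M, hM⟩ := P1.Vis_HV (by omega) h3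
  exact ⟨M, (u1, (k : ℤ)), ⟨h1, h2⟩, hM⟩

theorem HHit_mono {ω : Conf} {M M' : ℕ} (hM : M ≤ M') {v : Vtx} {r : ℤ}
    (h : HHit M v r (ON M ω)) : HHit M' v r (ON M' ω) := by
  obtain ⟨u, hu, h3⟩ := h
  exact ⟨u, hu, P1.HV_mono hM h3⟩

end Q1

open Q1

theorem hit_ge {x : ℤ} {y r : ℕ} (hr : r < y) (M : ℕ) :
    P2 (VE (-(M : ℤ)) M 0 M) (HHit M (x, (y : ℤ)) r) ≤ perc.real {ω | VisB ω x y r} := by
  rw [← ON_event]
  apply measureReal_mono
  · intro ω hω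
    exact HHit_VisB hr hω
  · exact measure_ne_top _ _

theorem hit_le {x : ℤ} {y r : ℕ} (hr : r < y) (M₀ : ℕ) {B : ℝ}
    (h : ∀ M : ℕ, M₀ ≤ M → P2 (VE (-(M : ℤ)) M 0 M) (HHit M (x, (y : ℤ)) r) ≤ B) :
    perc.real {ω | VisB ω x y r} ≤ B := by
  have hm : Monotone (fun N : ℕ => {ω : Conf | HHit N (x, (y : ℤ)) r (ON N ω)}) := by
    intro N M h ω hω
    exact HHit_mono h hω
  have hU : {ω | VisB ω x y r} = ⋃ N : ℕ, {ω : Conf | HHit N (x, (y : ℤ)) r (ON N ω)} := by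
    ext ω
    simp only [Set.mem_setOf_eq, Set.mem_iUnion]
    constructor
    · exact VisB_HHit hr
    · rintro ⟨M, hM⟩
      exact HHit_VisB hr hM
  have ht := tendsto_measure_iUnion_atTop (μ := perc) hm
  rw [← hU] at ht
  have h2 := (ENNReal.tendsto_toReal (measure_ne_top perc _)).comp ht
  refine le_of_tendsto h2 ?_
  filter_upwards [Filter.eventually_ge_atTop M₀] with N hN
  have := h N hN
  rw [← ON_event] at this
  exact this

end H731G
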