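import Pool.Agent.H731R5.Gr.Defs

/-!
Task U2: a connection to the box around `v` gives a connection to the foot of `v`.
-/

set_option autoImplicit false

namespace H731G

open H974 hiding bd
open H731C H731R H731A Finset

namespace U2

/-- The four crossings around `B(v, h)`. -/
def Cr (x y h : ℤ) (F : Finset Edg) : Prop :=
  (LRc (x - 2 * h) (x + 2 * h) (y + h) (y + 2 * h) F ∧
    LRc (x - 2 * h) (x + 2 * h) (y - 2 * h) (y - h) F) ∧
  (TBc (x + h) (x + 2 * h) (y - 2 * h) (y + 2 * h) F ∧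
    TBc (x - 2 * h) (x - h) (y - 2 * h) (y + 2 * h) F)

theorem Cr.mono {x y h : ℤ} {F G : Finset Edg} (hs : F ⊆ G) (hF : Cr x y h F) : Cr x y h G :=
  ⟨⟨hF.1.1.mono hs, hF.1.2.mono hs⟩, ⟨hF.2.1.mono hs, hF.2.2.mono hs⟩⟩

theorem Cr_meet {F : Finset Edg} {x y h : ℤ} (h1 : 1 ≤ h)
    (hC : Cr x y h F) : ∃ z : Vtx, ∀ u v : Vtx, inR (x - h) (x + h) (y - h) (y + h) u →
      (v.1 = x - 2 * h ∨ v.1 = x + 2 * h ∨ v.2 = y - 2 * h ∨ v.2 = y + 2 * h) →
      Reach (↑F ∩ ↑(RE (x - 2 * h) (x + 2 * h) (y - 2 * h) (y + 2 * h))) u v →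
      Reach (↑F ∩ ↑(RE (x - 2 * h) (x + 2 * h) (y - 2 * h) (y + 2 * h))) u z := by
  obtain ⟨⟨⟨t, t', ht, ht', hT⟩, ⟨b, b', hb, hb', hB⟩⟩, ⟨r, r', hr, hr', hR⟩,
    ⟨l, l', hl, hl', hL⟩⟩ := hC
  have hT' := hT.mono (Set.inter_subset_inter_right (↑F)
    (by exact_mod_cast LRE_subset_RE : (↑(LRE (x - 2 * h) (x + 2 * h) (y + h) (y + 2 * h)) :
      Set Edg) ⊆ _))
  have hB' := hB.mono (Set.inter_subset_inter_right (↑F)
    (by exact_mod_cast LRE_subset_RE : (↑(LRE (x - 2 * h) (x + 2 * h) (y - 2 * h) (y - h)) :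
      Set Edg) ⊆ _))
  have hR' := hR.mono (Set.inter_subset_inter_right (↑F)
    (by exact_mod_cast TBE_subset_RE : (↑(TBE (x + h) (x + 2 * h) (y - 2 * h) (y + 2 * h)) :
      Set Edg) ⊆ _))
  have hL' := hL.mono (Set.inter_subset_inter_right (↑F)
    (by exact_mod_cast TBE_subset_RE : (↑(TBE (x - 2 * h) (x - h) (y - 2 * h) (y + 2 * h)) :
      Set Edg) ⊆ _))
  have mTR : Reach (↑F ∩ ↑(RE (x - 2 * h) (x + 2 * h) (y - 2 * h) (y + 2 * h)))
      (x - 2 * h, t) (r, y - 2 * h) :=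
    cross_meet (by omega) (by omega) le_rfl (by omega) (by omega) le_rfl hT'
      (by simp only; omega) le_rfl hR' (by simp only; omega) le_rfl
  have mBR : Reach (↑F ∩ ↑(RE (x - 2 * h) (x + 2 * h) (y - 2 * h) (y + 2 * h)))
      (x - 2 * h, b) (r, y - 2 * h) :=
    cross_meet (by omega) (by omega) le_rfl le_rfl (by omega) (by omega) hB'
      (by simp only; omega) le_rfl hR' le_rfl (by simp only; omega)
  have mTL : Reach (↑F ∩ ↑(RE (x - 2 * h) (x + 2 * h) (y - 2 * h) (y + 2 * h)))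
      (x - 2 * h, t) (l, y - 2 * h) :=
    cross_meet le_rfl (by omega) (by omega) (by omega) (by omega) le_rfl hT' le_rfl
      (by simp only; omega) hL' (by simp only; omega) le_rfl
  refine ⟨(r, y - 2 * h), ?_⟩
  intro u v hu hv hP
  unfold inR at hu
  rcases hv with hv | hv | hv | hv
  · have m : Reach (↑F ∩ ↑(RE (x - 2 * h) (x + 2 * h) (y - 2 * h) (y + 2 * h))) v
        (l, y - 2 * h) :=
      cross_meet le_rfl (by omega) (by omega) le_rfl (by omega) le_rfl hP.symm hv.le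
        (show x - h ≤ u.1 by omega) hL' le_rfl le_rfl
    exact hP.trans (m.trans (mTL.symm.trans mTR))
  · exact cross_meet (by omega) (by omega) le_rfl le_rfl (by omega) le_rfl hP (by omega) hv.ge
      hR' le_rfl le_rfl
  · have m : Reach (↑F ∩ ↑(RE (x - 2 * h) (x + 2 * h) (y - 2 * h) (y + 2 * h)))
        (x - 2 * h, b) v :=
      cross_meet le_rfl (by omega) le_rfl le_rfl (by omega) (by omega) hB' le_rfl le_rfl hP.symm
        hv.le (show y - h ≤ u.2 by omega)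
    exact hP.trans (m.symm.trans mBR)
  · have m : Reach (↑F ∩ ↑(RE (x - 2 * h) (x + 2 * h) (y - 2 * h) (y + 2 * h)))
        (x - 2 * h, t) u :=
      cross_meet le_rfl (by omega) le_rfl (by omega) (by omega) le_rfl hT' le_rfl le_rfl hP
        (by omega) hv.ge
    exact m.symm.trans mTR

/-- Boundary vertices are on one of the four sides. -/
theorem bd_side {m n : ℤ} (hm : 1 ≤ m) (hn : 1 ≤ n) (i : ℤ) :
    (bd m n i).1 = 0 ∨ (bd m n i).1 = m ∨ (bd m n i).2 = 0 ∨ (bd m n i).2 = n := by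
  obtain ⟨k, r, h, h1 | h1 | h1 | h1⟩ := side_cases hm hn i
  · rw [h, bd_period, bd_bot hm hn h1.1 h1.2]; simp
  · rw [h, bd_period, bd_right hm hn h1.1 h1.2]; simp
  · rw [h, bd_period, bd_top hm hn h1.1 h1.2]; simp
  · rw [h, bd_period, bd_left hm hn h1.1 h1.2.le]; simp

theorem foot {m n a b x y h : ℤ} {F : Finset Edg} (h1 : 1 ≤ h) (hy : 4 * h ≤ y)
    (hx : 4 * h ≤ x) (hxm : x + 4 * h ≤ m) (hyn : y + 4 * h ≤ n) (hB : BX m n a b (x, y) h F)
    (hV : TBc (x - h) (x + h) 0 y F) (hC : Cr x y h F) : AA m n (x - h) (x + h) a b F := by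
  obtain ⟨z, hz⟩ := Cr_meet h1 hC
  obtain ⟨i, u, hi, hu, hr⟩ := hB
  obtain ⟨x1, x2, hx1, hx2, hv⟩ := hV
  simp only at hu
  rw [abs_le, abs_le] at hu
  have hsub : (↑F : Set Edg) ∩ ↑(RE (x - 2 * h) (x + 2 * h) (y - 2 * h) (y + 2 * h)) ⊆
      ↑F ∩ ↑(RE 0 m 0 n) :=
    Set.inter_subset_inter_right _ (Finset.coe_subset.mpr
      (RE_subset (by omega) (by omega) (by omega) (by omega)))
  have hsV : (↑F : Set Edg) ∩ ↑(TBE (x - h) (x + h) 0 y) ⊆ ↑F ∩ ↑(RE 0 m 0 n) := by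
    apply Set.inter_subset_inter_right
    exact Finset.coe_subset.mpr
      (TBE_subset_RE.trans (RE_subset (by omega) (by omega) (by omega) (by omega)))
  have hv' : Reach (↑F ∩ ↑(RE 0 m 0 n)) (x1, 0) (x2, y) := hv.mono hsV
  -- the first path
  obtain ⟨w, -, k2, k3⟩ := first_exit (a := x - 2 * h) (b := x + 2 * h) (c := y - 2 * h)
    (d := y + 2 * h) (u := u) (by unfold inR; omega) hr.symm (by
      have := bd_side (m := m) (n := n) (by omega) (by omega) i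
      omega)
  have m1 := hz u w (by unfold inR; omega) k2
    (k3.mono (by rintro e ⟨⟨h4, -⟩, h5⟩; exact ⟨h4, h5⟩))
  obtain ⟨w', -, l2, l3⟩ := first_exit (a := x - 2 * h) (b := x + 2 * h) (c := y - 2 * h)
    (d := y + 2 * h) (u := ((x2, y) : Vtx)) (by unfold inR; simp only; omega) hv'.symm (by
      simp only; omega)
  have m2 := hz (x2, y) w' (by unfold inR; simp only; omega) l2
    (l3.mono (by rintro e ⟨⟨h4, -⟩, h5⟩; exact ⟨h4, h5⟩))
  refine ⟨x1, i, hx1, hi, ?_⟩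
  rw [bd_bot (by omega) (by omega) (by omega) (by omega)]
  exact hv'.trans ((m2.mono hsub).trans ((m1.mono hsub).symm.trans hr.symm))

theorem step {S : Finset Edg} {A B : Finset Edg → Prop} {p q : ℝ} (hA : IncrE S A)
    (hB : IncrE S B) (hp0 : 0 ≤ p) (hp : p ≤ P2 S A) (hq0 : 0 ≤ q) (hq : q ≤ P2 S B) :
    p * q ≤ P2 S (fun F => A F ∧ B F) :=
  (mul_le_mul hp hq hq0 (hp0.trans hp)).trans (Pr_harris okhalf2 hA hB)

end U2

theorem glue_foot (K : ℕ) : ∃ C : ℝ, 0 < C ∧ ∀ m n a b x y h : ℤ, 1 ≤ h → 4 * h ≤ y → y ≤ K * h →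
    4 * h ≤ x → x + 4 * h ≤ m → y + 4 * h ≤ n →
    P2 (RE 0 m 0 n) (BX m n a b (x, y) h) ≤
      C * P2 (RE 0 m 0 n) (AA m n (x - h) (x + h) a b) := by
  obtain ⟨δ, hδ, H⟩ := H985IL.IL2.rswK (K + 4)
  refine ⟨(δ ^ 5)⁻¹, by positivity, ?_⟩
  intro m n a b x y h h1 hy hyK hx hxm hyn
  have hK : (0 : ℤ) ≤ K := Int.natCast_nonneg K
  have sub1 : RE (x - 2 * h) (x + 2 * h) (y - 2 * h) (y + 2 * h) ⊆ RE 0 m 0 n :=
    RE_subset (by omega) (by omega) (by omega) (by omega)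
  have s1 : LRE (x - 2 * h) (x + 2 * h) (y + h) (y + 2 * h) ⊆ RE 0 m 0 n :=
    LRE_subset_RE.trans ((RE_subset le_rfl le_rfl (by omega) le_rfl).trans sub1)
  have s2 : LRE (x - 2 * h) (x + 2 * h) (y - 2 * h) (y - h) ⊆ RE 0 m 0 n :=
    LRE_subset_RE.trans ((RE_subset le_rfl le_rfl le_rfl (by omega)).trans sub1)
  have s3 : TBE (x + h) (x + 2 * h) (y - 2 * h) (y + 2 * h) ⊆ RE 0 m 0 n :=
    TBE_subset_RE.trans ((RE_subset (by omega) le_rfl le_rfl le_rfl).trans sub1)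
  have s4 : TBE (x - 2 * h) (x - h) (y - 2 * h) (y + 2 * h) ⊆ RE 0 m 0 n :=
    TBE_subset_RE.trans ((RE_subset le_rfl (by omega) le_rfl le_rfl).trans sub1)
  have s5 : TBE (x - h) (x + h) 0 y ⊆ RE 0 m 0 n :=
    TBE_subset_RE.trans (RE_subset (by omega) (by omega) (by omega) (by omega))
  have hb : ∀ w l : ℤ, 0 < w → 1 ≤ l → w ≤ ((K + 4 : ℕ) : ℤ) * l → δ ≤ hh (1/2) w l := H
  have k1 : δ ≤ P2 (RE 0 m 0 n) (LRc (x - 2 * h) (x + 2 * h) (y + h) (y + 2 * h)) := by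
    unfold P2
    rw [pr_LRc (1/2) s1]
    apply hb _ _ (by omega) (by omega)
    push_cast
    nlinarith
  have k2 : δ ≤ P2 (RE 0 m 0 n) (LRc (x - 2 * h) (x + 2 * h) (y - 2 * h) (y - h)) := by
    unfold P2
    rw [pr_LRc (1/2) s2]
    apply hb _ _ (by omega) (by omega)
    push_cast
    nlinarith
  have k3 : δ ≤ P2 (RE 0 m 0 n) (TBc (x + h) (x + 2 * h) (y - 2 * h) (y + 2 * h)) := by
    unfold P2
    rw [pr_TBc (1/2) s3]
    apply hb _ _ (by omega) (by omega)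
    push_cast
    nlinarith
  have k4 : δ ≤ P2 (RE 0 m 0 n) (TBc (x - 2 * h) (x - h) (y - 2 * h) (y + 2 * h)) := by
    unfold P2
    rw [pr_TBc (1/2) s4]
    apply hb _ _ (by omega) (by omega)
    push_cast
    nlinarith
  have k5 : δ ≤ P2 (RE 0 m 0 n) (TBc (x - h) (x + h) 0 y) := by
    unfold P2
    rw [pr_TBc (1/2) s5]
    apply hb _ _ (by omega) (by omega)
    push_cast
    nlinarith
  have iA : IncrE (RE 0 m 0 n) (BX m n a b (x, y) h) := by
    rintro F G hFG _ ⟨i, u, hi, hu, hr⟩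
    exact ⟨i, u, hi, hu, hr.mono (Set.inter_subset_inter_left _ (by exact_mod_cast hFG))⟩
  have j1 := U2.step (LRc_incr _ _ _ _ _) (LRc_incr _ _ _ _ _) hδ.le k1 hδ.le k2
  have j2 := U2.step (TBc_incr _ _ _ _ _) (TBc_incr _ _ _ _ _) hδ.le k3 hδ.le k4
  have j3 := U2.step (fun F G hFG _ hF => ⟨hF.1.mono hFG, hF.2.mono hFG⟩)
    (fun F G hFG _ hF => ⟨hF.1.mono hFG, hF.2.mono hFG⟩) (by positivity) j1 (by positivity) j2
  have iC : IncrE (RE 0 m 0 n) (U2.Cr x y h) := fun F G hFG _ hF => hF.mono hFG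
  have j4 := U2.step (TBc_incr _ _ _ _ _) iC hδ.le k5 (by positivity) j3
  have iD : IncrE (RE 0 m 0 n) (fun F => TBc (x - h) (x + h) 0 y F ∧ U2.Cr x y h F) :=
    fun F G hFG _ hF => ⟨hF.1.mono hFG, hF.2.mono hFG⟩
  have hP0 : 0 ≤ P2 (RE 0 m 0 n) (BX m n a b (x, y) h) := Pr_nonneg okhalf2 _ _
  have j5 := U2.step iA iD hP0 le_rfl (by positivity) j4
  have j6 : P2 (RE 0 m 0 n) (fun F => BX m n a b (x, y) h F ∧
      (TBc (x - h) (x + h) 0 y F ∧ U2.Cr x y h F)) ≤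
      P2 (RE 0 m 0 n) (AA m n (x - h) (x + h) a b) := by
    apply Pr_mono okhalf2
    rintro F _ ⟨f1, f2, f3⟩
    exact U2.foot h1 hy hx hxm hyn f1 f2 f3
  have e : P2 (RE 0 m 0 n) (BX m n a b (x, y) h) * (δ * (δ * δ * (δ * δ))) =
      P2 (RE 0 m 0 n) (BX m n a b (x, y) h) * δ ^ 5 := by ring
  rw [e] at j5
  rw [inv_mul_eq_div, le_div_iff₀ (by positivity)]
  exact j5.trans j6

end H731G
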